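import Pool.Agent.P.MP_bdc337_an.Upper
import Pool.Agent.P.MP_bdc337_an.Extremal

/-! Strongly starlike functions and Schwarz functions, in both directions. -/

set_option autoImplicit false

open Finset PowerSeries Metric Filter Topology

namespace Pool.Agent.P.MP_bdc337_an.SI

/-- the class -/
def Star (a : ℝ) (f : ℂ → ℂ) : Prop :=
  DifferentiableOn ℂ f (ball 0 1) ∧ Set.InjOn f (ball 0 1) ∧ f 0 = 0 ∧ deriv f 0 = 1 ∧
    ∀ z ∈ ball (0 : ℂ) 1, z ≠ 0 → |Complex.arg (z * deriv f z / f z)| < a * Real.pi / 2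

/-- series data -/
def Rep (a : ℝ) (f : ℂ → ℂ) (W F : ℂ⟦X⟧) : Prop :=
  coeff 0 F = 1 ∧ X * d⁄dX ℂ F = (2 * C (a : ℂ) * KK a W) * F ∧ tay f = X * F

lemma h_eq {a : ℝ} {w h : ℂ⟦X⟧} (w0 : coeff 0 w = 0) (hh0 : coeff 0 h = 0)
    (hode : (1 - w ^ 2) * d⁄dX ℂ h = 2 * C (a : ℂ) * (1 + h) * d⁄dX ℂ w) :
    h = 2 * C (a : ℂ) * KK a w := by
  have hK := KK_ode a w0
  have := ode_unique w0 (c := 2 * C (a : ℂ) * d⁄dX ℂ w) (D := h - 2 * C (a : ℂ) * KK a w)
    (by rw [map_sub, hh0, mul_comm, coeff_zero_mul_left (coeff_zero_KK a w0), sub_zero])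
    (by
      have h2 : (2 : ℂ⟦X⟧) = C (2 : ℂ) := rfl
      have : d⁄dX ℂ (2 * C (a : ℂ) * KK a w) = 2 * C (a : ℂ) * d⁄dX ℂ (KK a w) := by
        rw [h2, ← map_mul, Derivation.leibniz, derivative_C]
        simp
      rw [map_sub, this]
      linear_combination hode - 2 * C (a : ℂ) * hK)
  exact sub_eq_zero.1 this

lemma Rep.coeff {a : ℝ} {f : ℂ → ℂ} {W F : ℂ⟦X⟧} (h : Rep a f W F) {N : ℕ} (hN : 1 ≤ N) :
    coeff (N + 1) (tay f) = ((2 * a / N : ℝ) : ℂ) * coeff N (KK a W * F) := by
  obtain ⟨-, hF, t⟩ := h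
  have h' : X * d⁄dX ℂ F = C ((2 * a : ℝ) : ℂ) * (KK a W * F) := by
    have : (C ((2 * a : ℝ) : ℂ) : ℂ⟦X⟧) = 2 * C (a : ℂ) := by
      push_cast
      rw [map_mul]
      rfl
    rw [this, hF]
    ring
  have e1 := congrArg (PowerSeries.coeff N) h'
  rw [coeff_X_mul_deriv, coeff_C_mul] at e1
  have hN' : (N : ℂ) ≠ 0 := by exact_mod_cast (by omega : N ≠ 0)
  rw [t, coeff_succ_X_mul]
  push_cast at e1 ⊢
  field_simp
  linear_combination e1

theorem rep_up {a : ℝ} (h0 : 0 < a) (h1 : a ≤ 1) {f : ℂ → ℂ} (hs : Star a f) :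
    ∃ W F, Contr W ∧ Rep a f W F := by
  obtain ⟨hd, hi, hf0, hf1, harg⟩ := hs
  have hnb : ball (0 : ℂ) 1 ∈ 𝓝 (0 : ℂ) := ball_mem_nhds 0 one_pos
  have hz0 : (0 : ℂ) ∈ ball (0 : ℂ) 1 := mem_ball_self one_pos
  set F := dslope f 0 with hFdef
  have hFd : DifferentiableOn ℂ F (ball 0 1) := (Complex.differentiableOn_dslope hnb).2 hd
  have hfF : ∀ z, f z = z * F z := by
    intro z
    have := sub_smul_dslope f 0 z
    rw [hf0, sub_zero, sub_zero, smul_eq_mul] at this
    exact this.symm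
  have hF0 : F 0 = 1 := by rw [hFdef, dslope_same, hf1]
  have hFne : ∀ z ∈ ball (0 : ℂ) 1, F z ≠ 0 := by
    intro z hz hF
    by_cases h : z = 0
    · rw [h, hF0] at hF
      exact one_ne_zero hF
    · exact h (hi hz hz0 (by rw [hfF z, hF, mul_zero, hf0]))
  have hd' : DifferentiableOn ℂ (deriv f) (ball 0 1) := hd.deriv isOpen_ball
  set P : ℂ → ℂ := fun z => deriv f z / F z with hPdef
  have hPd : DifferentiableOn ℂ P (ball 0 1) := hd'.div hFd hFne
  have hP0 : P 0 = 1 := by simp only [hPdef, hf1, hF0, div_one]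
  have hpi := Real.pi_pos
  have hParg : ∀ z ∈ ball (0 : ℂ) 1, |Complex.arg (P z)| < a * Real.pi / 2 := by
    intro z hz
    by_cases h : z = 0
    · rw [h, hP0, Complex.arg_one, abs_zero]
      positivity
    · have := harg z hz h
      rwa [hfF z, mul_div_mul_left _ _ h] at this
  have hPre : ∀ z ∈ ball (0 : ℂ) 1, 0 < (P z).re ∨ P z = 0 := by
    intro z hz
    rw [← Complex.abs_arg_lt_pi_div_two_iff]
    have := hParg z hz
    nlinarith
  have hPne : ∀ z ∈ ball (0 : ℂ) 1, P z ≠ 0 := by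
    intro z hz hP
    have hE : DifferentiableOn ℂ (fun z => Complex.exp (-P z)) (ball 0 1) := hPd.neg.cexp
    have hmax : IsMaxOn (norm ∘ fun z => Complex.exp (-P z)) (ball 0 1) z := by
      intro y hy
      simp only [Set.mem_ofPred_eq, Function.comp, hP, neg_zero, Complex.exp_zero, norm_one,
        Complex.norm_exp, Complex.neg_re]
      rw [Real.exp_le_one_iff]
      rcases hPre y hy with h | h
      · linarith
      · rw [h]; simp
    have := Complex.eqOn_of_isPreconnected_of_isMaxOn_norm (convex_ball (0 : ℂ) 1).isPreconnected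
      isOpen_ball hE hz hmax hz0
    simp only [Function.const, hP, hP0, neg_zero, Complex.exp_zero] at this
    have h2 := congrArg norm this
    rw [Complex.norm_exp, norm_one] at h2
    simp at h2
  have hPs : ∀ z ∈ ball (0 : ℂ) 1, P z ∈ Complex.slitPlane := by
    intro z hz
    exact Or.inl ((hPre z hz).resolve_right (hPne z hz))
  have ha : (a : ℂ) ≠ 0 := by exact_mod_cast h0.ne'
  set E : ℂ → ℂ := fun z => Complex.exp (Complex.log (P z) / a) with hEdef
  have hEre : ∀ z ∈ ball (0 : ℂ) 1, 0 < (E z).re := by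
    intro z hz
    simp only [hEdef, Complex.exp_re, Complex.div_ofReal_im, Complex.log_im]
    apply mul_pos (Real.exp_pos _)
    have := abs_lt.1 (hParg z hz)
    apply Real.cos_pos_of_mem_Ioo
    constructor
    · rw [lt_div_iff₀ h0]
      linarith [this.1]
    · rw [div_lt_iff₀ h0]
      linarith [this.2]
  have hE1 : ∀ z ∈ ball (0 : ℂ) 1, E z + 1 ≠ 0 := by
    intro z hz h
    have h2 := congrArg Complex.re h
    have := hEre z hz
    simp at h2
    linarith
  have hPder : ∀ z ∈ ball (0 : ℂ) 1, HasDerivAt P (deriv P z) z := fun z hz =>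
    (hPd.differentiableAt (isOpen_ball.mem_nhds hz)).hasDerivAt
  have hEder : ∀ z ∈ ball (0 : ℂ) 1, HasDerivAt E (E z * (deriv P z / P z / a)) z := fun z hz =>
    (((hPder z hz).clog (hPs z hz)).div_const (a : ℂ)).cexp
  set w : ℂ → ℂ := fun z => (E z - 1) / (E z + 1) with hwdef
  have hwder : ∀ z ∈ ball (0 : ℂ) 1,
      HasDerivAt w (2 * (E z * (deriv P z / P z / a)) / (E z + 1) ^ 2) z := by
    intro z hz
    have := ((hEder z hz).sub_const 1).fun_div ((hEder z hz).add_const 1) (hE1 z hz)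
    refine this.congr_deriv ?_
    ring
  have hwd : DifferentiableOn ℂ w (ball 0 1) := fun z hz =>
    (hwder z hz).differentiableAt.differentiableWithinAt
  have hw0 : w 0 = 0 := by simp [hwdef, hEdef, hP0]
  have hwb : ∀ z ∈ ball (0 : ℂ) 1, ‖w z‖ ≤ 1 := by
    intro z hz
    simp only [hwdef, norm_div]
    rw [div_le_one (norm_pos_iff.2 (hE1 z hz))]
    apply abs_le_of_sq_le_sq' _ (norm_nonneg _) |>.2
    rw [Complex.sq_norm, Complex.sq_norm, Complex.normSq_apply, Complex.normSq_apply]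
    have := hEre z hz
    simp
    nlinarith
  have hcon := contr_tay hwd hw0 hwb
  have aw : AnalyticAt ℂ w 0 := hwd.analyticAt hnb
  have aP : AnalyticAt ℂ P 0 := hPd.analyticAt hnb
  have aF : AnalyticAt ℂ F 0 := hFd.analyticAt hnb
  have ode : (fun z => (1 - w z * w z) * deriv P z) =ᶠ[𝓝 0]
      fun z => (2 * a : ℂ) * (P z * deriv w z) := by
    filter_upwards [hnb] with z hz
    rw [(hwder z hz).deriv]
    have e1 := hE1 z hz
    have e2 := hPne z hz
    simp only [hwdef]
    field_simp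
    ring
  have t1 := tay_congr ode
  rw [tay_mul (analyticAt_const.fun_sub (aw.fun_mul aw)) aP.deriv,
    tay_sub analyticAt_const (aw.fun_mul aw), tay_mul aw aw, tay_const,
    tay_const_mul _ (aP.fun_mul aw.deriv), tay_mul aP aw.deriv, tay_deriv, tay_deriv] at t1
  have t2 : tay f = X * tay F := by
    have : f = fun z => z * F z := funext hfF
    conv_lhs => rw [this]
    rw [tay_mul (f := fun z => z) analyticAt_id aF, tay_id]
  have t3 : d⁄dX ℂ (tay f) = tay P * tay F := by
    rw [← tay_deriv, ← tay_mul aP aF]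
    apply tay_congr
    filter_upwards [hnb] with z hz
    simp only [hPdef]
    rw [div_mul_cancel₀ _ (hFne z hz)]
  refine ⟨tay w, tay F, hcon, by rw [coeff_zero_tay, hF0], ?_, t2⟩
  rw [← h_eq hcon.1 (h := tay P - 1)]
  · rw [t2, Derivation.leibniz, derivative_X] at t3
    simp only [smul_eq_mul] at t3
    linear_combination t3
  · rw [map_sub, coeff_zero_tay, hP0]
    simp
  · rw [map_sub, derivative_one, sub_zero]
    have c2 : (C (2 * a : ℂ) : ℂ⟦X⟧) = 2 * C (a : ℂ) := by
      rw [map_mul]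
      rfl
    rw [c2, map_one] at t1
    linear_combination t1

theorem rep_low {a : ℝ} (h0 : 0 < a) (h1 : a ≤ 1) {w : ℂ → ℂ}
    (hwd : DifferentiableOn ℂ w (ball 0 1)) (hw0 : w 0 = 0)
    (hlt : ∀ z ∈ ball (0 : ℂ) 1, ‖w z‖ < 1) : ∃ f F, Star a f ∧ Rep a f (tay w) F := by
  have hnb : ball (0 : ℂ) 1 ∈ 𝓝 (0 : ℂ) := ball_mem_nhds 0 one_pos
  have hz0 : (0 : ℂ) ∈ ball (0 : ℂ) 1 := mem_ball_self one_pos
  have hpi := Real.pi_pos
  have hwder : ∀ z ∈ ball (0 : ℂ) 1, HasDerivAt w (deriv w z) z := fun z hz =>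
    (hwd.differentiableAt (isOpen_ball.mem_nhds hz)).hasDerivAt
  have hm : ∀ z ∈ ball (0 : ℂ) 1, 1 - w z ≠ 0 := by
    intro z hz h
    have := hlt z hz
    rw [← sub_eq_zero.1 h, norm_one] at this
    exact lt_irrefl _ this
  have hp : ∀ z ∈ ball (0 : ℂ) 1, 1 + w z ≠ 0 := by
    intro z hz h
    have := hlt z hz
    rw [eq_neg_of_add_eq_zero_right h, norm_neg, norm_one] at this
    exact lt_irrefl _ this
  set p : ℂ → ℂ := fun z => (1 + w z) / (1 - w z) with hpdef
  have hpre : ∀ z ∈ ball (0 : ℂ) 1, 0 < (p z).re := by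
    intro z hz
    have l := hlt z hz
    have l2 : ‖w z‖ ^ 2 < 1 := by nlinarith [norm_nonneg (w z)]
    rw [Complex.sq_norm, Complex.normSq_apply] at l2
    simp only [hpdef, Complex.div_re]
    rw [← add_div]
    apply div_pos _ (Complex.normSq_pos.2 (hm z hz))
    simp only [Complex.add_re, Complex.one_re, Complex.sub_re, Complex.add_im, Complex.one_im,
      Complex.sub_im]
    nlinarith
  have hpder : ∀ z ∈ ball (0 : ℂ) 1,
      HasDerivAt p (2 * deriv w z / (1 - w z) ^ 2) z := by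
    intro z hz
    have := ((hwder z hz).const_add 1).fun_div ((hwder z hz).const_sub 1) (hm z hz)
    refine this.congr_deriv ?_
    ring
  set P : ℂ → ℂ := fun z => Complex.exp (a * Complex.log (p z)) with hPdef
  have hPder : ∀ z ∈ ball (0 : ℂ) 1,
      HasDerivAt P (P z * (a * (2 * deriv w z / (1 - w z) ^ 2 / p z))) z := fun z hz =>
    (((hpder z hz).clog (Or.inl (hpre z hz))).const_mul (a : ℂ)).cexp
  have hPd : DifferentiableOn ℂ P (ball 0 1) := fun z hz =>
    (hPder z hz).differentiableAt.differentiableWithinAt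
  have hP0 : P 0 = 1 := by
    simp [hPdef, hpdef, hw0]
  have hParg : ∀ z ∈ ball (0 : ℂ) 1, |Complex.arg (P z)| < a * Real.pi / 2 := by
    intro z hz
    have l : |Complex.arg (p z)| < Real.pi / 2 :=
      Complex.abs_arg_lt_pi_div_two_iff.2 (Or.inl (hpre z hz))
    have l2 : |a * Complex.arg (p z)| < a * Real.pi / 2 := by
      rw [abs_mul, abs_of_pos h0]
      nlinarith
    have l3 : (a * Complex.log (p z)).im = a * Complex.arg (p z) := by
      rw [Complex.im_ofReal_mul, Complex.log_im]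
    have l4 := abs_lt.1 l2
    rw [← Complex.log_im, hPdef]
    simp only
    rw [Complex.log_exp (by rw [l3]; nlinarith [l4.1]) (by rw [l3]; nlinarith [l4.2]), l3]
    exact l2
  have hPre : ∀ z ∈ ball (0 : ℂ) 1, 0 < (P z).re := by
    intro z hz
    refine (Complex.abs_arg_lt_pi_div_two_iff.1 ?_).resolve_right (Complex.exp_ne_zero _)
    have := hParg z hz
    nlinarith
  set H := dslope P 0 with hH
  have hHd : DifferentiableOn ℂ H (ball 0 1) := (Complex.differentiableOn_dslope hnb).2 hPd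
  have hzH : ∀ z, z * H z = P z - 1 := by
    intro z
    have := sub_smul_dslope P 0 z
    rwa [hP0, sub_zero, smul_eq_mul] at this
  obtain ⟨G, hG0, hG⟩ := hHd.isExactOn_ball.with_val_at 0 0
  set F : ℂ → ℂ := fun z => Complex.exp (G z) with hF
  have hFder : ∀ z ∈ ball (0 : ℂ) 1, HasDerivAt F (F z * H z) z := fun z hz => (hG z hz).cexp
  have hFd : DifferentiableOn ℂ F (ball 0 1) := fun z hz =>
    (hFder z hz).differentiableAt.differentiableWithinAt
  have hF0 : F 0 = 1 := by simp [hF, hG0]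
  have hfder : ∀ z ∈ ball (0 : ℂ) 1, HasDerivAt (fun z => z * F z) (F z * P z) z := by
    intro z hz
    refine ((hasDerivAt_id' z).fun_mul (hFder z hz)).congr_deriv ?_
    linear_combination F z * hzH z
  have aP : AnalyticAt ℂ P 0 := hPd.analyticAt hnb
  have aF : AnalyticAt ℂ F 0 := hFd.analyticAt hnb
  have aw : AnalyticAt ℂ w 0 := hwd.analyticAt hnb
  refine ⟨fun z => z * F z, tay F,
    ⟨fun z hz => (hfder z hz).differentiableAt.differentiableWithinAt,
    inj_of_re_pos (P := P) (fun z hz hz' => ?_) hPre, by simp, ?_, fun z hz hz' => ?_⟩,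
    by rw [coeff_zero_tay, hF0], ?_, ?_⟩
  · refine (hG z hz).congr_deriv ?_
    rw [← hzH z]
    field_simp
  · rw [(hfder 0 hz0).deriv, hF0, hP0, one_mul]
  · rw [(hfder z hz).deriv]
    have : F z ≠ 0 := Complex.exp_ne_zero _
    have e : z * (F z * P z) / (z * F z) = P z := by field_simp
    rw [e]
    exact hParg z hz
  · have ode : (fun z => (1 - w z * w z) * deriv P z) =ᶠ[𝓝 0]
        fun z => (2 * a : ℂ) * (P z * deriv w z) := by
      filter_upwards [hnb] with z hz
      rw [(hPder z hz).deriv]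
      have e1 := hm z hz
      have e2 := hp z hz
      simp only [hpdef]
      field_simp
      ring
    have t1 := tay_congr ode
    rw [tay_mul (analyticAt_const.fun_sub (aw.fun_mul aw)) aP.deriv,
      tay_sub analyticAt_const (aw.fun_mul aw), tay_mul aw aw, tay_const,
      tay_const_mul _ (aP.fun_mul aw.deriv), tay_mul aP aw.deriv, tay_deriv, tay_deriv] at t1
    have t2 : X * d⁄dX ℂ (tay F) = (tay P - 1) * tay F := by
      have e : (fun z => z * deriv F z) =ᶠ[𝓝 0] fun z => (P z - 1) * F z := by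
        filter_upwards [hnb] with z hz
        rw [(hFder z hz).deriv]
        linear_combination F z * hzH z
      have := tay_congr e
      rwa [tay_mul (f := fun z => z) analyticAt_id aF.deriv, tay_id, tay_deriv,
        tay_mul (by fun_prop) aF, tay_sub aP analyticAt_const, tay_const, map_one] at this
    rw [← h_eq (by rw [coeff_zero_tay, hw0]) (h := tay P - 1)]
    · exact t2
    · rw [map_sub, coeff_zero_tay, hP0]
      simp
    · rw [map_sub, derivative_one, sub_zero]
      have c2 : (C (2 * a : ℂ) : ℂ⟦X⟧) = 2 * C (a : ℂ) := by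
        rw [map_mul]
        rfl
      rw [c2, map_one] at t1
      linear_combination t1
  · rw [tay_mul (f := fun z => z) analyticAt_id aF, tay_id]

end Pool.Agent.P.MP_bdc337_an.SI
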