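import Pool.Agent.P.MP_bdc337_an.SI.Build

/-! Certificates on boxes. -/

set_option autoImplicit false

open Finset PowerSeries

namespace Pool.Agent.P.MP_bdc337_an.SI.Rf

/-- free parameters -/
structure Pa (α : Type) where
  (a o h A P Q U V W Y D n th y τ f u l0 l1 l2 u' k0 k1 k2 : α)

/-- entrywise map -/
def Pa.map {R S : Type} (g : R → S) (F : Pa R) : Pa S :=
  ⟨g F.a, g F.o, g F.h, g F.A, g F.P, g F.Q, g F.U, g F.V, g F.W, g F.Y, g F.D, g F.n, g F.th, g F.y, g F.τ, g F.f, g F.u, g F.l0, g F.l1, g F.l2, g F.u', g F.k0, g F.k1, g F.k2⟩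

section
variable {R : Type} [Add R] [Mul R] [Neg R] [Cq R]

/-- the value for two atoms -/
def ps6 (a t : R) : R :=
  p222 a * ((Cq.i 1 + -t) * ((Cq.i 1 + -t) * (Cq.i 1 + -t)))
    + (p33 a + p24 a + -p123 a + p1122 a) * (t * ((Cq.i 1 + -t) * (Cq.i 1 + -t)))
    + (Cq.i 1 + -p15 a + p114 a + -p1113 a + p42 a) * (t * (t * (Cq.i 1 + -t)))
    + p6 a * (t * (t * t))

/-- derived parameters -/
def mk (P : Pa R) (B R' S U V W Y ψ : R) : Fu R :=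
  ⟨P.a, P.o * P.h, P.o, P.h, P.o * P.h * (P.o * P.h), Cq.i 1 + -(P.o * P.h * (P.o * P.h)),
    P.A, P.P, P.Q, P.U, P.V, P.W, P.Y, B, R', S, U, V, W, Y, P.D + P.o * P.n, P.D,
    Cq.i 2 * ((P.D + P.o * P.n) * P.D) * (P.th * (ψ + Cq.i (-1))) + -(P.n * P.n),
    P.u * (P.τ * P.τ), P.f, P.u, P.l0, P.l1, P.l2, P.u', P.k0, P.k1, P.k2⟩

/-- derived parameters -/
def mk7' (P : Pa R) (B R' S : R) : Fu R :=
  mk P B R' S (n34 P.a + -P.U) (n124 P.a + -(P.P * B) + -(P.A * R') + -P.V)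
    (n1114 P.a + -(P.Q * B) + -(P.A * S) + -P.W) (-P.Y) (n7 P.a)

/-- derived parameters -/
def mk7 (P : Pa R) : Fu R :=
  mk7' P (n16 P.a + -P.A) (n25 P.a + -P.P) (n115 P.a + -(P.A * (n16 P.a + -P.A)) + -P.Q)

/-- derived parameters -/
def mk6 (P : Pa R) : Fu R :=
  mk P (p15 P.a + -P.A) (p24 P.a + -P.P) (p114 P.a + -(P.A * (p15 P.a + -P.A)) + -P.Q)
    Cq.z Cq.z Cq.z Cq.z (ps6 P.a P.y)

/-- side conditions -/
def side (P : Pa R) : List R :=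
  [P.o * P.h, P.u, P.u', P.D + P.o * P.n + Cq.q (-1), P.D + Cq.q (-1), P.o * P.o * P.th,
    Cq.i 1 + -(P.o * P.o * P.th), P.y, Cq.i 1 + -P.y]

/-- Horner scheme -/
def h1 (v : R) : List ℤ → R
  | [] => Cq.z
  | [c] => Cq.i c
  | c :: d :: l => Cq.i c + v * h1 v (d :: l)

/-- Horner scheme -/
def h2 (u v : R) : List (List ℤ) → R
  | [] => Cq.z
  | [c] => h1 v c
  | c :: d :: l => h1 v c + u * h2 u v (d :: l)

/-- division by a power of the denominator -/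
def pw : ℕ → R → R
  | 0, r => r
  | k + 1, r => Cq.q 1 * pw k r

/-- the parameters at a point -/
def inst (b : Bool) (x a : R) (T : Pa (List (List ℤ) × ℕ)) : Pa R :=
  { T.map fun t => pw t.2 (h2 x a t.1) with
    a := a, o := cond b x (Cq.i 1), h := cond b (Cq.i 1) x }

variable {S : Type} [Add S] [Mul S] [Neg S] [Cq S] {g : R → S}

lemma Hom.h1 (h : Hom g) (v : R) : ∀ l, g (h1 v l) = h1 (g v) l
  | [] => h.z
  | [c] => h.i c
  | c :: d :: l => by rw [Rf.h1, Rf.h1, h.add, h.mul, h.i, h.h1 v (d :: l)]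

lemma Hom.h2 (h : Hom g) (u v : R) : ∀ l, g (h2 u v l) = h2 (g u) (g v) l
  | [] => h.z
  | [c] => h.h1 v c
  | c :: d :: l => by rw [Rf.h2, Rf.h2, h.add, h.mul, h.h1, h.h2 u v (d :: l)]

lemma Hom.pw (h : Hom g) (r : R) : ∀ k, g (pw k r) = pw k (g r)
  | 0 => rfl
  | k + 1 => by rw [Rf.pw, Rf.pw, h.mul, h.q, h.pw r k]

lemma Hom.inst (h : Hom g) (b : Bool) (x a : R) (T) :
    (inst b x a T).map g = inst b (g x) (g a) T := by
  cases b <;> simp only [Rf.inst, Pa.map, h.pw, h.h2, h.i, cond]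

lemma Hom.mk7 (h : Hom g) (P : Pa R) : (mk7 P).map g = mk7 (P.map g) := by
  simp only [Rf.mk7, mk7', Rf.mk, Fu.map, Pa.map, n16, n25, n115, n34, n124, n1114, n7, h.add,
    h.mul, h.neg, h.i, h.q]

lemma Hom.mk6 (h : Hom g) (P : Pa R) : (mk6 P).map g = mk6 (P.map g) := by
  simp only [Rf.mk6, Rf.mk, ps6, Fu.map, Pa.map, p15, p24, p114, p33, p222, p123, p1122, p1113,
    p42, p6, h.add, h.mul, h.neg, h.i, h.q, h.z]

lemma Hom.side (h : Hom g) (P : Pa R) : (side P).map g = side (P.map g) := by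
  simp only [Rf.side, List.map, Pa.map, h.add, h.mul, h.neg, h.i, h.q]

end

/-- test of the side conditions -/
def okS (P : Pa KQ) : Bool :=
  (side P).all fun q => chkM q.i q.j q.k ⟨q, Cq.z, Cq.z, Cq.z, Cq.z, Cq.z, Cq.z, Cq.z, Cq.z, Cq.z⟩

lemma side_ok {P : Pa ℝ} (h : ∀ q ∈ side P, 0 ≤ q) (B R' S U V W Y ψ : ℝ) :
    Geo (mk P B R' S U V W Y ψ) ∧ 0 ≤ P.y ∧ P.y ≤ 1 ∧ ∃ T, T ≤ max 1 ψ ∧
      (mk P B R' S U V W Y ψ).K * (mk P B R' S U V W Y ψ).o ^ 2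
        = 2 * ((mk P B R' S U V W Y ψ).N * (mk P B R' S U V W Y ψ).D) * T
          - (mk P B R' S U V W Y ψ).N ^ 2 - (mk P B R' S U V W Y ψ).D ^ 2 := by
  simp only [side, List.forall_mem_cons, qR, iR] at h
  obtain ⟨h0, h2, h3, h4, h5, h6, h7, h8, h9, -⟩ := h
  push_cast at h4 h5 h7 h9
  refine ⟨⟨h0, rfl, (sq _).symm, ?_, mul_nonneg h2 (mul_self_nonneg _), h2, h3, ?_, ?_⟩, h8, by linarith,
    1 + P.o * P.o * P.th * (ψ - 1), ?_, ?_⟩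
  · simp only [mk, iR]
    push_cast
    ring
  · simp only [mk]
    linarith
  · simp only [mk]
    linarith
  · have a1 := le_max_left 1 ψ
    have a2 := le_max_right 1 ψ
    nlinarith
  · simp only [mk, iR]
    push_cast
    ring

lemma okS_ok {x y : ℝ} {P : Pa (RR x y)} (h : okS (P.map RR.c) = true) (x0 : 0 ≤ x) (y0 : 0 ≤ y) :
    ∀ q ∈ side (P.map RR.v), 0 ≤ q := by
  rw [← hom_v.side]
  intro q hq
  obtain ⟨r, hr, rfl⟩ := List.mem_map.1 hq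
  rw [okS, ← hom_c.side] at h
  have := chkR (M := ⟨r, Cq.z, Cq.z, Cq.z, Cq.z, Cq.z, Cq.z, Cq.z, Cq.z, Cq.z⟩)
    (List.all_eq_true.1 h _ (List.mem_map_of_mem hr)) x0 y0 1 0 0 0
  simpa [qf, M4.map] using this

/-- half-open intervals -/
def In (c d : ℤ) (x : ℝ) : Prop := ∃ ξ : ℝ, 0 ≤ ξ ∧ x = Cq.q c + Cq.q d * (ξ / (1 + ξ))

lemma In.up {c d : ℤ} {x : ℝ} (h0 : c ≤ 708750 * x) (h1 : 708750 * x < c + d) : In c d x := by
  have e : 0 < c + d - 708750 * x := by linarith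
  have e2 : (0 : ℝ) < d := by linarith
  refine ⟨(708750 * x - c) / (c + d - 708750 * x), div_nonneg (by linarith) e.le, ?_⟩
  have e3 : 1 + (708750 * x - c) / (c + d - 708750 * x) = d / (c + d - 708750 * x) := by
    field_simp
    ring
  rw [e3, qR, qR, div_div_div_cancel_right₀ e.ne']
  field_simp
  ring

lemma In.dn {c d : ℤ} {x : ℝ} (h0 : c + d < 708750 * x) (h1 : 708750 * x ≤ c) : In c d x := by
  obtain ⟨ξ, h, e⟩ := In.up (c := -c) (d := -d) (x := -x) (by push_cast; linarith)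
    (by push_cast; linarith)
  refine ⟨ξ, h, ?_⟩
  simp only [qR] at e ⊢
  push_cast at e
  linarith

/-- first coordinate -/
def uK (c d : ℤ) : KQ := Cq.q c + Cq.q d * ⟨(2 * HX : ℕ), 1, 1, 1, 0, 0⟩

/-- second coordinate -/
def vK (c d : ℤ) : KQ := Cq.q c + Cq.q d * ⟨(2 * HS : ℕ), 1, 2 * HS, 0, 1, 0⟩

lemma lift {b : Bool} {c d c' d' : ℤ} {x a : ℝ} (hx : In c d x) (ha : In c' d' a) (T) :
    ∃ (ξ s : ℝ) (P : Pa (RR ξ s)), 0 ≤ ξ ∧ 0 ≤ s ∧ inst b (uK c d) (vK c' d') T = P.map RR.c ∧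
      (P.map RR.v).a = a ∧ (P.map RR.v).o * (P.map RR.v).h = x := by
  obtain ⟨ξ, h0, rfl⟩ := hx
  obtain ⟨s, h1, rfl⟩ := ha
  have r1 : Rep ξ s ⟨(2 * HX : ℕ), 1, 1, 1, 0, 0⟩ (ξ / (1 + ξ)) := by
    have h := D2.X ξ s
    have e : ξ = ξ / (1 + ξ) * den ξ s 1 0 0 := by
      simp only [den, pow_zero, pow_one, mul_one]
      field_simp
    unfold Rep
    rwa [← e]
  have r2 : Rep ξ s ⟨(2 * HS : ℕ), 1, 2 * HS, 0, 1, 0⟩ (s / (1 + s)) := by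
    have h := D2.Y ξ s
    have e : s = s / (1 + s) * den ξ s 0 1 0 := by
      simp only [den, pow_zero, pow_one, mul_one, one_mul]
      field_simp
    unfold Rep
    rwa [← e]
  obtain ⟨U, U1, U2⟩ : ∃ U : RR ξ s, U.c = ⟨(2 * HX : ℕ), 1, 1, 1, 0, 0⟩ ∧ U.v = ξ / (1 + ξ) :=
    ⟨⟨(_, _), r1⟩, rfl, rfl⟩
  obtain ⟨V, V1, V2⟩ : ∃ V : RR ξ s, V.c = ⟨(2 * HS : ℕ), 1, 2 * HS, 0, 1, 0⟩ ∧
    V.v = s / (1 + s) := ⟨⟨(_, _), r2⟩, rfl, rfl⟩
  refine ⟨ξ, s, inst b (Cq.q c + Cq.q d * U) (Cq.q c' + Cq.q d' * V) T, h0, h1, ?_, ?_, ?_⟩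
  · simp only [hom_c.inst, hom_c.add, hom_c.mul, hom_c.q, U1, V1]
    rfl
  · simp only [hom_v.inst, hom_v.add, hom_v.mul, hom_v.q, V2]
    rfl
  · simp only [hom_v.inst, hom_v.add, hom_v.mul, hom_v.q, U2]
    cases b <;> simp only [inst, cond, iR, Int.cast_one, mul_one, one_mul]

/-- the bound for the seventh functional -/
def Good7 (a x : ℝ) : Prop := ∀ w : ℂ⟦X⟧, Contr w → coeff 1 w = x →
  ‖Phi7 a (coeff 1 w) (coeff 2 w) (coeff 3 w) (coeff 4 w) (coeff 5 w) (coeff 6 w) (coeff 7 w)‖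
    ≤ max 1 (n7 a)

/-- the bound for the sixth functional -/
def Good6 (a x : ℝ) : Prop := ∀ w : ℂ⟦X⟧, Contr w → coeff 1 w = x → ∃ t, 0 ≤ t ∧ t ≤ 1 ∧
  ‖Phi6 a (coeff 1 w) (coeff 2 w) (coeff 3 w) (coeff 4 w) (coeff 5 w) (coeff 6 w)‖
    ≤ max 1 (ps6 a t)

/-- the test -/
def ok2 (i j k : ℕ) (F : Fu KQ) (H S : M4 KQ) : Bool :=
  chkM i j k (Mp F H S) && chkM i j k (Mm F H S)

/-- the test -/
def ok7' (i j k : ℕ) (F : Fu KQ) : Bool := ok2 i j k F (H7 F) (S7 F)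

/-- the test -/
def ok6' (i j k : ℕ) (F : Fu KQ) : Bool := ok2 i j k F (H6 F) (S6 F)

/-- the test -/
def ok7 (i j k : ℕ) (P : Pa KQ) : Bool := okS P && ok7' i j k (mk7 P)

/-- the test -/
def ok6 (i j k : ℕ) (P : Pa KQ) : Bool := okS P && ok6' i j k (mk6 P)

theorem box7 (i j k : ℕ) (b : Bool) (c d c' d' : ℤ) (T)
    (h : ok7 i j k (inst b (uK c d) (vK c' d') T) = true) {x a : ℝ} (hx : In c d x)
    (ha : In c' d' a) : Good7 a x := by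
  obtain ⟨ξ, s, P, b0, b1, e, rfl, rfl⟩ := lift (b := b) hx ha T
  simp only [e, ok7, ok7', ok2, Bool.and_eq_true] at h
  obtain ⟨h0, hp, hm⟩ := h
  rw [← hom_c.mk7, ← hom_c.H7, ← hom_c.S7] at hp hm
  rw [← hom_c.Mp] at hp
  rw [← hom_c.Mm] at hm
  have hp := chkR hp b0 b1
  have hm := chkR hm b0 b1
  rw [hom_v.Mp, hom_v.H7, hom_v.S7, hom_v.mk7] at hp
  rw [hom_v.Mm, hom_v.H7, hom_v.S7, hom_v.mk7] at hm
  obtain ⟨G, -, -, T, hT, hK⟩ := side_ok (okS_ok h0 b0 b1) _ _ _ _ _ _ _ _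
  intro w hw h1
  refine (core7 (F := mk7 (P.map RR.v)) G hw h1 ?_ ?_ ?_ ?_ ?_ ?_ rfl hK hp hm).trans hT <;>
    simp only [mk7, mk7', mk, sub_eq_add_neg]

theorem box6 (i j k : ℕ) (b : Bool) (c d c' d' : ℤ) (T)
    (h : ok6 i j k (inst b (uK c d) (vK c' d') T) = true) {x a : ℝ} (hx : In c d x)
    (ha : In c' d' a) : Good6 a x := by
  obtain ⟨ξ, s, P, b0, b1, e, rfl, rfl⟩ := lift (b := b) hx ha T
  simp only [e, ok6, ok6', ok2, Bool.and_eq_true] at h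
  obtain ⟨h0, hp, hm⟩ := h
  rw [← hom_c.mk6, ← hom_c.H6, ← hom_c.S6] at hp hm
  rw [← hom_c.Mp] at hp
  rw [← hom_c.Mm] at hm
  have hp := chkR hp b0 b1
  have hm := chkR hm b0 b1
  rw [hom_v.Mp, hom_v.H6, hom_v.S6, hom_v.mk6] at hp
  rw [hom_v.Mm, hom_v.H6, hom_v.S6, hom_v.mk6] at hm
  obtain ⟨G, y0, y1, T, hT, hK⟩ := side_ok (okS_ok h0 b0 b1) _ _ _ _ _ _ _ _
  intro w hw h1
  refine ⟨_, y0, y1,
    (core6 (F := mk6 (P.map RR.v)) G hw h1 ?_ ?_ ?_ rfl rfl rfl rfl hK hp hm).trans hT⟩ <;>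
    simp only [mk6, mk, sub_eq_add_neg]

end Pool.Agent.P.MP_bdc337_an.SI.Rf
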