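import Pool.Agent.P.MP_bdc337_an.SI.Build8
import Pool.Agent.P.MP_bdc337_an.SI.Box

/-! Certificates on boxes for the eighth functional. -/

set_option autoImplicit false

open Finset PowerSeries

namespace Pool.Agent.P.MP_bdc337_an.SI.Rf

/-- free parameters -/
structure P8 (α : Type) where
  (a o h A P Q U V W Y D n th y u u' f0 f1 f2 f3 f4 f5 s0 s1 s2 s3 m : α)
  (z0 z1 z2 z3 : Z7 α)

/-- entrywise map -/
def P8.map {R S : Type} (g : R → S) (F : P8 R) : P8 S :=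
  ⟨g F.a, g F.o, g F.h, g F.A, g F.P, g F.Q, g F.U, g F.V, g F.W, g F.Y, g F.D, g F.n, g F.th, g F.y, g F.u, g F.u', g F.f0, g F.f1, g F.f2, g F.f3, g F.f4, g F.f5, g F.s0, g F.s1, g F.s2, g F.s3, g F.m, F.z0.map g, F.z1.map g, F.z2.map g, F.z3.map g⟩

section
variable {R : Type} [Add R] [Mul R] [Neg R] [Cq R]

/-- the value for two atoms -/
def ps8 (a t e : R) : R :=
  q2222 a * (e * (e * (e * e))) + (q233 a + q224 a + -q1223 a + q11222 a) * (t * (e * (e * e)))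
    + (q44 a + q35 a + q26 a + -q134 a + -q125 a + q1133 a + q1124 a + -q11123 a + q422 a)
      * (t * (t * (e * e)))
    + (Cq.i 1 + -q17 a + q116 a + -q1115 a + q414 a + -q53 a + q62 a) * (t * (t * (t * e)))
    + q8 a * (t * (t * (t * t)))

/-- derived parameters -/
def mk8' (P : P8 R) (x N B R' S : R) : G8 R :=
  ⟨P.a, x, P.o, P.h, x * x, Cq.i 1 + -(x * x), P.A, P.P, P.Q, P.U, P.V, P.W, P.Y, B, R', S,
    q35 P.a + -P.U, q125 P.a + -(P.P * B) + -(P.A * R') + -P.V,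
    q1115 P.a + -(P.Q * B) + -(P.A * S) + -P.W, -P.Y, N, P.D,
    Cq.i 2 * (N * P.D) * (P.th * (ps8 P.a P.y (Cq.i 1 + -P.y) + Cq.i (-1))) + -(P.n * P.n),
    P.u, P.u', P.f0, P.f1, P.f2, P.f3, P.f4, P.f5, P.s0, P.s1, P.s2, P.s3, P.m,
    P.z0, P.z1, P.z2, P.z3⟩

/-- derived parameters -/
def mk8 (P : P8 R) : G8 R :=
  mk8' P (P.o * P.h) (P.D + P.o * P.n) (q17 P.a + -P.A) (q26 P.a + -P.P)
    (q116 P.a + -(P.A * (q17 P.a + -P.A)) + -P.Q)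

/-- side conditions -/
def side8 (P : P8 R) : List R :=
  [P.o * P.h, P.u, P.u', P.D + P.o * P.n + Cq.q (-1), P.D + Cq.q (-1), P.o * P.o * P.th,
    Cq.i 1 + -(P.o * P.o * P.th), P.y, Cq.i 1 + -P.y]

/-- the parameters at a point -/
def inst8 (b : Bool) (x a : R) (T : P8 (List (List ℤ) × ℕ)) : P8 R :=
  { T.map fun t => pw t.2 (h2 x a t.1) with
    a := a, o := cond b x (Cq.i 1), h := cond b (Cq.i 1) x }

variable {S : Type} [Add S] [Mul S] [Neg S] [Cq S] {g : R → S}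

lemma Hom.inst8 (h : Hom g) (b : Bool) (x a : R) (T) :
    (inst8 b x a T).map g = inst8 b (g x) (g a) T := by
  cases b <;> simp only [Rf.inst8, P8.map, Z7.map, h.pw, h.h2, h.i, cond]

lemma Hom.mk8 (h : Hom g) (P : P8 R) : (mk8 P).map g = mk8 (P.map g) := by
  simp only [Rf.mk8, mk8', ps8, G8.map, P8.map, q8, q44, q35, q26, q233, q224, q2222, q17, q134,
    q125, q1223, q116, q1133, q1124, q11222, q1115, q11123, q414, q422, q53, q62, q87, h.add,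
    h.mul, h.neg, h.i, h.q]

lemma Hom.side8 (h : Hom g) (P : P8 R) : (side8 P).map g = side8 (P.map g) := by
  simp only [Rf.side8, List.map, P8.map, h.add, h.mul, h.neg, h.i, h.q]

end

/-- test of a list of inequalities -/
noncomputable def okL (l : List KQ) : Bool := l.all fun q => chkL 1 q.i q.j q.k [[q]]

lemma okL_ok {x y : ℝ} {l : List (RR x y)} (h : okL (l.map RR.c) = true) (x0 : 0 ≤ x)
    (y0 : 0 ≤ y) : ∀ q ∈ l.map RR.v, 0 ≤ q := by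
  intro q hq
  obtain ⟨r, hr, rfl⟩ := List.mem_map.1 hq
  have := chkL_ok (M := [[r]]) (List.all_eq_true.1 h _ (List.mem_map_of_mem hr)) x0 y0 [1]
  simpa [mp, lq_cons, dot] using this

lemma lift' {c d c' d' : ℤ} {x a : ℝ} (hx : In c d x) (ha : In c' d' a) :
    ∃ (ξ s : ℝ) (U V : RR ξ s), 0 ≤ ξ ∧ 0 ≤ s ∧ uK c d = U.c ∧ vK c' d' = V.c ∧ U.v = x ∧
      V.v = a := by
  obtain ⟨ξ, h0, rfl⟩ := hx
  obtain ⟨s, h1, rfl⟩ := ha
  have r1 : Rep ξ s ⟨(2 * HX : ℕ), 1, 1, 1, 0, 0⟩ (ξ / (1 + ξ)) := by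
    have h := D2.X ξ s
    have e : ξ = ξ / (1 + ξ) * den ξ s 1 0 0 := by
      simp only [den, pow_zero, pow_one, mul_one]
      field_simp
    unfold Rep
    rwa [← e]
  have r2 : Rep ξ s ⟨(2 * HS : ℕ), 1, 2 * HS, 0, 1, 0⟩ (s / (1 + s)) := by
    have h := D2.Y ξ s
    have e : s = s / (1 + s) * den ξ s 0 1 0 := by
      simp only [den, pow_zero, pow_one, mul_one, one_mul]
      field_simp
    unfold Rep
    rwa [← e]
  obtain ⟨U, U1, U2⟩ : ∃ U : RR ξ s, U.c = ⟨(2 * HX : ℕ), 1, 1, 1, 0, 0⟩ ∧ U.v = ξ / (1 + ξ) :=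
    ⟨⟨(_, _), r1⟩, rfl, rfl⟩
  obtain ⟨V, V1, V2⟩ : ∃ V : RR ξ s, V.c = ⟨(2 * HS : ℕ), 1, 2 * HS, 0, 1, 0⟩ ∧
    V.v = s / (1 + s) := ⟨⟨(_, _), r2⟩, rfl, rfl⟩
  refine ⟨ξ, s, Cq.q c + Cq.q d * U, Cq.q c' + Cq.q d' * V, h0, h1, ?_, ?_, ?_, ?_⟩
  · simp only [hom_c.add, hom_c.mul, hom_c.q, U1, uK]
  · simp only [hom_c.add, hom_c.mul, hom_c.q, V1, vK]
  · simp only [hom_v.add, hom_v.mul, hom_v.q, U2]
  · simp only [hom_v.add, hom_v.mul, hom_v.q, V2]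

lemma mix_le' {θ k : ℝ} (h0 : 0 ≤ θ) (h1 : θ ≤ 1) : 1 + θ * (k - 1) ≤ max 1 k := by
  have a1 := le_max_left 1 k
  have a2 := le_max_right 1 k
  nlinarith

/-- the test -/
noncomputable def ok2L (n i j k : ℕ) (c : KQ) (H S : LM KQ) : Bool :=
  chkL n i j k (lad H (mp (c * ·) S)) && chkL n i j k (lad H (mp (-c * ·) S))

lemma ok2L_ok {n i j k : ℕ} {x y : ℝ} {c : RR x y} {H S : LM (RR x y)}
    (h : ok2L n i j k c.c (mp RR.c H) (mp RR.c S) = true) (x0 : 0 ≤ x) (y0 : 0 ≤ y) :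
    (∀ v, 0 ≤ lq (lad (mp RR.v H) (mp (c.v * ·) (mp RR.v S))) v) ∧
      ∀ v, 0 ≤ lq (lad (mp RR.v H) (mp (-c.v * ·) (mp RR.v S))) v := by
  rw [ok2L, Bool.and_eq_true, ← hom_c.neg, ← mp_sm hom_c.mul, ← mp_sm hom_c.mul,
    ← mp_lad hom_c.add, ← mp_lad hom_c.add] at h
  have hp := chkL_ok h.1 x0 y0
  have hm := chkL_ok h.2 x0 y0
  rw [mp_lad hom_v.add, mp_sm hom_v.mul] at hp hm
  exact ⟨hp, hm⟩

/-- the test -/
noncomputable def ok8' (i j k : ℕ) (F : G8 KQ) : Bool := ok2L 7 i j k (Cq.i 2 * (F.N * F.D)) (H8 F) (S8 F)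

lemma ok8'_ok {i j k : ℕ} {x y : ℝ} {F : G8 (RR x y)} (h : ok8' i j k (F.map RR.c) = true)
    (x0 : 0 ≤ x) (y0 : 0 ≤ y) {G : G8 ℝ} (e : F.map RR.v = G) :
    (∀ v, 0 ≤ lq (lad (H8 G) (mp (Cq.i 2 * (G.N * G.D) * ·) (S8 G))) v) ∧
      ∀ v, 0 ≤ lq (lad (H8 G) (mp (-(Cq.i 2 * (G.N * G.D)) * ·) (S8 G))) v := by
  subst e
  have e1 : Cq.i 2 * ((F.map RR.c).N * (F.map RR.c).D) = RR.c (Cq.i 2 * (F.N * F.D)) := by
    rw [hom_c.mul, hom_c.mul, hom_c.i]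
    rfl
  have e2 : RR.v (Cq.i 2 * (F.N * F.D)) = Cq.i 2 * ((F.map RR.v).N * (F.map RR.v).D) := by
    rw [hom_v.mul, hom_v.mul, hom_v.i]
    rfl
  unfold ok8' at h
  rw [← hom_c.H8, ← hom_c.S8, e1] at h
  have := ok2L_ok h x0 y0
  rwa [hom_v.H8, hom_v.S8, e2] at this

/-- the test -/
noncomputable def ok8 (i j k : ℕ) (P : P8 KQ) : Bool := okL (side8 P) && ok8' i j k (mk8 P)

/-- the bound for the eighth functional -/
def Good8 (a x : ℝ) : Prop := ∀ w : ℂ⟦X⟧, Contr w → coeff 1 w = x → ∃ t, 0 ≤ t ∧ t ≤ 1 ∧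
  ‖Phi8 a (coeff 1 w) (coeff 2 w) (coeff 3 w) (coeff 4 w) (coeff 5 w) (coeff 6 w) (coeff 7 w)
    (coeff 8 w)‖ ≤ max 1 (ps8 a t (Cq.i 1 + -t))

lemma good8_of {P : P8 ℝ} (h : ∀ q ∈ side8 P, 0 ≤ q)
    (hp : ∀ v, 0 ≤ lq (lad (H8 (mk8 P)) (mp (Cq.i 2 * ((mk8 P).N * (mk8 P).D) * ·) (S8 (mk8 P)))) v)
    (hm : ∀ v, 0 ≤ lq (lad (H8 (mk8 P))
      (mp (-(Cq.i 2 * ((mk8 P).N * (mk8 P).D)) * ·) (S8 (mk8 P)))) v) :
    Good8 P.a (P.o * P.h) := by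
  simp only [side8, List.forall_mem_cons, qR, iR] at h
  obtain ⟨h0, h2, h3, h4, h5, h6, h7, h8, h9, -⟩ := h
  push_cast at h4 h5 h7 h9
  intro w hw h1
  refine ⟨P.y, h8, by linarith, (core8 (F := mk8 P)
    (T := 1 + P.o * P.o * P.th * (ps8 P.a P.y (Cq.i 1 + -P.y) - 1))
    ⟨h0, rfl, (sq _).symm, ?_, h2, h3, ?_, ?_⟩ hw h1 ?_ ?_ ?_ ?_ ?_ ?_ rfl ?_ hp hm).trans
    (mix_le' h6 (by linarith))⟩
  · simp only [mk8, mk8', iR]
    push_cast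
    ring
  · simp only [mk8, mk8']
    linarith
  · simp only [mk8, mk8']
    linarith
  iterate 6 simp only [mk8, mk8', sub_eq_add_neg]
  · simp only [mk8, mk8']
    generalize ps8 P.a P.y (Cq.i 1 + -P.y) = k
    simp only [iR]
    push_cast
    ring

theorem box8 (i j k : ℕ) (b : Bool) (c d c' d' : ℤ) (T)
    (h : ok8 i j k (inst8 b (uK c d) (vK c' d') T) = true) {x a : ℝ} (hx : In c d x)
    (ha : In c' d' a) : Good8 a x := by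
  obtain ⟨ξ, s, U, V, b0, b1, e1, e2, rfl, rfl⟩ := lift' hx ha
  rw [e1, e2, ← hom_c.inst8, ok8, Bool.and_eq_true, ← hom_c.side8, ← hom_c.mk8] at h
  have h0 := okL_ok h.1 b0 b1
  obtain ⟨hp, hm⟩ := ok8'_ok h.2 b0 b1 (hom_v.mk8 _)
  rw [hom_v.side8] at h0
  have := good8_of h0 hp hm
  rw [hom_v.inst8] at this
  cases b <;> simpa [inst8, iR] using this

end Pool.Agent.P.MP_bdc337_an.SI.Rf
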