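import Pool.Agent.P.MP_bdc337_an.SI.Build9
import Pool.Agent.P.MP_bdc337_an.SI.Box8

/-! Certificates on boxes for the ninth functional. -/

set_option autoImplicit false

open Finset PowerSeries

namespace Pool.Agent.P.MP_bdc337_an.SI.Rf

/-- free parameters -/
structure P9 (α : Type) where
  (F : P8 α)
  (E g : Z7 α)

/-- entrywise map -/
def P9.map {R S : Type} (g : R → S) (F : P9 R) : P9 S := ⟨F.F.map g, F.E.map g, F.g.map g⟩

section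
variable {R : Type} [Add R] [Mul R] [Neg R] [Cq R]

/-- derived parameters -/
def mk9' (P : P8 R) (x N B R' S : R) : G8 R :=
  ⟨P.a, x, P.o, P.h, x * x, Cq.i 1 + -(x * x), P.A, P.P, P.Q, P.U, P.V, P.W, P.Y, B, R', S,
    r36 P.a + -P.U, r126 P.a + -(P.P * B) + -(P.A * R') + -P.V,
    r1116 P.a + -(P.Q * B) + -(P.A * S) + -P.W, -P.Y, N, P.D,
    Cq.i 2 * (N * P.D) * (P.th * (r9 P.a + Cq.i (-1))) + -(P.n * P.n),
    P.u, P.u', P.f0, P.f1, P.f2, P.f3, P.f4, P.f5, P.s0, P.s1, P.s2, P.s3, P.m,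
    P.z0, P.z1, P.z2, P.z3⟩

/-- derived parameters -/
def mk9F (P : P8 R) : G8 R :=
  mk9' P (P.o * P.h) (P.D + P.o * P.n) (r18 P.a + -P.A) (r27 P.a + -P.P)
    (r117 P.a + -(P.A * (r18 P.a + -P.A)) + -P.Q)

/-- one half plus a shift -/
def hp (T g : Z7 R) : Z7 R :=
  ⟨Cq.q 354375 * T.l0 + g.l0, Cq.q 354375 * T.l1 + g.l1, Cq.q 354375 * T.l2 + g.l2,
    Cq.q 354375 * T.l3 + g.l3, Cq.q 354375 * T.l4 + g.l4, Cq.q 354375 * T.l5 + g.l5,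
    Cq.q 354375 * T.l6 + g.l6⟩

/-- derived parameters -/
def mk9G (F : G8 R) (E g : Z7 R) : G9 R := ⟨F, E, hp (T9 F) g, hp (T9 F) (g.map (-·))⟩

/-- derived parameters -/
def mk9 (P : P9 R) : G9 R := mk9G (mk9F P.F) P.E P.g

/-- the parameters at a point -/
def inst9 (b : Bool) (x a : R) (T : P9 (List (List ℤ) × ℕ)) : P9 R :=
  ⟨inst8 b x a T.F, T.E.map fun t => pw t.2 (h2 x a t.1), T.g.map fun t => pw t.2 (h2 x a t.1)⟩

variable {S : Type} [Add S] [Mul S] [Neg S] [Cq S] {g : R → S}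

lemma Hom.inst9 (h : Hom g) (b : Bool) (x a : R) (T) :
    (inst9 b x a T).map g = inst9 b (g x) (g a) T := by
  simp only [Rf.inst9, P9.map, h.inst8, Z7.map, h.pw, h.h2]

lemma Hom.mk9F (h : Hom g) (P : P8 R) : (mk9F P).map g = mk9F (P.map g) := by
  simp only [Rf.mk9F, mk9', G8.map, P8.map, r36, r126, r1116, r9, r18, r27, r117, h.add,
    h.mul, h.neg, h.i, h.q]

lemma Hom.hp (h : Hom g) (T k : Z7 R) : (hp T k).map g = hp (T.map g) (k.map g) := by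
  simp only [Rf.hp, Z7.map, h.add, h.mul, h.q]

lemma Hom.mk9 (h : Hom g) (P : P9 R) : (mk9 P).map g = mk9 (P.map g) := by
  simp only [Rf.mk9, mk9G, G9.map, P9.map, h.hp, h.T9, h.mk9F]
  simp only [Z7.map, h.neg]

end

/-- the test -/
noncomputable def ok9' (i j k : ℕ) (G : G9 KQ) : Bool :=
  ok2L 8 i j k (Cq.i 2 * (G.F.N * G.F.D)) (H9 G) (S9 G)

lemma ok9'_ok {i j k : ℕ} {x y : ℝ} {F : G9 (RR x y)} (h : ok9' i j k (F.map RR.c) = true)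
    (x0 : 0 ≤ x) (y0 : 0 ≤ y) {G : G9 ℝ} (e : F.map RR.v = G) :
    (∀ v, 0 ≤ lq (lad (H9 G) (mp (Cq.i 2 * (G.F.N * G.F.D) * ·) (S9 G))) v) ∧
      ∀ v, 0 ≤ lq (lad (H9 G) (mp (-(Cq.i 2 * (G.F.N * G.F.D)) * ·) (S9 G))) v := by
  subst e
  have e1 : Cq.i 2 * ((F.map RR.c).F.N * (F.map RR.c).F.D) = RR.c (Cq.i 2 * (F.F.N * F.F.D)) := by
    rw [hom_c.mul, hom_c.mul, hom_c.i]
    rfl
  have e2 : RR.v (Cq.i 2 * (F.F.N * F.F.D))
      = Cq.i 2 * ((F.map RR.v).F.N * (F.map RR.v).F.D) := by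
    rw [hom_v.mul, hom_v.mul, hom_v.i]
    rfl
  unfold ok9' at h
  rw [← hom_c.H9, ← hom_c.S9, e1] at h
  have := ok2L_ok h x0 y0
  rwa [hom_v.H9, hom_v.S9, e2] at this

/-- the test -/
noncomputable def ok9 (i j k : ℕ) (P : P9 KQ) : Bool := okL (side8 P.F) && ok9' i j k (mk9 P)

/-- the bound for the ninth functional -/
def Good9 (a x : ℝ) : Prop := ∀ w : ℂ⟦X⟧, Contr w → coeff 1 w = x →
  ‖Phi9 a (coeff 1 w) (coeff 2 w) (coeff 3 w) (coeff 4 w) (coeff 5 w) (coeff 6 w) (coeff 7 w)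
    (coeff 8 w) (coeff 9 w)‖ ≤ max 1 (r9 a)

lemma hp_neg (T g : Z7 ℝ) : hp T (g.map (-·)) = ⟨T.l0 - (hp T g).l0, T.l1 - (hp T g).l1,
    T.l2 - (hp T g).l2, T.l3 - (hp T g).l3, T.l4 - (hp T g).l4, T.l5 - (hp T g).l5,
    T.l6 - (hp T g).l6⟩ := by
  simp only [hp, Z7.map, qR, Z7.mk.injEq]
  push_cast
  refine ⟨?_, ?_, ?_, ?_, ?_, ?_, ?_⟩ <;> ring

lemma good9_of {Q : P9 ℝ} {P : P8 ℝ} (e : Q.F = P) (h : ∀ q ∈ side8 P, 0 ≤ q)
    (hp : ∀ v, 0 ≤ lq (lad (H9 (mk9 Q))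
      (mp (Cq.i 2 * ((mk9 Q).F.N * (mk9 Q).F.D) * ·) (S9 (mk9 Q)))) v)
    (hm : ∀ v, 0 ≤ lq (lad (H9 (mk9 Q))
      (mp (-(Cq.i 2 * ((mk9 Q).F.N * (mk9 Q).F.D)) * ·) (S9 (mk9 Q)))) v) :
    Good9 P.a (P.o * P.h) := by
  subst e
  simp only [side8, List.forall_mem_cons, qR, iR] at h
  obtain ⟨h0, h2, h3, h4, h5, h6, h7, -⟩ := h
  push_cast at h4 h5 h7
  intro w hw h1
  refine (core9 (G := mk9 Q) (F := mk9F Q.F) rfl
    (T := 1 + Q.F.o * Q.F.o * Q.F.th * (r9 Q.F.a - 1))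
    ⟨h0, rfl, (sq _).symm, ?_, h2, h3, ?_, ?_⟩ hw h1 ?_ ?_ ?_ ?_ ?_ ?_ rfl (hp_neg _ _) ?_ hp
    hm).trans (mix_le' h6 (by linarith))
  · simp only [mk9F, mk9', iR]
    push_cast
    ring
  · simp only [mk9F, mk9']
    linarith
  · simp only [mk9F, mk9']
    linarith
  iterate 6 simp only [mk9F, mk9', sub_eq_add_neg]
  · simp only [mk9F, mk9']
    generalize r9 Q.F.a = k
    simp only [iR]
    push_cast
    ring

theorem box9 (i j k : ℕ) (b : Bool) (c d c' d' : ℤ) (T)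
    (h : ok9 i j k (inst9 b (uK c d) (vK c' d') T) = true) {x a : ℝ} (hx : In c d x)
    (ha : In c' d' a) : Good9 a x := by
  obtain ⟨ξ, s, U, V, b0, b1, e1, e2, rfl, rfl⟩ := lift' hx ha
  rw [e1, e2, ← hom_c.inst9, ok9, Bool.and_eq_true, ← hom_c.mk9] at h
  have h0 := okL_ok ((congrArg okL (hom_c.side8 _)).trans h.1) b0 b1
  obtain ⟨hp, hm⟩ := ok9'_ok h.2 b0 b1 (hom_v.mk9 _)
  rw [hom_v.side8] at h0
  have := good9_of rfl h0 hp hm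
  rw [hom_v.inst9] at this
  cases b <;> simpa [inst9, inst8, iR] using this

end Pool.Agent.P.MP_bdc337_an.SI.Rf
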