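import Pool.Agent.P.MP_bdc337_an.SI.Form

/-! The certificates as quadratic forms. -/

set_option autoImplicit false

open Finset PowerSeries

namespace Pool.Agent.P.MP_bdc337_an.SI.Rf

/-- all parameters -/
structure Fu (α : Type) where
  (a x o h t e A P Q U V W Y B R S U' V' W' Y' N D K τ f u l0 l1 l2 u' k0 k1 k2 : α)

/-- entrywise map -/
def Fu.map {R S : Type} (g : R → S) (F : Fu R) : Fu S :=
  ⟨g F.a, g F.x, g F.o, g F.h, g F.t, g F.e, g F.A, g F.P, g F.Q, g F.U, g F.V, g F.W, g F.Y, g F.B, g F.R, g F.S, g F.U', g F.V', g F.W', g F.Y', g F.N, g F.D, g F.K, g F.τ, g F.f, g F.u, g F.l0, g F.l1, g F.l2, g F.u', g F.k0, g F.k1, g F.k2⟩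

section
variable {R : Type} [Add R] [Mul R] [Neg R] [Cq R]

/-- coefficient -/
def n16 (a : R) : R := a * (Cq.q 3071250)

/-- coefficient -/
def n25 (a : R) : R := a * (Cq.q 2409750)

/-- coefficient -/
def n115 (a : R) : R := Cq.i 1 + a * a * (Cq.q 7701750)

/-- coefficient -/
def n34 (a : R) : R := a * (Cq.q 2244375)

/-- coefficient -/
def n124 (a : R) : R := Cq.i 2 + a * a * (Cq.q 12261375)

/-- coefficient -/
def n1114 (a : R) : R := a * (Cq.q 3819375 + a * a * (Cq.q 14891625))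

/-- coefficient -/
def n223 (a : R) : R := Cq.i 1 + a * a * (Cq.q 5055750)

/-- coefficient -/
def n133 (a : R) : R := Cq.i 1 + a * a * (Cq.q 5827500)

/-- coefficient -/
def n1222 (a : R) : R := a * (Cq.q 3433500 + a * a * (Cq.q 10647000))

/-- coefficient -/
def n1123 (a : R) : R := a * (Cq.q 10796625 + a * a * (Cq.q 36681750))

/-- coefficient -/
def n322 (a : R) : R := Cq.i 2 + a * a * (Cq.q 21648375 + a * a * (Cq.q 43501500))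

/-- coefficient -/
def n43 (a : R) : R := Cq.i 1 + a * a * (Cq.q 11586750 + a * a * (Cq.q 24984750))

/-- coefficient -/
def n52 (a : R) : R := a * (Cq.q 4301325 + a * a * (Cq.q 27118875 + a * a * (Cq.q 39313050)))

/-- coefficient -/
def n7 (a : R) : R := Cq.q 101250 + a * a * (Cq.q 2187850 + a * a * (Cq.q 8328250 + a * a * (Cq.q 9227650)))

/-- coefficient -/
def p15 (a : R) : R := a * (Cq.q 3118500)

/-- coefficient -/
def p24 (a : R) : R := a * (Cq.q 2480625)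

/-- coefficient -/
def p114 (a : R) : R := Cq.i 1 + a * a * (Cq.q 8008875)

/-- coefficient -/
def p33 (a : R) : R := a * (Cq.q 1181250)

/-- coefficient -/
def p222 (a : R) : R := Cq.q 236250 + a * a * (Cq.q 1890000)

/-- coefficient -/
def p123 (a : R) : R := Cq.i 2 + a * a * (Cq.q 13088250)

/-- coefficient -/
def p1122 (a : R) : R := a * (Cq.q 5599125 + a * a * (Cq.q 20884500))

/-- coefficient -/
def p1113 (a : R) : R := a * (Cq.q 3906000 + a * a * (Cq.q 16080750))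

/-- coefficient -/
def p42 (a : R) : R := Cq.i 1 + a * a * (Cq.q 12371625 + a * a * (Cq.q 28806750))

/-- coefficient -/
def p6 (a : R) : R := a * (Cq.q 754950 + a * a * (Cq.q 5360250 + a * a * (Cq.q 8768550)))

/-- first coordinate -/
def e1 : L4 R := ⟨Cq.i 1, Cq.z, Cq.z, Cq.z⟩
/-- second coefficient -/
def c2 (F : Fu R) : L4 R := ⟨Cq.z, F.e, Cq.z, Cq.z⟩
/-- its square -/
def c22 (F : Fu R) : L4 R := ⟨Cq.z, Cq.z, F.e * F.e, Cq.z⟩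
/-- third coefficient -/
def c3 (F : Fu R) : L4 R := ⟨Cq.z, Cq.z, -(F.e * F.x), F.e⟩
/-- second test coefficient -/
def t2 (F : Fu R) (P Q : R) : L4 R := ⟨Q * (F.x * F.h), P * F.e, Cq.z, Cq.z⟩
/-- second test coefficient times the second coefficient -/
def t22 (F : Fu R) (P Q : R) : L4 R := ⟨Cq.z, Q * (F.t * F.e), P * (F.e * F.e), Cq.z⟩
/-- third test coefficient -/
def t3 (F : Fu R) (U V W Y : R) : L4 R :=
  ⟨W * (F.t * F.h), V * (F.x * F.e), (Y + -U) * (F.x * F.e), U * F.e⟩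
/-- defect of length three -/
def d3 (F : Fu R) (w A P Q : R) : M4 R :=
  ((pr (-w * ((A * A + Cq.i (-1)) * (F.h * F.h))) e1 e1).add (pr (-w) (t2 F P Q) (t2 F P Q))).add
    (pr w (t2 F (Cq.i 1) A) (t2 F (Cq.i 1) A))
/-- defect of length four -/
def d4 (F : Fu R) (w A P Q U V W Y : R) : M4 R :=
  ((d3 F w A P Q).add (pr (-w) (t3 F U V W Y) (t3 F U V W Y))).add
    (pr w (t3 F (Cq.i 1) (A + P) Q Cq.z) (t3 F (Cq.i 1) (A + P) Q Cq.z))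
/-- first constraint -/
def tp4 (o τ : R) : M4 R :=
  ⟨-τ, Cq.z, Cq.z, Cq.z, Cq.i 2 * (τ * (o * o)), Cq.z, Cq.z, -(τ * (o * o)), Cq.z, τ * (o * o)⟩
/-- second constraint -/
def zp (o u l0 l1 l2 : R) : M4 R :=
  (((pr (-u * (l0 * l0)) e1 e1).add (pr u ⟨Cq.z, l0 * o, Cq.z, Cq.z⟩ ⟨Cq.z, l0 * o, Cq.z, Cq.z⟩)).add
    (pr (-u) ⟨l1, l2, Cq.z, Cq.z⟩ ⟨l1, l2, Cq.z, Cq.z⟩)).add
    (pr u ⟨Cq.z, l1 * o, l2, l0 * o⟩ ⟨Cq.z, l1 * o, l2, l0 * o⟩)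
/-- common part -/
def Hc (F : Fu R) : M4 R :=
  ((((pr F.K e1 e1).add (d4 F (F.D * F.D) F.B F.R F.S F.U' F.V' F.W' F.Y')).add
    (tp4 F.o F.τ)).add (zp F.o F.u F.l0 F.l1 F.l2)).add (zp F.o F.u' F.k0 F.k1 F.k2)
/-- hermitian part -/
def H7 (F : Fu R) : M4 R := (Hc F).add (d4 F (F.N * F.N) F.A F.P F.Q F.U F.V F.W F.Y)
/-- hermitian part -/
def H6 (F : Fu R) : M4 R := (Hc F).add (d4 F (F.N * F.N) F.A F.P F.Q Cq.z Cq.z Cq.z Cq.z)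
/-- remainder -/
def S7 (F : Fu R) : M4 R := shift F.o F.f
  ((((((((((((((pr (n223 F.a) (c22 F) (c3 F)).add (pr (n133 F.a * F.x) (c3 F) (c3 F))).add
    (pr (n1222 F.a * F.x) (c22 F) (c2 F))).add (pr (n1123 F.a * F.t) (c2 F) (c3 F))).add
    (pr (n322 F.a * (F.t * F.x)) (c2 F) (c2 F))).add
    (pr (n43 F.a * (F.t * (F.x * F.h))) e1 (c3 F))).add
    (pr (n52 F.a * (F.t * (F.t * F.h))) e1 (c2 F))).add
    (pr (n7 F.a * (F.t * (F.t * (F.x * (F.h * F.h))))) e1 e1)).add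
    (pr (-(F.B * F.x)) (c3 F) (t3 F F.U F.V F.W F.Y))).add
    (pr (-(F.A * F.x)) (c3 F) (t3 F F.U' F.V' F.W' F.Y'))).add
    (pr (Cq.i (-1)) (c3 F) ⟨F.Q * F.S * (F.t * (F.x * F.h)), (F.Q * F.R + F.P * F.S) * (F.t * F.e),
      F.P * F.R * (F.e * F.e), Cq.z⟩)).add
    (pr (Cq.i (-1)) (t22 F F.R F.S) (t3 F F.U F.V F.W F.Y))).add
    (pr (Cq.i (-1)) (t22 F F.P F.Q) (t3 F F.U' F.V' F.W' F.Y'))).add
    (pr (-F.x) (t3 F F.U F.V F.W F.Y) (t3 F F.U' F.V' F.W' F.Y')))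
/-- remainder -/
def S6 (F : Fu R) : M4 R := shift F.o F.f
  ((((((((((pr (p33 F.a) (c3 F) (c3 F)).add (pr (p222 F.a) (c22 F) (c2 F))).add
    (pr (p123 F.a * F.x) (c2 F) (c3 F))).add (pr (p1122 F.a * F.t) (c2 F) (c2 F))).add
    (pr (p1113 F.a * (F.t * F.h)) e1 (c3 F))).add
    (pr (p42 F.a * (F.t * (F.x * F.h))) e1 (c2 F))).add
    (pr (p6 F.a * (F.t * (F.t * (F.h * F.h)))) e1 e1)).add
    (pr (-(F.A * F.x)) (c3 F) (t2 F F.R F.S))).add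
    (pr (-(F.B * F.x)) (c3 F) (t2 F F.P F.Q))).add
    (pr (Cq.i (-1)) (t22 F F.P F.Q) (t2 F F.R F.S)))
/-- the two forms to be tested -/
def Mp (F : Fu R) (H S : M4 R) : M4 R := H.add (M4.sm (Cq.i 2 * (F.N * F.D)) S)
/-- the two forms to be tested -/
def Mm (F : Fu R) (H S : M4 R) : M4 R := H.add (M4.sm (-(Cq.i 2 * (F.N * F.D))) S)

variable {S : Type} [Add S] [Mul S] [Neg S] [Cq S] {g : R → S}

lemma Hom.tp4 (h : Hom g) (o τ : R) : (tp4 o τ).map g = tp4 (g o) (g τ) := by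
  simp only [Rf.tp4, M4.map, h.mul, h.neg, h.i, h.z]

lemma Hom.Hc (h : Hom g) (F : Fu R) : (Hc F).map g = Hc (F.map g) := by
  simp only [Rf.Hc, d4, d3, zp, e1, t2, t3, h.madd, h.pr, h.tp4, L4.map_mk, Fu.map, h.add, h.mul,
    h.neg, h.i, h.z]

lemma Hom.H7 (h : Hom g) (F : Fu R) : (H7 F).map g = H7 (F.map g) := by
  rw [Rf.H7, Rf.H7, h.madd, h.Hc]
  simp only [d4, d3, e1, t2, t3, h.madd, h.pr, L4.map_mk, Fu.map, h.add, h.mul, h.neg, h.i, h.z]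

lemma Hom.H6 (h : Hom g) (F : Fu R) : (H6 F).map g = H6 (F.map g) := by
  rw [Rf.H6, Rf.H6, h.madd, h.Hc]
  simp only [d4, d3, e1, t2, t3, h.madd, h.pr, L4.map_mk, Fu.map, h.add, h.mul, h.neg, h.i, h.z]

lemma Hom.S7 (h : Hom g) (F : Fu R) : (S7 F).map g = S7 (F.map g) := by
  simp only [Rf.S7, e1, c2, c22, c3, t22, t3, n223, n133, n1222, n1123, n322, n43, n52, n7,
    h.shift, h.madd, h.pr, L4.map_mk, Fu.map, h.add, h.mul, h.neg, h.i, h.z, h.q]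

lemma Hom.S6 (h : Hom g) (F : Fu R) : (S6 F).map g = S6 (F.map g) := by
  simp only [Rf.S6, e1, c2, c22, c3, t2, t22, p33, p222, p123, p1122, p1113, p42, p6,
    h.shift, h.madd, h.pr, L4.map_mk, Fu.map, h.add, h.mul, h.neg, h.i, h.z, h.q]

lemma Hom.Mp (h : Hom g) (F : Fu R) (H T : M4 R) :
    (Mp F H T).map g = Mp (F.map g) (H.map g) (T.map g) := by
  simp only [Rf.Mp, h.madd, h.msm, Fu.map, h.mul, h.i]

lemma Hom.Mm (h : Hom g) (F : Fu R) (H T : M4 R) :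
    (Mm F H T).map g = Mm (F.map g) (H.map g) (T.map g) := by
  simp only [Rf.Mm, h.madd, h.msm, Fu.map, h.mul, h.neg, h.i]

end

/-- geometric relations -/
structure Geo (F : Fu ℝ) : Prop where
  x0 : 0 ≤ F.x
  xo : F.x = F.o * F.h
  t : F.t = F.x ^ 2
  e : F.e = 1 - F.x ^ 2
  τ0 : 0 ≤ F.τ
  u0 : 0 ≤ F.u
  u1 : 0 ≤ F.u'
  N0 : 0 < F.N
  D0 : 0 < F.D

variable {F : Fu ℝ} {γ δ : ℂ}

lemma lin_e1 (o : ℝ) : lin ((e1 : L4 ℝ).map (↑)) (o : ℂ) γ (γ ^ 2) δ = o := by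
  simp [lin, e1, L4.map, iR, zR]

lemma lin_t2 (G : Geo F) (P Q : ℝ) : lin ((t2 F P Q).map (↑)) (F.o : ℂ) γ (γ ^ 2) δ
    = P * ((1 - F.x ^ 2) * γ) + Q * F.x ^ 2 := by
  have h : (F.x : ℂ) = F.o * F.h := by exact_mod_cast G.xo
  simp only [lin, t2, L4.map, zR, G.e]
  push_cast
  linear_combination (-Q * F.x) * h

lemma lin_t3 (G : Geo F) (U V W Y : ℝ) : lin ((t3 F U V W Y).map (↑)) (F.o : ℂ) γ (γ ^ 2) δ
    = U * ((1 - F.x ^ 2) * (δ - F.x * γ ^ 2)) + V * F.x * ((1 - F.x ^ 2) * γ) + W * F.x ^ 3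
      + Y * F.x * (1 - F.x ^ 2) * γ ^ 2 := by
  have h : (F.x : ℂ) = F.o * F.h := by exact_mod_cast G.xo
  simp only [lin, t3, L4.map, G.e, G.t]
  push_cast
  linear_combination (-W * F.x ^ 2) * h

variable {w : ℂ⟦X⟧}

lemma herm_d3 (G : Geo F) (h0 : coeff 0 w = 0) (h1 : coeff 1 w = F.x)
    (h2 : coeff 2 w = (1 - F.x ^ 2) * γ) (k A P Q : ℝ) (z : ℂ) :
    herm (d3 F k A P Q) F.o γ (γ ^ 2) δ
      = k * (1 - Dd w 3 (tc (A * F.x) (P * coeff 2 w + Q * F.x ^ 2) z)) := by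
  have e : (F.x : ℂ) * (A * F.x) + (1 - F.x ^ 2) * γ
      = ((1 : ℝ) : ℂ) * ((1 - F.x ^ 2) * γ) + A * F.x ^ 2 := by
    push_cast
    ring
  simp only [d3, herm_add, herm_pr, lin_e1, lin_t2 G, Dc3 h0, h1, h2, e, iR, norm_mul,
    Complex.norm_real, Real.norm_eq_abs, mul_pow, sq_abs, Int.cast_one]
  rw [show F.x ^ 2 = F.o ^ 2 * F.h ^ 2 by rw [G.xo]; ring]
  push_cast
  ring

lemma herm_d4 (G : Geo F) (h0 : coeff 0 w = 0) (h1 : coeff 1 w = F.x)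
    (h2 : coeff 2 w = (1 - F.x ^ 2) * γ) (h3 : coeff 3 w = (1 - F.x ^ 2) * (δ - F.x * γ ^ 2))
    (k A P Q U V W Y : ℝ) :
    herm (d4 F k A P Q U V W Y) F.o γ (γ ^ 2) δ
      = k * (1 - Dd w 4 (tc (A * F.x) (P * coeff 2 w + Q * F.x ^ 2)
        (U * coeff 3 w + V * F.x * coeff 2 w + W * F.x ^ 3
          + Y * F.x * (1 - F.x ^ 2) * γ ^ 2))) := by
  have e : lin ((t3 F (Cq.i 1) (A + P) Q Cq.z).map (↑)) (F.o : ℂ) γ (γ ^ 2) δ
      = coeff 1 w * (P * coeff 2 w + Q * F.x ^ 2) + coeff 2 w * (A * F.x) + coeff 3 w := by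
    rw [lin_t3 G, h1, h2, h3, iR, zR]
    push_cast
    ring
  rw [d4, herm_add, herm_add, herm_pr, herm_pr, herm_d3 G h0 h1 h2 k A P Q 0, e, lin_t3 G,
    Dc4 h0, Dc3 h0, ← h2, ← h3]
  ring

lemma herm_tp4 (o : ℝ) {τ : ℝ} (τ0 : 0 ≤ τ) (d1 : ‖δ‖ ≤ 1 - ‖γ‖ ^ 2) :
    herm (tp4 o τ) o γ (γ ^ 2) δ ≤ 0 := by
  have h := pow_le_pow_left₀ (norm_nonneg _) d1 2
  have e : herm (tp4 o τ) o γ (γ ^ 2) δ = τ * o ^ 2 * (‖δ‖ ^ 2 - (1 - ‖γ‖ ^ 2) ^ 2) := by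
    simp only [herm, qf, tp4, zR, iR, Complex.sq_norm, Complex.normSq_apply, sq γ, Complex.mul_re,
      Complex.mul_im, Complex.ofReal_re, Complex.ofReal_im]
    push_cast
    ring
  rw [e]
  exact mul_nonpos_of_nonneg_of_nonpos (by positivity) (by linarith)

lemma herm_zp (o l0 l1 l2 : ℝ) {u : ℝ} (u0 : 0 ≤ u) (g1 : ‖γ‖ ≤ 1) (d1 : ‖δ‖ ≤ 1 - ‖γ‖ ^ 2) :
    herm (zp o u l0 l1 l2) o γ (γ ^ 2) δ ≤ 0 := by
  have h := zcon g1 d1 (l0 * o) (l1 * o + l2 * γ)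
  have a1 : lin ((⟨Cq.z, l0 * o, Cq.z, Cq.z⟩ : L4 ℝ).map (↑)) (o : ℂ) γ (γ ^ 2) δ
      = ((l0 * o : ℝ) : ℂ) * γ := by simp [lin, L4.map, zR]
  have a2 : lin ((⟨l1, l2, Cq.z, Cq.z⟩ : L4 ℝ).map (↑)) (o : ℂ) γ (γ ^ 2) δ
      = l1 * o + l2 * γ := by simp [lin, L4.map, zR]
  have a3 : lin ((⟨Cq.z, l1 * o, l2, l0 * o⟩ : L4 ℝ).map (↑)) (o : ℂ) γ (γ ^ 2) δ
      = ((l0 * o : ℝ) : ℂ) * δ + γ * (l1 * o + l2 * γ) := by
    simp only [lin, L4.map, zR]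
    push_cast
    ring
  rw [zp, herm_add, herm_add, herm_add, herm_pr, herm_pr, herm_pr, herm_pr, lin_e1, a1, a2, a3,
    norm_mul, mul_pow, Complex.norm_real, Complex.norm_real, Real.norm_eq_abs, Real.norm_eq_abs,
    sq_abs, sq_abs]
  nlinarith [mul_le_mul_of_nonneg_left h u0]

lemma finish (G : Geo F) {Φ β ρ : ℂ} {Da Db T Hh : ℝ} (e : Φ = β + ρ)
    (m : 2 * ‖β‖ ≤ F.N / F.D * Da + Db / (F.N / F.D)) (r : 2 * (F.N * F.D) * ‖ρ‖ ≤ Hh)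
    (hH : Hh ≤ F.K * F.o ^ 2 + F.D * F.D * (1 - Db) + F.N * F.N * (1 - Da))
    (hK : F.K * F.o ^ 2 = 2 * (F.N * F.D) * T - F.N ^ 2 - F.D ^ 2) : ‖Φ‖ ≤ T := by
  have hN := G.N0
  have hD := G.D0
  have hND : 0 < 2 * (F.N * F.D) := by positivity
  apply le_of_mul_le_mul_left _ hND
  have m2 := mul_le_mul_of_nonneg_left m (mul_pos hN hD).le
  have e3 : F.N * F.D * (F.N / F.D * Da + Db / (F.N / F.D)) = F.N ^ 2 * Da + F.D ^ 2 * Db := by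
    field_simp
  rw [e3] at m2
  have n2 := mul_le_mul_of_nonneg_left (norm_add_le β ρ) hND.le
  rw [← e] at n2
  linarith

lemma herm_Hc (G : Geo F) (h0 : coeff 0 w = 0) (h1 : coeff 1 w = F.x)
    (h2 : coeff 2 w = (1 - F.x ^ 2) * γ) (h3 : coeff 3 w = (1 - F.x ^ 2) * (δ - F.x * γ ^ 2))
    (g1 : ‖γ‖ ≤ 1) (d1 : ‖δ‖ ≤ 1 - ‖γ‖ ^ 2) :
    herm (Hc F) F.o γ (γ ^ 2) δ ≤ F.K * F.o ^ 2
      + F.D * F.D * (1 - Dd w 4 (tc (F.B * F.x) (F.R * coeff 2 w + F.S * F.x ^ 2)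
        (F.U' * coeff 3 w + F.V' * F.x * coeff 2 w + F.W' * F.x ^ 3
          + F.Y' * F.x * (1 - F.x ^ 2) * γ ^ 2))) := by
  rw [Hc, herm_add, herm_add, herm_add, herm_add, herm_pr, lin_e1, herm_d4 G h0 h1 h2 h3,
    Complex.norm_real, Real.norm_eq_abs, sq_abs]
  linarith [herm_tp4 F.o G.τ0 d1, herm_zp F.o F.l0 F.l1 F.l2 G.u0 g1 d1,
    herm_zp F.o F.k0 F.k1 F.k2 G.u1 g1 d1]

theorem core7 (G : Geo F) (hw : Contr w) (h1 : coeff 1 w = F.x) {T : ℝ}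
    (eB : F.B = n16 F.a - F.A) (eR : F.R = n25 F.a - F.P) (eS : F.S = n115 F.a - F.A * F.B - F.Q)
    (eU : F.U' = n34 F.a - F.U) (eV : F.V' = n124 F.a - F.P * F.B - F.A * F.R - F.V)
    (eW : F.W' = n1114 F.a - F.Q * F.B - F.A * F.S - F.W) (eY : F.Y' = -F.Y)
    (hK : F.K * F.o ^ 2 = 2 * (F.N * F.D) * T - F.N ^ 2 - F.D ^ 2)
    (hp : ∀ p q r s, 0 ≤ qf (Mp F (H7 F) (S7 F)) p q r s)
    (hm : ∀ p q r s, 0 ≤ qf (Mm F (H7 F) (S7 F)) p q r s) :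
    ‖Phi7 F.a (coeff 1 w) (coeff 2 w) (coeff 3 w) (coeff 4 w) (coeff 5 w) (coeff 6 w)
      (coeff 7 w)‖ ≤ T := by
  obtain ⟨γ, δ, h2, h3, g1, d1⟩ := schur hw h1 G.x0
  have hc := herm_Hc G hw.1 h1 h2 h3 g1 d1
  have hN := G.N0
  have hD := G.D0
  have r := phase (c := Cq.i 2 * (F.N * F.D)) (by rw [iR]; positivity) hp hm F.o γ (γ ^ 2) δ
  rw [H7, herm_add, herm_d4 G hw.1 h1 h2 h3, iR, Int.cast_ofNat] at r
  refine finish G ?_ (mm_weighted hw (N := 7) (M := 4) (L := 4) rfl (by norm_num) (by norm_num)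
    _ _ (div_pos hN hD)) r (add_le_add hc le_rfl) hK
  have xo : (F.x : ℂ) = F.o * F.h := by exact_mod_cast G.xo
  have hB : (F.B : ℂ) = 13 / 3 * F.a - F.A := by
    rw [eB, n16, qR]; push_cast; ring
  have hR : (F.R : ℂ) = 17 / 5 * F.a - F.P := by
    rw [eR, n25, qR]; push_cast; ring
  have hS : (F.S : ℂ) = 1 + 163 / 15 * F.a ^ 2 - F.A * F.B - F.Q := by
    rw [eS, n115, qR, iR]; push_cast; ring
  have hU : (F.U' : ℂ) = 19 / 6 * F.a - F.U := by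
    rw [eU, n34, qR]; push_cast; ring
  have hV : (F.V' : ℂ) = 2 + 173 / 10 * F.a ^ 2 - F.P * F.B - F.A * F.R - F.V := by
    rw [eV, n124, qR, iR]; push_cast; ring
  have hW : (F.W' : ℂ) = 97 / 18 * F.a + 1891 / 90 * F.a ^ 3 - F.Q * F.B - F.A * F.S - F.W := by
    rw [eW, n1114, qR, qR]; push_cast; ring
  have hY : (F.Y' : ℂ) = -F.Y := by exact_mod_cast eY
  have ht : (F.t : ℂ) = F.x ^ 2 := by exact_mod_cast G.t
  have he : (F.e : ℂ) = 1 - F.x ^ 2 := by exact_mod_cast G.e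
  rw [hom_C.S7, S7]
  erw [qf_shift]
  simp only [qf_add, qf_pr, lin, e1, c2, c22, c3, t22, t3, n223, n133, n1222, n1123, n322, n43,
    n52, n7, qC, iC, zC, Fu.map, beta, Finset.sum_range_succ, range_zero, sum_empty, tc0, tc1, tc2,
    tc3, Phi7, h1, h2, h3, ht, he, Nat.reduceSub, hw.1]
  generalize (F.x : ℂ) = x at *
  subst xo
  push_cast
  linear_combination (-coeff 6 w * (F.o * F.h)) * hB
    - coeff 5 w * ((1 - (F.o * F.h) ^ 2) * γ * hR + (F.o * F.h) ^ 2 * hS)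
    - coeff 4 w * ((1 - (F.o * F.h) ^ 2) * (δ - F.o * F.h * γ ^ 2) * hU
      + (F.o * F.h) * ((1 - (F.o * F.h) ^ 2) * γ) * hV + (F.o * F.h) ^ 3 * hW
      + (F.o * F.h) * (1 - (F.o * F.h) ^ 2) * γ ^ 2 * hY)

lemma mm33 (hw : Contr w) (a1 a2 b1 b2 : ℂ) {mu : ℝ} (hmu : 0 < mu) :
    2 * ‖beta w 6 3 3 (tc a1 a2 0) (tc b1 b2 0)‖
      ≤ mu * Dd w 4 (tc a1 a2 0) + Dd w 4 (tc b1 b2 0) / mu := by
  obtain ⟨ν, hν, h2⟩ := Complex.exists_norm_eq_mul_self (beta w 6 3 3 (tc a1 a2 0) (tc b1 b2 0))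
  obtain ⟨g, hg⟩ : ∃ g, g = coeff 1 w * a2 + coeff 2 w * a1 + coeff 3 w := ⟨_, rfl⟩
  have h := mm_weighted hw (N := 6) (M := 3) (L := 4) rfl (by norm_num) (by norm_num)
    (tc a1 a2 0) (tc b1 b2 (mu * (starRingEnd ℂ) (ν * g))) hmu
  have c1 := Complex.mul_conj' (ν * g)
  have c2 : ‖ν * g‖ = ‖g‖ := by rw [norm_mul, hν, one_mul]
  have e : ν * beta w 6 3 4 (tc a1 a2 0) (tc b1 b2 (mu * (starRingEnd ℂ) (ν * g)))
      = ((‖beta w 6 3 3 (tc a1 a2 0) (tc b1 b2 0)‖ + mu * ‖g‖ ^ 2 : ℝ) : ℂ) := by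
    push_cast
    rw [h2, ← c2, ← c1]
    generalize (starRingEnd ℂ) (ν * g) = k
    simp only [beta, Finset.sum_range_succ, range_zero, sum_empty, tc0, tc1, tc2, tc3,
      Nat.reduceSub, hg]
    ring
  have e2 := congrArg norm e
  rw [norm_mul, hν, one_mul, Complex.norm_real, Real.norm_of_nonneg (by positivity)] at e2
  rw [e2, Dc3 hw.1, Dc4 hw.1, norm_real_mul hmu.le, Complex.norm_conj, c2] at h
  rw [Dc4 hw.1, Dc4 hw.1, ← hg, norm_zero]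
  have e3 : ∀ s t : ℝ, (s + (mu * ‖g‖) ^ 2 - t) / mu = (s + 0 ^ 2 - t) / mu + mu * ‖g‖ ^ 2 := by
    intro s t
    field_simp
    ring
  rw [e3] at h
  linarith

theorem core6 (G : Geo F) (hw : Contr w) (h1 : coeff 1 w = F.x) {T : ℝ}
    (eB : F.B = p15 F.a - F.A) (eR : F.R = p24 F.a - F.P) (eS : F.S = p114 F.a - F.A * F.B - F.Q)
    (eU : F.U' = 0) (eV : F.V' = 0) (eW : F.W' = 0) (eY : F.Y' = 0)
    (hK : F.K * F.o ^ 2 = 2 * (F.N * F.D) * T - F.N ^ 2 - F.D ^ 2)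
    (hp : ∀ p q r s, 0 ≤ qf (Mp F (H6 F) (S6 F)) p q r s)
    (hm : ∀ p q r s, 0 ≤ qf (Mm F (H6 F) (S6 F)) p q r s) :
    ‖Phi6 F.a (coeff 1 w) (coeff 2 w) (coeff 3 w) (coeff 4 w) (coeff 5 w) (coeff 6 w)‖ ≤ T := by
  obtain ⟨γ, δ, h2, h3, g1, d1⟩ := schur hw h1 G.x0
  have hc := herm_Hc G hw.1 h1 h2 h3 g1 d1
  have hN := G.N0
  have hD := G.D0
  have r := phase (c := Cq.i 2 * (F.N * F.D)) (by rw [iR]; positivity) hp hm F.o γ (γ ^ 2) δ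
  rw [H6, herm_add, herm_d4 G hw.1 h1 h2 h3, iR, Int.cast_ofNat, zR] at r
  rw [eU, eV, eW, eY] at hc
  simp only [Complex.ofReal_zero, zero_mul, add_zero] at r hc
  refine finish G ?_ (mm33 hw _ _ _ _ (div_pos hN hD)) r (add_le_add hc le_rfl) hK
  have xo : (F.x : ℂ) = F.o * F.h := by exact_mod_cast G.xo
  have hB : (F.B : ℂ) = 22 / 5 * F.a - F.A := by
    rw [eB, p15, qR]; push_cast; ring
  have hR : (F.R : ℂ) = 7 / 2 * F.a - F.P := by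
    rw [eR, p24, qR]; push_cast; ring
  have hS : (F.S : ℂ) = 1 + 113 / 10 * F.a ^ 2 - F.A * F.B - F.Q := by
    rw [eS, p114, qR, iR]; push_cast; ring
  have ht : (F.t : ℂ) = F.x ^ 2 := by exact_mod_cast G.t
  have he : (F.e : ℂ) = 1 - F.x ^ 2 := by exact_mod_cast G.e
  rw [hom_C.S6, S6]
  erw [qf_shift]
  simp only [qf_add, qf_pr, lin, e1, c2, c22, c3, t2, t22, p33, p222, p123, p1122, p1113, p42,
    p6, qC, iC, zC, Fu.map, beta, Finset.sum_range_succ, range_zero, sum_empty, tc0, tc1, tc2,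
    Phi6, h1, h2, h3, ht, he, Nat.reduceSub, hw.1]
  generalize (F.x : ℂ) = x at *
  subst xo
  push_cast
  linear_combination (-coeff 5 w * (F.o * F.h)) * hB
    - coeff 4 w * ((1 - (F.o * F.h) ^ 2) * γ * hR + (F.o * F.h) ^ 2 * hS)

end Pool.Agent.P.MP_bdc337_an.SI.Rf
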