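import Pool.Agent.P.MP_bdc337_an.SI.V67

/-! The eighth coefficient functional. -/

set_option autoImplicit false

open Finset PowerSeries

namespace Pool.Agent.P.MP_bdc337_an.SI

variable {w : ℂ⟦X⟧}

lemma cm8 (p q : ℂ⟦X⟧) : coeff 8 (p * q)
    = coeff 0 p * coeff 8 q + coeff 1 p * coeff 7 q + coeff 2 p * coeff 6 q + coeff 3 p * coeff 5 q + coeff 4 p * coeff 4 q + coeff 5 p * coeff 3 q + coeff 6 p * coeff 2 q + coeff 7 p * coeff 1 q + coeff 8 p * coeff 0 q := by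
  simp [coeff_mul, Finset.Nat.sum_antidiagonal_eq_sum_range_succ_mk, Finset.sum_range_succ]

lemma KK8 (a : ℝ) (h0 : coeff 0 w = 0) :
    coeff 8 (KK a w) = coeff 8 w
      + (1 * a) * coeff 4 w ^ 2
      + (2 * a) * coeff 3 w * coeff 5 w
      + (2 * a) * coeff 2 w * coeff 6 w
      + (1 + 2 * a ^ 2) * coeff 2 w * coeff 3 w ^ 2
      + (1 + 2 * a ^ 2) * coeff 2 w ^ 2 * coeff 4 w
      + (2 / 3 * a + 1 / 3 * a ^ 3) * coeff 2 w ^ 4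
      + (2 * a) * coeff 1 w * coeff 7 w
      + (2 + 4 * a ^ 2) * coeff 1 w * coeff 3 w * coeff 4 w
      + (2 + 4 * a ^ 2) * coeff 1 w * coeff 2 w * coeff 5 w
      + (8 * a + 4 * a ^ 3) * coeff 1 w * coeff 2 w ^ 2 * coeff 3 w
      + (1 + 2 * a ^ 2) * coeff 1 w ^ 2 * coeff 6 w
      + (4 * a + 2 * a ^ 3) * coeff 1 w ^ 2 * coeff 3 w ^ 2
      + (8 * a + 4 * a ^ 3) * coeff 1 w ^ 2 * coeff 2 w * coeff 4 w
      + (2 + 20 / 3 * a ^ 2 + 4 / 3 * a ^ 4) * coeff 1 w ^ 2 * coeff 2 w ^ 3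
      + (8 / 3 * a + 4 / 3 * a ^ 3) * coeff 1 w ^ 3 * coeff 5 w
      + (4 + 40 / 3 * a ^ 2 + 8 / 3 * a ^ 4) * coeff 1 w ^ 3 * coeff 2 w * coeff 3 w
      + (1 + 10 / 3 * a ^ 2 + 2 / 3 * a ^ 4) * coeff 1 w ^ 4 * coeff 4 w
      + (23 / 3 * a + 20 / 3 * a ^ 3 + 2 / 3 * a ^ 5) * coeff 1 w ^ 4 * coeff 2 w ^ 2
      + (46 / 15 * a + 8 / 3 * a ^ 3 + 4 / 15 * a ^ 5) * coeff 1 w ^ 5 * coeff 3 w
      + (1 + 196 / 45 * a ^ 2 + 14 / 9 * a ^ 4 + 4 / 45 * a ^ 6) * coeff 1 w ^ 6 * coeff 2 w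
      + (44 / 105 * a + 22 / 45 * a ^ 3 + 4 / 45 * a ^ 5 + 1 / 315 * a ^ 7) * coeff 1 w ^ 8 := by
  obtain ⟨k1, k2, k3, k4⟩ := KK_coeffs a h0
  have k5 := KK5 a h0
  have k6 := KK6 a h0
  have k7 := KK7 a h0
  have h := KK_ode a h0
  have K0 := coeff_zero_KK a h0
  have h' : d⁄dX ℂ (KK a w) = w * (w * d⁄dX ℂ (KK a w)) + d⁄dX ℂ w
      + C (2 * a : ℂ) * (KK a w * d⁄dX ℂ w) := by
    have : (C (2 * a : ℂ) : ℂ⟦X⟧) = 2 * C (a : ℂ) := by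
      rw [map_mul]
      rfl
    rw [this]
    linear_combination h
  have e := congrArg (coeff 7) h'
  simp only [map_add, coeff_C_mul, cm0, cm1, cm2, cm3, cm4, cm5, cm6, cm7, coeff_derivative, h0, K0] at e
  norm_num at e
  rw [k1, k2, k3, k4, k5, k6, k7] at e
  linear_combination e / 8

/-- the coefficient functional -/
noncomputable def Phi8 (a c1 c2 c3 c4 c5 c6 c7 c8 : ℂ) : ℂ :=
  c8
      + (3 / 2 * a) * c4 ^ 2
      + (46 / 15 * a) * c3 * c5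
      + (10 / 3 * a) * c2 * c6
      + (1 + 286 / 45 * a ^ 2) * c2 * c3 ^ 2
      + (1 + 20 / 3 * a ^ 2) * c2 ^ 2 * c4
      + (10 / 9 * a + 26 / 9 * a ^ 3) * c2 ^ 4
      + (30 / 7 * a) * c1 * c7
      + (2 + 538 / 35 * a ^ 2) * c1 * c3 * c4
      + (2 + 116 / 7 * a ^ 2) * c1 * c2 * c5
      + (1472 / 105 * a + 12472 / 315 * a ^ 3) * c1 * c2 ^ 2 * c3
      + (1 + 74 / 7 * a ^ 2) * c1 ^ 2 * c6
      + (772 / 105 * a + 2384 / 105 * a ^ 3) * c1 ^ 2 * c3 ^ 2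
      + (313 / 21 * a + 1004 / 21 * a ^ 3) * c1 ^ 2 * c2 * c4
      + (2 + 562 / 21 * a ^ 2 + 2936 / 63 * a ^ 4) * c1 ^ 2 * c2 ^ 3
      + (1672 / 315 * a + 6284 / 315 * a ^ 3) * c1 ^ 3 * c5
      + (4 + 10834 / 189 * a ^ 2 + 100648 / 945 * a ^ 4) * c1 ^ 3 * c2 * c3
      + (1 + 1648 / 105 * a ^ 2 + 3386 / 105 * a ^ 4) * c1 ^ 4 * c4
      + (9089 / 630 * a + 76504 / 945 * a ^ 3 + 98444 / 945 * a ^ 5) * c1 ^ 4 * c2 ^ 2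
      + (9326 / 1575 * a + 1228 / 35 * a ^ 3 + 75004 / 1575 * a ^ 5) * c1 ^ 5 * c3
      + (1 + 55894 / 2835 * a ^ 2 + 38414 / 567 * a ^ 4 + 192352 / 2835 * a ^ 6) * c1 ^ 6 * c2
      + (9004 / 11025 * a + 4396 / 675 * a ^ 3 + 75004 / 4725 * a ^ 5 + 423256 / 33075 * a ^ 7) * c1 ^ 8

lemma V8 (a : ℝ) (h0 : coeff 0 w = 0) {F : ℂ⟦X⟧} (hF0 : coeff 0 F = 1)
    (hF : X * d⁄dX ℂ F = (2 * C (a : ℂ) * KK a w) * F) :
    coeff 8 (KK a w * F) = Phi8 a (coeff 1 w) (coeff 2 w) (coeff 3 w) (coeff 4 w) (coeff 5 w) (coeff 6 w) (coeff 7 w) (coeff 8 w) := by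
  obtain ⟨k1, k2, k3, k4⟩ := KK_coeffs a h0
  obtain ⟨v1, v2, v3, v4⟩ := V_coeffs a h0 hF0 hF
  have k5 := KK5 a h0
  have k6 := KK6 a h0
  have k7 := KK7 a h0
  have k8 := KK8 a h0
  have v5 := V5 a h0 hF0 hF
  have v6 := V6 a h0 hF0 hF
  have v7 := V7 a h0 hF0 hF
  have K0 := coeff_zero_KK a h0
  have h' : X * d⁄dX ℂ F = C (2 * a : ℂ) * (KK a w * F) := by
    have : (C (2 * a : ℂ) : ℂ⟦X⟧) = 2 * C (a : ℂ) := by
      rw [map_mul]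
      rfl
    rw [this, hF]
    ring
  have e1 := congrArg (coeff 1) h'
  have e2 := congrArg (coeff 2) h'
  have e3 := congrArg (coeff 3) h'
  have e4 := congrArg (coeff 4) h'
  have e5 := congrArg (coeff 5) h'
  have e6 := congrArg (coeff 6) h'
  have e7 := congrArg (coeff 7) h'
  rw [coeff_X_mul_deriv, coeff_C_mul] at e1 e2 e3 e4 e5 e6 e7
  rw [v1] at e1
  rw [v2] at e2
  rw [v3] at e3
  rw [v4] at e4
  rw [v5] at e5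
  rw [v6] at e6
  rw [v7] at e7
  push_cast at e1 e2 e3 e4 e5 e6 e7
  rw [cm8, K0, k1, k2, k3, k4, k5, k6, k7, k8, hF0,
    eq_div_of_mul_eq (by norm_num) ((mul_comm _ _).trans e1),
    eq_div_of_mul_eq (by norm_num) ((mul_comm _ _).trans e2),
    eq_div_of_mul_eq (by norm_num) ((mul_comm _ _).trans e3),
    eq_div_of_mul_eq (by norm_num) ((mul_comm _ _).trans e4),
    eq_div_of_mul_eq (by norm_num) ((mul_comm _ _).trans e5),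
    eq_div_of_mul_eq (by norm_num) ((mul_comm _ _).trans e6),
    eq_div_of_mul_eq (by norm_num) ((mul_comm _ _).trans e7)]
  unfold Phi8 Phi7 Phi6
  ring

lemma Phi8_rot (a μ c1 c2 c3 c4 c5 c6 c7 c8 : ℂ) :
    Phi8 a (μ ^ 1 * c1) (μ ^ 2 * c2) (μ ^ 3 * c3) (μ ^ 4 * c4) (μ ^ 5 * c5) (μ ^ 6 * c6) (μ ^ 7 * c7) (μ ^ 8 * c8)
      = μ ^ 8 * Phi8 a c1 c2 c3 c4 c5 c6 c7 c8 := by
  unfold Phi8
  ring

end Pool.Agent.P.MP_bdc337_an.SI
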