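import Pool.Agent.P.MP_bdc337_an.SI.LForm
import Pool.Agent.P.MP_bdc337_an.SI.V8

/-! The certificates for the eighth functional as quadratic forms. -/

set_option autoImplicit false

open Finset PowerSeries

namespace Pool.Agent.P.MP_bdc337_an.SI.Rf

/-- test coefficients -/
structure Z7 (α : Type) where
  (l0 l1 l2 l3 l4 l5 l6 : α)

/-- entrywise map -/
def Z7.map {R S : Type} (g : R → S) (z : Z7 R) : Z7 S :=
  ⟨g z.l0, g z.l1, g z.l2, g z.l3, g z.l4, g z.l5, g z.l6⟩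

/-- all parameters -/
structure G8 (α : Type) where
  (a x o h t e A P Q U V W Y B R S U' V' W' Y' N D K u u' f0 f1 f2 f3 f4 f5 s0 s1 s2 s3 m : α)
  (z0 z1 z2 z3 : Z7 α)

/-- entrywise map -/
def G8.map {R S : Type} (g : R → S) (F : G8 R) : G8 S :=
  ⟨g F.a, g F.x, g F.o, g F.h, g F.t, g F.e, g F.A, g F.P, g F.Q, g F.U, g F.V, g F.W, g F.Y, g F.B, g F.R, g F.S, g F.U', g F.V', g F.W', g F.Y', g F.N, g F.D, g F.K, g F.u, g F.u', g F.f0, g F.f1, g F.f2, g F.f3, g F.f4, g F.f5, g F.s0, g F.s1, g F.s2, g F.s3, g F.m, F.z0.map g, F.z1.map g, F.z2.map g, F.z3.map g⟩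

section
variable {R : Type} [Add R] [Mul R] [Neg R] [Cq R]

/-- coefficient -/
def q44 (a : R) : R := a * (Cq.q 1063125)

/-- coefficient -/
def q35 (a : R) : R := a * (Cq.q 2173500)

/-- coefficient -/
def q26 (a : R) : R := a * (Cq.q 2362500)

/-- coefficient -/
def q233 (a : R) : R := Cq.i 1 + a * a * (Cq.q 4504500)

/-- coefficient -/
def q224 (a : R) : R := Cq.i 1 + a * a * (Cq.q 4725000)

/-- coefficient -/
def q2222 (a : R) : R := a * (Cq.q 787500 + a * a * (Cq.q 2047500))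

/-- coefficient -/
def q17 (a : R) : R := a * (Cq.q 3037500)

/-- coefficient -/
def q134 (a : R) : R := Cq.i 2 + a * a * (Cq.q 10894500)

/-- coefficient -/
def q125 (a : R) : R := Cq.i 2 + a * a * (Cq.q 11745000)

/-- coefficient -/
def q1223 (a : R) : R := a * (Cq.q 9936000 + a * a * (Cq.q 28062000))

/-- coefficient -/
def q116 (a : R) : R := Cq.i 1 + a * a * (Cq.q 7492500)

/-- coefficient -/
def q1133 (a : R) : R := a * (Cq.q 5211000 + a * a * (Cq.q 16092000))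

/-- coefficient -/
def q1124 (a : R) : R := a * (Cq.q 10563750 + a * a * (Cq.q 33885000))

/-- coefficient -/
def q11222 (a : R) : R := Cq.i 2 + a * a * (Cq.q 18967500 + a * a * (Cq.q 33030000))

/-- coefficient -/
def q1115 (a : R) : R := a * (Cq.q 3762000 + a * a * (Cq.q 14139000))

/-- coefficient -/
def q11123 (a : R) : R := Cq.i 4 + a * a * (Cq.q 40627500 + a * a * (Cq.q 75486000))

/-- coefficient -/
def q414 (a : R) : R := Cq.i 1 + a * a * (Cq.q 11124000 + a * a * (Cq.q 22855500))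

/-- coefficient -/
def q422 (a : R) : R := a * (Cq.q 10225125 + a * a * (Cq.q 57378000 + a * a * (Cq.q 73833000)))

/-- coefficient -/
def q53 (a : R) : R := a * (Cq.q 4196700 + a * a * (Cq.q 24867000 + a * a * (Cq.q 33751800)))

/-- coefficient -/
def q62 (a : R) : R := Cq.i 1 + a * a * (Cq.q 13973500 + a * a * (Cq.q 48017500 + a * a * (Cq.q 48088000)))

/-- coefficient -/
def q87 (a : R) : R := a * (Cq.q 4051800 + a * a * (Cq.q 32310600 + a * a * (Cq.q 78754200 + a * a * (Cq.q 63488400))))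

/-- coefficient -/
def q8 (a : R) : R := Cq.q 101250 * q87 a

/-- second test coefficient -/
def s2 (F : G8 R) (P Q : R) : List R := [Q * (F.x * F.h), P * F.e]
/-- third test coefficient -/
def s3 (F : G8 R) (U V W Y : R) : List R :=
  [W * (F.t * F.h), V * (F.x * F.e), (Y + -U) * (F.x * F.e), U * F.e]
/-- fourth coefficient of the product -/
def s4 (F : G8 R) (A P Q U V W Y : R) : List R :=
  [W * (F.t * (F.x * F.h)), (Q + V) * (F.t * F.e), P * (F.e * F.e) + (Y + -U + -A) * (F.t * F.e),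
    (A + U) * (F.x * F.e), F.t * F.e, Cq.i (-2) * (F.x * F.e), F.e]
/-- defect -/
def d5 (F : G8 R) (w A P Q U V W Y : R) : List (R × List R) :=
  [(-w * ((A * A + Cq.i (-1)) * (F.h * F.h)), [Cq.i 1]), (-w, s2 F P Q), (w, s2 F (Cq.i 1) A),
    (-w, s3 F U V W Y), (w, s3 F (Cq.i 1) (A + P) Q Cq.z), (w, s4 F A P Q U V W Y)]
/-- first constraint -/
def zL (o u : R) (z : Z7 R) : List (R × List R) :=
  [(-u, [z.l0]), (-u, [z.l1, z.l2]), (-u, [z.l3, z.l4, z.l5, z.l6]), (u, [Cq.z, z.l0 * o]),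
    (u, [Cq.z, z.l1 * o, z.l2, z.l0 * o]),
    (u, [Cq.z, z.l3 * o, z.l4, z.l1 * o, z.l5, z.l2 + z.l6, z.l0 * o])]
/-- second constraint -/
def tL (o u m k : R) : List (R × List R) :=
  [(-u, [m, k]), (Cq.i 2 * u, [Cq.z, m * o, k]), (-u, [Cq.z, Cq.z, m * o, Cq.z, k]),
    (u, [Cq.z, Cq.z, Cq.z, m * o, Cq.z, k])]
/-- third constraint -/
def eL (o u m : R) : List (R × List R) :=
  [(-u, [m]), (Cq.i 2 * u, [Cq.z, m * o]), (-u, [Cq.z, Cq.z, m * o]),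
    (u, [Cq.z, Cq.z, Cq.z, Cq.z, Cq.z, Cq.z, m * o])]
/-- all constraints -/
def cL (F : G8 R) : List (R × List R) :=
  zL F.o F.u F.z0 ++ (zL F.o F.u F.z1 ++ (zL F.o F.u' F.z2 ++ (zL F.o F.u F.z3 ++
    (tL F.o F.u F.s0 F.s1 ++ (tL F.o F.u F.s2 F.s3 ++ eL F.o F.u F.m)))))
/-- hermitian part -/
def HL8 (F : G8 R) : List (R × List R) :=
  (F.K, [Cq.i 1]) :: (d5 F (F.D * F.D) F.B F.R F.S F.U' F.V' F.W' F.Y' ++
    (d5 F (F.N * F.N) F.A F.P F.Q F.U F.V F.W F.Y ++ cL F))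
/-- hermitian part -/
def H8 (F : G8 R) : LM R := lsum ((HL8 F).map fun t => (t.1, t.2, t.2))
/-- second coefficient -/
def k2 (F : G8 R) : List R := [Cq.z, F.e]
/-- its square -/
def k22 (F : G8 R) : List R := [Cq.z, Cq.z, F.e * F.e]
/-- third coefficient -/
def k3 (F : G8 R) : List R := [Cq.z, Cq.z, -(F.x * F.e), F.e]
/-- fourth coefficient -/
def k4 (F : G8 R) : List R := [Cq.z, Cq.z, Cq.z, Cq.z, F.t * F.e, Cq.i (-2) * (F.x * F.e), F.e]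
/-- second test coefficient times the third coefficient -/
def s23 (F : G8 R) (P Q : R) : List R :=
  [Cq.z, Cq.z, -(Q * (F.t * (F.x * F.e))), Q * (F.t * F.e), -(P * (F.e * (F.x * F.e))),
    P * (F.e * F.e)]
/-- relations between the coordinates -/
def fL (F : G8 R) : List (R × List R × List R) :=
  [(Cq.i 1, [Cq.i 1], [Cq.z, Cq.z, F.f0, Cq.z, F.f1, F.f3]),
    (Cq.i 1, [Cq.z, Cq.i 1], [Cq.z, -(F.f0 * F.o), -(F.f1 * F.o), -(F.f3 * F.o), F.f2, -F.f4]),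
    (Cq.i 1, [Cq.z, Cq.z, Cq.i 1], [Cq.z, Cq.z, -F.f2, F.f4, Cq.z, F.f5]),
    (-F.f5, [Cq.z, Cq.z, Cq.z, Cq.i 1], [Cq.z, Cq.z, Cq.z, Cq.z, Cq.i 1])]
/-- remainder -/
def SL8 (F : G8 R) : List (R × List R × List R) :=
  [(q44 F.a, k4 F, k4 F), (q224 F.a, k22 F, k4 F), (q134 F.a * F.x, k3 F, k4 F),
    (q1124 F.a * F.t, k2 F, k4 F), (q414 F.a * (F.t * (F.x * F.h)), [Cq.i 1], k4 F),
    (q233 F.a, s23 F (Cq.i 1) Cq.z, k3 F), (q1133 F.a * F.t, k3 F, k3 F),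
    (q1223 F.a * F.x, k22 F, k3 F), (q11123 F.a * (F.t * F.x), k2 F, k3 F),
    (q53 F.a * (F.t * (F.t * F.h)), [Cq.i 1], k3 F), (q2222 F.a, k22 F, k22 F),
    (q11222 F.a * F.t, k22 F, k2 F), (q422 F.a * (F.t * F.t), k2 F, k2 F),
    (q62 F.a * (F.t * (F.t * (F.x * F.h))), [Cq.i 1], k2 F),
    (q8 F.a * (F.t * (F.t * (F.t * (F.h * F.h)))), [Cq.i 1], [Cq.i 1]),
    (-(F.A * F.x), k4 F, s3 F F.U' F.V' F.W' F.Y'), (-(F.B * F.x), k4 F, s3 F F.U F.V F.W F.Y),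
    (Cq.i (-1), k4 F, [F.Q * F.S * (F.t * (F.x * F.h)), (F.Q * F.R + F.P * F.S) * (F.t * F.e),
      F.P * F.R * (F.e * F.e)]),
    (Cq.i (-1), s23 F F.P F.Q, s3 F F.U' F.V' F.W' F.Y'),
    (Cq.i (-1), s23 F F.R F.S, s3 F F.U F.V F.W F.Y),
    (-F.e, [Cq.z, F.W * (F.t * F.x), F.V * (F.x * F.e), Cq.z, (F.Y + -F.U) * (F.x * F.e),
      F.U * F.e], s3 F F.U' F.V' F.W' F.Y')] ++ fL F
/-- remainder -/
def S8 (F : G8 R) : LM R := lsum (SL8 F)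

variable {S : Type} [Add S] [Mul S] [Neg S] [Cq S] {g : R → S}

lemma Hom.H8 (h : Hom g) (F : G8 R) : mp g (H8 F) = H8 (F.map g) := by
  rw [Rf.H8, Rf.H8, mp_lsum h.add h.mul]
  simp only [HL8, cL, d5, zL, tL, eL, s2, s3, s4, List.map, List.cons_append, List.nil_append,
    G8.map, Z7.map, h.add, h.mul, h.neg, h.i, h.z]

lemma Hom.S8 (h : Hom g) (F : G8 R) : mp g (S8 F) = S8 (F.map g) := by
  rw [Rf.S8, Rf.S8, mp_lsum h.add h.mul]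
  simp only [SL8, fL, k2, k22, k3, k4, s23, s3, q8, q44, q35, q26, q233, q224, q2222, q17, q134, q125, q1223, q116, q1133, q1124, q11222, q1115, q11123, q414, q422, q53, q62, q87, List.map, List.cons_append,
    List.nil_append, G8.map, h.add, h.mul, h.neg, h.i, h.z, h.q]

end

/-- quartic test series -/
noncomputable def t5 (u x y z r : ℂ) : ℂ⟦X⟧ := PowerSeries.mk fun k =>
  if k = 0 then u else if k = 1 then x else if k = 2 then y else if k = 3 then z else r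

lemma t50 (u x y z r : ℂ) : coeff 0 (t5 u x y z r) = u := by simp [t5]
lemma t51 (u x y z r : ℂ) : coeff 1 (t5 u x y z r) = x := by simp [t5]
lemma t52 (u x y z r : ℂ) : coeff 2 (t5 u x y z r) = y := by simp [t5]
lemma t53 (u x y z r : ℂ) : coeff 3 (t5 u x y z r) = z := by simp [t5]
lemma t54 (u x y z r : ℂ) : coeff 4 (t5 u x y z r) = r := by simp [t5]

variable {w : ℂ⟦X⟧}

lemma D54 (h0 : coeff 0 w = 0) (u x y z r : ℂ) : Dd w 4 (t5 u x y z r)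
    = ‖u‖ ^ 2 + ‖x‖ ^ 2 + ‖y‖ ^ 2 + ‖z‖ ^ 2 - ‖coeff 1 w * u‖ ^ 2
      - ‖coeff 1 w * x + coeff 2 w * u‖ ^ 2
      - ‖coeff 1 w * y + coeff 2 w * x + coeff 3 w * u‖ ^ 2 := by
  simp only [Dd, nsq, Finset.sum_range_succ, range_zero, sum_empty, cm0, cm1, cm2, cm3, t50, t51,
    t52, t53, h0, zero_mul, zero_add, norm_zero]
  ring

lemma D55 (h0 : coeff 0 w = 0) (u x y z r : ℂ) : Dd w 5 (t5 u x y z r)
    = Dd w 4 (t5 u x y z 0) + ‖r‖ ^ 2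
      - ‖coeff 1 w * z + coeff 2 w * y + coeff 3 w * x + coeff 4 w * u‖ ^ 2 := by
  rw [Dd_succ, D54 h0, D54 h0, cm4, t50, t51, t52, t53, t54, h0]
  simp only [zero_mul, zero_add]
  ring

lemma swap_sq (x : ℝ) (b g : ℂ) :
    ‖b + x * g‖ ^ 2 - ‖x * b + g‖ ^ 2 = (1 - x ^ 2) * (‖b‖ ^ 2 - ‖g‖ ^ 2) := by
  simp only [Complex.sq_norm, Complex.normSq_apply, Complex.add_re, Complex.add_im,
    Complex.re_ofReal_mul, Complex.im_ofReal_mul]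
  ring

/-- contraction property of three coefficients -/
def Con3 (γ δ η : ℂ) : Prop := ∀ b0 b1 b2 : ℂ, ‖γ * b0‖ ^ 2 + ‖δ * b0 + γ * b1‖ ^ 2
  + ‖η * b0 + δ * b1 + γ * b2‖ ^ 2 ≤ ‖b0‖ ^ 2 + ‖b1‖ ^ 2 + ‖b2‖ ^ 2

theorem schur3 (hw : Contr w) {x : ℝ} (hx : coeff 1 w = x) (x0 : 0 ≤ x) :
    ∃ γ δ η : ℂ, coeff 2 w = (1 - x ^ 2) * γ ∧ coeff 3 w = (1 - x ^ 2) * (δ - x * γ ^ 2) ∧
      coeff 4 w = (1 - x ^ 2) * (η - 2 * x * γ * δ + x ^ 2 * γ ^ 3) ∧ Con3 γ δ η := by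
  have x1 := w1_le hw
  have D5 : ∀ b, 0 ≤ Dd w 5 b := fun b => by
    have h := mm hw (N := 5) (M := 1) (L := 5) rfl le_rfl (by norm_num) 0 b
    have e : Dd w 1 0 = 0 := by simp [Dd, nsq]
    rw [e, zero_add] at h
    exact le_trans (by positivity) h
  have nx : ‖coeff 1 w‖ = x := by rw [hx, Complex.norm_real, Real.norm_of_nonneg x0]
  rw [nx] at x1
  have e0 : 0 ≤ 1 - x ^ 2 := by nlinarith
  rcases e0.eq_or_lt with e | e
  · have h := D5 (t5 1 0 0 0 0)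
    rw [D55 hw.1, D54 hw.1] at h
    simp only [norm_zero, mul_zero, zero_add, mul_one, norm_one, nx] at h
    have a2 := sq_nonneg ‖coeff 2 w‖
    have a3 := sq_nonneg ‖coeff 3 w‖
    have a4 := sq_nonneg ‖coeff 4 w‖
    have c2 : ‖coeff 2 w‖ ^ 2 = 0 := by linarith
    have c3 : ‖coeff 3 w‖ ^ 2 = 0 := by linarith
    have c4 : ‖coeff 4 w‖ ^ 2 = 0 := by linarith
    refine ⟨0, 0, 0, by simpa using c2, by simpa using c3, by simpa using c4, fun b0 b1 b2 => ?_⟩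
    have : (0 : ℝ) ≤ ‖b0‖ ^ 2 + ‖b1‖ ^ 2 + ‖b2‖ ^ 2 := by positivity
    simpa using this
  have eC : (1 - x ^ 2 : ℂ) ≠ 0 := by exact_mod_cast e.ne'
  obtain ⟨γ, hγ⟩ : ∃ γ, coeff 2 w = (1 - x ^ 2) * γ := ⟨_, (mul_div_cancel₀ _ eC).symm⟩
  obtain ⟨δ, hδ⟩ : ∃ δ, coeff 3 w = (1 - x ^ 2) * (δ - x * γ ^ 2) :=
    ⟨coeff 3 w / (1 - x ^ 2) + x * γ ^ 2, by field_simp; ring⟩
  obtain ⟨η, hη⟩ : ∃ η, coeff 4 w = (1 - x ^ 2) * (η - 2 * x * γ * δ + x ^ 2 * γ ^ 3) :=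
    ⟨coeff 4 w / (1 - x ^ 2) + 2 * x * γ * δ - x ^ 2 * γ ^ 3, by field_simp; ring⟩
  refine ⟨γ, δ, η, hγ, hδ, hη, fun b0 b1 b2 => ?_⟩
  have h := D5 (t5 b0 (b1 + x * (γ * b0)) (b2 + x * (δ * b0 + γ * b1))
    (x * (η * b0 + δ * b1 + γ * b2)) 0)
  have e1 : coeff 1 w * (b1 + x * (γ * b0)) + coeff 2 w * b0 = x * b1 + γ * b0 := by
    rw [hx, hγ]
    ring
  have e2 : coeff 1 w * (b2 + x * (δ * b0 + γ * b1)) + coeff 2 w * (b1 + x * (γ * b0))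
      + coeff 3 w * b0 = x * b2 + (δ * b0 + γ * b1) := by
    rw [hx, hγ, hδ]
    ring
  have e3 : coeff 1 w * (x * (η * b0 + δ * b1 + γ * b2)) + coeff 2 w * (b2 + x * (δ * b0 + γ * b1))
      + coeff 3 w * (b1 + x * (γ * b0)) + coeff 4 w * b0 = η * b0 + δ * b1 + γ * b2 := by
    rw [hx, hγ, hδ, hη]
    ring
  rw [D55 hw.1, D54 hw.1, e1, e2, e3, norm_mul (coeff 1 w), nx, norm_real_mul x0, norm_zero] at h
  have s1 := swap_sq x b1 (γ * b0)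
  have s2 := swap_sq x b2 (δ * b0 + γ * b1)
  refine sub_nonneg.1 (nonneg_of_mul_nonneg_right (a := 1 - x ^ 2) ?_ e)
  linarith

lemma two_level {γ δ : ℂ} (g1 : ‖γ‖ ≤ 1)
    (h : ∀ β : ℂ, ‖γ‖ ^ 2 + ‖δ + γ * β‖ ^ 2 ≤ 1 + ‖β‖ ^ 2) : ‖δ‖ ≤ 1 - ‖γ‖ ^ 2 := by
  refine pick_real (norm_nonneg _) g1 fun k => ?_
  have h := h (k * ((starRingEnd ℂ) γ * δ))
  have e4 : δ + γ * (k * ((starRingEnd ℂ) γ * δ)) = ((1 + k * ‖γ‖ ^ 2 : ℝ) : ℂ) * δ := by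
    have := Complex.mul_conj' γ
    push_cast
    linear_combination k * δ * this
  rw [e4] at h
  simp only [norm_mul, Complex.norm_real, Complex.norm_conj, mul_pow, Real.norm_eq_abs,
    sq_abs] at h
  linarith

variable {γ δ η : ℂ}

lemma Con3.g (h : Con3 γ δ η) : ‖γ‖ ≤ 1 := by
  have := h 0 0 1
  simp only [mul_zero, add_zero, zero_add, norm_zero, mul_one, norm_one] at this
  nlinarith [norm_nonneg γ]

lemma Con3.d (h : Con3 γ δ η) : ‖δ‖ ≤ 1 - ‖γ‖ ^ 2 := two_level h.g fun β => by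
  simpa using h 0 1 β

lemma Con3.e (h : Con3 γ δ η) : ‖η‖ ≤ 1 - ‖γ‖ ^ 2 := two_level h.g fun β => by
  have := h 1 0 β
  simp only [mul_zero, add_zero, norm_zero, mul_one, norm_one] at this
  linarith [sq_nonneg ‖δ‖]

/-- weighted sum of squares -/
noncomputable def hs (v : List ℂ) (l : List (ℝ × List ℝ)) : ℝ :=
  (l.map fun t => t.1 * ‖dot (t.2.map (↑)) v‖ ^ 2).sum

lemma hs_append (v : List ℂ) (l k : List (ℝ × List ℝ)) : hs v (l ++ k) = hs v l + hs v k := by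
  simp [hs]

lemma hs_zL (h : Con3 γ δ η) (o : ℝ) {u : ℝ} (u0 : 0 ≤ u) (z : Z7 ℝ) (r : List ℂ) :
    hs (o :: γ :: γ ^ 2 :: δ :: γ ^ 3 :: γ * δ :: η :: r) (zL o u z) ≤ 0 := by
  have h := mul_le_mul_of_nonneg_left
    (h (z.l0 * o) (z.l1 * o + z.l2 * γ) (z.l3 * o + z.l4 * γ + z.l5 * γ ^ 2 + z.l6 * δ)) u0
  simp only [hs, zL, List.map, dot, zR, List.sum_cons, List.sum_nil, nil_dot]
  push_cast
  ring_nf at h ⊢
  linarith

lemma sq_con {γ δ q : ℂ} (d1 : ‖δ‖ ≤ 1 - ‖γ‖ ^ 2) {u : ℝ} (u0 : 0 ≤ u) :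
    -u * ‖q‖ ^ 2 + (2 * u * ‖γ * q‖ ^ 2 + (-u * ‖γ ^ 2 * q‖ ^ 2 + u * ‖δ * q‖ ^ 2)) ≤ 0 := by
  have h := mul_le_mul_of_nonneg_left (pow_le_pow_left₀ (norm_nonneg _) d1 2)
    (mul_nonneg u0 (sq_nonneg ‖q‖))
  simp only [norm_mul, norm_pow]
  linarith

lemma hs_tL (h : Con3 γ δ η) (o : ℝ) {u : ℝ} (u0 : 0 ≤ u) (m k : ℝ) (r : List ℂ) :
    hs (o :: γ :: γ ^ 2 :: δ :: γ ^ 3 :: γ * δ :: η :: r) (tL o u m k) ≤ 0 := by
  have h := sq_con (q := m * o + k * γ) h.d u0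
  simp only [hs, tL, List.map, dot, zR, iR, List.sum_cons, List.sum_nil, nil_dot]
  push_cast
  ring_nf at h ⊢
  linarith

lemma hs_eL (h : Con3 γ δ η) (o : ℝ) {u : ℝ} (u0 : 0 ≤ u) (m : ℝ) (r : List ℂ) :
    hs (o :: γ :: γ ^ 2 :: δ :: γ ^ 3 :: γ * δ :: η :: r) (eL o u m) ≤ 0 := by
  have h := sq_con (q := m * o) h.e u0
  simp only [hs, eL, List.map, dot, zR, iR, List.sum_cons, List.sum_nil, nil_dot]
  push_cast
  ring_nf at h ⊢
  linarith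

/-- geometric relations -/
structure Geo8 (F : G8 ℝ) : Prop where
  x0 : 0 ≤ F.x
  xo : F.x = F.o * F.h
  t : F.t = F.x ^ 2
  e : F.e = 1 - F.x ^ 2
  u0 : 0 ≤ F.u
  u1 : 0 ≤ F.u'
  N0 : 0 < F.N
  D0 : 0 < F.D

variable {F : G8 ℝ}

lemma hs_cL (G : Geo8 F) (h : Con3 γ δ η) (r : List ℂ) :
    hs (F.o :: γ :: γ ^ 2 :: δ :: γ ^ 3 :: γ * δ :: η :: r) (cL F) ≤ 0 := by
  simp only [cL, hs_append]
  linarith [hs_zL h F.o G.u0 F.z0 r, hs_zL h F.o G.u0 F.z1 r, hs_zL h F.o G.u1 F.z2 r,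
    hs_zL h F.o G.u0 F.z3 r, hs_tL h F.o G.u0 F.s0 F.s1 r, hs_tL h F.o G.u0 F.s2 F.s3 r,
    hs_eL h F.o G.u0 F.m r]

lemma hs_d5 (G : Geo8 F) (h0 : coeff 0 w = 0) (h1 : coeff 1 w = F.x)
    (h2 : coeff 2 w = (1 - F.x ^ 2) * γ) (h3 : coeff 3 w = (1 - F.x ^ 2) * (δ - F.x * γ ^ 2))
    (h4 : coeff 4 w = (1 - F.x ^ 2) * (η - 2 * F.x * γ * δ + F.x ^ 2 * γ ^ 3))
    (k A P Q U V W Y : ℝ) (r : List ℂ) :
    hs (F.o :: γ :: γ ^ 2 :: δ :: γ ^ 3 :: γ * δ :: η :: r) (d5 F k A P Q U V W Y)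
      = k * (1 - Dd w 5 (t5 1 (A * F.x) (P * coeff 2 w + Q * F.x ^ 2)
        (U * coeff 3 w + V * F.x * coeff 2 w + W * F.x ^ 3
          + Y * F.x * (1 - F.x ^ 2) * γ ^ 2) 0)) := by
  have n1 : ‖(A : ℂ) * F.x‖ ^ 2 = A ^ 2 * (F.o * F.h) ^ 2 := by
    rw [norm_mul, Complex.norm_real, Complex.norm_real, mul_pow, Real.norm_eq_abs,
      Real.norm_eq_abs, sq_abs, sq_abs, G.xo]
  have n2 : ‖(F.x : ℂ) * 1‖ ^ 2 = (F.o * F.h) ^ 2 := by
    rw [mul_one, Complex.norm_real, Real.norm_eq_abs, sq_abs, G.xo]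
  have n3 : ‖((1 : ℝ) : ℂ) * F.o + 0‖ ^ 2 = F.o ^ 2 := by simp
  rw [D55 h0, D54 h0, h1, h2, h3, h4, n1, n2]
  simp only [hs, d5, s2, s3, s4, List.map, dot, zR, iR, List.sum_cons, List.sum_nil, nil_dot,
    Int.cast_one, n3, G.t, G.e, norm_one, norm_zero]
  rw [G.xo]
  push_cast
  ring_nf

lemma mm44 (hw : Contr w) (a1 a2 a3 b1 b2 b3 : ℂ) {mu : ℝ} (hmu : 0 < mu) :
    2 * ‖beta w 8 4 4 (t5 1 a1 a2 a3 0) (t5 1 b1 b2 b3 0)‖
      ≤ mu * Dd w 5 (t5 1 a1 a2 a3 0) + Dd w 5 (t5 1 b1 b2 b3 0) / mu := by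
  obtain ⟨ν, hν, h2⟩ :=
    Complex.exists_norm_eq_mul_self (beta w 8 4 4 (t5 1 a1 a2 a3 0) (t5 1 b1 b2 b3 0))
  obtain ⟨g, hg⟩ : ∃ g, g = coeff 1 w * a3 + coeff 2 w * a2 + coeff 3 w * a1 + coeff 4 w * 1 :=
    ⟨_, rfl⟩
  have h := mm_weighted hw (N := 8) (M := 4) (L := 5) rfl (by norm_num) (by norm_num)
    (t5 1 a1 a2 a3 0) (t5 1 b1 b2 b3 (mu * (starRingEnd ℂ) (ν * g))) hmu
  have c1 := Complex.mul_conj' (ν * g)
  have c2 : ‖ν * g‖ = ‖g‖ := by rw [norm_mul, hν, one_mul]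
  have e : ν * beta w 8 4 5 (t5 1 a1 a2 a3 0) (t5 1 b1 b2 b3 (mu * (starRingEnd ℂ) (ν * g)))
      = ((‖beta w 8 4 4 (t5 1 a1 a2 a3 0) (t5 1 b1 b2 b3 0)‖ + mu * ‖g‖ ^ 2 : ℝ) : ℂ) := by
    push_cast
    rw [h2, ← c2, ← c1]
    generalize (starRingEnd ℂ) (ν * g) = k
    simp only [beta, Finset.sum_range_succ, range_zero, sum_empty, t50, t51, t52, t53, t54,
      Nat.reduceSub, hg]
    ring
  have e2 := congrArg norm e
  rw [norm_mul, hν, one_mul, Complex.norm_real, Real.norm_of_nonneg (by positivity)] at e2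
  rw [e2, D55 hw.1, norm_real_mul hmu.le, Complex.norm_conj, c2] at h
  rw [D55 hw.1, D55 hw.1, ← hg, norm_zero]
  have e3 : ∀ s t : ℝ, (s + (mu * ‖g‖) ^ 2 - t) / mu = (s + 0 ^ 2 - t) / mu + mu * ‖g‖ ^ 2 := by
    intro s t
    field_simp
    ring
  rw [e3] at h
  linarith

lemma finish8 {N D K o : ℝ} (hN : 0 < N) (hD : 0 < D) {Φ β ρ : ℂ} {Da Db T Hh : ℝ} (e : Φ = β + ρ)
    (m : 2 * ‖β‖ ≤ N / D * Da + Db / (N / D)) (r : 2 * (N * D) * ‖ρ‖ ≤ Hh)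
    (hH : Hh ≤ K * o ^ 2 + (D * D * (1 - Db) + N * N * (1 - Da)))
    (hK : K * o ^ 2 = 2 * (N * D) * T - N ^ 2 - D ^ 2) : ‖Φ‖ ≤ T := by
  have hND : 0 < 2 * (N * D) := by positivity
  apply le_of_mul_le_mul_left _ hND
  have m2 := mul_le_mul_of_nonneg_left m (mul_pos hN hD).le
  have e3 : N * D * (N / D * Da + Db / (N / D)) = N ^ 2 * Da + D ^ 2 * Db := by
    field_simp
  rw [e3] at m2
  have n2 := mul_le_mul_of_nonneg_left (norm_add_le β ρ) hND.le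
  rw [← e] at n2
  linarith

theorem core8 (G : Geo8 F) (hw : Contr w) (h1 : coeff 1 w = F.x) {T : ℝ}
    (eB : F.B = q17 F.a - F.A) (eR : F.R = q26 F.a - F.P) (eS : F.S = q116 F.a - F.A * F.B - F.Q)
    (eU : F.U' = q35 F.a - F.U) (eV : F.V' = q125 F.a - F.P * F.B - F.A * F.R - F.V)
    (eW : F.W' = q1115 F.a - F.Q * F.B - F.A * F.S - F.W) (eY : F.Y' = -F.Y)
    (hK : F.K * F.o ^ 2 = 2 * (F.N * F.D) * T - F.N ^ 2 - F.D ^ 2)
    (hp : ∀ v, 0 ≤ lq (lad (H8 F) (mp (Cq.i 2 * (F.N * F.D) * ·) (S8 F))) v)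
    (hm : ∀ v, 0 ≤ lq (lad (H8 F) (mp (-(Cq.i 2 * (F.N * F.D)) * ·) (S8 F))) v) :
    ‖Phi8 F.a (coeff 1 w) (coeff 2 w) (coeff 3 w) (coeff 4 w) (coeff 5 w) (coeff 6 w)
      (coeff 7 w) (coeff 8 w)‖ ≤ T := by
  obtain ⟨γ, δ, η, h2, h3, h4, hc⟩ := schur3 hw h1 G.x0
  have r := phaseL hp hm [F.o, γ, γ ^ 2, δ, γ ^ 3, γ * δ, η]
  rw [H8, hermL_lsum, iR, Int.cast_ofNat] at r
  refine finish8 G.N0 G.D0 ?_ (mm44 hw (F.A * F.x) (F.P * coeff 2 w + F.Q * F.x ^ 2)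
    (F.U * coeff 3 w + F.V * F.x * coeff 2 w + F.W * F.x ^ 3 + F.Y * F.x * (1 - F.x ^ 2) * γ ^ 2)
    (F.B * F.x) (F.R * coeff 2 w + F.S * F.x ^ 2)
    (F.U' * coeff 3 w + F.V' * F.x * coeff 2 w + F.W' * F.x ^ 3
      + F.Y' * F.x * (1 - F.x ^ 2) * γ ^ 2) (div_pos G.N0 G.D0)) r ?_ hK
  · have xo : (F.x : ℂ) = F.o * F.h := by exact_mod_cast G.xo
    have hB : (F.B : ℂ) = 30 / 7 * F.a - F.A := by
      rw [eB, q17, qR]; push_cast; ring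
    have hR : (F.R : ℂ) = 10 / 3 * F.a - F.P := by
      rw [eR, q26, qR]; push_cast; ring
    have hS : (F.S : ℂ) = 1 + 74 / 7 * F.a ^ 2 - F.A * F.B - F.Q := by
      rw [eS, q116, qR, iR]; push_cast; ring
    have hU : (F.U' : ℂ) = 46 / 15 * F.a - F.U := by
      rw [eU, q35, qR]; push_cast; ring
    have hV : (F.V' : ℂ) = 2 + 116 / 7 * F.a ^ 2 - F.P * F.B - F.A * F.R - F.V := by
      rw [eV, q125, qR, iR]; push_cast; ring
    have hW : (F.W' : ℂ)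
        = 1672 / 315 * F.a + 6284 / 315 * F.a ^ 3 - F.Q * F.B - F.A * F.S - F.W := by
      rw [eW, q1115, qR, qR]; push_cast; ring
    have hY : (F.Y' : ℂ) = -F.Y := by exact_mod_cast eY
    have ht : (F.t : ℂ) = F.x ^ 2 := by exact_mod_cast G.t
    have he : (F.e : ℂ) = 1 - F.x ^ 2 := by exact_mod_cast G.e
    rw [hom_C.S8, S8, lq_lsum]
    simp only [SL8, fL, k2, k22, k3, k4, s23, s3, q8, q44, q35, q26, q233, q224, q2222, q17, q134, q125, q1223, q116, q1133, q1124, q11222, q1115, q11123, q414, q422, q53, q62, q87, List.map, List.cons_append,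
      List.nil_append, G8.map, qC, iC, zC, dot, nil_dot, List.sum_cons, List.sum_nil, beta,
      Finset.sum_range_succ, range_zero, sum_empty, t50, t51, t52, t53, Phi8, h1, h2, h3, h4, ht,
      he, Nat.reduceSub]
    generalize (F.x : ℂ) = x at *
    subst xo
    push_cast
    linear_combination (-coeff 7 w * (F.o * F.h)) * hB
      - coeff 6 w * ((1 - (F.o * F.h) ^ 2) * γ * hR + (F.o * F.h) ^ 2 * hS)
      - coeff 5 w * ((1 - (F.o * F.h) ^ 2) * (δ - F.o * F.h * γ ^ 2) * hU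
        + (F.o * F.h) * ((1 - (F.o * F.h) ^ 2) * γ) * hV + (F.o * F.h) ^ 3 * hW
        + (F.o * F.h) * (1 - (F.o * F.h) ^ 2) * γ ^ 2 * hY)
  · have a := hs_cL G hc []
    have b := hs_d5 G hw.1 h1 h2 h3 h4
    have c : ‖dot ([(Cq.i 1 : ℝ)].map (↑)) [(F.o : ℂ), γ, γ ^ 2, δ, γ ^ 3, γ * δ, η]‖ ^ 2
        = F.o ^ 2 := by simp [dot, iR]
    rw [HL8, List.map_cons, List.sum_cons, c, ← hs, hs_append, hs_append, b, b]
    linarith

end Pool.Agent.P.MP_bdc337_an.SI.Rf
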