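import Pool.Agent.P.MP_bdc337_an.SI.Build8
import Pool.Agent.P.MP_bdc337_an.SI.V9

/-! The certificates for the ninth functional as quadratic forms. -/

set_option autoImplicit false

open Finset PowerSeries

namespace Pool.Agent.P.MP_bdc337_an.SI.Rf

/-- all parameters -/
structure G9 (α : Type) where
  (F : G8 α)
  (E p q : Z7 α)

/-- entrywise map -/
def G9.map {R S : Type} (g : R → S) (G : G9 R) : G9 S :=
  ⟨G.F.map g, G.E.map g, G.p.map g, G.q.map g⟩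

/-- the entries -/
def Z7.ls {R : Type} (z : Z7 R) : List R := [z.l0, z.l1, z.l2, z.l3, z.l4, z.l5, z.l6]

section
variable {R : Type} [Add R] [Mul R] [Neg R] [Cq R]

/-- coefficient -/
def r45 (a : R) : R := a * (Cq.q 2055375)

/-- coefficient -/
def r36 (a : R) : R := a * (Cq.i 3)

/-- coefficient -/
def r333 (a : R) : R := Cq.q 236250 + a * a * (Cq.q 1338750)

/-- coefficient -/
def r27 (a : R) : R := a * (Cq.q 2328750)

/-- coefficient -/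
def r234 (a : R) : R := Cq.i 2 + a * a * (Cq.q 8413875)

/-- coefficient -/
def r225 (a : R) : R := Cq.i 1 + a * a * (Cq.q 4515750)

/-- coefficient -/
def r2223 (a : R) : R := a * (Cq.q 3037500 + a * a * (Cq.q 7209000))

/-- coefficient -/
def r18 (a : R) : R := a * (Cq.q 354375 * (Cq.q 6024375))

/-- coefficient -/
def r144 (a : R) : R := Cq.i 1 + a * a * (Cq.q 354375 * (Cq.q 354375 * (Cq.q 20341125)))

/-- coefficient -/
def r135 (a : R) : R := Cq.i 2 + a * a * (Cq.q 10418625)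

/-- coefficient -/
def r126 (a : R) : R := Cq.i 2 + a * a * (Cq.q 11390625)

/-- coefficient -/
def r1233 (a : R) : R := a * (Cq.q 354375 * (Cq.q 19186875) + a * a * (Cq.q 24667875))

/-- coefficient -/
def r1224 (a : R) : R := a * (Cq.q 354375 * (Cq.q 19450125) + a * a * (Cq.q 25899750))

/-- coefficient -/
def r12222 (a : R) : R := Cq.i 1 + a * a * (Cq.q 8312625 + a * a * (Cq.q 12625875))

/-- coefficient -/
def r117 (a : R) : R := Cq.i 1 + a * a * (Cq.q 7340625)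

/-- coefficient -/
def r1134 (a : R) : R := a * (Cq.q 10206000 + a * a * (Cq.q 29706750))

/-- coefficient -/
def r1125 (a : R) : R := a * (Cq.q 10408500 + a * a * (Cq.q 32096250))

/-- coefficient -/
def r11223 (a : R) : R := Cq.i 6 + a * a * (Cq.q 53470125 + a * a * (Cq.q 86130000))

/-- coefficient -/
def r1116 (a : R) : R := a * (Cq.q 354375 * (Cq.q 7441875) + a * a * (Cq.q 13618125))

/-- coefficient -/
def r11133 (a : R) : R := Cq.i 2 + a * a * (Cq.q 19098000 + a * a * (Cq.q 32762250))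

/-- coefficient -/
def r11124 (a : R) : R := Cq.i 4 + a * a * (Cq.q 354375 * (Cq.q 78094125) + a * a * (Cq.q 68991750))

/-- coefficient -/
def r3222 (a : R) : R := a * (Cq.q 12973500 + a * a * (Cq.q 64938375 + a * a * (Cq.q 74443500)))

/-- coefficient -/
def r415 (a : R) : R := Cq.i 1 + a * a * (Cq.q 10813500 + a * a * (Cq.q 21485250))

/-- coefficient -/
def r423 (a : R) : R := a * (Cq.q 19976625 + a * a * (Cq.q 105484500 + a * a * (Cq.q 127005750)))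

/-- coefficient -/
def r54 (a : R) : R := a * (Cq.q 354375 * (Cq.q 8264025) + a * a * (Cq.q 23520375 + a * a * (Cq.q 30591675)))

/-- coefficient -/
def r522 (a : R) : R := Cq.i 3 + a * a * (Cq.q 354375 * (Cq.q 354375 * (Cq.q 153351225)) + a * a * (Cq.q 119187000 + a * a * (Cq.q 108086850)))

/-- coefficient -/
def r63 (a : R) : R := Cq.i 1 + a * a * (Cq.q 13343475 + a * a * (Cq.q 43326750 + a * a * (Cq.q 40985400)))

/-- coefficient -/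
def r72 (a : R) : R := a * (Cq.q 50625 * (Cq.q 62505675) + a * a * (Cq.q 32680500 + a * a * (Cq.q 72926925 + a * a * (Cq.q 101250 * (Cq.q 377493000)))))

/-- coefficient -/
def r9 (a : R) : R := Cq.q 78750 + a * a * (Cq.q 33750 * (Cq.q 37649200) + a * a * (Cq.q 7937300 + a * a * (Cq.q 13661800 + a * a * (Cq.q 33750 * (Cq.q 176884700)))))

/-- first constraint -/
def zL9 (o u : R) (z : Z7 R) (l : R) : List (R × List R) :=
  [(-u, [z.l0]), (-u, [z.l1, z.l2, Cq.z, l]), (-u, [z.l3, z.l4, z.l5, z.l6]),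
    (u, [Cq.z, z.l0 * o]), (u, [Cq.z, z.l1 * o, z.l2, z.l0 * o, Cq.z, l]),
    (u, [Cq.z, z.l3 * o, z.l4, z.l1 * o, z.l5, z.l2 + z.l6, z.l0 * o, l])]
/-- all constraints -/
def cL9 (F : G8 R) (E : Z7 R) : List (R × List R) :=
  zL9 F.o F.u F.z0 E.l3 ++ (zL9 F.o F.u F.z1 E.l4 ++ (zL9 F.o F.u F.z2 E.l5 ++
    (zL9 F.o F.u F.z3 E.l6 ++ (tL F.o F.u F.s0 F.s1 ++ (tL F.o F.u F.s2 F.s3 ++ eL F.o F.u F.m)))))
/-- hermitian part -/
def HL9 (G : G9 R) : List (R × List R) :=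
  (G.F.K, [Cq.i 1]) :: (-(G.F.D * G.F.D), G.q.ls) :: (-(G.F.N * G.F.N), G.p.ls) ::
    (d5 G.F (G.F.D * G.F.D) G.F.B G.F.R G.F.S G.F.U' G.F.V' G.F.W' G.F.Y' ++
    (d5 G.F (G.F.N * G.F.N) G.F.A G.F.P G.F.Q G.F.U G.F.V G.F.W G.F.Y ++ cL9 G.F G.E))
/-- hermitian part -/
def H9 (G : G9 R) : LM R := lsum ((HL9 G).map fun t => (t.1, t.2, t.2))
/-- product of a second and a third test coefficient -/
def s5 (F : G8 R) (P Q U V W Y : R) : List R :=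
  [Q * W * (F.t * (F.t * F.h)), (Q * V + P * W) * (F.t * (F.x * F.e)),
    (Q * (Y + -U) * F.t + P * V * F.e) * (F.x * F.e), Q * U * (F.t * F.e),
    P * (Y + -U) * (F.e * (F.x * F.e)), P * U * (F.e * F.e)]
/-- third test coefficient times the first Schur coefficient -/
def s32 (F : G8 R) (U V W Y : R) : List R :=
  [Cq.z, W * (F.t * F.x), V * (F.x * F.e), Cq.z, (Y + -U) * (F.x * F.e), U * F.e]
/-- a cubic term -/
def cub (w x b c b' c' : R) : List (R × List R × List R) :=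
  [(w, [Cq.z, Cq.z, Cq.z, Cq.z, Cq.i 1],
      [Cq.z, Cq.z, Cq.z, Cq.z, -(x * (b * b')), b * b' + -(x * (b * c' + c * b'))]),
    (w * (b * c' + c * b' + -(x * (c * c'))), [Cq.z, Cq.z, Cq.z, Cq.z, Cq.z, Cq.i 1],
      [Cq.z, Cq.z, Cq.z, Cq.z, Cq.z, Cq.i 1]),
    (w * (c * c'), [Cq.z, Cq.z, Cq.z, Cq.i 1], [Cq.z, Cq.z, Cq.z, Cq.z, Cq.z, Cq.z, Cq.z, Cq.i 1])]
/-- more relations between the coordinates -/
def fL9 (o : R) (E : Z7 R) : List (R × List R × List R) :=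
  [(Cq.i 1, [E.l0, E.l1, E.l2], [Cq.z, Cq.z, Cq.z, Cq.z, Cq.z, Cq.z, Cq.z, Cq.i 1]),
    (Cq.i (-1), [Cq.z, Cq.z, Cq.z, Cq.i 1], [Cq.z, Cq.z, Cq.z, E.l0 * o, Cq.z, E.l1]),
    (-E.l2, [Cq.z, Cq.z, Cq.z, Cq.z, Cq.z, Cq.i 1], [Cq.z, Cq.z, Cq.z, Cq.z, Cq.z, Cq.i 1])]
/-- remainder -/
def SL9 (F : G8 R) (E : Z7 R) (p q : List R) : List (R × List R × List R) :=
  [(r234 F.a, s23 F (Cq.i 1) Cq.z, k4 F), (r2223 F.a, k22 F, s23 F (Cq.i 1) Cq.z),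
    (r144 F.a * F.x, k4 F, k4 F), (r1233 F.a * F.x, s23 F (Cq.i 1) Cq.z, k3 F),
    (r1224 F.a * F.x, k22 F, k4 F), (r12222 F.a * F.x, k22 F, k22 F),
    (r1134 F.a * F.t, k3 F, k4 F), (r11223 F.a * F.t, k22 F, k3 F),
    (r11133 F.a * (F.t * F.x), k3 F, k3 F), (r11124 F.a * (F.t * F.x), k2 F, k4 F),
    (r3222 F.a * (F.t * F.x), k22 F, k2 F), (r423 F.a * (F.t * F.t), k2 F, k3 F),
    (r54 F.a * (F.t * (F.t * F.h)), [Cq.i 1], k4 F), (r522 F.a * (F.t * (F.t * F.x)), k2 F, k2 F),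
    (r63 F.a * (F.t * (F.t * (F.x * F.h))), [Cq.i 1], k3 F),
    (r72 F.a * (F.t * (F.t * (F.t * F.h))), [Cq.i 1], k2 F),
    (r9 F.a * (F.t * (F.t * (F.t * (F.x * (F.h * F.h))))), [Cq.i 1], [Cq.i 1]),
    (-(F.A * F.x), k4 F, q), (-(F.B * F.x), k4 F, p),
    (Cq.i (-1), k4 F, s5 F F.P F.Q F.U' F.V' F.W' F.Y'),
    (Cq.i (-1), k4 F, s5 F F.R F.S F.U F.V F.W F.Y),
    (Cq.i (-1), s23 F F.P F.Q, q), (Cq.i (-1), s23 F F.R F.S, p),
    (-F.x, s23 F F.V' F.W', s3 F F.U F.V F.W F.Y),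
    (-F.x, s23 F F.V F.W, [Cq.z, Cq.z, (F.Y' + -F.U') * (F.x * F.e), F.U' * F.e]),
    (-F.e, s32 F F.U F.V F.W F.Y, q), (-F.e, s32 F F.U' F.V' F.W' F.Y', p), (-F.x, p, q)]
  ++ (cub (r333 F.a * F.e) F.x (-(F.x * F.e)) F.e (-(F.x * F.e)) F.e
  ++ (cub (-F.e) F.x ((F.Y + -F.U) * (F.x * F.e)) (F.U * F.e) ((F.Y' + -F.U') * (F.x * F.e))
    (F.U' * F.e) ++ (fL F ++ fL9 F.o E)))
/-- remainder -/
def S9 (G : G9 R) : LM R := lsum (SL9 G.F G.E G.p.ls G.q.ls)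
/-- the sum of the two fourth test coefficients -/
def T9 (F : G8 R) : Z7 R :=
  ⟨(r415 F.a + -(F.Q * F.S) + -(F.A * F.W') + -(F.B * F.W)) * (F.t * (F.x * F.h)),
    (r1125 F.a + -(F.Q * F.R) + -(F.P * F.S) + -(F.A * F.V') + -(F.B * F.V)) * (F.t * F.e),
    (r225 F.a + -(F.P * F.R)) * (F.e * F.e)
      + -((r135 F.a + F.A * (F.Y' + -F.U') + F.B * (F.Y + -F.U)) * (F.t * F.e)),
    (r135 F.a + -(F.A * F.U') + -(F.B * F.U)) * (F.x * F.e), r45 F.a * (F.t * F.e),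
    Cq.i (-2) * (r45 F.a * (F.x * F.e)), r45 F.a * F.e⟩

variable {S : Type} [Add S] [Mul S] [Neg S] [Cq S] {g : R → S}

lemma Hom.H9 (h : Hom g) (G : G9 R) : mp g (H9 G) = H9 (G.map g) := by
  rw [Rf.H9, Rf.H9, mp_lsum h.add h.mul]
  simp only [HL9, cL9, d5, zL9, tL, eL, s2, s3, s4, Z7.ls, List.map, List.cons_append,
    List.nil_append, G9.map, G8.map, Z7.map, h.add, h.mul, h.neg, h.i, h.z]

lemma Hom.S9 (h : Hom g) (G : G9 R) : mp g (S9 G) = S9 (G.map g) := by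
  rw [Rf.S9, Rf.S9, mp_lsum h.add h.mul]
  simp only [SL9, fL, fL9, cub, k2, k22, k3, k4, s23, s3, s5, s32, Z7.ls, r45, r36, r333, r27, r234, r225, r2223, r18, r144, r135, r126, r1233, r1224, r12222, r117, r1134, r1125, r11223, r1116, r11133, r11124, r3222, r415, r423, r54, r522, r63, r72, r9,
    List.map, List.cons_append, List.nil_append, G9.map, G8.map, Z7.map, h.add, h.mul, h.neg, h.i,
    h.z, h.q]

lemma Hom.T9 (h : Hom g) (F : G8 R) : (T9 F).map g = T9 (F.map g) := by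
  simp only [Rf.T9, Z7.map, G8.map, r415, r1125, r225, r135, r45, h.add, h.mul, h.neg, h.i, h.q]

end

variable {w : ℂ⟦X⟧} {γ δ η : ℂ}

lemma hs_zL9 (h : Con3 γ δ η) (o : ℝ) {u : ℝ} (u0 : 0 ≤ u) (z : Z7 ℝ) (l : ℝ) :
    hs [(o : ℂ), γ, γ ^ 2, δ, γ ^ 3, γ * δ, η, δ ^ 2] (zL9 o u z l) ≤ 0 := by
  have h := mul_le_mul_of_nonneg_left (h (z.l0 * o) (z.l1 * o + z.l2 * γ + l * δ)
    (z.l3 * o + z.l4 * γ + z.l5 * γ ^ 2 + z.l6 * δ)) u0
  simp only [hs, zL9, List.map, dot, zR, List.sum_cons, List.sum_nil, nil_dot]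
  push_cast
  ring_nf at h ⊢
  linarith

lemma hs_cL9 {F : G8 ℝ} (G : Geo8 F) (h : Con3 γ δ η) (E : Z7 ℝ) :
    hs [(F.o : ℂ), γ, γ ^ 2, δ, γ ^ 3, γ * δ, η, δ ^ 2] (cL9 F E) ≤ 0 := by
  simp only [cL9, hs_append]
  linarith [hs_zL9 h F.o G.u0 F.z0 E.l3, hs_zL9 h F.o G.u0 F.z1 E.l4, hs_zL9 h F.o G.u0 F.z2 E.l5,
    hs_zL9 h F.o G.u0 F.z3 E.l6, hs_tL h F.o G.u0 F.s0 F.s1 [δ ^ 2],
    hs_tL h F.o G.u0 F.s2 F.s3 [δ ^ 2], hs_eL h F.o G.u0 F.m [δ ^ 2]]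

lemma hs_cons (v : List ℂ) (c : ℝ) (l : List ℝ) (L : List (ℝ × List ℝ)) :
    hs v ((c, l) :: L) = c * ‖dot (l.map (↑)) v‖ ^ 2 + hs v L := rfl

lemma D5r (h0 : coeff 0 w = 0) (u x y z r : ℂ) :
    Dd w 5 (t5 u x y z r) = Dd w 5 (t5 u x y z 0) + ‖r‖ ^ 2 := by
  rw [D55 h0, D55 h0, norm_zero]
  ring

lemma half_sum (T p : Z7 ℝ) (v0 v1 v2 v3 v4 v5 v6 v7 : ℂ) :
    dot ((⟨T.l0 - p.l0, T.l1 - p.l1, T.l2 - p.l2, T.l3 - p.l3, T.l4 - p.l4, T.l5 - p.l5,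
      T.l6 - p.l6⟩ : Z7 ℝ).ls.map (↑)) [v0, v1, v2, v3, v4, v5, v6, v7]
      = dot (T.ls.map (↑)) [v0, v1, v2, v3, v4, v5, v6, v7]
        - dot (p.ls.map (↑)) [v0, v1, v2, v3, v4, v5, v6, v7] := by
  simp only [Z7.ls, List.map, dot]
  push_cast
  ring

theorem core9 {G : G9 ℝ} {F : G8 ℝ} (hF : G.F = F) (Ge : Geo8 F) (hw : Contr w)
    (h1 : coeff 1 w = F.x) {T : ℝ}
    (eB : F.B = r18 F.a - F.A) (eR : F.R = r27 F.a - F.P) (eS : F.S = r117 F.a - F.A * F.B - F.Q)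
    (eU : F.U' = r36 F.a - F.U) (eV : F.V' = r126 F.a - F.P * F.B - F.A * F.R - F.V)
    (eW : F.W' = r1116 F.a - F.Q * F.B - F.A * F.S - F.W) (eY : F.Y' = -F.Y)
    (eq : G.q = ⟨(T9 F).l0 - G.p.l0, (T9 F).l1 - G.p.l1, (T9 F).l2 - G.p.l2, (T9 F).l3 - G.p.l3,
      (T9 F).l4 - G.p.l4, (T9 F).l5 - G.p.l5, (T9 F).l6 - G.p.l6⟩)
    (hK : F.K * F.o ^ 2 = 2 * (F.N * F.D) * T - F.N ^ 2 - F.D ^ 2)
    (hp : ∀ v, 0 ≤ lq (lad (H9 G) (mp (Cq.i 2 * (F.N * F.D) * ·) (S9 G))) v)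
    (hm : ∀ v, 0 ≤ lq (lad (H9 G) (mp (-(Cq.i 2 * (F.N * F.D)) * ·) (S9 G))) v) :
    ‖Phi9 F.a (coeff 1 w) (coeff 2 w) (coeff 3 w) (coeff 4 w) (coeff 5 w) (coeff 6 w)
      (coeff 7 w) (coeff 8 w) (coeff 9 w)‖ ≤ T := by
  obtain ⟨γ, δ, η, h2, h3, h4, hc⟩ := schur3 hw h1 Ge.x0
  have r := phaseL hp hm [F.o, γ, γ ^ 2, δ, γ ^ 3, γ * δ, η, δ ^ 2]
  rw [H9, hermL_lsum, iR, Int.cast_ofNat] at r
  obtain ⟨a4, ha⟩ : ∃ a4, dot (G.p.ls.map (↑)) [(F.o : ℂ), γ, γ ^ 2, δ, γ ^ 3, γ * δ, η, δ ^ 2]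
    = a4 := ⟨_, rfl⟩
  obtain ⟨b4, hb⟩ : ∃ b4, dot (G.q.ls.map (↑)) [(F.o : ℂ), γ, γ ^ 2, δ, γ ^ 3, γ * δ, η, δ ^ 2]
    = b4 := ⟨_, rfl⟩
  refine finish8 Ge.N0 Ge.D0 ?_ (mm_weighted hw (N := 9) (M := 5) (L := 5) rfl (by norm_num)
    (by norm_num) (t5 1 (F.A * F.x) (F.P * coeff 2 w + F.Q * F.x ^ 2)
    (F.U * coeff 3 w + F.V * F.x * coeff 2 w + F.W * F.x ^ 3 + F.Y * F.x * (1 - F.x ^ 2) * γ ^ 2)
    a4) (t5 1 (F.B * F.x) (F.R * coeff 2 w + F.S * F.x ^ 2)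
    (F.U' * coeff 3 w + F.V' * F.x * coeff 2 w + F.W' * F.x ^ 3
      + F.Y' * F.x * (1 - F.x ^ 2) * γ ^ 2) b4) (div_pos Ge.N0 Ge.D0)) r ?_ hK
  · have xo : (F.x : ℂ) = F.o * F.h := by exact_mod_cast Ge.xo
    have hB : (F.B : ℂ) = 17 / 4 * F.a - F.A := by
      rw [eB, r18, qR, qR]; push_cast; ring
    have hR : (F.R : ℂ) = 23 / 7 * F.a - F.P := by
      rw [eR, r27, qR]; push_cast; ring
    have hS : (F.S : ℂ) = 1 + 145 / 14 * F.a ^ 2 - F.A * F.B - F.Q := by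
      rw [eS, r117, qR, iR]; push_cast; ring
    have hU : (F.U' : ℂ) = 3 * F.a - F.U := by
      rw [eU, r36, iR]; push_cast; ring
    have hV : (F.V' : ℂ) = 2 + 225 / 14 * F.a ^ 2 - F.P * F.B - F.A * F.R - F.V := by
      rw [eV, r126, qR, iR]; push_cast; ring
    have hW : (F.W' : ℂ)
        = 21 / 4 * F.a + 269 / 14 * F.a ^ 3 - F.Q * F.B - F.A * F.S - F.W := by
      rw [eW, r1116, qR, qR, qR]; push_cast; ring
    have hY : (F.Y' : ℂ) = -F.Y := by exact_mod_cast eY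
    have ht : (F.t : ℂ) = F.x ^ 2 := by exact_mod_cast Ge.t
    have he : (F.e : ℂ) = 1 - F.x ^ 2 := by exact_mod_cast Ge.e
    have hT := hb
    rw [eq, half_sum, ha] at hT
    simp only [T9, Z7.ls, List.map, dot, r415, r1125, r225, r135, r45, qR, iR] at hT
    push_cast at hT
    rw [ht, he] at hT
    have ha' : dot (G.p.map (↑)).ls [(F.o : ℂ), γ, γ ^ 2, δ, γ ^ 3, γ * δ, η, δ ^ 2] = a4 := ha
    have hb' : dot (G.q.map (↑)).ls [(F.o : ℂ), γ, γ ^ 2, δ, γ ^ 3, γ * δ, η, δ ^ 2] = b4 := hb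
    rw [hom_C.S9, S9, lq_lsum]
    simp only [G9.map, hF, SL9, List.map, List.cons_append, List.nil_append, ha', hb', cub, fL,
      fL9]
    simp only [k2, k22, k3, k4, s23, s3, s5, s32, r45, r36, r333, r27, r234, r225, r2223, r18, r144, r135, r126, r1233, r1224, r12222, r117, r1134, r1125, r11223, r1116, r11133, r11124, r3222, r415, r423, r54, r522, r63, r72, r9,
      G8.map, Z7.map, qC, iC, zC, dot, List.sum_cons, List.sum_nil, beta,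
      Finset.sum_range_succ, range_zero, sum_empty, t50, t51, t52, t53, t54, Phi9, h1, h2, h3, h4,
      ht, he, Nat.reduceSub]
    generalize (F.x : ℂ) = x at *
    subst xo
    push_cast
    linear_combination (-coeff 8 w * (F.o * F.h)) * hB
      - coeff 7 w * ((1 - (F.o * F.h) ^ 2) * γ * hR + (F.o * F.h) ^ 2 * hS)
      - coeff 6 w * ((1 - (F.o * F.h) ^ 2) * (δ - F.o * F.h * γ ^ 2) * hU
        + (F.o * F.h) * ((1 - (F.o * F.h) ^ 2) * γ) * hV + (F.o * F.h) ^ 3 * hW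
        + (F.o * F.h) * (1 - (F.o * F.h) ^ 2) * γ ^ 2 * hY) + coeff 5 w * hT
  · have a := hs_cL9 Ge hc G.E
    have b := hs_d5 Ge hw.1 h1 h2 h3 h4
    have c : ‖dot ([(Cq.i 1 : ℝ)].map (↑)) [(F.o : ℂ), γ, γ ^ 2, δ, γ ^ 3, γ * δ, η, δ ^ 2]‖ ^ 2
        = F.o ^ 2 := by simp [dot, iR]
    rw [← hs, HL9, hF, hs_cons, hs_cons, hs_cons, c, ha, hb, hs_append, hs_append, b, b,
      D5r hw.1 _ _ _ _ a4, D5r hw.1 _ _ _ _ b4]
    linarith

end Pool.Agent.P.MP_bdc337_an.SI.Rf
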