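import Pool.Agent.P.MP_bdc337_an.SI.Box8

/-! Certificates. -/

set_option autoImplicit false

namespace Pool.Agent.P.MP_bdc337_an.SI.Rf

/-- certificate -/
def b8A : P8 (List (List ℤ) × ℕ) :=
  ⟨([], 0),
    ([], 0),
    ([], 0),
    ([[-177597, 2111130], [-192591]], 1),
    ([[-121842, 1445409], [100926]], 1),
    ([[588357, -494613, 2366595], [101052, -160965], [26145]], 1),
    ([[566874, -504756], [195426]], 1),
    ([[848673, 2339127, 3562020], [-1655640, 12600], [-27405]], 1),
    ([[-645498, 1379259, 28728, 1998234], [1266111, 34776, 344925], [-14364, -56070]], 1),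
    ([[-920934, 663831], [1573173]], 1),
    ([[354375]], 1),
    ([[], [-173061, -1262268], [1081584]], 1),
    ([], 0),
    ([[1]], 0),
    ([[1], [-1]], 0),
    ([[1], [-1]], 0),
    ([[-403893, 667548], [1392741, -667548], [-988848]], 1),
    ([[90594, -37296], [-660429, 37296], [569835]], 1),
    ([[-11340, 97020], [-990171, -97020], [1001511]], 1),
    ([[-346878, 611289], [1392048, -611289], [-1045170]], 1),
    ([[462609, -1500786], [-2357775, 1500786], [1895166]], 1),
    ([[249984, -340830], [-695772, 340830], [445788]], 1),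
    ([[74340, -160461], [-64890]], 1),
    ([[29295, -362502], [69174]], 1),
    ([[-33264, 61299], [58086]], 1),
    ([[-12789, 269640], [-52983]], 1),
    ([[-52542, 127197], [-567]], 1),
    ⟨([[-670572, 1463238], [-165375]], 1),
    ([[35658, -154413], [-20538]], 1),
    ([[-548982, 780129], [173250]], 1),
    ([[-9387, 101808], [-106722]], 1),
    ([[-80892, 139041], [38808]], 1),
    ([[219240, -450135], [207018]], 1),
    ([[-212184, 147357], [81774]], 1)⟩,
    ⟨([[535752, -1143324], [57015]], 1),
    ([[-177345, 408681], [22617]], 1),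
    ([[317079, -431487], [-120897]], 1),
    ([[-158634, 406413], [-121275]], 1),
    ([[-117432, 152397], [29673]], 1),
    ([[135702, 81585], [-85491]], 1),
    ([[-89334, 138096], [-98091]], 1)⟩,
    ⟨([[304164, -876204], [66717]], 1),
    ([[-131985, 233100], [-36288]], 1),
    ([[-318402, 590562], [-79758]], 1),
    ([[-7938, 84168], [-154350]], 1),
    ([[18711, -331317], [98154]], 1),
    ([[-408303, 942417], [63063]], 1),
    ([[179298, -236502], [-381213]], 1)⟩,
    ⟨([[-80514, 219807], [-93177]], 1),
    ([[70812, -152397], [18648]], 1),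
    ([[-86058, 107604], [89586]], 1),
    ([[-45864, -40761], [210609]], 1),
    ([[-202671, 604485], [-16695]], 1),
    ([[35217, 179928], [-285705]], 1),
    ([[-8946, -140175], [226548]], 1)⟩⟩

theorem b8A_1 {x a : ℝ} (x0 : 0 ≤ 708750 * x) (x1 : 708750 * x < 212625)
    (a0 : 236250 ≤ 708750 * a) (a1 : 708750 * a < 294131) : Good8 a x :=
  box8 18 8 22 true 0 (212625) 236250 57881 b8A (by decide +kernel)
    (In.up (by push_cast; linarith) (by push_cast; linarith))
    (In.up (by push_cast; linarith) (by push_cast; linarith))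

theorem b8A_2 {x a : ℝ} (x0 : 212625 ≤ 708750 * x) (x1 : 708750 * x < 425250)
    (a0 : 236250 ≤ 708750 * a) (a1 : 708750 * a < 294131) : Good8 a x :=
  box8 18 8 22 true 212625 (212625) 236250 57881 b8A (by decide +kernel)
    (In.up (by push_cast; linarith) (by push_cast; linarith))
    (In.up (by push_cast; linarith) (by push_cast; linarith))

theorem b8A_ok {x a : ℝ} (x0 : 0 ≤ 708750 * x) (x1 : 708750 * x < 425250)
    (a0 : 236250 ≤ 708750 * a) (a1 : 708750 * a < 294131) : Good8 a x :=
  (lt_or_ge (708750 * x) 212625).elim (fun h => b8A_1 x0 h a0 a1) fun h => b8A_2 h x1 a0 a1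

/-- certificate -/
def b8D1 : P8 (List (List ℤ) × ℕ) :=
  ⟨([], 0),
    ([], 0),
    ([], 0),
    ([[2465253, -4119066], [-305487]], 1),
    ([[-1345176, 4343283], [237258]], 1),
    ([[5806710, -22133097, 24542217], [-1239903, 2430036], [65835]], 1),
    ([[840987, -1309203], [198009]], 1),
    ([[-912870, 17271702, -21811356], [-583884, -3250170], [-102249]], 1),
    ([[847476, -20323800, 62091099, -45520965], [866565, 4775148, -5207202], [76419, -141057]], 1),
    ([[-1874691, 3254454], [1432683]], 1),
    ([[354375]], 1),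
    ([[-328356, 805896], [-21042]], 1),
    ([[1]], 0),
    ([[1]], 0),
    ([[1], [-1]], 0),
    ([[1], [-1]], 0),
    ([[-15309, 3465], [355950, -3465], [-340641]], 1),
    ([[146286, -282492], [-378756, 282492], [232470]], 1),
    ([[-23121, 174762], [-976437, -174762], [999558]], 1),
    ([[-236061, 558747], [564858, -558747], [-328797]], 1),
    ([[-71001, -236187], [-1700181, 236187], [1771182]], 1),
    ([[130536, -175896], [-397845, 175896], [267309]], 1),
    ([[203427, -462483], [-54999]], 1),
    ([[-76860, 133875], [-20034]], 1),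
    ([[-262395, 594594], [85617]], 1),
    ([[-455931, 610155], [189252]], 1),
    ([[205443, -493920], [-252]], 1),
    ⟨([[-111006, 255780], [110502]], 1),
    ([[-400869, 978579], [-14238]], 1),
    ([[-780066, 2162349], [-93114]], 1),
    ([[-240156, 609273], [-70749]], 1),
    ([[995778, -2417373], [11277]], 1),
    ([[-24696, -212247], [204498]], 1),
    ([[265860, -354375], [-154098]], 1)⟩,
    ⟨([[-2359854, 5692302], [126189]], 1),
    ([[-187488, 454734], [29610]], 1),
    ([[816669, -1576638], [-121779]], 1),
    ([[236691, -607068], [84357]], 1),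
    ([[-716373, 1681785], [99603]], 1),
    ([[-656523, 1605114], [-281358]], 1),
    ([[1151262, -2359728], [-248283]], 1)⟩,
    ⟨([[294399, -744345], [-68040]], 1),
    ([[-81018, 204750], [-36225]], 1),
    ([[95067, -566370], [40950]], 1),
    ([[227997, -557739], [-22680]], 1),
    ([[424494, -1062999], [-126]], 1),
    ([[-806967, 1416114], [288414]], 1),
    ([[1411641, -3270015], [-38304]], 1)⟩,
    ⟨([[418761, -1029231], [47187]], 1),
    ([[275436, -701946], [158508]], 1),
    ([[-111951, 288414], [175140]], 1),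
    ([[-62181, 43659], [198387]], 1),
    ([[213948, -184905], [-93114]], 1),
    ([[681471, -1700496], [-228753]], 1),
    ([[-219618, 406539], [457191]], 1)⟩⟩

theorem b8D1_2 {x a : ℝ} (x0 : 0 ≤ 708750 * x) (x1 : 708750 * x < 106312)
    (a0 : 294131 ≤ 708750 * a) (a1 : 708750 * a < 333112) : Good8 a x :=
  box8 20 8 22 false 0 (106312) 294131 38981 b8D1 (by decide +kernel)
    (In.up (by push_cast; linarith) (by push_cast; linarith))
    (In.up (by push_cast; linarith) (by push_cast; linarith))

theorem b8D1_3 {x a : ℝ} (x0 : 106312 ≤ 708750 * x) (x1 : 708750 * x < 212625)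
    (a0 : 294131 ≤ 708750 * a) (a1 : 708750 * a < 333112) : Good8 a x :=
  box8 20 8 22 false 106312 (106313) 294131 38981 b8D1 (by decide +kernel)
    (In.up (by push_cast; linarith) (by push_cast; linarith))
    (In.up (by push_cast; linarith) (by push_cast; linarith))

theorem b8D1_1 {x a : ℝ} (x0 : 0 ≤ 708750 * x) (x1 : 708750 * x < 212625)
    (a0 : 294131 ≤ 708750 * a) (a1 : 708750 * a < 333112) : Good8 a x :=
  (lt_or_ge (708750 * x) 106312).elim (fun h => b8D1_2 x0 h a0 a1) fun h => b8D1_3 h x1 a0 a1

theorem b8D1_4 {x a : ℝ} (x0 : 212625 ≤ 708750 * x) (x1 : 708750 * x < 425250)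
    (a0 : 294131 ≤ 708750 * a) (a1 : 708750 * a < 333112) : Good8 a x :=
  box8 20 8 22 false 212625 (212625) 294131 38981 b8D1 (by decide +kernel)
    (In.up (by push_cast; linarith) (by push_cast; linarith))
    (In.up (by push_cast; linarith) (by push_cast; linarith))

theorem b8D1_ok {x a : ℝ} (x0 : 0 ≤ 708750 * x) (x1 : 708750 * x < 425250)
    (a0 : 294131 ≤ 708750 * a) (a1 : 708750 * a < 333112) : Good8 a x :=
  (lt_or_ge (708750 * x) 212625).elim (fun h => b8D1_1 x0 h a0 a1) fun h => b8D1_4 h x1 a0 a1

/-- certificate -/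
def b8D2 : P8 (List (List ℤ) × ℕ) :=
  ⟨([], 0),
    ([], 0),
    ([], 0),
    ([[-1678950, 2757510], [1527876]], 1),
    ([[-771624, 2792160], [569205]], 1),
    ([[2591190, -3674979, 3201597], [-3726072, 2670444], [1646820]], 1),
    ([[1093995, -1608138], [-77427]], 1),
    ([[3482136, -5773509, 6156864], [-4523715, 4467582], [1227051]], 1),
    ([[-1685439, 356706, 4993947, 208971], [2412018, 5972904, -5722416], [-230076, -3528945]], 1),
    ([[-953757, 1479240], [1061991]], 1),
    ([[354375]], 1),
    ([[-354690, 783090], [-4221]], 1),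
    ([[1]], 0),
    ([[1]], 0),
    ([[1], [-1]], 0),
    ([[1], [-1]], 0),
    ([[-282051, 580734], [647073, -580734], [-365022]], 1),
    ([[124488, -188937], [-314370, 188937], [189882]], 1),
    ([[651798, -1129653], [-1957410, 1129653], [1305612]], 1),
    ([[-557361, 1225917], [777546, -1225917], [-220185]], 1),
    ([[226674, -808668], [-2487492, 808668], [2260818]], 1),
    ([[138915, -48006], [-606627, 48006], [467712]], 1),
    ([[1029672, -2066967], [-550998]], 1),
    ([[365337, -603855], [-108549]], 1),
    ([[139104, -288981], [-39879]], 1),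
    ([[272286, -571473], [-7245]], 1),
    ([[61299, -94437], [-56259]], 1),
    ⟨([[209412, -334971], [-10710]], 1),
    ([[-2709, 11529], [2205]], 1),
    ([[-438984, 1389969], [-29358]], 1),
    ([[172116, -293076], [-67662]], 1),
    ([[-269325, 447300], [95382]], 1),
    ([[-402003, 1197756], [34524]], 1),
    ([[-139923, 508410], [-382032]], 1)⟩,
    ⟨([[-1217160, 3070368], [-67221]], 1),
    ([[-783720, 1633590], [55377]], 1),
    ([[454293, -609021], [54243]], 1),
    ([[98280, -241479], [63630]], 1),
    ([[-11025, -146853], [144207]], 1),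
    ([[-48636, -114030], [111825]], 1),
    ([[-164619, 244818], [172179]], 1)⟩,
    ⟨([[-844200, 2180808], [27594]], 1),
    ([[49707, -115731], [203490]], 1),
    ([[603729, -1442574], [79443]], 1),
    ([[-223587, 397845], [79506]], 1),
    ([[581049, -1096515], [-71505]], 1),
    ([[-177597, 737604], [-435708]], 1),
    ([[-145215, 228942], [-90783]], 1)⟩,
    ⟨([[-165942, 360738], [83160]], 1),
    ([[595161, -1274994], [46494]], 1),
    ([[-665973, 1847286], [9954]], 1),
    ([[-218421, 371952], [228942]], 1),
    ([[214137, -266679], [85176]], 1),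
    ([[-76860, 132426], [-314748]], 1),
    ([[-96264, 452214], [-10395]], 1)⟩⟩

theorem b8D2_ok {x a : ℝ} (x0 : 0 ≤ 708750 * x) (x1 : 708750 * x < 425250)
    (a0 : 333112 ≤ 708750 * a) (a1 : 708750 * a < 425250) : Good8 a x :=
  box8 20 8 22 false 0 (425250) 333112 92138 b8D2 (by decide +kernel)
    (In.up (by push_cast; linarith) (by push_cast; linarith))
    (In.up (by push_cast; linarith) (by push_cast; linarith))

end Pool.Agent.P.MP_bdc337_an.SI.Rf
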