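import Pool.Agent.P.MP_bdc337_an.SI.Box8

/-! Certificates. -/

set_option autoImplicit false

namespace Pool.Agent.P.MP_bdc337_an.SI.Rf

/-- certificate -/
def b8I0 : P8 (List (List ℤ) × ℕ) :=
  ⟨([], 0),
    ([], 0),
    ([], 0),
    ([[40383, 1411893], [16002]], 1),
    ([[-419958, 1184274], [616644]], 1),
    ([[403452, -488880, 2127069], [368487, -2394], [189]], 1),
    ([[869337, 273357], [-847854]], 1),
    ([[-206073, 1367730, 3340764], [918288, -92925], [13923]], 1),
    ([[308322, 1914696, 85806, 2511495], [-634914, -68292, 5166], [8316, -378]], 1),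
    ([[-1304667, 242109], [1623195]], 1),
    ([[354375]], 1),
    ([[70875, -180495], [-64575]], 1),
    ([], 0),
    ([[1]], 0),
    ([[1], [-1]], 0),
    ([[1], [-1]], 0),
    ([[-1682730, 2445408], [3319281, -2445408], [-1636551]], 1),
    ([[385308, -1007181], [-785169, 1007181], [399861]], 1),
    ([[-1754928, -1586214], [4325013, 1586214], [-2570085]], 1),
    ([[-716373, 1855854], [1269765, -1855854], [-553392]], 1),
    ([[-2326401, -2607696], [5938569, 2607696], [-3612168]], 1),
    ([[191268, -157689], [-373968, 157689], [182700]], 1),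
    ([[-281799, 685881], [29799]], 1),
    ([[313110, -170289], [-209034]], 1),
    ([[158697, -348831], [-12474]], 1),
    ([[9702, 249732], [-97335]], 1),
    ([[-23436, 57330], [-63]], 1),
    ⟨([[319851, -432810], [-212814]], 1),
    ([[-6552, 57393], [6174]], 1),
    ([[526428, -839034], [-138285]], 1),
    ([[-9261, -47565], [61047]], 1),
    ([[-22176, 380961], [-162603]], 1),
    ([[77427, 227682], [-187488]], 1),
    ([[-129969, 79884], [178227]], 1)⟩,
    ⟨([[479304, -1281609], [191772]], 1),
    ([[-171045, -61173], [322623]], 1),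
    ([[477477, -885339], [-102879]], 1),
    ([[-358848, 106344], [475335]], 1),
    ([[-259623, -325710], [494550]], 1),
    ([[-227493, 738234], [-165942]], 1),
    ([[35406, -223209], [111321]], 1)⟩,
    ⟨([[328482, -496062], [-75474]], 1),
    ([[-221382, 752157], [-140301]], 1),
    ([[-658791, 1949598], [-232470]], 1),
    ([[-68355, 311346], [-160020]], 1),
    ([[-464814, 811125], [180558]], 1),
    ([[-952938, 1219428], [623133]], 1),
    ([[62055, 200403], [-260064]], 1)⟩,
    ⟨([[-470106, 1268757], [-58527]], 1),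
    ([[44667, -145467], [56700]], 1),
    ([[-147546, 528696], [-65457]], 1),
    ([[172809, -508095], [156744]], 1),
    ([[194922, 56826], [-252000]], 1),
    ([[-815220, 815598], [429282]], 1),
    ([[603288, -527814], [-387009]], 1)⟩⟩

theorem b8I0_1 {x a : ℝ} (x0 : 425250 ≤ 708750 * x) (x1 : 708750 * x < 531562)
    (a0 : 236250 ≤ 708750 * a) (a1 : 708750 * a < 290941) : Good8 a x :=
  box8 20 8 22 false 425250 (106312) 236250 54691 b8I0 (by decide +kernel)
    (In.up (by push_cast; linarith) (by push_cast; linarith))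
    (In.up (by push_cast; linarith) (by push_cast; linarith))

theorem b8I0_3 {x a : ℝ} (x0 : 531562 ≤ 708750 * x) (x1 : 708750 * x < 584718)
    (a0 : 236250 ≤ 708750 * a) (a1 : 708750 * a < 290941) : Good8 a x :=
  box8 20 8 22 false 531562 (53156) 236250 54691 b8I0 (by decide +kernel)
    (In.up (by push_cast; linarith) (by push_cast; linarith))
    (In.up (by push_cast; linarith) (by push_cast; linarith))

theorem b8I0_4 {x a : ℝ} (x0 : 584718 ≤ 708750 * x) (x1 : 708750 * x < 637875)
    (a0 : 236250 ≤ 708750 * a) (a1 : 708750 * a < 290941) : Good8 a x :=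
  box8 20 8 22 false 584718 (53157) 236250 54691 b8I0 (by decide +kernel)
    (In.up (by push_cast; linarith) (by push_cast; linarith))
    (In.up (by push_cast; linarith) (by push_cast; linarith))

theorem b8I0_2 {x a : ℝ} (x0 : 531562 ≤ 708750 * x) (x1 : 708750 * x < 637875)
    (a0 : 236250 ≤ 708750 * a) (a1 : 708750 * a < 290941) : Good8 a x :=
  (lt_or_ge (708750 * x) 584718).elim (fun h => b8I0_3 x0 h a0 a1) fun h => b8I0_4 h x1 a0 a1

theorem b8I0_ok {x a : ℝ} (x0 : 425250 ≤ 708750 * x) (x1 : 708750 * x < 637875)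
    (a0 : 236250 ≤ 708750 * a) (a1 : 708750 * a < 290941) : Good8 a x :=
  (lt_or_ge (708750 * x) 531562).elim (fun h => b8I0_1 x0 h a0 a1) fun h => b8I0_2 h x1 a0 a1

/-- certificate -/
def b8I1 : P8 (List (List ℤ) × ℕ) :=
  ⟨([], 0),
    ([], 0),
    ([], 0),
    ([[784287, -468468], [49518]], 1),
    ([[-1747368, 4450446], [604926]], 1),
    ([[1380078, -4047687, 4904928], [441315, -138852], [1701]], 1),
    ([[2157120, -2776914], [-893592]], 1),
    ([[-305298, 5275872, -5824980], [1501668, -1467711], [42273]], 1),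
    ([[1539720, -4040127, 9895473, -3440997], [-217035, -1330245, 297486], [27027, -3717]], 1),
    ([[-1927737, 1624581], [1690227]], 1),
    ([[354375]], 1),
    ([[-373338, 929061], [-77742]], 1),
    ([[1]], 0),
    ([[680400]], 1),
    ([[1], [-1]], 0),
    ([[1], [-1]], 0),
    ([[-2170161, 3605679], [3819690, -3605679], [-1649529]], 1),
    ([[380646, -979839], [-789453, 979839], [408807]], 1),
    ([[-2685375, 603414], [5293701, -603414], [-2608326]], 1),
    ([[-764631, 1893906], [1356642, -1893906], [-592011]], 1),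
    ([[-3167073, -621369], [6810300, 621369], [-3643227]], 1),
    ([[215523, -161847], [-423990, 161847], [208467]], 1),
    ([[431487, -1078938], [37863]], 1),
    ([[327915, -414288], [-122157]], 1),
    ([[-389088, 899514], [10017]], 1),
    ([[347382, -1379259], [204561]], 1),
    ([[-20601, 50211]], 1),
    ⟨([[-61740, 575253], [-245637]], 1),
    ([[395577, -834372], [-54936]], 1),
    ([[-808353, 2434887], [-167769]], 1),
    ([[-354942, 885339], [-16758]], 1),
    ([[471429, -864864], [-135576]], 1),
    ([[-299187, 937692], [-57330]], 1),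
    ([[-775719, 1675674], [136395]], 1)⟩,
    ⟨([[-2063250, 4964274], [149814]], 1),
    ([[-81081, -257481], [322812]], 1),
    ([[33705, 279531], [-127953]], 1),
    ([[180495, -1223208], [520380]], 1),
    ([[-228438, -151956], [371574]], 1),
    ([[-497322, 1176147], [-101178]], 1),
    ([[485037, -1062243], [21798]], 1)⟩,
    ⟨([[-665028, 1829142], [-15057]], 1),
    ([[-418509, 1209348], [-119826]], 1),
    ([[420336, -742644], [-210735]], 1),
    ([[326781, -722736], [-93744]], 1),
    ([[-423045, 702639], [186984]], 1),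
    ([[-363888, -513891], [725382]], 1),
    ([[687330, -1072638], [-372267]], 1)⟩,
    ⟨([[6237, 53109], [-85428]], 1),
    ([[121653, -242046], [-2205]], 1),
    ([[-88893, 195048], [34965]], 1),
    ([[-599949, 1570716], [46305]], 1),
    ([[542304, -452718], [-429345]], 1),
    ([[92421, -1070685], [283626]], 1),
    ([[209727, 294084], [-314622]], 1)⟩⟩

theorem b8I1_1 {x a : ℝ} (x0 : 425250 ≤ 708750 * x) (x1 : 708750 * x < 531562)
    (a0 : 290941 ≤ 708750 * a) (a1 : 708750 * a < 318937) : Good8 a x :=
  box8 20 8 22 false 425250 (106312) 290941 27996 b8I1 (by decide +kernel)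
    (In.up (by push_cast; linarith) (by push_cast; linarith))
    (In.up (by push_cast; linarith) (by push_cast; linarith))

theorem b8I1_3 {x a : ℝ} (x0 : 531562 ≤ 708750 * x) (x1 : 708750 * x < 584718)
    (a0 : 290941 ≤ 708750 * a) (a1 : 708750 * a < 318937) : Good8 a x :=
  box8 20 8 22 false 531562 (53156) 290941 27996 b8I1 (by decide +kernel)
    (In.up (by push_cast; linarith) (by push_cast; linarith))
    (In.up (by push_cast; linarith) (by push_cast; linarith))

theorem b8I1_4 {x a : ℝ} (x0 : 584718 ≤ 708750 * x) (x1 : 708750 * x < 637875)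
    (a0 : 290941 ≤ 708750 * a) (a1 : 708750 * a < 318937) : Good8 a x :=
  box8 20 8 22 false 584718 (53157) 290941 27996 b8I1 (by decide +kernel)
    (In.up (by push_cast; linarith) (by push_cast; linarith))
    (In.up (by push_cast; linarith) (by push_cast; linarith))

theorem b8I1_2 {x a : ℝ} (x0 : 531562 ≤ 708750 * x) (x1 : 708750 * x < 637875)
    (a0 : 290941 ≤ 708750 * a) (a1 : 708750 * a < 318937) : Good8 a x :=
  (lt_or_ge (708750 * x) 584718).elim (fun h => b8I1_3 x0 h a0 a1) fun h => b8I1_4 h x1 a0 a1

theorem b8I1_ok {x a : ℝ} (x0 : 425250 ≤ 708750 * x) (x1 : 708750 * x < 637875)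
    (a0 : 290941 ≤ 708750 * a) (a1 : 708750 * a < 318937) : Good8 a x :=
  (lt_or_ge (708750 * x) 531562).elim (fun h => b8I1_1 x0 h a0 a1) fun h => b8I1_2 h x1 a0 a1

end Pool.Agent.P.MP_bdc337_an.SI.Rf
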