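import Pool.Agent.P.MP_bdc337_an.SI.Bridge

/-! The fifth coefficient functional and its reduction to real inequalities. -/

set_option autoImplicit false

open Finset PowerSeries

namespace Pool.Agent.P.MP_bdc337_an.SI

variable {a : ℝ} {w : ℂ⟦X⟧}

lemma cm5 (p q : ℂ⟦X⟧) : coeff 5 (p * q)
    = coeff 0 p * coeff 5 q + coeff 1 p * coeff 4 q + coeff 2 p * coeff 3 q
      + coeff 3 p * coeff 2 q + coeff 4 p * coeff 1 q + coeff 5 p * coeff 0 q := by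
  simp [coeff_mul, Finset.Nat.sum_antidiagonal_eq_sum_range_succ_mk, Finset.sum_range_succ]

lemma KK5 (a : ℝ) (h0 : coeff 0 w = 0) :
    coeff 5 (KK a w) = coeff 5 w + 2 * a * (coeff 1 w * coeff 4 w + coeff 2 w * coeff 3 w)
      + (1 + 2 * a ^ 2) * (coeff 1 w ^ 2 * coeff 3 w + coeff 1 w * coeff 2 w ^ 2)
      + 4 * a * (2 + a ^ 2) / 3 * coeff 1 w ^ 3 * coeff 2 w
      + (3 + 10 * a ^ 2 + 2 * a ^ 4) / 15 * coeff 1 w ^ 5 := by
  obtain ⟨k1, k2, k3, k4⟩ := KK_coeffs a h0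
  have h := KK_ode a h0
  have K0 := coeff_zero_KK a h0
  have h' : d⁄dX ℂ (KK a w) = w * (w * d⁄dX ℂ (KK a w)) + d⁄dX ℂ w
      + C (2 * a : ℂ) * (KK a w * d⁄dX ℂ w) := by
    have : (C (2 * a : ℂ) : ℂ⟦X⟧) = 2 * C (a : ℂ) := by
      rw [map_mul]
      rfl
    rw [this]
    linear_combination h
  have e4 := congrArg (coeff 4) h'
  simp only [map_add, coeff_C_mul, cm0, cm1, cm2, cm3, cm4, coeff_derivative, h0, K0] at e4
  norm_num at e4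
  rw [k1, k2, k3, k4] at e4
  linear_combination e4 / 5

lemma V5 (a : ℝ) (h0 : coeff 0 w = 0) {F : ℂ⟦X⟧} (hF0 : coeff 0 F = 1)
    (hF : X * d⁄dX ℂ F = (2 * C (a : ℂ) * KK a w) * F) :
    coeff 5 (KK a w * F) = coeff 5 w + 9 * a / 2 * coeff 1 w * coeff 4 w
      + 11 * a / 3 * coeff 2 w * coeff 3 w + (1 + 12 * a ^ 2) * coeff 1 w ^ 2 * coeff 3 w
      + (1 + 31 * a ^ 2 / 3) * coeff 1 w * coeff 2 w ^ 2
      + (103 * a / 18 + 232 * a ^ 3 / 9) * coeff 1 w ^ 3 * coeff 2 w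
      + (1 / 5 + 4 * a ^ 2 + 54 * a ^ 4 / 5) * coeff 1 w ^ 5 := by
  obtain ⟨k1, k2, k3, k4⟩ := KK_coeffs a h0
  obtain ⟨v1, v2, v3, v4⟩ := V_coeffs a h0 hF0 hF
  have k5 := KK5 a h0
  have K0 := coeff_zero_KK a h0
  have h' : X * d⁄dX ℂ F = C (2 * a : ℂ) * (KK a w * F) := by
    have : (C (2 * a : ℂ) : ℂ⟦X⟧) = 2 * C (a : ℂ) := by
      rw [map_mul]
      rfl
    rw [this, hF]
    ring
  have e1 := congrArg (coeff 1) h'
  have e2 := congrArg (coeff 2) h'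
  have e3 := congrArg (coeff 3) h'
  have e4 := congrArg (coeff 4) h'
  rw [coeff_X_mul_deriv, coeff_C_mul] at e1 e2 e3 e4
  rw [v1] at e1
  rw [v2] at e2
  rw [v3] at e3
  rw [v4] at e4
  push_cast at e1 e2 e3 e4
  rw [cm5, K0, k1, k2, k3, k4, k5, hF0, eq_div_of_mul_eq one_ne_zero ((mul_comm _ _).trans e1),
    eq_div_of_mul_eq two_ne_zero ((mul_comm _ _).trans e2),
    eq_div_of_mul_eq three_ne_zero ((mul_comm _ _).trans e3),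
    eq_div_of_mul_eq (by norm_num) ((mul_comm _ _).trans e4)]
  ring

lemma nsq2 (p q : ℝ) (c v : ℂ) : ‖(p : ℂ) * c + q * v‖ ^ 2
    = p ^ 2 * ‖c‖ ^ 2 + 2 * p * q * (c * (starRingEnd ℂ) v).re + q ^ 2 * ‖v‖ ^ 2 := by
  simp only [Complex.sq_norm, Complex.normSq_apply, Complex.add_re, Complex.add_im,
    Complex.mul_re, Complex.mul_im, Complex.ofReal_re, Complex.ofReal_im, Complex.conj_re,
    Complex.conj_im]
  ring

lemma Dd3_nonneg (hw : Contr w) (b : ℂ⟦X⟧) : 0 ≤ Dd w 3 b := by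
  have h := mm hw (N := 3) (M := 1) (L := 3) rfl le_rfl (by norm_num) 0 b
  have e : Dd w 1 0 = 0 := by simp [Dd, nsq]
  rw [e, zero_add] at h
  exact le_trans (by positivity) h

lemma pick (hw : Contr w) : ‖coeff 2 w‖ ≤ 1 - ‖coeff 1 w‖ ^ 2 := by
  have x1 := w1_le hw
  have x0 := norm_nonneg (coeff 1 w)
  have m0 := norm_nonneg (coeff 2 w)
  have key : ∀ k : ℝ, 0 ≤ 1 + k ^ 2 * ‖coeff 1 w‖ ^ 2 * ‖coeff 2 w‖ ^ 2 - ‖coeff 1 w‖ ^ 2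
      - (1 + k * ‖coeff 1 w‖ ^ 2) ^ 2 * ‖coeff 2 w‖ ^ 2 := by
    intro k
    have h := Dd3_nonneg hw (tp (k * ((starRingEnd ℂ) (coeff 1 w) * coeff 2 w)) 0)
    have e : coeff 1 w * (k * ((starRingEnd ℂ) (coeff 1 w) * coeff 2 w)) + coeff 2 w
        = ((1 + k * ‖coeff 1 w‖ ^ 2 : ℝ) : ℂ) * coeff 2 w := by
      have := Complex.mul_conj' (coeff 1 w)
      push_cast
      linear_combination k * coeff 2 w * this
    rw [Dd3 hw.1, e] at h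
    simp only [norm_mul, Complex.norm_real, Complex.norm_conj, mul_pow, Real.norm_eq_abs, sq_abs,
      norm_zero] at h
    linarith
  generalize ‖coeff 1 w‖ = x at *
  generalize ‖coeff 2 w‖ = m at *
  have e0 : 0 ≤ 1 - x ^ 2 := by nlinarith
  rcases e0.eq_or_lt with e | e
  · have := key 0
    nlinarith
  · have h := key (1 / (1 - x ^ 2))
    have e1 : 1 + (1 / (1 - x ^ 2)) ^ 2 * x ^ 2 * m ^ 2 - x ^ 2
        - (1 + 1 / (1 - x ^ 2) * x ^ 2) ^ 2 * m ^ 2 = ((1 - x ^ 2) ^ 2 - m ^ 2) / (1 - x ^ 2) := by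
      field_simp
      ring
    rw [e1, le_div_iff₀ e, zero_mul] at h
    exact abs_le_of_sq_le_sq' (by linarith) e0 |>.2

lemma quadlem {c0 c1 c2 t e m y : ℝ} (t0 : 0 ≤ t) (m0 : 0 ≤ m) (me : m ≤ e) (hy : |y| ≤ t * m)
    (h1 : 0 ≤ 2 * c0 + c1 * t * e) (h2 : 0 ≤ 2 * c0 - c1 * t * e)
    (h3 : 0 ≤ c0 + c1 * t * e + c2 * e ^ 2) (h4 : 0 ≤ c0 - c1 * t * e + c2 * e ^ 2) :
    0 ≤ c0 + c1 * y + c2 * m ^ 2 := by
  have b : -(|c1| * (t * m)) ≤ c1 * y := by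
    have := neg_abs_le (c1 * y)
    rw [abs_mul] at this
    linarith [mul_le_mul_of_nonneg_left hy (abs_nonneg c1)]
  have g1 : 0 ≤ 2 * c0 - |c1| * t * e := by
    rcases abs_cases c1 with h | h <;> rw [h.1] <;> linarith
  have g2 : 0 ≤ c0 - |c1| * t * e + c2 * e ^ 2 := by
    rcases abs_cases c1 with h | h <;> rw [h.1] <;> linarith
  rcases (m0.trans me).eq_or_lt with e0 | e0
  · have : m = 0 := by linarith
    subst this
    rw [← e0] at g1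
    nlinarith
  · have g0 : 0 ≤ c0 := by linarith
    have : 0 ≤ e ^ 2 * (c0 - |c1| * (t * m) + c2 * m ^ 2) := by
      have e1 : e ^ 2 * (c0 - |c1| * (t * m) + c2 * m ^ 2) = c0 * (e - m) ^ 2
          + (2 * c0 - |c1| * t * e) * (m * (e - m)) + (c0 - |c1| * t * e + c2 * e ^ 2) * m ^ 2 := by
        ring
      have := sub_nonneg.2 me
      rw [e1]
      positivity
    have := nonneg_of_mul_nonneg_right this (by positivity)
    linarith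

lemma quad_norm {r0 r1 r2 h : ℝ} (h0 : 0 ≤ h) (p0 : 0 < r0) (hc : r1 ^ 2 ≤ 2 * r0 * (2 * r2 + h))
    (c v : ℂ) : ‖(r2 : ℂ) * c ^ 2 + r1 * v * c + r0 * v ^ 2‖
      ≤ (r2 + h) * ‖c‖ ^ 2 + r1 * (c * (starRingEnd ℂ) v).re + r0 * ‖v‖ ^ 2 := by
  have e : ((4 * r0 : ℝ) : ℂ) * ((r2 : ℂ) * c ^ 2 + r1 * v * c + r0 * v ^ 2)
      = ((r1 : ℂ) * c + ((2 * r0 : ℝ) : ℂ) * v) ^ 2 + ((4 * r0 * r2 - r1 ^ 2 : ℝ) : ℂ) * c ^ 2 := by
    push_cast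
    ring
  have n := norm_add_le (((r1 : ℂ) * c + ((2 * r0 : ℝ) : ℂ) * v) ^ 2)
    (((4 * r0 * r2 - r1 ^ 2 : ℝ) : ℂ) * c ^ 2)
  rw [← e, norm_real_mul (by positivity), norm_pow, nsq2, norm_mul, norm_pow, Complex.norm_real,
    Real.norm_eq_abs] at n
  have b : |4 * r0 * r2 - r1 ^ 2| ≤ 4 * r0 * (r2 + h) - r1 ^ 2 := by
    rw [abs_le]
    constructor <;> nlinarith [mul_nonneg p0.le h0]
  have := mul_le_mul_of_nonneg_right b (sq_nonneg ‖c‖)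
  apply le_of_mul_le_mul_left _ (by positivity : 0 < 4 * r0)
  nlinarith

lemma Dd3r (h0 : coeff 0 w = 0) (A P Q : ℝ) :
    Dd w 3 (tp (A * coeff 1 w) (P * coeff 2 w + Q * coeff 1 w ^ 2))
      = 1 - ‖coeff 1 w‖ ^ 2 + A ^ 2 * ‖coeff 1 w‖ ^ 2 * (1 - ‖coeff 1 w‖ ^ 2)
        + Q ^ 2 * ‖coeff 1 w‖ ^ 4
        + 2 * (P * Q - A) * (coeff 2 w * (starRingEnd ℂ) (coeff 1 w ^ 2)).re
        - (1 - P ^ 2) * ‖coeff 2 w‖ ^ 2 := by
  have e : coeff 1 w * (A * coeff 1 w) + coeff 2 w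
      = ((1 : ℝ) : ℂ) * coeff 2 w + A * coeff 1 w ^ 2 := by
    push_cast
    ring
  rw [Dd3 h0, e, nsq2, nsq2, norm_mul, norm_pow, Complex.norm_real, Real.norm_eq_abs, mul_pow,
    sq_abs]
  ring

/-- constant term -/
def C0 (B S A Q r0 N D T x : ℝ) : ℝ :=
  2 * N * D * T - (N ^ 2 * (1 - x ^ 2 + A ^ 2 * x ^ 2 * (1 - x ^ 2) + Q ^ 2 * x ^ 4)
    + D ^ 2 * (1 - x ^ 2 + B ^ 2 * x ^ 2 * (1 - x ^ 2) + S ^ 2 * x ^ 4) + 2 * N * D * x ^ 5 * r0)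

/-- linear term -/
def C1 (A B P Q R S r1 N D x : ℝ) : ℝ :=
  -(2 * N ^ 2 * (P * Q - A) + 2 * D ^ 2 * (R * S - B) + 2 * N * D * x * r1)

/-- quadratic term -/
def C2 (P R r N D x : ℝ) : ℝ := N ^ 2 * (1 - P ^ 2) + D ^ 2 * (1 - R ^ 2) - 2 * N * D * x * r

theorem core5 (hw : Contr w) {F : ℂ⟦X⟧} (hF0 : coeff 0 F = 1)
    (hF : X * d⁄dX ℂ F = (2 * C (a : ℂ) * KK a w) * F) {A B P Q R S r0 r1 r2 h N D T x : ℝ}
    (hx : x = ‖coeff 1 w‖) (eB : B = 9 * a / 2 - A) (eR : R = 11 * a / 3 - P)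
    (eS : S = 1 + 12 * a ^ 2 - A * B - Q) (e2 : r2 = 1 + 31 * a ^ 2 / 3 - (A * R + B * P + P * R))
    (e1 : r1 = 103 * a / 18 + 232 * a ^ 3 / 9 - (A * S + B * Q + P * S + Q * R))
    (e0 : r0 = 1 / 5 + 4 * a ^ 2 + 54 * a ^ 4 / 5 - Q * S)
    (h0 : 0 ≤ h) (p0 : 0 < r0) (hc : r1 ^ 2 ≤ 2 * r0 * (2 * r2 + h)) (hN : 0 < N) (hD : 0 < D)
    (h1 : 0 ≤ 2 * C0 B S A Q r0 N D T x + C1 A B P Q R S r1 N D x * x ^ 2 * (1 - x ^ 2))
    (h2 : 0 ≤ 2 * C0 B S A Q r0 N D T x - C1 A B P Q R S r1 N D x * x ^ 2 * (1 - x ^ 2))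
    (h3 : 0 ≤ C0 B S A Q r0 N D T x + C1 A B P Q R S r1 N D x * x ^ 2 * (1 - x ^ 2)
      + C2 P R (r2 + h) N D x * (1 - x ^ 2) ^ 2)
    (h4 : 0 ≤ C0 B S A Q r0 N D T x - C1 A B P Q R S r1 N D x * x ^ 2 * (1 - x ^ 2)
      + C2 P R (r2 + h) N D x * (1 - x ^ 2) ^ 2) :
    ‖coeff 5 (KK a w * F)‖ ≤ T := by
  have w0 := hw.1
  have m := mm_weighted hw (N := 5) (M := 3) (L := 3) rfl (by norm_num) (by norm_num)
    (tp (A * coeff 1 w) (P * coeff 2 w + Q * coeff 1 w ^ 2))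
    (tp (B * coeff 1 w) (R * coeff 2 w + S * coeff 1 w ^ 2)) (div_pos hN hD)
  have e : coeff 5 (KK a w * F) = beta w 5 3 3
      (tp (A * coeff 1 w) (P * coeff 2 w + Q * coeff 1 w ^ 2))
      (tp (B * coeff 1 w) (R * coeff 2 w + S * coeff 1 w ^ 2))
      + coeff 1 w * ((r2 : ℂ) * coeff 2 w ^ 2 + r1 * coeff 1 w ^ 2 * coeff 2 w
        + r0 * (coeff 1 w ^ 2) ^ 2) := by
    simp only [beta, Finset.sum_range_succ, range_zero, sum_empty, tp0, tp1, tp2, V5 a w0 hF0 hF]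
    rw [e0, e1, e2, eS, eR, eB]
    push_cast
    ring
  have n := norm_add_le (beta w 5 3 3
      (tp (A * coeff 1 w) (P * coeff 2 w + Q * coeff 1 w ^ 2))
      (tp (B * coeff 1 w) (R * coeff 2 w + S * coeff 1 w ^ 2)))
      (coeff 1 w * ((r2 : ℂ) * coeff 2 w ^ 2 + r1 * coeff 1 w ^ 2 * coeff 2 w
        + r0 * (coeff 1 w ^ 2) ^ 2))
  have q := mul_le_mul_of_nonneg_left (quad_norm h0 p0 hc (coeff 2 w) (coeff 1 w ^ 2))
    (norm_nonneg (coeff 1 w))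
  have hy : |(coeff 2 w * (starRingEnd ℂ) (coeff 1 w ^ 2)).re|
      ≤ ‖coeff 1 w‖ ^ 2 * ‖coeff 2 w‖ := by
    refine (Complex.abs_re_le_norm _).trans_eq ?_
    rw [norm_mul, Complex.norm_conj, norm_pow, mul_comm]
  have pk := pick hw
  rw [← e, norm_mul] at n
  rw [Dd3r w0, Dd3r w0] at m
  rw [norm_pow] at q
  rw [← hx] at m q hy pk
  have z := quadlem (sq_nonneg x) (norm_nonneg _) pk hy h1 h2 h3 h4
  rw [← hx] at n
  generalize (coeff 2 w * (starRingEnd ℂ) (coeff 1 w ^ 2)).re = y at *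
  generalize ‖coeff 2 w‖ = c at *
  generalize ‖beta w 5 3 3 _ _‖ = b at *
  generalize ‖(r2 : ℂ) * _ + _ + _‖ = ρ at *
  unfold C0 C1 C2 at z
  have hND : 0 < 2 * N * D := by positivity
  apply le_of_mul_le_mul_left _ hND
  have m2 := mul_le_mul_of_nonneg_left m (mul_pos hN hD).le
  have e3 : ∀ u v : ℝ, N * D * (N / D * u + v / (N / D)) = N ^ 2 * u + D ^ 2 * v := by
    intro u v
    field_simp
  rw [e3] at m2
  have n2 := mul_le_mul_of_nonneg_left (n.trans (add_le_add le_rfl q)) hND.le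
  linarith

end Pool.Agent.P.MP_bdc337_an.SI
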