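import Pool.Agent.P.MP_bdc337_an.SI.Core

/-! The fourth coefficient functional and its reduction to real inequalities. -/

set_option autoImplicit false

open Finset PowerSeries

namespace Pool.Agent.P.MP_bdc337_an.SI

variable {a : ℝ} {w : ℂ⟦X⟧}

lemma quad_norm2 {r0 r1 r2 k p q : ℝ} (k0 : 0 ≤ k) (p0 : 0 < 2 * r0 + k * q ^ 2)
    (hc : (r1 - k * p * q) ^ 2 ≤ (2 * r2 + k * p ^ 2) * (2 * r0 + k * q ^ 2)) (c v : ℂ) :
    ‖(r2 : ℂ) * c ^ 2 + r1 * v * c + r0 * v ^ 2‖ ≤ (r2 + k * p ^ 2) * ‖c‖ ^ 2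
      + (r1 - 2 * k * p * q) * (c * (starRingEnd ℂ) v).re + (r0 + k * q ^ 2) * ‖v‖ ^ 2 := by
  have h := quad_norm (r1 := 2 * r1 - 2 * k * p * q) (r2 := 2 * r2 + k * p ^ 2) le_rfl p0
    (by nlinarith) c v
  have e : ((2 : ℝ) : ℂ) * ((r2 : ℂ) * c ^ 2 + r1 * v * c + r0 * v ^ 2)
      = (((2 * r2 + k * p ^ 2 : ℝ) : ℂ) * c ^ 2 + ((2 * r1 - 2 * k * p * q : ℝ) : ℂ) * v * c
        + ((2 * r0 + k * q ^ 2 : ℝ) : ℂ) * v ^ 2) - k * ((p : ℂ) * c + ((-q : ℝ) : ℂ) * v) ^ 2 := by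
    push_cast
    ring
  have n := norm_sub_le (((2 * r2 + k * p ^ 2 : ℝ) : ℂ) * c ^ 2
    + ((2 * r1 - 2 * k * p * q : ℝ) : ℂ) * v * c + ((2 * r0 + k * q ^ 2 : ℝ) : ℂ) * v ^ 2)
    (k * ((p : ℂ) * c + ((-q : ℝ) : ℂ) * v) ^ 2)
  rw [← e, norm_real_mul (by norm_num), norm_real_mul k0, norm_pow, nsq2] at n
  linarith

/-- constant term -/
def E0 (A B S r0 k q N T t : ℝ) : ℝ :=
  2 * N * T - (N ^ 2 * (1 - t + A ^ 2 * t) + (1 - t + B ^ 2 * t * (1 - t) + S ^ 2 * t ^ 2)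
    + 2 * N * (r0 + k * q ^ 2) * t ^ 2)

/-- linear term -/
def E1 (B R S r1 k p q N : ℝ) : ℝ := -(2 * (R * S - B) + 2 * N * (r1 - 2 * k * p * q))

/-- quadratic term -/
def E2 (R r2 k p N : ℝ) : ℝ := 1 - R ^ 2 - 2 * N * (r2 + k * p ^ 2)

theorem core4 (hw : Contr w) {F : ℂ⟦X⟧} (hF0 : coeff 0 F = 1)
    (hF : X * d⁄dX ℂ F = (2 * C (a : ℂ) * KK a w) * F) {A B R S r0 r1 r2 k p q N T t : ℝ}
    (ht : t = ‖coeff 1 w‖ ^ 2) (eB : B = 14 * a / 3 - A) (e2 : r2 = 2 * a - R)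
    (e1 : r1 = 1 + 40 * a ^ 2 / 3 - A * B - S - A * R)
    (e0 : r0 = 14 * a / 9 + 76 * a ^ 3 / 9 - A * S)
    (k0 : 0 ≤ k) (p0 : 0 < 2 * r0 + k * q ^ 2)
    (hc : (r1 - k * p * q) ^ 2 ≤ (2 * r2 + k * p ^ 2) * (2 * r0 + k * q ^ 2)) (hN : 0 < N)
    (h1 : 0 ≤ 2 * E0 A B S r0 k q N T t + E1 B R S r1 k p q N * t * (1 - t))
    (h2 : 0 ≤ 2 * E0 A B S r0 k q N T t - E1 B R S r1 k p q N * t * (1 - t))
    (h3 : 0 ≤ E0 A B S r0 k q N T t + E1 B R S r1 k p q N * t * (1 - t)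
      + E2 R r2 k p N * (1 - t) ^ 2)
    (h4 : 0 ≤ E0 A B S r0 k q N T t - E1 B R S r1 k p q N * t * (1 - t)
      + E2 R r2 k p N * (1 - t) ^ 2) :
    ‖coeff 4 (KK a w * F)‖ ≤ T := by
  have w0 := hw.1
  have m := mm_weighted hw (N := 4) (M := 2) (L := 3) rfl (by norm_num) (by norm_num)
    (tp (A * coeff 1 w) 0) (tp (B * coeff 1 w) (R * coeff 2 w + S * coeff 1 w ^ 2)) hN
  have e : coeff 4 (KK a w * F) = beta w 4 2 3 (tp (A * coeff 1 w) 0)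
      (tp (B * coeff 1 w) (R * coeff 2 w + S * coeff 1 w ^ 2))
      + ((r2 : ℂ) * coeff 2 w ^ 2 + r1 * coeff 1 w ^ 2 * coeff 2 w
        + r0 * (coeff 1 w ^ 2) ^ 2) := by
    simp only [beta, Finset.sum_range_succ, range_zero, sum_empty, tp0, tp1, tp2,
      (V_coeffs a w0 hF0 hF).2.2.2]
    rw [e0, e1, e2, eB]
    push_cast
    ring
  have n := norm_add_le (beta w 4 2 3 (tp (A * coeff 1 w) 0)
      (tp (B * coeff 1 w) (R * coeff 2 w + S * coeff 1 w ^ 2)))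
      ((r2 : ℂ) * coeff 2 w ^ 2 + r1 * coeff 1 w ^ 2 * coeff 2 w + r0 * (coeff 1 w ^ 2) ^ 2)
  have qn := quad_norm2 k0 p0 hc (coeff 2 w) (coeff 1 w ^ 2)
  have hy : |(coeff 2 w * (starRingEnd ℂ) (coeff 1 w ^ 2)).re|
      ≤ ‖coeff 1 w‖ ^ 2 * ‖coeff 2 w‖ := by
    refine (Complex.abs_re_le_norm _).trans_eq ?_
    rw [norm_mul, Complex.norm_conj, norm_pow, mul_comm]
  have pk := pick hw
  have x4 : ‖coeff 1 w‖ ^ 4 = t ^ 2 := by rw [ht]; ring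
  rw [← e] at n
  rw [Dd2 w0, Dd3r w0, norm_mul, Complex.norm_real, Real.norm_eq_abs, mul_pow, sq_abs, x4] at m
  rw [norm_pow (coeff 1 w)] at qn
  rw [← ht] at m qn hy pk
  have z := quadlem (by rw [ht]; positivity) (norm_nonneg _) pk hy h1 h2 h3 h4
  generalize (coeff 2 w * (starRingEnd ℂ) (coeff 1 w ^ 2)).re = y at *
  generalize ‖coeff 2 w‖ = c at *
  generalize ‖beta w 4 2 3 _ _‖ = b at *
  generalize ‖(r2 : ℂ) * _ + _ + _‖ = ρ at *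
  unfold E0 E1 E2 at z
  have hND : 0 < 2 * N := by positivity
  apply le_of_mul_le_mul_left _ hND
  have m2 := mul_le_mul_of_nonneg_left m hN.le
  have e3 : ∀ u v : ℝ, N * (N * u + v / N) = N ^ 2 * u + v := by
    intro u v
    field_simp
  rw [e3] at m2
  have n2 := mul_le_mul_of_nonneg_left (n.trans (add_le_add le_rfl qn)) hND.le
  linarith

/-- the value for two atoms -/
noncomputable def psi (a t : ℝ) : ℝ :=
  2 * a * (1 - t) ^ 2 + (2 - 14 * a / 3 + 40 * a ^ 2 / 3) * (t * (1 - t))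
    + (14 * a / 9 + 76 * a ^ 3 / 9) * t ^ 2

end Pool.Agent.P.MP_bdc337_an.SI
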