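import Pool.Agent.P.MP_bdc337_an.SI.Cert7

/-! The eighth coefficient. -/

set_option autoImplicit false

open Finset PowerSeries Metric

namespace Pool.Agent.P.MP_bdc337_an.SI

open Rf

variable {a : ℝ} {w : ℂ⟦X⟧}

theorem good7 (h0 : 1 / 3 ≤ a) (h1 : a < 1) {x : ℝ} (x0 : 0 ≤ x) (x1 : x ≤ 1) : Good7 a x := by
  have a0 : 236250 ≤ 708750 * a := by linarith
  have a1 : 708750 * a < 708750 := by linarith
  rcases lt_or_ge (708750 * x) 425250 with c | c
  · have d : 0 ≤ 708750 * x := by linarith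
    rcases lt_or_ge (708750 * a) 287043 with e1 | e1
    · exact b7A_ok d c a0 e1
    rcases lt_or_ge (708750 * a) 425250 with e2 | e2
    · exact b7D_ok d c e1 e2
    rcases lt_or_ge (708750 * a) 567000 with e3 | e3
    · exact b7E1_ok d c e2 e3
    · exact b7E2_ok d c e3 a1
  · have c : 424540 < 708750 * x := by linarith
    have d : 708750 * x ≤ 708750 := by linarith
    rcases lt_or_ge (708750 * a) 283500 with e1 | e1
    · exact b7C_ok c d a0 e1
    rcases lt_or_ge (708750 * a) 354375 with e2 | e2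
    · exact b7B_ok c d e1 e2
    rcases lt_or_ge (708750 * a) 439425 with e3 | e3
    · exact b7F1_ok c d e2 e3
    rcases lt_or_ge (708750 * a) 552825 with e4 | e4
    · exact b7F2_ok c d e3 e4
    · exact b7F3_ok c d e4 a1

theorem bound7 (h0 : 0 < a) (h1 : a < 1) (hw : Contr w) {F : ℂ⟦X⟧} (hF0 : coeff 0 F = 1)
    (hF : X * d⁄dX ℂ F = (2 * C (a : ℂ) * KK a w) * F) :
    ‖coeff 7 (KK a w * F)‖ ≤ max 1 (n7 a) := by
  rcases le_total a (1 / 3) with c1 | c1
  · exact (large h0 c1 hw hF0 hF (by norm_num)).trans (le_max_left _ _)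
  obtain ⟨μ, v, hμ, hv, e, e1⟩ := rotate hw
  have := good7 c1 h1 (norm_nonneg _) (w1_le hw) v hv e1
  simp only [e] at this
  rwa [Phi7_rot, norm_mul, norm_pow, hμ, one_pow, one_mul, ← V7 a hw.1 hF0 hF] at this

lemma n7_eq (a : ℝ) :
    n7 a = (2025 + 43757 * a ^ 2 + 166565 * a ^ 4 + 184553 * a ^ 6) / 14175 := by
  simp only [n7, qR]
  push_cast
  ring

theorem upper8 (h0 : 0 < a) (h1 : a < 1) {f : ℂ → ℂ} (hf : Star a f) :
    ‖coeff 8 (tay f)‖ ≤ max (2 * a / 7)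
      (2 * a * (2025 + 43757 * a ^ 2 + 166565 * a ^ 4 + 184553 * a ^ 6) / 99225) := by
  obtain ⟨W, F, hW, hR⟩ := rep_up h0 h1.le hf
  have b := bound7 h0 h1 hW hR.1 hR.2.1
  have e := hR.coeff (N := 7) (by norm_num)
  rw [show (7 : ℕ) + 1 = 8 from rfl] at e
  rw [e, norm_real_mul (by positivity)]
  refine (mul_le_mul_of_nonneg_left b (by positivity)).trans_eq ?_
  rw [mul_max_of_nonneg _ _ (by positivity), n7_eq]
  push_cast
  congr 1 <;> ring

theorem koebe8 (h0 : 0 < a) (h1 : a ≤ 1) : ∃ f, Star a f ∧ ‖coeff 8 (tay f)‖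
    = 2 * a * (2025 + 43757 * a ^ 2 + 166565 * a ^ 4 + 184553 * a ^ 6) / 99225 := by
  obtain ⟨f, F, hf, hR⟩ := rep_low h0 h1 (w := fun z => z) differentiableOn_id rfl
    (fun z hz => mem_ball_zero_iff.1 hz)
  refine ⟨f, hf, ?_⟩
  rw [tay_id] at hR
  have e := hR.coeff (N := 7) (by norm_num)
  rw [show (7 : ℕ) + 1 = 8 from rfl, V7 a (by simp) hR.1 hR.2.1] at e
  have e2 : coeff 8 (tay f) = ((2 * a * (2025 + 43757 * a ^ 2 + 166565 * a ^ 4
      + 184553 * a ^ 6) / 99225 : ℝ) : ℂ) := by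
    rw [e]
    simp only [coeff_X, Phi7]
    push_cast
    ring
  rw [e2, Complex.norm_real, Real.norm_of_nonneg (by positivity)]

theorem eight (h0 : 0 < a) (h1 : a < 1) :
    IsGreatest {x : ℝ | ∃ f : ℂ → ℂ, Star a f ∧ x = ‖coeff 8 (tay f)‖} (max (2 * a / 7)
      (2 * a * (2025 + 43757 * a ^ 2 + 166565 * a ^ 4 + 184553 * a ^ 6) / 99225)) := by
  constructor
  · rcases le_total (2 * a / 7)
      (2 * a * (2025 + 43757 * a ^ 2 + 166565 * a ^ 4 + 184553 * a ^ 6) / 99225) with h | h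
    · obtain ⟨f, hf, e⟩ := koebe8 h0 h1.le
      exact ⟨f, hf, by rw [max_eq_right h, e]⟩
    · obtain ⟨f, a1, a2, a3, a4, a5, a6⟩ := extremal h0 h1.le (N := 7) (by norm_num)
      refine ⟨f, ⟨a1, a2, a3, a4, a5⟩, ?_⟩
      rw [max_eq_left h, a6, Complex.norm_real, Real.norm_of_nonneg (by positivity)]
      norm_num
  · rintro x ⟨f, hf, rfl⟩
    exact upper8 h0 h1 hf

end Pool.Agent.P.MP_bdc337_an.SI
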