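import Pool.Agent.P.MP_bdc337_an.SI.P4

/-! The fifth coefficient. -/

set_option autoImplicit false

open Finset PowerSeries Metric Filter Topology

namespace Pool.Agent.P.MP_bdc337_an.SI

variable {a : ℝ} {w : ℂ⟦X⟧}

theorem bound4 (h0 : 0 < a) (h1 : a ≤ 1) (hw : Contr w) {F : ℂ⟦X⟧} (hF0 : coeff 0 F = 1)
    (hF : X * d⁄dX ℂ F = (2 * C (a : ℂ) * KK a w) * F) :
    ‖coeff 4 (KK a w * F)‖ ≤ 1 ∨ ∃ τ, 0 ≤ τ ∧ τ ≤ 1 ∧ ‖coeff 4 (KK a w * F)‖ ≤ psi a τ := by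
  have x1 : ‖coeff 1 w‖ ^ 2 ≤ 1 := pow_le_one₀ (norm_nonneg _) (w1_le hw)
  have x0 : 0 ≤ ‖coeff 1 w‖ ^ 2 := sq_nonneg _
  rcases le_total a (1 / 3) with c1 | c1
  · exact Or.inl (small h0 c1 hw hF0 hF (by norm_num) le_rfl)
  rcases le_total (3 / 4) (‖coeff 1 w‖ ^ 2) with c2 | c2
  · obtain ⟨x, hx⟩ : ∃ x, x = 4 * ‖coeff 1 w‖ ^ 2 - 3 := ⟨_, rfl⟩
    obtain ⟨s, s0, s1, rfl⟩ : ∃ s : ℝ, 0 ≤ s ∧ s ≤ 1 ∧ a = ca x s :=
      ⟨(3 * a - 1) / 2, by linarith, by linarith, by unfold ca; ring⟩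
    have e : ct x s = ‖coeff 1 w‖ ^ 2 := by unfold ct; linarith
    have := c_bound (x := x) (by linarith) (by linarith) s0 s1 hw hF0 hF e
    exact Or.inr ⟨_, x0, x1, e ▸ this⟩
  obtain ⟨x, hx⟩ : ∃ x, x = 4 * ‖coeff 1 w‖ ^ 2 / 3 := ⟨_, rfl⟩
  rcases le_total a (46 / 125) with c3 | c3
  · obtain ⟨s, s0, s1, rfl⟩ : ∃ s : ℝ, 0 ≤ s ∧ s ≤ 1 ∧ a = da x s :=
      ⟨(375 * a - 125) / 13, by linarith, by linarith, by unfold da; ring⟩
    exact Or.inl (d_bound (x := x) (by linarith) (by linarith) s0 s1 hw hF0 hF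
      (by unfold dt; linarith))
  · obtain ⟨s, s0, s1, rfl⟩ : ∃ s : ℝ, 0 ≤ s ∧ s ≤ 1 ∧ a = ea x s :=
      ⟨(125 * a - 46) / 79, by linarith, by linarith, by unfold ea; ring⟩
    exact Or.inr ⟨_, by norm_num, by norm_num, e_bound (x := x) (by linarith) (by linarith) s0 s1
      hw hF0 hF (by unfold et; linarith)⟩

theorem upper5 (h0 : 0 < a) (h1 : a ≤ 1) {f : ℂ → ℂ} (hf : Star a f) :
    ‖coeff 5 (tay f)‖ ≤ a / 2 ∨ ∃ τ, 0 ≤ τ ∧ τ ≤ 1 ∧ ‖coeff 5 (tay f)‖ ≤ a / 2 * psi a τ := by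
  obtain ⟨W, F, hW, hR⟩ := rep_up h0 h1 hf
  have e := hR.coeff (N := 4) (by norm_num)
  rw [show (4 : ℕ) + 1 = 5 from rfl] at e
  rw [e, norm_real_mul (by positivity)]
  push_cast
  rcases bound4 h0 h1 hW hR.1 hR.2.1 with b | ⟨τ, t0, t1, b⟩
  · left
    nlinarith
  · right
    exact ⟨τ, t0, t1, by nlinarith⟩

theorem blaschke {x : ℝ} (x0 : 0 ≤ x) (x1 : x ≤ 1) : ∃ w : ℂ → ℂ,
    DifferentiableOn ℂ w (ball 0 1) ∧ w 0 = 0 ∧ (∀ z ∈ ball (0 : ℂ) 1, ‖w z‖ < 1) ∧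
    (1 + C (x : ℂ) * X) * tay w = X * (X + C (x : ℂ)) := by
  have hnb : ball (0 : ℂ) 1 ∈ 𝓝 (0 : ℂ) := ball_mem_nhds 0 one_pos
  have hne : ∀ z ∈ ball (0 : ℂ) 1, 1 + x * z ≠ 0 := by
    intro z hz h
    have h2 := congrArg norm (eq_neg_of_add_eq_zero_left h)
    rw [norm_neg, norm_real_mul x0, norm_one] at h2
    have := mem_ball_zero_iff.1 hz
    nlinarith [norm_nonneg z]
  have hd : DifferentiableOn ℂ (fun z : ℂ => z * (z + x) / (1 + x * z)) (ball 0 1) :=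
    DifferentiableOn.div (by fun_prop) (by fun_prop) hne
  refine ⟨_, hd, by simp, fun z hz => ?_, ?_⟩
  · have hz1 := mem_ball_zero_iff.1 hz
    have p := norm_pos_iff.2 (hne z hz)
    have l : ‖z + x‖ ≤ ‖1 + x * z‖ := by
      apply abs_le_of_sq_le_sq' _ (norm_nonneg _) |>.2
      have l2 : ‖z‖ ^ 2 ≤ 1 := pow_le_one₀ (norm_nonneg _) hz1.le
      rw [Complex.sq_norm, Complex.normSq_apply] at l2
      rw [Complex.sq_norm, Complex.sq_norm, Complex.normSq_apply, Complex.normSq_apply]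
      simp only [Complex.add_re, Complex.add_im, Complex.ofReal_re, Complex.ofReal_im,
        Complex.one_re, Complex.one_im, Complex.re_ofReal_mul, Complex.im_ofReal_mul]
      nlinarith [mul_nonneg (sub_nonneg.2 l2) (sub_nonneg.2 (pow_le_one₀ x0 x1 : x ^ 2 ≤ 1))]
    rw [norm_div, div_lt_one p, norm_mul]
    nlinarith [norm_nonneg z, norm_nonneg (z + x)]
  · have aw := hd.analyticAt hnb
    have e : (fun z : ℂ => (1 + x * z) * (z * (z + x) / (1 + x * z))) =ᶠ[𝓝 0]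
        fun z => z * (z + x) := by
      filter_upwards [hnb] with z hz
      have := hne z hz
      field_simp
    have t := tay_congr e
    rwa [tay_mul (by fun_prop) aw, tay_add (by fun_prop) (by fun_prop), tay_const,
      tay_const_mul _ (by fun_prop), tay_id, tay_mul (f := fun z => z) (by fun_prop) (by fun_prop),
      tay_add (f := fun z => z) (by fun_prop) (by fun_prop), tay_id, tay_const, map_one] at t

lemma blaschke_coeff {x : ℂ} {W : ℂ⟦X⟧} (h : (1 + C x * X) * W = X * (X + C x)) :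
    coeff 0 W = 0 ∧ coeff 1 W = x ∧ coeff 2 W = 1 - x ^ 2 ∧
      ∀ k, coeff (k + 3) W = -x * coeff (k + 2) W := by
  have h' : W + C x * (X * W) = X ^ 2 + C x * X := by linear_combination h
  have e := fun k => congrArg (coeff k) h'
  simp only [map_add, coeff_C_mul] at e
  have e0 : coeff 0 W = 0 := by simpa using e 0
  have e1 : coeff 1 W = x := by
    have := e (0 + 1)
    rw [coeff_succ_X_mul, e0] at this
    simpa [coeff_X_pow, coeff_X] using this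
  refine ⟨e0, e1, ?_, fun k => ?_⟩
  · have := e (1 + 1)
    rw [coeff_succ_X_mul, e1] at this
    simp only [coeff_X_pow, coeff_X] at this
    norm_num at this
    linear_combination this
  · have := e (k + 2 + 1)
    rw [coeff_succ_X_mul, coeff_X_pow, coeff_X, if_neg (by omega), if_neg (by omega)] at this
    linear_combination this

theorem atoms5 (h0 : 0 < a) (h1 : a ≤ 1) {τ : ℝ} (t0 : 0 ≤ τ) (t1 : τ ≤ 1) : ∃ f, Star a f ∧
    ‖coeff 5 (tay f)‖ = a / 2 * psi a τ := by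
  obtain ⟨x, x0, rfl⟩ : ∃ x : ℝ, 0 ≤ x ∧ τ = x ^ 2 := ⟨√τ, Real.sqrt_nonneg _, (Real.sq_sqrt t0).symm⟩
  obtain ⟨w, wd, w0, wl, we⟩ := blaschke x0 (by nlinarith)
  obtain ⟨f, F, hf, hR⟩ := rep_low h0 h1 wd w0 wl
  obtain ⟨c0, c1, c2, c3⟩ := blaschke_coeff we
  refine ⟨f, hf, ?_⟩
  have e := hR.coeff (N := 4) (by norm_num)
  rw [show (4 : ℕ) + 1 = 5 from rfl, (V_coeffs a c0 hR.1 hR.2.1).2.2.2, c3 1, c3 0, c2, c1] at e
  have e2 : coeff 5 (tay f) = ((a / 2 * psi a (x ^ 2) : ℝ) : ℂ) := by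
    rw [e]
    unfold psi
    push_cast
    ring
  have p : 0 ≤ psi a (x ^ 2) := by
    unfold psi
    have : 0 ≤ 2 - 14 * a / 3 + 40 * a ^ 2 / 3 := by nlinarith [sq_nonneg (a - 7 / 40)]
    have := sub_nonneg.2 t1
    positivity
  rw [e2, Complex.norm_real, Real.norm_of_nonneg (by positivity)]

theorem five_low (h0 : 0 < a) (h1 : a ≤ 1) (hc : 76 * a ^ 3 - 60 * a ^ 2 + 35 * a - 9 ≤ 0) :
    IsGreatest {x : ℝ | ∃ f : ℂ → ℂ, Star a f ∧ x = ‖coeff 5 (tay f)‖}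
      (max (a / 2) (a * (9 - 42 * a + 141 * a ^ 2 - 280 * a ^ 3 + 248 * a ^ 4)
        / (4 * (9 - 37 * a + 60 * a ^ 2 - 38 * a ^ 3)))) := by
  have p1 : 0 < 3 - 13 * a + 20 * a ^ 2 := by nlinarith [sq_nonneg (a - 13 / 40)]
  have pD : 0 < 9 - 37 * a + 60 * a ^ 2 - 38 * a ^ 3 := by linarith
  have key : ∀ τ, a / 2 * psi a τ = a * (9 - 42 * a + 141 * a ^ 2 - 280 * a ^ 3 + 248 * a ^ 4)
        / (4 * (9 - 37 * a + 60 * a ^ 2 - 38 * a ^ 3))
      - a / 9 * (9 - 37 * a + 60 * a ^ 2 - 38 * a ^ 3)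
        * (τ - 3 * (3 - 13 * a + 20 * a ^ 2) / (2 * (9 - 37 * a + 60 * a ^ 2 - 38 * a ^ 3))) ^ 2 := by
    intro τ
    unfold psi
    generalize hD : 9 - 37 * a + 60 * a ^ 2 - 38 * a ^ 3 = D at *
    field_simp
    rw [← hD]
    ring
  constructor
  · rcases le_total (a / 2) (a * (9 - 42 * a + 141 * a ^ 2 - 280 * a ^ 3 + 248 * a ^ 4)
        / (4 * (9 - 37 * a + 60 * a ^ 2 - 38 * a ^ 3))) with h | h
    · obtain ⟨f, hf, e⟩ := atoms5 h0 h1
        (τ := 3 * (3 - 13 * a + 20 * a ^ 2) / (2 * (9 - 37 * a + 60 * a ^ 2 - 38 * a ^ 3)))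
        (by positivity) (by rw [div_le_one (by positivity)]; linarith)
      refine ⟨f, hf, ?_⟩
      rw [max_eq_right h, e, key]
      simp
    · obtain ⟨f, a1, a2, a3, a4, a5, a6⟩ := extremal h0 h1 (N := 4) (by norm_num)
      refine ⟨f, ⟨a1, a2, a3, a4, a5⟩, ?_⟩
      rw [max_eq_left h, a6, Complex.norm_real, Real.norm_of_nonneg (by positivity)]
      push_cast
      ring
  · rintro x ⟨f, hf, rfl⟩
    rcases upper5 h0 h1 hf with b | ⟨τ, -, -, b⟩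
    · exact b.trans (le_max_left _ _)
    · rw [key] at b
      exact (b.trans (sub_le_self _ (by positivity))).trans (le_max_right _ _)

theorem five_high (h0 : 0 < a) (h1 : a ≤ 1) (hc : 0 ≤ 76 * a ^ 3 - 60 * a ^ 2 + 35 * a - 9) :
    IsGreatest {x : ℝ | ∃ f : ℂ → ℂ, Star a f ∧ x = ‖coeff 5 (tay f)‖}
      (a ^ 2 * (7 + 38 * a ^ 2) / 9) := by
  have p1 : 0 < 3 - 13 * a + 20 * a ^ 2 := by nlinarith [sq_nonneg (a - 13 / 40)]
  have e1 : a / 2 * psi a 1 = a ^ 2 * (7 + 38 * a ^ 2) / 9 := by unfold psi; ring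
  constructor
  · obtain ⟨f, hf, e⟩ := atoms5 h0 h1 zero_le_one le_rfl
    exact ⟨f, hf, by rw [e, e1]⟩
  · rintro x ⟨f, hf, rfl⟩
    rcases upper5 h0 h1 hf with b | ⟨τ, t0, t1, b⟩
    · have a0 : 19 / 50 ≤ a := by
        by_contra hlt
        have h2 : 0 < 19 / 50 - a := by linarith
        nlinarith [mul_nonneg h2.le (sq_nonneg (a - 1 / 5))]
      have a2 : (19 / 50) ^ 2 ≤ a ^ 2 := pow_le_pow_left₀ (by norm_num) a0 2
      have : 9 / 2 ≤ a * (7 + 38 * a ^ 2) := by nlinarith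
      nlinarith
    · have e : psi a 1 - psi a τ = (1 - τ) * ((1 - τ) * (3 - 13 * a + 20 * a ^ 2) / 3
          + (1 + τ) * (76 * a ^ 3 - 60 * a ^ 2 + 35 * a - 9) / 9) := by
        unfold psi
        ring
      have t2 := sub_nonneg.2 t1
      have : 0 ≤ psi a 1 - psi a τ := by
        rw [e]
        positivity
      rw [← e1]
      nlinarith

end Pool.Agent.P.MP_bdc337_an.SI
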