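import Pool.Agent.P.MP_bdc337_an.SI.Core

/-! The sixth and seventh coefficient functionals. -/

set_option autoImplicit false

open Finset PowerSeries

namespace Pool.Agent.P.MP_bdc337_an.SI

variable {w : ℂ⟦X⟧}

lemma cm6 (p q : ℂ⟦X⟧) : coeff 6 (p * q)
    = coeff 0 p * coeff 6 q + coeff 1 p * coeff 5 q + coeff 2 p * coeff 4 q + coeff 3 p * coeff 3 q + coeff 4 p * coeff 2 q + coeff 5 p * coeff 1 q + coeff 6 p * coeff 0 q := by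
  simp [coeff_mul, Finset.Nat.sum_antidiagonal_eq_sum_range_succ_mk, Finset.sum_range_succ]

lemma cm7 (p q : ℂ⟦X⟧) : coeff 7 (p * q)
    = coeff 0 p * coeff 7 q + coeff 1 p * coeff 6 q + coeff 2 p * coeff 5 q + coeff 3 p * coeff 4 q + coeff 4 p * coeff 3 q + coeff 5 p * coeff 2 q + coeff 6 p * coeff 1 q + coeff 7 p * coeff 0 q := by
  simp [coeff_mul, Finset.Nat.sum_antidiagonal_eq_sum_range_succ_mk, Finset.sum_range_succ]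

lemma KK6 (a : ℝ) (h0 : coeff 0 w = 0) :
    coeff 6 (KK a w) = coeff 6 w
      + (1 * a) * coeff 3 w ^ 2
      + (2 * a) * coeff 2 w * coeff 4 w
      + (1 / 3 + 2 / 3 * a ^ 2) * coeff 2 w ^ 3
      + (2 * a) * coeff 1 w * coeff 5 w
      + (2 + 4 * a ^ 2) * coeff 1 w * coeff 2 w * coeff 3 w
      + (1 + 2 * a ^ 2) * coeff 1 w ^ 2 * coeff 4 w
      + (4 * a + 2 * a ^ 3) * coeff 1 w ^ 2 * coeff 2 w ^ 2
      + (8 / 3 * a + 4 / 3 * a ^ 3) * coeff 1 w ^ 3 * coeff 3 w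
      + (1 + 10 / 3 * a ^ 2 + 2 / 3 * a ^ 4) * coeff 1 w ^ 4 * coeff 2 w
      + (23 / 45 * a + 4 / 9 * a ^ 3 + 2 / 45 * a ^ 5) * coeff 1 w ^ 6 := by
  obtain ⟨k1, k2, k3, k4⟩ := KK_coeffs a h0
  have k5 := KK5 a h0
  have h := KK_ode a h0
  have K0 := coeff_zero_KK a h0
  have h' : d⁄dX ℂ (KK a w) = w * (w * d⁄dX ℂ (KK a w)) + d⁄dX ℂ w
      + C (2 * a : ℂ) * (KK a w * d⁄dX ℂ w) := by
    have : (C (2 * a : ℂ) : ℂ⟦X⟧) = 2 * C (a : ℂ) := by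
      rw [map_mul]
      rfl
    rw [this]
    linear_combination h
  have e := congrArg (coeff 5) h'
  simp only [map_add, coeff_C_mul, cm0, cm1, cm2, cm3, cm4, cm5, coeff_derivative, h0, K0] at e
  norm_num at e
  rw [k1, k2, k3, k4, k5] at e
  linear_combination e / 6

lemma KK7 (a : ℝ) (h0 : coeff 0 w = 0) :
    coeff 7 (KK a w) = coeff 7 w
      + (2 * a) * coeff 3 w * coeff 4 w
      + (2 * a) * coeff 2 w * coeff 5 w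
      + (1 + 2 * a ^ 2) * coeff 2 w ^ 2 * coeff 3 w
      + (2 * a) * coeff 1 w * coeff 6 w
      + (1 + 2 * a ^ 2) * coeff 1 w * coeff 3 w ^ 2
      + (2 + 4 * a ^ 2) * coeff 1 w * coeff 2 w * coeff 4 w
      + (8 / 3 * a + 4 / 3 * a ^ 3) * coeff 1 w * coeff 2 w ^ 3
      + (1 + 2 * a ^ 2) * coeff 1 w ^ 2 * coeff 5 w
      + (8 * a + 4 * a ^ 3) * coeff 1 w ^ 2 * coeff 2 w * coeff 3 w
      + (8 / 3 * a + 4 / 3 * a ^ 3) * coeff 1 w ^ 3 * coeff 4 w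
      + (2 + 20 / 3 * a ^ 2 + 4 / 3 * a ^ 4) * coeff 1 w ^ 3 * coeff 2 w ^ 2
      + (1 + 10 / 3 * a ^ 2 + 2 / 3 * a ^ 4) * coeff 1 w ^ 4 * coeff 3 w
      + (46 / 15 * a + 8 / 3 * a ^ 3 + 4 / 15 * a ^ 5) * coeff 1 w ^ 5 * coeff 2 w
      + (1 / 7 + 28 / 45 * a ^ 2 + 2 / 9 * a ^ 4 + 4 / 315 * a ^ 6) * coeff 1 w ^ 7 := by
  obtain ⟨k1, k2, k3, k4⟩ := KK_coeffs a h0
  have k5 := KK5 a h0
  have k6 := KK6 a h0
  have h := KK_ode a h0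
  have K0 := coeff_zero_KK a h0
  have h' : d⁄dX ℂ (KK a w) = w * (w * d⁄dX ℂ (KK a w)) + d⁄dX ℂ w
      + C (2 * a : ℂ) * (KK a w * d⁄dX ℂ w) := by
    have : (C (2 * a : ℂ) : ℂ⟦X⟧) = 2 * C (a : ℂ) := by
      rw [map_mul]
      rfl
    rw [this]
    linear_combination h
  have e := congrArg (coeff 6) h'
  simp only [map_add, coeff_C_mul, cm0, cm1, cm2, cm3, cm4, cm5, cm6, coeff_derivative, h0, K0] at e
  norm_num at e
  rw [k1, k2, k3, k4, k5, k6] at e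
  linear_combination e / 7

/-- the coefficient functional -/
noncomputable def Phi6 (a c1 c2 c3 c4 c5 c6 : ℂ) : ℂ :=
  c6
      + (5 / 3 * a) * c3 ^ 2
      + (7 / 2 * a) * c2 * c4
      + (1 / 3 + 8 / 3 * a ^ 2) * c2 ^ 3
      + (22 / 5 * a) * c1 * c5
      + (2 + 277 / 15 * a ^ 2) * c1 * c2 * c3
      + (1 + 113 / 10 * a ^ 2) * c1 ^ 2 * c4
      + (79 / 10 * a + 442 / 15 * a ^ 3) * c1 ^ 2 * c2 ^ 2
      + (248 / 45 * a + 1021 / 45 * a ^ 3) * c1 ^ 3 * c3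
      + (1 + 1571 / 90 * a ^ 2 + 1829 / 45 * a ^ 4) * c1 ^ 4 * c2
      + (719 / 675 * a + 1021 / 135 * a ^ 3 + 8351 / 675 * a ^ 5) * c1 ^ 6

lemma V6 (a : ℝ) (h0 : coeff 0 w = 0) {F : ℂ⟦X⟧} (hF0 : coeff 0 F = 1)
    (hF : X * d⁄dX ℂ F = (2 * C (a : ℂ) * KK a w) * F) :
    coeff 6 (KK a w * F) = Phi6 a (coeff 1 w) (coeff 2 w) (coeff 3 w) (coeff 4 w) (coeff 5 w) (coeff 6 w) := by
  obtain ⟨k1, k2, k3, k4⟩ := KK_coeffs a h0
  obtain ⟨v1, v2, v3, v4⟩ := V_coeffs a h0 hF0 hF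
  have k5 := KK5 a h0
  have k6 := KK6 a h0
  have v5 := V5 a h0 hF0 hF
  have K0 := coeff_zero_KK a h0
  have h' : X * d⁄dX ℂ F = C (2 * a : ℂ) * (KK a w * F) := by
    have : (C (2 * a : ℂ) : ℂ⟦X⟧) = 2 * C (a : ℂ) := by
      rw [map_mul]
      rfl
    rw [this, hF]
    ring
  have e1 := congrArg (coeff 1) h'
  have e2 := congrArg (coeff 2) h'
  have e3 := congrArg (coeff 3) h'
  have e4 := congrArg (coeff 4) h'
  have e5 := congrArg (coeff 5) h'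
  rw [coeff_X_mul_deriv, coeff_C_mul] at e1 e2 e3 e4 e5
  rw [v1] at e1
  rw [v2] at e2
  rw [v3] at e3
  rw [v4] at e4
  rw [v5] at e5
  push_cast at e1 e2 e3 e4 e5
  rw [cm6, K0, k1, k2, k3, k4, k5, k6, hF0,
    eq_div_of_mul_eq (by norm_num) ((mul_comm _ _).trans e1),
    eq_div_of_mul_eq (by norm_num) ((mul_comm _ _).trans e2),
    eq_div_of_mul_eq (by norm_num) ((mul_comm _ _).trans e3),
    eq_div_of_mul_eq (by norm_num) ((mul_comm _ _).trans e4),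
    eq_div_of_mul_eq (by norm_num) ((mul_comm _ _).trans e5)]
  unfold Phi6
  ring

lemma Phi6_rot (a μ c1 c2 c3 c4 c5 c6 : ℂ) :
    Phi6 a (μ ^ 1 * c1) (μ ^ 2 * c2) (μ ^ 3 * c3) (μ ^ 4 * c4) (μ ^ 5 * c5) (μ ^ 6 * c6)
      = μ ^ 6 * Phi6 a c1 c2 c3 c4 c5 c6 := by
  unfold Phi6
  ring

/-- the coefficient functional -/
noncomputable def Phi7 (a c1 c2 c3 c4 c5 c6 c7 : ℂ) : ℂ :=
  c7
      + (19 / 6 * a) * c3 * c4
      + (17 / 5 * a) * c2 * c5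
      + (1 + 107 / 15 * a ^ 2) * c2 ^ 2 * c3
      + (13 / 3 * a) * c1 * c6
      + (1 + 74 / 9 * a ^ 2) * c1 * c3 ^ 2
      + (2 + 173 / 10 * a ^ 2) * c1 * c2 * c4
      + (218 / 45 * a + 676 / 45 * a ^ 3) * c1 * c2 ^ 3
      + (1 + 163 / 15 * a ^ 2) * c1 ^ 2 * c5
      + (457 / 30 * a + 2329 / 45 * a ^ 3) * c1 ^ 2 * c2 * c3
      + (97 / 18 * a + 1891 / 90 * a ^ 3) * c1 ^ 3 * c4
      + (2 + 2749 / 90 * a ^ 2 + 2762 / 45 * a ^ 4) * c1 ^ 3 * c2 ^ 2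
      + (1 + 2207 / 135 * a ^ 2 + 4759 / 135 * a ^ 4) * c1 ^ 4 * c3
      + (2731 / 450 * a + 10331 / 270 * a ^ 3 + 37441 / 675 * a ^ 5) * c1 ^ 5 * c2
      + (1 / 7 + 6251 / 2025 * a ^ 2 + 4759 / 405 * a ^ 4 + 184553 / 14175 * a ^ 6) * c1 ^ 7

lemma V7 (a : ℝ) (h0 : coeff 0 w = 0) {F : ℂ⟦X⟧} (hF0 : coeff 0 F = 1)
    (hF : X * d⁄dX ℂ F = (2 * C (a : ℂ) * KK a w) * F) :
    coeff 7 (KK a w * F) = Phi7 a (coeff 1 w) (coeff 2 w) (coeff 3 w) (coeff 4 w) (coeff 5 w) (coeff 6 w) (coeff 7 w) := by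
  obtain ⟨k1, k2, k3, k4⟩ := KK_coeffs a h0
  obtain ⟨v1, v2, v3, v4⟩ := V_coeffs a h0 hF0 hF
  have k5 := KK5 a h0
  have k6 := KK6 a h0
  have k7 := KK7 a h0
  have v5 := V5 a h0 hF0 hF
  have v6 := V6 a h0 hF0 hF
  have K0 := coeff_zero_KK a h0
  have h' : X * d⁄dX ℂ F = C (2 * a : ℂ) * (KK a w * F) := by
    have : (C (2 * a : ℂ) : ℂ⟦X⟧) = 2 * C (a : ℂ) := by
      rw [map_mul]
      rfl
    rw [this, hF]
    ring
  have e1 := congrArg (coeff 1) h'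
  have e2 := congrArg (coeff 2) h'
  have e3 := congrArg (coeff 3) h'
  have e4 := congrArg (coeff 4) h'
  have e5 := congrArg (coeff 5) h'
  have e6 := congrArg (coeff 6) h'
  rw [coeff_X_mul_deriv, coeff_C_mul] at e1 e2 e3 e4 e5 e6
  rw [v1] at e1
  rw [v2] at e2
  rw [v3] at e3
  rw [v4] at e4
  rw [v5] at e5
  rw [v6] at e6
  push_cast at e1 e2 e3 e4 e5 e6
  rw [cm7, K0, k1, k2, k3, k4, k5, k6, k7, hF0,
    eq_div_of_mul_eq (by norm_num) ((mul_comm _ _).trans e1),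
    eq_div_of_mul_eq (by norm_num) ((mul_comm _ _).trans e2),
    eq_div_of_mul_eq (by norm_num) ((mul_comm _ _).trans e3),
    eq_div_of_mul_eq (by norm_num) ((mul_comm _ _).trans e4),
    eq_div_of_mul_eq (by norm_num) ((mul_comm _ _).trans e5),
    eq_div_of_mul_eq (by norm_num) ((mul_comm _ _).trans e6)]
  unfold Phi7 Phi6
  ring

lemma Phi7_rot (a μ c1 c2 c3 c4 c5 c6 c7 : ℂ) :
    Phi7 a (μ ^ 1 * c1) (μ ^ 2 * c2) (μ ^ 3 * c3) (μ ^ 4 * c4) (μ ^ 5 * c5) (μ ^ 6 * c6) (μ ^ 7 * c7)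
      = μ ^ 7 * Phi7 a c1 c2 c3 c4 c5 c6 c7 := by
  unfold Phi7
  ring

end Pool.Agent.P.MP_bdc337_an.SI
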