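import Pool.Agent.P.MP_bdc337_an.SI.Refl
import Pool.Agent.P.MP_bdc337_an.SI.V67

/-! Forms, Schur parameters and rotations. -/

set_option autoImplicit false

open Finset PowerSeries

namespace Pool.Agent.P.MP_bdc337_an.SI.Rf

/-- constants -/
class Cq (R : Type) where
  q : ℤ → R
  i : ℤ → R
  z : R

noncomputable instance : Cq ℝ := ⟨fun n => n / DD, fun n => n, 0⟩
noncomputable instance : Cq ℂ := ⟨fun n => n / DD, fun n => n, 0⟩
instance : Cq KQ := ⟨fun n => ⟨n, n.natAbs, n.natAbs, 0, 0, 1⟩,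
  fun n => ⟨n, n.natAbs, n.natAbs, 0, 0, 0⟩, ⟨0, 0, 0, 0, 0, 0⟩⟩

lemma qR (n : ℤ) : (Cq.q n : ℝ) = n / 708750 := by show (n : ℝ) / DD = _; norm_num [DD]
lemma iR (n : ℤ) : (Cq.i n : ℝ) = n := rfl
lemma zR : (Cq.z : ℝ) = 0 := rfl
lemma qC (n : ℤ) : (Cq.q n : ℂ) = n / 708750 := by show (n : ℂ) / DD = _; norm_num [DD]
lemma iC (n : ℤ) : (Cq.i n : ℂ) = n := rfl
lemma zC : (Cq.z : ℂ) = 0 := rfl

/-- maps that respect the operations -/
structure Hom {R S : Type} [Add R] [Mul R] [Neg R] [Cq R] [Add S] [Mul S] [Neg S] [Cq S]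
    (f : R → S) : Prop where
  add : ∀ a b, f (a + b) = f a + f b
  mul : ∀ a b, f (a * b) = f a * f b
  neg : ∀ a, f (-a) = -f a
  q : ∀ n, f (Cq.q n) = Cq.q n
  i : ∀ n, f (Cq.i n) = Cq.i n
  z : f Cq.z = Cq.z

lemma rep_q (x y : ℝ) (n : ℤ) : Rep x y (Cq.q n) (Cq.q n) := by
  have h := D2.const x y n
  have e : (n : ℝ) = n / DD * den x y 0 0 1 := by
    have := DD_pos
    simp only [den, pow_zero, pow_one, one_mul]
    field_simp
  rw [e] at h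
  exact h

lemma rep_i (x y : ℝ) (n : ℤ) : Rep x y (Cq.i n) (Cq.i n) := by
  have h := D2.const x y n
  have e : (n : ℝ) = n * den x y 0 0 0 := by simp [den]
  rw [e] at h
  exact h

lemma rep_z (x y : ℝ) : Rep x y Cq.z Cq.z := by
  have h := rep_i x y 0
  rw [iR, Int.cast_zero] at h
  exact h

/-- codes with their values -/
def RR (x y : ℝ) := {t : KQ × ℝ // Rep x y t.1 t.2}

section
variable {x y : ℝ}

noncomputable instance : Add (RR x y) := ⟨fun a b => ⟨(a.1.1 + b.1.1, a.1.2 + b.1.2), a.2.add b.2⟩⟩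
noncomputable instance : Mul (RR x y) := ⟨fun a b => ⟨(a.1.1 * b.1.1, a.1.2 * b.1.2), a.2.mul b.2⟩⟩
noncomputable instance : Neg (RR x y) := ⟨fun a => ⟨(-a.1.1, -a.1.2), a.2.neg⟩⟩
noncomputable instance : Cq (RR x y) := ⟨fun n => ⟨(Cq.q n, Cq.q n), rep_q x y n⟩,
  fun n => ⟨(Cq.i n, Cq.i n), rep_i x y n⟩, ⟨(Cq.z, Cq.z), rep_z x y⟩⟩

/-- the code -/
def RR.c (a : RR x y) : KQ := a.1.1

/-- the value -/
def RR.v (a : RR x y) : ℝ := a.1.2

lemma hom_c : Hom (RR.c : RR x y → KQ) :=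
  ⟨fun _ _ => rfl, fun _ _ => rfl, fun _ => rfl, fun _ => rfl, fun _ => rfl, rfl⟩

lemma hom_v : Hom (RR.v : RR x y → ℝ) :=
  ⟨fun _ _ => rfl, fun _ _ => rfl, fun _ => rfl, fun _ => rfl, fun _ => rfl, rfl⟩

lemma chkR {i j k : ℕ} {M : M4 (RR x y)} (h : chkM i j k (M.map RR.c) = true) (x0 : 0 ≤ x)
    (y0 : 0 ≤ y) (p q r s : ℝ) : 0 ≤ qf (M.map RR.v) p q r s :=
  chkM_ok h x0 y0 (N := M.map RR.v) ⟨M.m00.2, M.m01.2, M.m02.2, M.m03.2, M.m11.2, M.m12.2, M.m13.2,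
    M.m22.2, M.m23.2, M.m33.2⟩ p q r s

end

lemma hom_C : Hom ((↑) : ℝ → ℂ) :=
  ⟨Complex.ofReal_add, Complex.ofReal_mul, Complex.ofReal_neg,
    fun n => by rw [qR, qC]; push_cast; rfl, fun n => by rw [iR, iC]; push_cast; rfl, rfl⟩

/-- weighted product of two linear forms -/
def pr {R : Type} [Add R] [Mul R] (w : R) (l k : L4 R) : M4 R :=
  ⟨w * (l.a * k.a), w * (l.a * k.b + l.b * k.a), w * (l.a * k.c + l.c * k.a),
    w * (l.a * k.d + l.d * k.a), w * (l.b * k.b), w * (l.b * k.c + l.c * k.b),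
    w * (l.b * k.d + l.d * k.b), w * (l.c * k.c), w * (l.c * k.d + l.d * k.c), w * (l.d * k.d)⟩

/-- moves the mixed term -/
def shift {R : Type} [Add R] [Mul R] [Neg R] (o f : R) (M : M4 R) : M4 R :=
  { M with m02 := f, m11 := M.m11 + o * (M.m02 + -f) }

/-- value of a linear form -/
def lin {R : Type} [CommRing R] (l : L4 R) (p q r s : R) : R := l.a * p + l.b * q + l.c * r + l.d * s

section
variable {R S : Type} [Add R] [Mul R] [Neg R] [Cq R] [Add S] [Mul S] [Neg S] [Cq S] {f : R → S}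

lemma Hom.pr (h : Hom f) (w : R) (l k : L4 R) :
    (pr w l k).map f = pr (f w) (l.map f) (k.map f) := by
  simp only [Rf.pr, M4.map, L4.map, h.add, h.mul]

lemma Hom.madd (h : Hom f) (M N : M4 R) : (M.add N).map f = (M.map f).add (N.map f) := by
  simp only [M4.add, M4.map, h.add]

lemma Hom.msm (h : Hom f) (k : R) (M : M4 R) : (M4.sm k M).map f = M4.sm (f k) (M.map f) := by
  simp only [M4.sm, M4.map, h.mul]

lemma Hom.shift (h : Hom f) (o g : R) (M : M4 R) :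
    (shift o g M).map f = shift (f o) (f g) (M.map f) := by
  simp only [Rf.shift, M4.map, h.add, h.mul, h.neg]

lemma L4.map_mk {A B : Type} (g : A → B) (a b c d : A) :
    (L4.mk a b c d).map g = ⟨g a, g b, g c, g d⟩ := rfl

end

section
variable {R : Type} [CommRing R]

lemma qf_pr (w : R) (l k : L4 R) (p q r s : R) :
    qf (pr w l k) p q r s = w * (lin l p q r s * lin k p q r s) := by
  simp only [qf, pr, lin]
  ring

lemma qf_add (M N : M4 R) (p q r s : R) : qf (M.add N) p q r s = qf M p q r s + qf N p q r s := by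
  simp only [qf, M4.add]
  ring

lemma qf_sm (k : R) (M : M4 R) (p q r s : R) : qf (M4.sm k M) p q r s = k * qf M p q r s := by
  simp only [qf, M4.sm, M4.map]
  ring

lemma qf_shift (o f : R) (M : M4 R) (q s : R) :
    qf (shift o f M) o q (q ^ 2) s = qf M o q (q ^ 2) s := by
  simp only [qf, shift]
  ring

end

/-- the hermitian form -/
def herm (M : M4 ℝ) (p q r s : ℂ) : ℝ := qf M p.re q.re r.re s.re + qf M p.im q.im r.im s.im

lemma herm_add (M N : M4 ℝ) (p q r s : ℂ) :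
    herm (M.add N) p q r s = herm M p q r s + herm N p q r s := by
  simp only [herm, qf_add]
  ring

lemma herm_pr (w : ℝ) (l : L4 ℝ) (p q r s : ℂ) :
    herm (pr w l l) p q r s = w * ‖lin (l.map (↑)) p q r s‖ ^ 2 := by
  simp only [herm, qf_pr, lin, L4.map, Complex.sq_norm, Complex.normSq_apply, Complex.add_re,
    Complex.add_im, Complex.re_ofReal_mul, Complex.im_ofReal_mul]
  ring

lemma phase {H S : M4 ℝ} {c : ℝ} (hc : 0 ≤ c) (hp : ∀ p q r s, 0 ≤ qf (H.add (M4.sm c S)) p q r s)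
    (hm : ∀ p q r s, 0 ≤ qf (H.add (M4.sm (-c) S)) p q r s) (p q r s : ℂ) :
    c * ‖qf (S.map (↑)) p q r s‖ ≤ herm H p q r s := by
  obtain ⟨ν, hν, hν2⟩ := Complex.exists_norm_eq_mul_self (qf (S.map (↑)) p q r s)
  obtain ⟨μ, rfl⟩ := IsAlgClosed.exists_pow_nat_eq ν two_pos
  have n1 : μ.re ^ 2 + μ.im ^ 2 = 1 := by
    rw [norm_pow, Complex.sq_norm, Complex.normSq_apply] at hν
    linarith
  have h1 := hm (μ * p).re (μ * q).re (μ * r).re (μ * s).re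
  have h2 := hp (μ * p).im (μ * q).im (μ * r).im (μ * s).im
  have e1 : herm H (μ * p) (μ * q) (μ * r) (μ * s) = (μ.re ^ 2 + μ.im ^ 2) * herm H p q r s := by
    simp only [herm, qf, Complex.mul_re, Complex.mul_im]
    ring
  have e2 : qf (S.map (↑)) (μ * p) (μ * q) (μ * r) (μ * s) = μ ^ 2 * qf (S.map (↑)) p q r s := by
    simp only [qf]
    ring
  have e3 : ∀ p q r s : ℂ, (qf (S.map (↑)) p q r s).re
      = qf S p.re q.re r.re s.re - qf S p.im q.im r.im s.im := by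
    intro p q r s
    simp only [qf, M4.map, sq, Complex.add_re, Complex.re_ofReal_mul, Complex.mul_re,
      Complex.ofReal_re, Complex.ofReal_im]
    ring
  have e4 := e3 (μ * p) (μ * q) (μ * r) (μ * s)
  rw [e2, ← hν2, Complex.ofReal_re] at e4
  rw [n1, one_mul, herm] at e1
  rw [qf_add, qf_sm] at h1 h2
  rw [e4, ← e1]
  have := hc
  linarith

/-- cubic test series -/
noncomputable def tc (x y z : ℂ) : ℂ⟦X⟧ :=
  PowerSeries.mk fun k => if k = 0 then 1 else if k = 1 then x else if k = 2 then y else z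

lemma tc0 (x y z : ℂ) : coeff 0 (tc x y z) = 1 := by simp [tc]
lemma tc1 (x y z : ℂ) : coeff 1 (tc x y z) = x := by simp [tc]
lemma tc2 (x y z : ℂ) : coeff 2 (tc x y z) = y := by simp [tc]
lemma tc3 (x y z : ℂ) : coeff 3 (tc x y z) = z := by simp [tc]

variable {w : ℂ⟦X⟧}

lemma Dc3 (h0 : coeff 0 w = 0) (x y z : ℂ) : Dd w 3 (tc x y z) = 1 + ‖x‖ ^ 2 - ‖coeff 1 w‖ ^ 2
    + ‖y‖ ^ 2 - ‖coeff 1 w * x + coeff 2 w‖ ^ 2 := by
  simp only [Dd, nsq, Finset.sum_range_succ, range_zero, sum_empty, cm0, cm1, cm2, tc0, tc1, tc2,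
    h0, zero_mul, mul_one, zero_add, norm_zero, norm_one]
  ring

lemma Dc4 (h0 : coeff 0 w = 0) (x y z : ℂ) : Dd w 4 (tc x y z) = 1 + ‖x‖ ^ 2 - ‖coeff 1 w‖ ^ 2
    + ‖y‖ ^ 2 - ‖coeff 1 w * x + coeff 2 w‖ ^ 2
    + ‖z‖ ^ 2 - ‖coeff 1 w * y + coeff 2 w * x + coeff 3 w‖ ^ 2 := by
  rw [Dd_succ, Dc3 h0, cm3, tc0, tc1, tc2, tc3, h0]
  simp only [zero_mul, mul_one, zero_add]
  ring

lemma pick_real {x m : ℝ} (x0 : 0 ≤ x) (x1 : x ≤ 1)
    (key : ∀ k : ℝ, 0 ≤ 1 + k ^ 2 * x ^ 2 * m ^ 2 - x ^ 2 - (1 + k * x ^ 2) ^ 2 * m ^ 2) :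
    m ≤ 1 - x ^ 2 := by
  have e0 : 0 ≤ 1 - x ^ 2 := by nlinarith
  rcases e0.eq_or_lt with e | e
  · have := key 0
    nlinarith
  · have h := key (1 / (1 - x ^ 2))
    have e1 : 1 + (1 / (1 - x ^ 2)) ^ 2 * x ^ 2 * m ^ 2 - x ^ 2
        - (1 + 1 / (1 - x ^ 2) * x ^ 2) ^ 2 * m ^ 2 = ((1 - x ^ 2) ^ 2 - m ^ 2) / (1 - x ^ 2) := by
      field_simp
      ring
    rw [e1, le_div_iff₀ e, zero_mul] at h
    exact abs_le_of_sq_le_sq' (by linarith) e0 |>.2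

theorem schur (hw : Contr w) {x : ℝ} (hx : coeff 1 w = x) (x0 : 0 ≤ x) :
    ∃ γ δ : ℂ, coeff 2 w = (1 - x ^ 2) * γ ∧ coeff 3 w = (1 - x ^ 2) * (δ - x * γ ^ 2) ∧
      ‖γ‖ ≤ 1 ∧ ‖δ‖ ≤ 1 - ‖γ‖ ^ 2 := by
  have x1 := w1_le hw
  have pk := pick hw
  have D4 : ∀ b, 0 ≤ Dd w 4 b := fun b => by
    have h := mm hw (N := 4) (M := 1) (L := 4) rfl le_rfl (by norm_num) 0 b
    have e : Dd w 1 0 = 0 := by simp [Dd, nsq]
    rw [e, zero_add] at h
    exact le_trans (by positivity) h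
  have nx : ‖coeff 1 w‖ = x := by rw [hx, Complex.norm_real, Real.norm_of_nonneg x0]
  rw [nx] at x1 pk
  have e0 : 0 ≤ 1 - x ^ 2 := by nlinarith
  rcases e0.eq_or_lt with e | e
  · have h := D4 (tc 0 0 0)
    rw [Dc4 hw.1, nx] at h
    simp only [norm_zero, mul_zero, zero_add] at h
    have c2 : ‖coeff 2 w‖ = 0 := by nlinarith [norm_nonneg (coeff 2 w)]
    have c3 : ‖coeff 3 w‖ ^ 2 = 0 := by nlinarith [sq_nonneg ‖coeff 3 w‖]
    refine ⟨0, 0, ?_, ?_, by simp, by simp⟩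
    · simpa using c2
    · simpa using c3
  have eC : (1 - x ^ 2 : ℂ) ≠ 0 := by exact_mod_cast e.ne'
  obtain ⟨γ, hγ⟩ : ∃ γ, coeff 2 w = (1 - x ^ 2) * γ := ⟨_, (mul_div_cancel₀ _ eC).symm⟩
  obtain ⟨δ, hδ⟩ : ∃ δ, coeff 3 w = (1 - x ^ 2) * (δ - x * γ ^ 2) :=
    ⟨coeff 3 w / (1 - x ^ 2) + x * γ ^ 2, by field_simp; ring⟩
  have g1 : ‖γ‖ ≤ 1 := by
    have : ‖coeff 2 w‖ = (1 - x ^ 2) * ‖γ‖ := by
      rw [hγ, ← norm_real_mul e0]
      push_cast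
      rfl
    nlinarith
  refine ⟨γ, δ, hγ, hδ, g1, pick_real (norm_nonneg _) g1 fun k => ?_⟩
  set β : ℂ := k * ((starRingEnd ℂ) γ * δ) with hβ
  have h := D4 (tc (β + x * γ) (x * (δ + γ * β)) 0)
  have e1 : coeff 1 w * (β + x * γ) + coeff 2 w = (x : ℂ) * β + ((1 : ℝ) : ℂ) * γ := by
    rw [hx, hγ]
    push_cast
    ring
  have e2 : coeff 1 w * (x * (δ + γ * β)) + coeff 2 w * (β + x * γ) + coeff 3 w = δ + γ * β := by
    rw [hx, hγ, hδ]
    ring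
  have e3 : β + x * γ = ((1 : ℝ) : ℂ) * β + x * γ := by simp
  have e4 : δ + γ * β = ((1 + k * ‖γ‖ ^ 2 : ℝ) : ℂ) * δ := by
    have := Complex.mul_conj' γ
    rw [hβ]
    push_cast
    linear_combination k * δ * this
  have e5 : ‖β‖ ^ 2 = k ^ 2 * ‖γ‖ ^ 2 * ‖δ‖ ^ 2 := by
    simp only [hβ, norm_mul, Complex.norm_real, Complex.norm_conj, mul_pow, Real.norm_eq_abs, sq_abs]
    ring
  have e6 : ‖δ + γ * β‖ ^ 2 = (1 + k * ‖γ‖ ^ 2) ^ 2 * ‖δ‖ ^ 2 := by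
    rw [e4, norm_mul, Complex.norm_real, mul_pow, Real.norm_eq_abs, sq_abs]
  clear_value β
  rw [Dc4 hw.1, e1, e2, nx, e3, nsq2, nsq2, norm_real_mul x0, mul_pow x, e6, e5, norm_zero] at h
  refine nonneg_of_mul_nonneg_right (a := 1 - x ^ 2) (h.trans_eq ?_) e
  ring

lemma zcon {γ δ : ℂ} (g1 : ‖γ‖ ≤ 1) (d1 : ‖δ‖ ≤ 1 - ‖γ‖ ^ 2) (b : ℝ) (β : ℂ) :
    ‖b * δ + γ * β‖ ^ 2 ≤ b ^ 2 - b ^ 2 * ‖γ‖ ^ 2 + ‖β‖ ^ 2 := by
  have g0 := norm_nonneg γ
  have h : ‖b * δ + γ * β‖ ≤ |b| * (1 - ‖γ‖ ^ 2) + ‖γ‖ * ‖β‖ := by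
    refine (norm_add_le _ _).trans ?_
    rw [norm_mul, norm_mul, Complex.norm_real, Real.norm_eq_abs]
    have := mul_le_mul_of_nonneg_left d1 (abs_nonneg b)
    linarith
  refine (pow_le_pow_left₀ (norm_nonneg _) h 2).trans ?_
  have e : 0 ≤ 1 - ‖γ‖ ^ 2 := by nlinarith
  rw [← sq_abs b]
  nlinarith [mul_nonneg e (sq_nonneg (‖γ‖ * |b| - ‖β‖))]

lemma rotate (hw : Contr w) : ∃ (μ : ℂ) (v : ℂ⟦X⟧), ‖μ‖ = 1 ∧ Contr v ∧
    (∀ k, coeff k v = μ ^ k * coeff k w) ∧ coeff 1 v = ‖coeff 1 w‖ := by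
  obtain ⟨μ, hμ, h2⟩ := Complex.exists_norm_eq_mul_self (coeff 1 w)
  have m0 : μ ≠ 0 := fun h => by simp [h] at hμ
  have ns : ∀ N a, nsq N (rescale μ⁻¹ a) = nsq N a := fun N a => by
    simp only [nsq, coeff_rescale, norm_mul, norm_pow, norm_inv, hμ, inv_one, one_pow, one_mul]
  refine ⟨μ, rescale μ w, hμ, ⟨by rw [coeff_rescale, hw.1, mul_zero], fun N a b => ?_⟩,
    fun k => coeff_rescale _ _ _, by rw [coeff_rescale, pow_one, h2]⟩
  have e : rescale μ w * a * b = rescale μ (w * rescale μ⁻¹ a * rescale μ⁻¹ b) := by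
    simp only [map_mul, rescale_rescale, inv_mul_cancel₀ m0, rescale_one, RingHom.id_apply]
  have := hw.2 N (rescale μ⁻¹ a) (rescale μ⁻¹ b)
  rwa [ns, ns, ← one_mul ‖_‖, ← one_pow N, ← hμ, ← norm_pow, ← norm_mul, ← coeff_rescale,
    ← e] at this

end Pool.Agent.P.MP_bdc337_an.SI.Rf
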