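import Pool.Agent.P.MP_bdc337_an.SI.Form

/-! The checker for quadratic forms in any number of variables. -/

set_option autoImplicit false

namespace Pool.Agent.P.MP_bdc337_an.SI.Rf

/-- quadratic forms as lists of rows -/
abbrev LM (R : Type) := List (List R)

/-- entrywise map -/
def mp {R S : Type} (f : R → S) (M : LM R) : LM S := M.map (List.map f)

section ops
variable {R : Type} [Add R] [Mul R]

/-- sum -/
def lad (M N : LM R) : LM R := padd (padd (· + ·)) M N

/-- weighted product of linear forms -/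
def lpr (w : R) : List R → List R → LM R
  | a :: l, b :: k => (w * (a * b) :: padd (· + ·) (l.map (w * b * ·)) (k.map (w * a * ·))) :: lpr w l k
  | _, _ => []

/-- sum of products -/
def lsum : List (R × List R × List R) → LM R
  | [] => []
  | t :: l => lad (lpr t.1 t.2.1 t.2.2) (lsum l)

end ops

lemma map_padd {V W : Type} {f : V → W} {ad : V → V → V} {ad' : W → W → W}
    (h : ∀ a b, f (ad a b) = ad' (f a) (f b)) :
    ∀ p q, (padd ad p q).map f = padd ad' (p.map f) (q.map f)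
  | [], q => by simp [padd]
  | c :: p, [] => by simp [padd]
  | c :: p, d :: q => by simp [padd, h, map_padd h p q]

section hom
variable {R S : Type} [Add R] [Mul R] [Add S] [Mul S] {f : R → S}

lemma mp_lad (ha : ∀ a b, f (a + b) = f a + f b) (M N : LM R) :
    mp f (lad M N) = lad (mp f M) (mp f N) := map_padd (map_padd ha) M N

lemma mp_sm (hm : ∀ a b, f (a * b) = f a * f b) (k : R) (M : LM R) :
    mp f (mp (k * ·) M) = mp (f k * ·) (mp f M) := by
  simp [mp, Function.comp_def, hm]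

lemma mp_lpr (ha : ∀ a b, f (a + b) = f a + f b) (hm : ∀ a b, f (a * b) = f a * f b) (w : R) :
    ∀ l k, mp f (lpr w l k) = lpr (f w) (l.map f) (k.map f)
  | [], _ => rfl
  | _ :: _, [] => rfl
  | a :: l, b :: k => by
    have := mp_lpr ha hm w l k
    simp only [mp] at this
    simp [mp, lpr, map_padd ha, this, hm, Function.comp_def]

lemma mp_lsum (ha : ∀ a b, f (a + b) = f a + f b) (hm : ∀ a b, f (a * b) = f a * f b) :
    ∀ l, mp f (lsum l) = lsum (l.map fun t => (f t.1, t.2.1.map f, t.2.2.map f))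
  | [] => rfl
  | t :: l => by rw [lsum, mp_lad ha, mp_lpr ha hm, mp_lsum ha hm l]; rfl

end hom

section ring
variable {R : Type} [CommRing R]

/-- value of a linear form -/
def dot : List R → List R → R
  | c :: l, p :: v => c * p + dot l v
  | _, _ => 0

/-- bilinear value -/
def bf : LM R → List R → List R → R
  | r :: M, p :: u, q :: v => p * dot r (q :: v) + bf M u v
  | _, _, _ => 0

/-- value of a quadratic form -/
def lq (M : LM R) (v : List R) : R := bf M v v

@[simp] lemma dot_nil (l : List R) : dot l [] = 0 := by cases l <;> rfl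
@[simp] lemma nil_dot (l : List R) : dot [] l = 0 := rfl
@[simp] lemma lq_nil (M : LM R) : lq M [] = 0 := by cases M <;> rfl
@[simp] lemma nil_lq (v : List R) : lq [] v = 0 := rfl
lemma lq_cons (r : List R) (M : LM R) (p : R) (v : List R) :
    lq (r :: M) (p :: v) = p * dot r (p :: v) + lq M v := rfl

lemma dot_padd : ∀ l k v : List R, dot (padd (· + ·) l k) v = dot l v + dot k v
  | [], k, v => by simp [padd]
  | _ :: _, [], v => by simp [padd]
  | _ :: _, _ :: _, [] => by simp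
  | a :: l, b :: k, p :: v => by simp only [padd, dot, dot_padd l k v]; ring

lemma dot_sm (c : R) : ∀ l v : List R, dot (l.map (c * ·)) v = c * dot l v
  | [], v => by simp
  | _ :: _, [] => by simp
  | a :: l, p :: v => by simp only [List.map, dot, dot_sm c l v]; ring

lemma lq_lad : ∀ (M N : LM R) (v : List R), lq (lad M N) v = lq M v + lq N v
  | [], k, v => by simp [lad, padd]
  | _ :: _, [], v => by simp [lad, padd]
  | _ :: _, _ :: _, [] => by simp
  | a :: l, b :: k, p :: v => by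
    have := lq_lad l k v
    simp only [lad, padd, lq_cons, dot_padd] at this ⊢
    rw [this]
    ring

lemma lq_sm (c : R) : ∀ (M : LM R) (v : List R), lq (mp (c * ·) M) v = c * lq M v
  | [], v => by simp [mp]
  | _ :: _, [] => by simp
  | a :: l, p :: v => by
    have := lq_sm c l v
    simp only [mp, List.map, lq_cons, dot_sm] at this ⊢
    rw [this]
    ring

lemma lq_lpr (w : R) : ∀ l k v : List R, lq (lpr w l k) v = w * (dot l v * dot k v)
  | [], _, v => by simp [lpr]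
  | _ :: _, [], v => by simp [lpr]
  | _ :: _, _ :: _, [] => by simp
  | a :: l, b :: k, p :: v => by
    simp only [lpr, lq_cons, dot, dot_padd, dot_sm, lq_lpr w l k v]
    ring

lemma lq_lsum (v : List R) :
    ∀ l, lq (lsum l) v = (l.map fun t => t.1 * (dot t.2.1 v * dot t.2.2 v)).sum
  | [] => by simp [lsum]
  | t :: l => by rw [lsum, lq_lad, lq_lpr, lq_lsum v l]; simp

end ring

/-- integers as differences -/
structure ZP where
  (p n : ℕ)

/-- the value -/
def ZP.v (z : ZP) : ℝ := (z.p : ℝ) - z.n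

/-- one entry of the complement -/
def ent (a b d : ℕ) (m c : ZP) : ZP :=
  ⟨Nat.add (Nat.mul a m.p) (Nat.add (Nat.mul b c.n) (Nat.mul d c.p)),
    Nat.add (Nat.mul a m.n) (Nat.add (Nat.mul b c.p) (Nat.mul d c.n))⟩

lemma ent_v (a b d : ℕ) (m c : ZP) : (ent a b d m c).v = a * m.v - ((b : ℝ) - d) * c.v := by
  simp only [ent, ZP.v, Nat.add_eq, Nat.mul_eq]
  push_cast
  ring

/-- one row of the complement -/
def rowP (a b d : ℕ) : List ZP → List ZP → List ZP
  | m :: s, c :: r => ent a b d m c :: rowP a b d s r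
  | _, _ => []

/-- complement -/
def schP (a : ℕ) : List ZP → LM ZP → LM ZP
  | c :: r, (m :: s) :: M =>
    (ent a c.p c.n m c :: rowP a (Nat.mul 2 c.p) (Nat.mul 2 c.n) s r) :: schP a r M
  | _, _ => []

/-- triangular shape -/
def tri {α : Type} : ℕ → LM α → Prop
  | 0, M => M = []
  | _ + 1, [] => False
  | n + 1, r :: M => r.length = n + 1 ∧ tri n M

instance triD {α : Type} : ∀ (n : ℕ) (M : LM α), Decidable (tri n M)
  | 0, [] => isTrue rfl
  | 0, _ :: _ => isFalse nofun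
  | _ + 1, [] => isFalse id
  | n + 1, _ :: M => @instDecidableAnd _ _ _ (triD n M)

lemma tri_mp {α β : Type} (f : α → β) : ∀ (n : ℕ) (M : LM α), tri n M → tri n (mp f M)
  | 0, _, h => by subst h; rfl
  | _ + 1, [], h => h
  | n + 1, _ :: M, h => ⟨(List.length_map _).trans h.1, tri_mp f n M h.2⟩

lemma rowP_ok (a b d : ℕ) : ∀ (s r : List ZP), s.length = r.length →
    (rowP a b d s r).length = r.length ∧ ∀ v, dot ((rowP a b d s r).map ZP.v) v
      = a * dot (s.map ZP.v) v - ((b : ℝ) - d) * dot (r.map ZP.v) v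
  | [], [], _ => by simp [rowP]
  | m :: s, c :: r, h => by
    obtain ⟨h1, h2⟩ := rowP_ok a b d s r (Nat.succ.inj h)
    refine ⟨congrArg Nat.succ h1, fun v => ?_⟩
    cases v with
    | nil => simp
    | cons q v => simp only [rowP, List.map, dot, ent_v, h2]; ring

lemma schP_ok (a : ℕ) : ∀ (n : ℕ) (r : List ZP) (M : LM ZP), r.length = n → tri n M →
    tri n (schP a r M) ∧
      ∀ v, lq (mp ZP.v (schP a r M)) v = a * lq (mp ZP.v M) v - dot (r.map ZP.v) v ^ 2
  | 0, [], _, _, h => by subst h; exact ⟨rfl, by simp [schP, mp]⟩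
  | n + 1, c :: r, (m :: s) :: M, h1, h => by
    have l1 := Nat.succ.inj h1
    obtain ⟨a1, a2⟩ := schP_ok a n r M l1 h.2
    obtain ⟨b1, b2⟩ := rowP_ok a (Nat.mul 2 c.p) (Nat.mul 2 c.n) s r
      ((Nat.succ.inj h.1).trans l1.symm)
    refine ⟨⟨congrArg Nat.succ (b1.trans l1), a1⟩, fun v => ?_⟩
    cases v with
    | nil => simp
    | cons q v =>
      simp only [mp] at a2
      simp only [schP, mp, List.map, lq_cons, dot, ent_v, a2]
      rw [b2]
      simp only [ZP.v, Nat.mul_eq]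
      push_cast
      ring

/-- reduced form -/
def red (z : ZP) : ZP := ⟨Nat.sub z.p z.n, Nat.sub z.n z.p⟩

lemma red_v (z : ZP) : (red z).v = z.v := by
  simp only [red, ZP.v, Nat.sub_eq]
  rcases le_total z.p z.n with h | h
  · rw [Nat.sub_eq_zero_of_le h, Nat.cast_sub h]
    simp
  · rw [Nat.sub_eq_zero_of_le h, Nat.cast_sub h]
    simp

/-- common divisor of a row -/
def g1 : List ZP → ℕ → ℕ
  | [], g => g
  | c :: r, g => Nat.gcd c.p (Nat.gcd c.n (g1 r g))

/-- common divisor -/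
def g2 : LM ZP → ℕ
  | [] => 0
  | r :: M => g1 r (g2 M)

/-- division -/
def dv (g : ℕ) (z : ZP) : ZP := ⟨Nat.div z.p g, Nat.div z.n g⟩

/-- division by the common divisor -/
def nr0 (M : LM ZP) : LM ZP := mp (dv (g2 M)) M

/-- normal form -/
def nrm (M : LM ZP) : LM ZP := nr0 (mp red M)

lemma g1_dvd (g : ℕ) : ∀ r : List ZP, g1 r g ∣ g ∧ ∀ c ∈ r, g1 r g ∣ c.p ∧ g1 r g ∣ c.n
  | [] => by simp [g1]
  | c :: r => by
    obtain ⟨h1, h2⟩ := g1_dvd g r
    have k := Nat.gcd_dvd_right c.p (Nat.gcd c.n (g1 r g))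
    have h := k.trans (Nat.gcd_dvd_right _ _)
    exact ⟨h.trans h1, List.forall_mem_cons.2 ⟨⟨Nat.gcd_dvd_left _ _,
      k.trans (Nat.gcd_dvd_left _ _)⟩, fun d hd => ⟨h.trans (h2 d hd).1, h.trans (h2 d hd).2⟩⟩⟩

lemma g2_dvd : ∀ M : LM ZP, ∀ r ∈ M, ∀ c ∈ r, g2 M ∣ c.p ∧ g2 M ∣ c.n
  | [] => by simp
  | r :: M => List.forall_mem_cons.2 ⟨(g1_dvd _ r).2, fun s hs c hc =>
      ⟨(g1_dvd _ r).1.trans (g2_dvd M s hs c hc).1, (g1_dvd _ r).1.trans (g2_dvd M s hs c hc).2⟩⟩

lemma nrm_ok {M : LM ZP} {v : List ℝ} (h : 0 ≤ lq (mp ZP.v (nrm M)) v) :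
    0 ≤ lq (mp ZP.v M) v := by
  have e0 : mp ZP.v M = mp ZP.v (mp red M) := by simp [mp, Function.comp_def, red_v]
  rw [e0]
  rw [nrm] at h
  generalize mp red M = N at h
  have e : mp ZP.v N = mp ((g2 N : ℝ) * ·) (mp ZP.v (nr0 N)) := by
    simp only [nr0, mp, List.map_map, Function.comp_def]
    refine List.map_congr_left fun r hr => List.map_congr_left fun c hc => ?_
    obtain ⟨h1, h2⟩ := g2_dvd N r hr c hc
    have a1 : (c.p : ℝ) = g2 N * (c.p / g2 N : ℕ) := by exact_mod_cast (Nat.mul_div_cancel' h1).symm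
    have a2 : (c.n : ℝ) = g2 N * (c.n / g2 N : ℕ) := by exact_mod_cast (Nat.mul_div_cancel' h2).symm
    show (c.p : ℝ) - c.n = g2 N * (((c.p / g2 N : ℕ) : ℝ) - (c.n / g2 N : ℕ))
    linarith
  rw [e, lq_sm]
  exact mul_nonneg (by positivity) h

/-- all entries vanish -/
def z0 (r : List ZP) : Bool := r.all fun c => Nat.beq c.p c.n

/-- the test for integer forms -/
def psd : ℕ → LM ZP → Bool
  | n + 1, (a :: r) :: M => cond (Nat.ble a.p a.n) (z0 (a :: r) && psd n M)
    (psd n (nrm (schP (Nat.mul 4 (Nat.sub a.p a.n)) r M)))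
  | _, _ => true

lemma dot_z0 : ∀ {l : List ZP}, z0 l = true → ∀ v, dot (l.map ZP.v) v = 0
  | [], _, _ => rfl
  | _ :: _, _, [] => rfl
  | c :: l, h, q :: v => by
    simp only [z0, List.all_cons, Bool.and_eq_true, Nat.beq_eq] at h
    rw [List.map, dot, dot_z0 (l := l) h.2, ZP.v, h.1]
    simp

lemma psd_ok : ∀ (n : ℕ) (M : LM ZP), tri n M → psd n M = true → ∀ v, 0 ≤ lq (mp ZP.v M) v
  | 0, _, t, _, v => by subst t; simp [mp]
  | _ + 1, _ :: _, _, _, [] => by simp
  | n + 1, (a :: r) :: M, t, h, p :: v => by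
    rw [psd] at h
    cases h0 : Nat.ble a.p a.n <;> rw [h0] at h
    · have a0 : a.n < a.p := Nat.lt_of_not_le fun k => by
        rw [Nat.ble_eq_true_of_le k] at h0
        cases h0
      obtain ⟨b1, b2⟩ := schP_ok (Nat.mul 4 (Nat.sub a.p a.n)) n r M (Nat.succ.inj t.1) t.2
      have h1 := nrm_ok (psd_ok n _ (tri_mp _ _ _ (tri_mp _ _ _ b1)) h v)
      have e : ((Nat.mul 4 (Nat.sub a.p a.n) : ℕ) : ℝ) = 4 * a.v := by
        rw [Nat.mul_eq, Nat.sub_eq, Nat.cast_mul, Nat.cast_sub a0.le]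
        rfl
      have a1 : 0 < a.v := sub_pos.2 (by exact_mod_cast a0)
      rw [b2, e] at h1
      refine nonneg_of_mul_nonneg_right (a := 4 * a.v) ?_ (by positivity)
      simp only [mp, List.map, lq_cons, dot] at h1 ⊢
      linarith [sq_nonneg (2 * a.v * p + dot (r.map ZP.v) v)]
    · rw [cond_true, Bool.and_eq_true] at h
      have h1 := psd_ok n M t.2 h.2 v
      have h2 := dot_z0 h.1 (p :: v)
      simp only [mp, List.map_cons, lq_cons] at h1 h2 ⊢
      rw [h2]
      linarith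

/-- entrywise relation -/
abbrev RelL {R S : Type} (p : R → S → Prop) (M : LM R) (N : LM S) : Prop :=
  List.Forall₂ (List.Forall₂ p) M N

section step
variable {α β γ : Type} {p : α → ℝ → Prop} {p0 : β → ℝ → Prop} {p1 : γ → ℝ → Prop} {f : α → β}
  {g : α → γ} {x : ℝ} {z : α → Bool}

lemma dot_z (hp : ∀ a r, z a = true → p a r → r = 0) :
    ∀ {l : List α} {k : List ℝ}, l.all z = true → List.Forall₂ p l k → ∀ v, dot k v = 0
  | _, _, _, .nil, _ => rfl
  | _, _, _, .cons _ _, [] => rfl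
  | _, _, h, .cons h1 h2, q :: v => by
    simp only [List.all_cons, Bool.and_eq_true] at h
    rw [dot, dot_z hp h.2 h2, hp _ _ h.1 h1]
    simp

lemma lq_z (hp : ∀ a r, z a = true → p a r → r = 0) : ∀ {M : LM α} {N : LM ℝ},
    M.all (·.all z) = true → RelL p M N → ∀ v, lq N v = 0
  | _, _, _, .nil, _ => rfl
  | _, _, _, .cons _ _, [] => rfl
  | _, _, h, .cons h1 h2, q :: v => by
    simp only [List.all_cons, Bool.and_eq_true] at h
    rw [lq_cons, dot_z hp h.1 h1, lq_z hp h.2 h2]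
    simp

lemma step1 (h : ∀ Z r, p Z r → ∃ r0 r1, p0 (f Z) r0 ∧ p1 (g Z) r1 ∧ r = r0 + x * r1) :
    ∀ {l : List α} {k : List ℝ}, List.Forall₂ p l k → ∃ k0 k1, List.Forall₂ p0 (l.map f) k0 ∧
      List.Forall₂ p1 (l.map g) k1 ∧ ∀ v, dot k v = dot k0 v + x * dot k1 v
  | _, _, .nil => ⟨[], [], .nil, .nil, by simp⟩
  | _, _, .cons h1 h2 => by
    obtain ⟨r0, r1, a, b, rfl⟩ := h _ _ h1
    obtain ⟨k0, k1, c, d, e⟩ := step1 h h2
    refine ⟨r0 :: k0, r1 :: k1, .cons a c, .cons b d, fun v => ?_⟩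
    cases v with
    | nil => simp
    | cons q v => simp only [dot, e]; ring

lemma step2 (h : ∀ Z r, p Z r → ∃ r0 r1, p0 (f Z) r0 ∧ p1 (g Z) r1 ∧ r = r0 + x * r1) :
    ∀ {M : LM α} {N : LM ℝ}, RelL p M N → ∃ N0 N1, RelL p0 (mp f M) N0 ∧
      RelL p1 (mp g M) N1 ∧ ∀ v, lq N v = lq N0 v + x * lq N1 v
  | _, _, .nil => ⟨[], [], .nil, .nil, by simp⟩
  | _, _, .cons h1 h2 => by
    obtain ⟨r0, r1, a, b, e0⟩ := step1 h h1
    obtain ⟨k0, k1, c, d, e⟩ := step2 h h2
    refine ⟨r0 :: k0, r1 :: k1, .cons a c, .cons b d, fun v => ?_⟩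
    cases v with
    | nil => simp
    | cons q v => simp only [lq_cons, e, e0]; ring

lemma rel_eq {f : α → ℝ} {M : LM α} {N : LM ℝ} (h : RelL (fun z r => f z = r) M N) :
    mp f M = N := by
  rw [mp, ← List.forall₂_eq_eq_eq, List.forall₂_map_left_iff]
  refine h.imp fun a b k => ?_
  rw [← List.forall₂_eq_eq_eq, List.forall₂_map_left_iff]
  exact k

lemma rel_map1 (hp : ∀ a r, z a = true → p a r → p0 (f a) r) : ∀ {l : List α} {k : List ℝ},
    l.all z = true → List.Forall₂ p l k → List.Forall₂ p0 (l.map f) k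
  | _, _, _, .nil => .nil
  | _, _, h, .cons h1 h2 => by
    simp only [List.all_cons, Bool.and_eq_true] at h
    exact .cons (hp _ _ h.1 h1) (rel_map1 hp h.2 h2)

lemma rel_map (hp : ∀ a r, z a = true → p a r → p0 (f a) r) : ∀ {M : LM α} {N : LM ℝ},
    M.all (·.all z) = true → RelL p M N → RelL p0 (mp f M) N
  | _, _, _, .nil => .nil
  | _, _, h, .cons h1 h2 => by
    simp only [List.all_cons, Bool.and_eq_true] at h
    exact .cons (rel_map1 hp h.1 h1) (rel_map hp h.2 h2)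

end step

/-- offsets -/
def OS : ℕ → ℕ
  | 0 => 0
  | m + 1 => HS + 2 * HS * OS m

lemma dg_off (w m : ℕ) : dg HS (w - OS (m + 1)) = (w % (2 * HS) : ℕ) - HS ∧
    qt HS (w - OS (m + 1)) = (w / (2 * HS) : ℕ) - OS m := by
  have e : (w : ℤ) - OS (m + 1) + HS = w + (2 * HS : ℕ) * (-OS m) := by
    rw [OS]
    push_cast
    ring
  have := HS_pos
  constructor
  · rw [dg, e, Int.add_mul_emod_self_left, Int.natCast_mod]
  · rw [qt, e, Int.add_mul_ediv_left _ _ (by omega), Int.natCast_div, sub_eq_add_neg]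

/-- inner test -/
def lk1 (n B : ℕ) : ℕ → LM ℕ → Bool
  | 0, M => M.all (·.all (Nat.beq 0))
  | m + 1, M => psd n (nrm (mp (fun w => ⟨Nat.mod w B, HS⟩) M)) && lk1 n B m (mp (Nat.div · B) M)

noncomputable section fast

/-- map -/
def mR {α β : Type} (f : α → β) (l : List α) : List β := List.rec [] (fun a _ ih => f a :: ih) l

/-- map -/
def mmR {α β : Type} (f : α → β) (l : LM α) : LM β := List.rec [] (fun a _ ih => mR f a :: ih) l

/-- reduced entry -/
def entR (a b d : ℕ) (m c : ZP) : ZP := ZP.rec (fun mp mn => ZP.rec (fun cp cn =>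
  (fun P N => ZP.mk (Nat.sub P N) (Nat.sub N P))
    (Nat.add (Nat.mul a mp) (Nat.add (Nat.mul b cn) (Nat.mul d cp)))
    (Nat.add (Nat.mul a mn) (Nat.add (Nat.mul b cp) (Nat.mul d cn)))) c) m

/-- reduced row -/
def rowR (a b d : ℕ) (s : List ZP) : List ZP → List ZP :=
  List.rec (fun _ => []) (fun m _ ih r => List.rec [] (fun c r' _ => entR a b d m c :: ih r') r) s

/-- reduced complement -/
def schR (a : ℕ) (r : List ZP) : LM ZP → LM ZP :=
  List.rec (fun _ => []) (fun c r' ih M => List.rec [] (fun row M' _ => List.rec [] (fun m s _ =>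
    (entR a c.p c.n m c :: rowR a (Nat.mul 2 c.p) (Nat.mul 2 c.n) s r') :: ih M') row) M) r

/-- common divisor -/
def g1R (r : List ZP) (g : ℕ) : ℕ := List.rec g (fun c _ ih => Nat.gcd c.p (Nat.gcd c.n ih)) r

/-- common divisor -/
def g2R (M : LM ZP) : ℕ := List.rec 0 (fun r _ ih => g1R r ih) M

/-- division by the common divisor -/
def nrR (M : LM ZP) : LM ZP := mmR (dv (g2R M)) M

/-- the test for integer forms -/
def psdR (n : ℕ) : LM ZP → Bool := Nat.rec (fun _ => true) (fun _ ih M => List.rec true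
  (fun row M' _ => List.rec true (fun a r _ => cond (Nat.ble a.p a.n) (z0 (a :: r) && ih M')
    (ih (nrR (schR (Nat.mul 4 (Nat.sub a.p a.n)) r M')))) row) M) n

/-- inner test -/
def lkR (n B m : ℕ) : LM ℕ → Bool := Nat.rec (fun M => M.all (·.all (Nat.beq 0)))
  (fun _ ih M => psdR n (nrR (mmR (fun w => (fun d => ⟨Nat.sub d HS, Nat.sub HS d⟩) (Nat.mod w B)) M))
    && ih (mmR (Nat.div · B) M)) m

lemma mR_eq {α β : Type} (f : α → β) : ∀ l, mR f l = l.map f
  | [] => rfl
  | a :: l => congrArg (f a :: ·) (mR_eq f l)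

lemma mmR_eq {α β : Type} (f : α → β) : ∀ l, mmR f l = mp f l
  | [] => rfl
  | a :: l => congrArg₂ (· :: ·) (mR_eq f a) (mmR_eq f l)

lemma rowR_eq (a b d : ℕ) : ∀ s r, rowR a b d s r = (rowP a b d s r).map red
  | [], _ => rfl
  | _ :: _, [] => rfl
  | _ :: s, _ :: r => congrArg (_ :: ·) (rowR_eq a b d s r)

lemma schR_eq (a : ℕ) : ∀ r M, schR a r M = mp red (schP a r M)
  | [], _ => rfl
  | _ :: _, [] => rfl
  | _ :: _, [] :: _ => rfl
  | _ :: r, (_ :: s) :: M =>
    congrArg₂ (· :: ·) (congrArg (_ :: ·) (rowR_eq a _ _ s r)) (schR_eq a r M)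

lemma g1R_eq (g : ℕ) : ∀ r, g1R r g = g1 r g
  | [] => rfl
  | c :: r => congrArg (fun t => Nat.gcd c.p (Nat.gcd c.n t)) (g1R_eq g r)

lemma g2R_eq : ∀ M, g2R M = g2 M
  | [] => rfl
  | r :: M => (congrArg (g1R r) (g2R_eq M)).trans (g1R_eq _ r)

lemma nrR_eq (M : LM ZP) : nrR M = nr0 M := by rw [nrR, mmR_eq, g2R_eq, nr0]

lemma psdR_eq : ∀ n M, psdR n M = psd n M
  | 0, _ => by simp [psdR, psd]
  | _ + 1, [] => rfl
  | _ + 1, [] :: _ => rfl
  | n + 1, (a :: r) :: M => by
    rw [psd, ← psdR_eq, ← psdR_eq, nrm, ← schR_eq, ← nrR_eq]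
    rfl

lemma lkR_eq (n B : ℕ) : ∀ m M, lkR n B m M = lk1 n B m M
  | 0, _ => rfl
  | m + 1, M => by
    have e : mp red (mp (fun w => ⟨Nat.mod w B, HS⟩) M)
        = mmR (fun w => (fun d => ⟨Nat.sub d HS, Nat.sub HS d⟩) (Nat.mod w B)) M := by
      rw [mmR_eq]
      simp [mp, Function.comp_def, red]
    rw [lk1, ← lkR_eq, ← psdR_eq, nrm, ← nrR_eq, e, ← mmR_eq]
    rfl

/-- inner test -/
def lk0 (n m : ℕ) (O : ℤ) (M : LM ℤ) : Bool :=
  M.all (·.all fun c => decide (0 ≤ c + O)) && lkR n (2 * HS) m (mp (fun c => (c + O).toNat) M)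

/-- outer test -/
def lk2 (n m : ℕ) : ℕ → LM ℤ → Bool
  | 0, M => M.all (·.all fun c => decide (c = 0))
  | k + 1, M => lk0 n m (OS m) (mp (dg HX) M) && lk2 n m k (mp (qt HX) M)

end fast

lemma lk1_ok {y : ℝ} (hy : 0 ≤ y) (v : List ℝ) (n : ℕ) : ∀ (m : ℕ) (M : LM ℕ) (N : LM ℝ),
    tri n M → lk1 n (2 * HS) m M = true → RelL (fun w : ℕ => D1 y (w - OS m)) M N → 0 ≤ lq N v
  | 0, _, _, _, h, k => (lq_z (fun a r h1 h2 => by
      rw [← Nat.eq_of_beq_eq_true h1] at h2
      exact D1.zero h2) h k v).ge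
  | m + 1, M, N, t, h, k => by
    simp only [lk1, Bool.and_eq_true] at h
    obtain ⟨N0, N1, a, b, e⟩ := step2 (p0 := fun (z : ZP) r => z.v = r) (x := y)
      (p1 := fun w : ℕ => D1 y (w - OS m)) (f := fun w => ⟨Nat.mod w (2 * HS), HS⟩)
      (g := (Nat.div · (2 * HS))) (fun w r h => by
        obtain ⟨r', a, b⟩ := D1.step h
        rw [(dg_off w m).2] at a
        rw [(dg_off w m).1, Int.cast_sub] at b
        exact ⟨_, r', rfl, a, b⟩) k
    rw [e, ← rel_eq a]
    exact add_nonneg (nrm_ok (psd_ok _ _ (tri_mp _ _ _ (tri_mp _ _ _ (tri_mp _ _ _ t))) h.1 v))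
      (mul_nonneg hy (lk1_ok hy v n m _ _ (tri_mp _ _ _ t) h.2 b))

lemma lk2_ok {x y : ℝ} (hx : 0 ≤ x) (hy : 0 ≤ y) (v : List ℝ) (n m : ℕ) :
    ∀ (k : ℕ) (M : LM ℤ) (N : LM ℝ), tri n M → lk2 n m k M = true →
      RelL (fun Z => D2 x y Z (HS - 1) (HX - 1)) M N → 0 ≤ lq N v
  | 0, _, _, _, h, k => (lq_z (fun a r h1 h2 => by
      rw [of_decide_eq_true h1] at h2
      exact D2.zero h2) h k v).ge
  | m' + 1, M, N, t, h, k => by
    simp only [lk2, lk0, lkR_eq, Bool.and_eq_true] at h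
    obtain ⟨N0, N1, a, b, e⟩ := step2 (p0 := D1 y) (f := dg HX) (g := qt HX)
      (p1 := fun Z => D2 x y Z (HS - 1) (HX - 1)) (fun Z r h => D2.step h) k
    rw [e]
    refine add_nonneg (lk1_ok hy v n m _ _ (tri_mp _ _ _ (tri_mp _ _ _ t)) h.1.2
      (rel_map (fun c r h1 h2 => ?_) h.1.1 a))
      (mul_nonneg hx (lk2_ok hx hy v n m m' _ _ (tri_mp _ _ _ t) h.2 b))
    rwa [Int.toNat_of_nonneg (of_decide_eq_true h1), add_sub_cancel_right]

/-- size test -/
def fit (i j k : ℕ) (q : KQ) : Bool :=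
  decide (q.i ≤ i ∧ q.j ≤ j ∧ q.k ≤ k ∧ (up i j k q).B ≤ HS - 1 ∧ (up i j k q).A ≤ HX - 1)

/-- the test for a form with coded entries -/
noncomputable def chkL (n i j k : ℕ) (M : LM KQ) : Bool :=
  decide (tri n M) && M.all (fun r => r.all (fit i j k)) &&
    lk2 n (j + 1) (i + 1) (mp (fun q => (up i j k q).Z) M)

theorem chkL_ok {n i j k : ℕ} {x y : ℝ} {M : LM (RR x y)} (h : chkL n i j k (mp RR.c M) = true)
    (x0 : 0 ≤ x) (y0 : 0 ≤ y) (v : List ℝ) : 0 ≤ lq (mp RR.v M) v := by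
  simp only [chkL, Bool.and_eq_true, decide_eq_true_eq] at h
  have := lk2_ok x0 y0 v _ _ _ _ (mp (den x y i j k * ·) (mp RR.v M)) (tri_mp _ _ _ h.1.1) h.2 (by
    have h1 := h.1.2
    simp only [mp, List.all_eq_true, List.forall_mem_map, fit, decide_eq_true_eq] at h1
    simp only [mp, RelL, List.map_map, List.forall₂_map_left_iff, List.forall₂_map_right_iff,
      List.forall₂_same, Function.comp_def]
    intro r hr q hq
    obtain ⟨a, b, c, d, e⟩ := h1 r hr q hq
    rw [mul_comm]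
    exact D2.mono (Rep.up q.2 a b c) d e)
  have d0 : 0 < den x y i j k := by
    have := DD_pos
    unfold den
    positivity
  rw [lq_sm] at this
  exact nonneg_of_mul_nonneg_right this d0

/-- the hermitian form -/
def hermL (M : LM ℝ) (v : List ℂ) : ℝ := lq M (v.map Complex.re) + lq M (v.map Complex.im)

lemma dot_lin (a b : ℝ) (f g : ℂ → ℝ) : ∀ (l : List ℝ) (v : List ℂ),
    dot l (v.map fun z => a * f z + b * g z) = a * dot l (v.map f) + b * dot l (v.map g)
  | [], _ => by simp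
  | _ :: _, [] => by simp
  | c :: l, p :: v => by simp only [List.map, dot, dot_lin a b f g l v]; ring

lemma lq_rot (a b : ℝ) (f g : ℂ → ℝ) : ∀ (M : LM ℝ) (v : List ℂ),
    lq M (v.map fun z => a * f z + -b * g z) + lq M (v.map fun z => b * f z + a * g z)
      = (a ^ 2 + b ^ 2) * (lq M (v.map f) + lq M (v.map g))
  | [], _ => by simp
  | _ :: _, [] => by simp
  | r :: M, p :: v => by
    have h := lq_rot a b f g M v
    have h1 := dot_lin a (-b) f g r (p :: v)
    have h2 := dot_lin b a f g r (p :: v)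
    simp only [List.map, lq_cons] at h1 h2 ⊢
    rw [h1, h2]
    linear_combination h

lemma dot_C : ∀ (l : List ℝ) (v : List ℂ), (dot (l.map (↑)) v).re = dot l (v.map Complex.re) ∧
    (dot (l.map (↑)) v).im = dot l (v.map Complex.im)
  | [], _ => by simp
  | _ :: _, [] => by simp
  | c :: l, p :: v => by simp [dot, dot_C l v]

lemma lq_C : ∀ (M : LM ℝ) (v : List ℂ),
    (lq (mp (↑) M) v).re = lq M (v.map Complex.re) - lq M (v.map Complex.im)
  | [], _ => by simp [mp]
  | _ :: _, [] => by simp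
  | r :: M, p :: v => by
    have h := lq_C M v
    have h1 := dot_C r (p :: v)
    simp only [mp, List.map, lq_cons, Complex.add_re, Complex.mul_re, h1.1, h1.2] at h h1 ⊢
    rw [h]
    ring

lemma dot_smul (μ : ℂ) : ∀ l v : List ℂ, dot l (v.map (μ * ·)) = μ * dot l v
  | [], _ => by simp
  | _ :: _, [] => by simp
  | c :: l, p :: v => by simp only [List.map, dot, dot_smul μ l v]; ring

lemma lq_smul (μ : ℂ) : ∀ (M : LM ℂ) (v : List ℂ), lq M (v.map (μ * ·)) = μ ^ 2 * lq M v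
  | [], _ => by simp
  | _ :: _, [] => by simp
  | r :: M, p :: v => by
    have h1 := dot_smul μ r (p :: v)
    simp only [List.map, lq_cons, lq_smul μ M v] at h1 ⊢
    rw [h1]
    ring

lemma hermL_lsum (v : List ℂ) : ∀ l : List (ℝ × List ℝ),
    hermL (lsum (l.map fun t => (t.1, t.2, t.2))) v
      = (l.map fun t => t.1 * ‖dot (t.2.map (↑)) v‖ ^ 2).sum
  | [] => by simp [hermL, lsum]
  | t :: l => by
    have h := hermL_lsum v l
    simp only [hermL, List.map, lsum, lq_lad, lq_lpr, List.sum_cons, Complex.sq_norm,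
      Complex.normSq_apply, (dot_C _ _).1, (dot_C _ _).2] at h ⊢
    linarith

lemma phaseL {H S : LM ℝ} {c : ℝ} (hp : ∀ v, 0 ≤ lq (lad H (mp (c * ·) S)) v)
    (hm : ∀ v, 0 ≤ lq (lad H (mp (-c * ·) S)) v) (v : List ℂ) :
    c * ‖lq (mp (↑) S) v‖ ≤ hermL H v := by
  obtain ⟨ν, hν, hν2⟩ := Complex.exists_norm_eq_mul_self (lq (mp (↑) S) v)
  obtain ⟨μ, rfl⟩ := IsAlgClosed.exists_pow_nat_eq ν two_pos
  have n1 : μ.re ^ 2 + μ.im ^ 2 = 1 := by
    rw [norm_pow, Complex.sq_norm, Complex.normSq_apply] at hν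
    linarith
  have h1 := hm ((v.map (μ * ·)).map Complex.re)
  have h2 := hp ((v.map (μ * ·)).map Complex.im)
  have e1 := lq_rot μ.re μ.im Complex.re Complex.im H v
  have e4 := lq_C S (v.map (μ * ·))
  rw [lq_smul, ← hν2, Complex.ofReal_re] at e4
  rw [lq_lad, lq_sm] at h1 h2
  have a1 : (v.map (μ * ·)).map Complex.re = v.map fun z => μ.re * z.re + -μ.im * z.im := by
    simp [Function.comp_def, sub_eq_add_neg]
  have a2 : (v.map (μ * ·)).map Complex.im = v.map fun z => μ.im * z.re + μ.re * z.im := by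
    simp [Function.comp_def, add_comm]
  rw [← a1, ← a2, n1, one_mul] at e1
  rw [e4, hermL, ← e1]
  linarith

end Pool.Agent.P.MP_bdc337_an.SI.Rf
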