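import Pool.Agent.P.MP_bdc337_an.SI.Cert6
import Pool.Agent.P.MP_bdc337_an.SI.Five

/-! The seventh coefficient. -/

set_option autoImplicit false

open Finset PowerSeries Metric

namespace Pool.Agent.P.MP_bdc337_an.SI

open Rf

variable {a : ℝ} {w : ℂ⟦X⟧}

theorem good6 (h0 : 1 / 3 ≤ a) (h1 : a < 1) {x : ℝ} (x0 : 0 ≤ x) (x1 : x ≤ 1) : Good6 a x := by
  have a0 : 236250 ≤ 708750 * a := by linarith
  have a1 : 708750 * a < 708750 := by linarith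
  have d : 708750 * x ≤ 708750 := by linarith
  rcases lt_or_ge (708750 * x) 425250 with c | c
  · have d : 0 ≤ 708750 * x := by linarith
    rcases lt_or_ge (708750 * a) 283500 with e1 | e1
    · exact b6A6_ok d c a0 e1
    rcases lt_or_ge (708750 * a) 425250 with e2 | e2
    · exact b6D6_ok d c e1 e2
    · exact b6E6_ok d c e2 a1
  rcases lt_or_ge (708750 * a) 304762 with e1 | e1
  · rcases lt_or_ge (708750 * x) 602437 with c2 | c2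
    · rcases lt_or_ge (708750 * a) 278538 with e2 | e2
      · exact b6I0_ok c c2 a0 e2
      · exact b6I1_ok c c2 e2 e1
    rcases lt_or_ge (708750 * a) 272868 with e2 | e2
    · exact b6C6_ok (by linarith) d a0 e2
    rcases lt_or_ge (708750 * x) 666225 with c3 | c3
    · rcases lt_or_ge (708750 * a) 278538 with e3 | e3
      · exact b6H0_ok c2 c3 e2 e3
      rcases lt_or_ge (708750 * a) 283500 with e4 | e4
      · exact b6H1_ok c2 c3 e3 e4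
      · exact b6H2_ok c2 c3 e4 e1
    · exact b6G1_ok (by linarith) d e2 e1
  have c : 424540 < 708750 * x := by linarith
  rcases lt_or_ge (708750 * a) 389812 with e2 | e2
  · exact b6F6_ok c d e1 e2
  rcases lt_or_ge (708750 * a) 531562 with e3 | e3
  · exact b6J1_ok c d e2 e3
  · exact b6J2_ok c d e3 a1

theorem bound6 (h0 : 0 < a) (h1 : a < 1) (hw : Contr w) {F : ℂ⟦X⟧} (hF0 : coeff 0 F = 1)
    (hF : X * d⁄dX ℂ F = (2 * C (a : ℂ) * KK a w) * F) :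
    ∃ t, 0 ≤ t ∧ t ≤ 1 ∧ ‖coeff 6 (KK a w * F)‖ ≤ max 1 (ps6 a t) := by
  rcases le_total a (1 / 3) with c1 | c1
  · exact ⟨0, le_rfl, zero_le_one,
      (large h0 c1 hw hF0 hF (by norm_num)).trans (le_max_left _ _)⟩
  obtain ⟨μ, v, hμ, hv, e, e1⟩ := rotate hw
  obtain ⟨t, t0, t1, this⟩ := good6 c1 h1 (norm_nonneg _) (w1_le hw) v hv e1
  simp only [e] at this
  rw [Phi6_rot, norm_mul, norm_pow, hμ, one_pow, one_mul, ← V6 a hw.1 hF0 hF] at this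
  exact ⟨t, t0, t1, this⟩

/-- the seventh coefficient for two atoms -/
noncomputable def E7 (a t : ℝ) : ℝ :=
  a * (225 * (1 + 8 * a ^ 2) * (1 - t) ^ 3
    + 45 * (-30 + 196 * a - 277 * a ^ 2 + 442 * a ^ 3) * t * (1 - t) ^ 2
    + 15 * (135 - 446 * a + 1294 * a ^ 2 - 1021 * a ^ 3 + 1829 * a ^ 4) * t ^ 2 * (1 - t)
    + (719 * a + 5105 * a ^ 3 + 8351 * a ^ 5) * t ^ 3) / 2025

lemma E7_eq (a t : ℝ) : a / 3 * ps6 a t = E7 a t := by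
  simp only [E7, ps6, p222, p33, p24, p123, p1122, p15, p114, p1113, p42, p6, qR, iR]
  push_cast
  ring

theorem upper7 (h0 : 0 < a) (h1 : a < 1) {f : ℂ → ℂ} (hf : Star a f) :
    ∃ t, 0 ≤ t ∧ t ≤ 1 ∧ ‖coeff 7 (tay f)‖ ≤ max (a / 3) (E7 a t) := by
  obtain ⟨W, F, hW, hR⟩ := rep_up h0 h1.le hf
  obtain ⟨t, t0, t1, b⟩ := bound6 h0 h1 hW hR.1 hR.2.1
  have e := hR.coeff (N := 6) (by norm_num)
  rw [show (6 : ℕ) + 1 = 7 from rfl] at e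
  refine ⟨t, t0, t1, ?_⟩
  rw [e, norm_real_mul (by positivity)]
  refine (mul_le_mul_of_nonneg_left b (by positivity)).trans_eq ?_
  rw [mul_max_of_nonneg _ _ (by positivity), ← E7_eq]
  push_cast
  congr 1 <;> ring

theorem atoms7 (h0 : 0 < a) (h1 : a ≤ 1) {τ : ℝ} (t0 : 0 ≤ τ) (t1 : τ ≤ 1) : ∃ f, Star a f ∧
    coeff 7 (tay f) = (E7 a τ : ℝ) := by
  obtain ⟨x, x0, rfl⟩ : ∃ x : ℝ, 0 ≤ x ∧ τ = x ^ 2 := ⟨√τ, Real.sqrt_nonneg _, (Real.sq_sqrt t0).symm⟩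
  obtain ⟨w, wd, w0, wl, we⟩ := blaschke x0 (by nlinarith)
  obtain ⟨f, F, hf, hR⟩ := rep_low h0 h1 wd w0 wl
  obtain ⟨c0, c1, c2, c3⟩ := blaschke_coeff we
  refine ⟨f, hf, ?_⟩
  have e := hR.coeff (N := 6) (by norm_num)
  rw [show (6 : ℕ) + 1 = 7 from rfl, V6 a c0 hR.1 hR.2.1, c3 3, c3 2, c3 1, c3 0, c2, c1] at e
  rw [e]
  unfold E7 Phi6
  push_cast
  ring

lemma assemble {S : Set ℝ} {R : ℝ} {E : ℝ → ℝ} (hc : Continuous E) (hR : R ∈ S)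
    (hE : ∀ t, 0 ≤ t → t ≤ 1 → R ≤ E t → E t ∈ S)
    (hU : ∀ x ∈ S, ∃ t, 0 ≤ t ∧ t ≤ 1 ∧ x ≤ max R (E t)) :
    ∃ t ∈ Set.Icc (0 : ℝ) 1, IsMaxOn E (Set.Icc 0 1) t ∧ IsGreatest S (max R (E t)) := by
  obtain ⟨t, ht, hm⟩ := isCompact_Icc.exists_isMaxOn (Set.nonempty_Icc.2 zero_le_one)
    (hc.continuousOn (s := Set.Icc 0 1))
  refine ⟨t, ht, hm, ?_, fun x hx => ?_⟩
  · rcases le_total R (E t) with h | h
    · rw [max_eq_right h]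
      exact hE t ht.1 ht.2 h
    · rwa [max_eq_left h]
  · obtain ⟨s, s0, s1, h⟩ := hU x hx
    exact h.trans (max_le_max_left _ (hm ⟨s0, s1⟩))

lemma rot_mem (h0 : 0 < a) (h1 : a ≤ 1) {N : ℕ} (hN : 1 ≤ N) :
    ∃ f : ℂ → ℂ, Star a f ∧ 2 * a / N = ‖coeff (N + 1) (tay f)‖ := by
  obtain ⟨f, a1, a2, a3, a4, a5, a6⟩ := extremal h0 h1 hN
  exact ⟨f, ⟨a1, a2, a3, a4, a5⟩, by
    rw [a6, Complex.norm_real, Real.norm_of_nonneg (by positivity)]⟩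

theorem seven (h0 : 0 < a) (h1 : a < 1) : ∃ t ∈ Set.Icc (0 : ℝ) 1,
    IsMaxOn (E7 a) (Set.Icc 0 1) t ∧
    IsGreatest {x : ℝ | ∃ f : ℂ → ℂ, Star a f ∧ x = ‖coeff 7 (tay f)‖} (max (a / 3) (E7 a t)) := by
  refine assemble (by unfold E7; fun_prop) ?_ (fun t t0 t1 h => ?_) ?_
  · obtain ⟨f, hf, e⟩ := rot_mem h0 h1.le (N := 6) (by norm_num)
    exact ⟨f, hf, by rw [← e]; push_cast; ring⟩
  · obtain ⟨f, hf, e⟩ := atoms7 h0 h1.le t0 t1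
    exact ⟨f, hf, by rw [e, Complex.norm_real, Real.norm_of_nonneg (by linarith)]⟩
  · rintro x ⟨f, hf, rfl⟩
    exact upper7 h0 h1 hf

theorem five (h0 : 0 < a) (h1 : a ≤ 1) : ∃ t ∈ Set.Icc (0 : ℝ) 1,
    IsMaxOn (fun t => a / 2 * psi a t) (Set.Icc 0 1) t ∧
    IsGreatest {x : ℝ | ∃ f : ℂ → ℂ, Star a f ∧ x = ‖coeff 5 (tay f)‖}
      (max (a / 2) (a / 2 * psi a t)) := by
  refine assemble (by unfold psi; fun_prop) ?_ (fun t t0 t1 _ => ?_) ?_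
  · obtain ⟨f, hf, e⟩ := rot_mem h0 h1 (N := 4) (by norm_num)
    exact ⟨f, hf, by rw [← e]; push_cast; ring⟩
  · obtain ⟨f, hf, e⟩ := atoms5 h0 h1 t0 t1
    exact ⟨f, hf, e.symm⟩
  · rintro x ⟨f, hf, rfl⟩
    rcases upper5 h0 h1 hf with b | ⟨τ, t0, t1, b⟩
    · exact ⟨0, le_rfl, zero_le_one, b.trans (le_max_left _ _)⟩
    · exact ⟨τ, t0, t1, b.trans (le_max_right _ _)⟩

end Pool.Agent.P.MP_bdc337_an.SI
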