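import Pool.Agent.P.MP_bdc337_an.SI.Cert8a
import Pool.Agent.P.MP_bdc337_an.SI.Cert8b
import Pool.Agent.P.MP_bdc337_an.SI.Cert8c
import Pool.Agent.P.MP_bdc337_an.SI.Cert8d
import Pool.Agent.P.MP_bdc337_an.SI.Seven

/-! The ninth coefficient. -/

set_option autoImplicit false

open Finset PowerSeries Metric

namespace Pool.Agent.P.MP_bdc337_an.SI

open Rf

variable {a : ℝ} {w : ℂ⟦X⟧}

theorem good8 (h0 : 1 / 3 ≤ a) (h1 : a < 1) {x : ℝ} (x0 : 0 ≤ x) (x1 : x ≤ 1) : Good8 a x := by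
  have a0 : 236250 ≤ 708750 * a := by linarith
  have a1 : 708750 * a < 708750 := by linarith
  have d : 708750 * x ≤ 708750 := by linarith
  rcases lt_or_ge (708750 * x) 425250 with c | c
  · have d : 0 ≤ 708750 * x := by linarith
    rcases lt_or_ge (708750 * a) 294131 with e1 | e1
    · exact b8A_ok d c a0 e1
    rcases lt_or_ge (708750 * a) 333112 with e2 | e2
    · exact b8D1_ok d c e1 e2
    rcases lt_or_ge (708750 * a) 425250 with e3 | e3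
    · exact b8D2_ok d c e2 e3
    · exact b8E_ok d c e3 a1
  rcases lt_or_ge (708750 * a) 318937 with e1 | e1
  · rcases lt_or_ge (708750 * x) 637875 with c2 | c2
    · rcases lt_or_ge (708750 * a) 290941 with e2 | e2
      · exact b8I0_ok c c2 a0 e2
      · exact b8I1_ok c c2 e2 e1
    rcases lt_or_ge (708750 * a) 283500 with e2 | e2
    · exact b8C_ok (by linarith) d a0 e2
    rcases lt_or_ge (708750 * x) 680400 with c3 | c3
    · rcases lt_or_ge (708750 * a) 290941 with e3 | e3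
      · exact b8H0_ok c2 c3 e2 e3
      · exact b8H1_ok c2 c3 e3 e1
    · exact b8G_ok (by linarith) d e2 e1
  rcases lt_or_ge (708750 * x) 602437 with c2 | c2
  · rcases lt_or_ge (708750 * a) 425250 with e2 | e2
    · exact b8F0_ok c c2 e1 e2
    · exact b8J0_ok c c2 e2 a1
  have c : 602295 < 708750 * x := by linarith
  rcases lt_or_ge (708750 * a) 368550 with e2 | e2
  · exact b8F1_ok c d e1 e2
  rcases lt_or_ge (708750 * a) 439425 with e3 | e3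
  · exact b8F2_ok c d e2 e3
  rcases lt_or_ge (708750 * a) 567000 with e4 | e4
  · exact b8F3_ok c d e3 e4
  · exact b8F4_ok c d e4 a1

theorem bound8 (h0 : 0 < a) (h1 : a < 1) (hw : Contr w) {F : ℂ⟦X⟧} (hF0 : coeff 0 F = 1)
    (hF : X * d⁄dX ℂ F = (2 * C (a : ℂ) * KK a w) * F) :
    ∃ t, 0 ≤ t ∧ t ≤ 1 ∧ ‖coeff 8 (KK a w * F)‖ ≤ max 1 (ps8 a t (Cq.i 1 + -t)) := by
  rcases le_total a (1 / 3) with c1 | c1
  · exact ⟨0, le_rfl, zero_le_one,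
      (large h0 c1 hw hF0 hF (by norm_num)).trans (le_max_left _ _)⟩
  obtain ⟨μ, v, hμ, hv, e, e1⟩ := rotate hw
  obtain ⟨t, t0, t1, this⟩ := good8 c1 h1 (norm_nonneg _) (w1_le hw) v hv e1
  simp only [e] at this
  rw [Phi8_rot, norm_mul, norm_pow, hμ, one_pow, one_mul, ← V8 a hw.1 hF0 hF] at this
  exact ⟨t, t0, t1, this⟩

/-- the ninth coefficient for two atoms -/
noncomputable def E9 (a t : ℝ) : ℝ :=
  a * ((5 * a + 13 * a ^ 3) / 18 * (1 - t) ^ 4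
    + (315 - 1104 * a + 3133 * a ^ 2 - 3118 * a ^ 3 + 3670 * a ^ 4) / 315 * t * (1 - t) ^ 3
    + (-1890 + 10533 * a - 21089 * a ^ 2 + 35785 * a ^ 3 - 25162 * a ^ 4 + 24611 * a ^ 5) / 945
      * t ^ 2 * (1 - t) ^ 2
    + (14175 - 54981 * a + 162950 * a ^ 2 - 195030 * a ^ 3 + 354365 * a ^ 4 - 168759 * a ^ 5
      + 240440 * a ^ 6) / 14175 * t ^ 3 * (1 - t)
    + (6753 * a + 53851 * a ^ 3 + 131257 * a ^ 5 + 105814 * a ^ 7) / 33075 * t ^ 4)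

lemma E9_eq (a t : ℝ) : a / 4 * ps8 a t (Cq.i 1 + -t) = E9 a t := by
  simp only [E9, ps8, q8, q44, q35, q26, q233, q224, q2222, q17, q134, q125, q1223, q116, q1133,
    q1124, q11222, q1115, q11123, q414, q422, q53, q62, q87, qR, iR]
  push_cast
  ring

theorem upper9 (h0 : 0 < a) (h1 : a < 1) {f : ℂ → ℂ} (hf : Star a f) :
    ∃ t, 0 ≤ t ∧ t ≤ 1 ∧ ‖coeff 9 (tay f)‖ ≤ max (a / 4) (E9 a t) := by
  obtain ⟨W, F, hW, hR⟩ := rep_up h0 h1.le hf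
  obtain ⟨t, t0, t1, b⟩ := bound8 h0 h1 hW hR.1 hR.2.1
  have e := hR.coeff (N := 8) (by norm_num)
  rw [show (8 : ℕ) + 1 = 9 from rfl] at e
  refine ⟨t, t0, t1, ?_⟩
  rw [e, norm_real_mul (by positivity)]
  refine (mul_le_mul_of_nonneg_left b (by positivity)).trans_eq ?_
  rw [mul_max_of_nonneg _ _ (by positivity), ← E9_eq]
  generalize ps8 a t (Cq.i 1 + -t) = k
  push_cast
  congr 1 <;> ring

theorem atoms9 (h0 : 0 < a) (h1 : a ≤ 1) {τ : ℝ} (t0 : 0 ≤ τ) (t1 : τ ≤ 1) : ∃ f, Star a f ∧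
    coeff 9 (tay f) = (E9 a τ : ℝ) := by
  obtain ⟨x, x0, rfl⟩ : ∃ x : ℝ, 0 ≤ x ∧ τ = x ^ 2 := ⟨√τ, Real.sqrt_nonneg _, (Real.sq_sqrt t0).symm⟩
  obtain ⟨w, wd, w0, wl, we⟩ := blaschke x0 (by nlinarith)
  obtain ⟨f, F, hf, hR⟩ := rep_low h0 h1 wd w0 wl
  obtain ⟨c0, c1, c2, c3⟩ := blaschke_coeff we
  refine ⟨f, hf, ?_⟩
  have e := hR.coeff (N := 8) (by norm_num)
  rw [show (8 : ℕ) + 1 = 9 from rfl, V8 a c0 hR.1 hR.2.1, c3 5, c3 4, c3 3, c3 2, c3 1, c3 0, c2,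
    c1] at e
  rw [e]
  unfold E9 Phi8
  push_cast
  ring

theorem nine (h0 : 0 < a) (h1 : a < 1) : ∃ t ∈ Set.Icc (0 : ℝ) 1,
    IsMaxOn (E9 a) (Set.Icc 0 1) t ∧
    IsGreatest {x : ℝ | ∃ f : ℂ → ℂ, Star a f ∧ x = ‖coeff 9 (tay f)‖} (max (a / 4) (E9 a t)) := by
  refine assemble (by unfold E9; fun_prop) ?_ (fun t t0 t1 h => ?_) ?_
  · obtain ⟨f, hf, e⟩ := rot_mem h0 h1.le (N := 8) (by norm_num)
    exact ⟨f, hf, by rw [← e]; push_cast; ring⟩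
  · obtain ⟨f, hf, e⟩ := atoms9 h0 h1.le t0 t1
    exact ⟨f, hf, by rw [e, Complex.norm_real, Real.norm_of_nonneg (by linarith)]⟩
  · rintro x ⟨f, hf, rfl⟩
    exact upper9 h0 h1 hf

end Pool.Agent.P.MP_bdc337_an.SI
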