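import Pool.Agent.P.MP_bdc337_an.SI.Core4

/-! Polynomial inequalities in Bernstein form. -/

set_option autoImplicit false
set_option linter.unusedVariables false

set_option linter.unusedSimpArgs false

open PowerSeries

namespace Pool.Agent.P.MP_bdc337_an.SI

/-- parameter -/
noncomputable def ct (x s : ℝ) : ℝ := 3 / 4 + 1 / 4 * x

/-- parameter -/
noncomputable def ca (x s : ℝ) : ℝ := 1 / 3 + 2 / 3 * s

/-- parameter -/
noncomputable def cA (x s : ℝ) : ℝ := 7 / 9 + 14 / 9 * s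

/-- parameter -/
noncomputable def cB (x s : ℝ) : ℝ := 7 / 9 + 14 / 9 * s

/-- parameter -/
noncomputable def cR (x s : ℝ) : ℝ := 3 / 4 - 1 / 12 * x

/-- parameter -/
noncomputable def cS (x s : ℝ) : ℝ := 31 / 36 + 14 / 9 * s - 1 / 12 * x

/-- parameter -/
noncomputable def cr0 (x s : ℝ) : ℝ := 157 / 972 + 59 / 162 * s + 4 / 3 * s ^ 2 + 608 / 243 * s ^ 3 + 7 / 108 * x + 7 / 54 * x * s

/-- parameter -/
noncomputable def cr1 (x s : ℝ) : ℝ := 35 / 81 + 127 / 162 * s + 284 / 81 * s ^ 2 + 4 / 27 * x + 7 / 54 * x * s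

/-- parameter -/
noncomputable def cr2 (x s : ℝ) : ℝ := -(1 / 12) + 4 / 3 * s + 1 / 12 * x

/-- parameter -/
noncomputable def cp (x s : ℝ) : ℝ := 3 / 4 + 1 / 4 * x

/-- parameter -/
noncomputable def cq (x s : ℝ) : ℝ := 1 / 4 - 1 / 4 * x

/-- parameter -/
noncomputable def cN (x s : ℝ) : ℝ := 1

lemma c_1 {x s : ℝ} (x0 : 0 ≤ x) (x1 : x ≤ 1) (s0 : 0 ≤ s) (s1 : s ≤ 1) :
    0 ≤ 2 * E0 (cA x s) (cB x s) (cS x s) (cr0 x s) (3 / 4) (cq x s) (cN x s) (psi (ca x s) (ct x s)) (ct x s)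
      + E1 (cB x s) (cR x s) (cS x s) (cr1 x s) (3 / 4) (cp x s) (cq x s) (cN x s) * (ct x s) * (1 - (ct x s)) := by
  obtain ⟨u, u0, hu⟩ : ∃ u, 0 ≤ u ∧ u = 1 - x := ⟨_, sub_nonneg.2 x1, rfl⟩
  obtain ⟨v, v0, hv⟩ : ∃ v, 0 ≤ v ∧ v = 1 - s := ⟨_, sub_nonneg.2 s1, rfl⟩
  have h : (0 : ℝ) ≤ (x * u * (342 * s ^ 2 + 84 * s * v + 26 * v ^ 2)
      + u ^ 2 * (297 * s ^ 2 + 90 * s * v + 6 * v ^ 2)) * (1 / 162) := by positivity
  refine h.trans_eq ?_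
  subst hu hv
  simp only [E0, E1, E2, psi, ct, ca, cA, cB, cR, cS, cr0, cr1, cr2, cp, cq, cN]
  ring

lemma c_2 {x s : ℝ} (x0 : 0 ≤ x) (x1 : x ≤ 1) (s0 : 0 ≤ s) (s1 : s ≤ 1) :
    0 ≤ 2 * E0 (cA x s) (cB x s) (cS x s) (cr0 x s) (3 / 4) (cq x s) (cN x s) (psi (ca x s) (ct x s)) (ct x s)
      - E1 (cB x s) (cR x s) (cS x s) (cr1 x s) (3 / 4) (cp x s) (cq x s) (cN x s) * (ct x s) * (1 - (ct x s)) := by
  obtain ⟨u, u0, hu⟩ : ∃ u, 0 ≤ u ∧ u = 1 - x := ⟨_, sub_nonneg.2 x1, rfl⟩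
  obtain ⟨v, v0, hv⟩ : ∃ v, 0 ≤ v ∧ v = 1 - s := ⟨_, sub_nonneg.2 s1, rfl⟩
  have h : (0 : ℝ) ≤ (x ^ 3 * u * (21888 * s ^ 2 + 5376 * s * v + 1664 * v ^ 2)
      + x ^ 2 * u ^ 2 * (59664 * s ^ 2 + 12576 * s * v + 2896 * v ^ 2)
      + x * u ^ 3 * (54360 * s ^ 2 + 10416 * s * v + 1496 * v ^ 2)
      + u ^ 4 * (16497 * s ^ 2 + 3042 * s * v + 177 * v ^ 2)) * (1 / 3456) := by positivity
  refine h.trans_eq ?_
  subst hu hv
  simp only [E0, E1, E2, psi, ct, ca, cA, cB, cR, cS, cr0, cr1, cr2, cp, cq, cN]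
  ring

lemma c_3 {x s : ℝ} (x0 : 0 ≤ x) (x1 : x ≤ 1) (s0 : 0 ≤ s) (s1 : s ≤ 1) :
    0 ≤ E0 (cA x s) (cB x s) (cS x s) (cr0 x s) (3 / 4) (cq x s) (cN x s) (psi (ca x s) (ct x s)) (ct x s)
      + E1 (cB x s) (cR x s) (cS x s) (cr1 x s) (3 / 4) (cp x s) (cq x s) (cN x s) * (ct x s) * (1 - (ct x s))
      + E2 (cR x s) (cr2 x s) (3 / 4) (cp x s) (cN x s) * (1 - (ct x s)) ^ 2 := by
  refine le_of_eq ?_
  simp only [E0, E1, E2, psi, ct, ca, cA, cB, cR, cS, cr0, cr1, cr2, cp, cq, cN]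
  ring

lemma c_4 {x s : ℝ} (x0 : 0 ≤ x) (x1 : x ≤ 1) (s0 : 0 ≤ s) (s1 : s ≤ 1) :
    0 ≤ E0 (cA x s) (cB x s) (cS x s) (cr0 x s) (3 / 4) (cq x s) (cN x s) (psi (ca x s) (ct x s)) (ct x s)
      - E1 (cB x s) (cR x s) (cS x s) (cr1 x s) (3 / 4) (cp x s) (cq x s) (cN x s) * (ct x s) * (1 - (ct x s))
      + E2 (cR x s) (cr2 x s) (3 / 4) (cp x s) (cN x s) * (1 - (ct x s)) ^ 2 := by
  obtain ⟨u, u0, hu⟩ : ∃ u, 0 ≤ u ∧ u = 1 - x := ⟨_, sub_nonneg.2 x1, rfl⟩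
  obtain ⟨v, v0, hv⟩ : ∃ v, 0 ≤ v ∧ v = 1 - s := ⟨_, sub_nonneg.2 s1, rfl⟩
  have h : (0 : ℝ) ≤ (x ^ 3 * u * (43776 * s ^ 2 + 10752 * s * v + 3328 * v ^ 2)
      + x ^ 2 * u ^ 2 * (116208 * s ^ 2 + 21216 * s * v + 4976 * v ^ 2)
      + x * u ^ 3 * (103176 * s ^ 2 + 14352 * s * v + 2056 * v ^ 2)
      + u ^ 4 * (30483 * s ^ 2 + 3366 * s * v + 147 * v ^ 2)) * (1 / 10368) := by positivity
  refine h.trans_eq ?_
  subst hu hv
  simp only [E0, E1, E2, psi, ct, ca, cA, cB, cR, cS, cr0, cr1, cr2, cp, cq, cN]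
  ring

lemma c_c {x s : ℝ} (x0 : 0 ≤ x) (x1 : x ≤ 1) (s0 : 0 ≤ s) (s1 : s ≤ 1) :
    0 ≤ (2 * (cr2 x s) + (3 / 4) * (cp x s) ^ 2) * (2 * (cr0 x s) + (3 / 4) * (cq x s) ^ 2)
      - ((cr1 x s) - (3 / 4) * (cp x s) * (cq x s)) ^ 2 := by
  obtain ⟨u, u0, hu⟩ : ∃ u, 0 ≤ u ∧ u = 1 - x := ⟨_, sub_nonneg.2 x1, rfl⟩
  obtain ⟨v, v0, hv⟩ : ∃ v, 0 ≤ v ∧ v = 1 - s := ⟨_, sub_nonneg.2 s1, rfl⟩
  have h : (0 : ℝ) ≤ (x ^ 2 * (321732 * s ^ 4 + 346032 * s ^ 3 * v + 126504 * s ^ 2 * v ^ 2 + 47184 * s * v ^ 3 + 148 * v ^ 4)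
      + x * u * (558900 * s ^ 4 + 606096 * s ^ 3 * v + 242676 * s ^ 2 * v ^ 2 + 87912 * s * v ^ 3 + 2768 * v ^ 4)
      + u ^ 2 * (243081 * s ^ 4 + 262629 * s ^ 3 * v + 113751 * s ^ 2 * v ^ 2 + 39531 * s * v ^ 3 + 496 * v ^ 4)) * (1 / 52488) := by positivity
  refine h.trans_eq ?_
  subst hu hv
  simp only [E0, E1, E2, psi, ct, ca, cA, cB, cR, cS, cr0, cr1, cr2, cp, cq, cN]
  ring

lemma c_r {x s : ℝ} (x0 : 0 ≤ x) (x1 : x ≤ 1) (s0 : 0 ≤ s) (s1 : s ≤ 1) :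
    0 ≤ 2 * (cr0 x s) + (3 / 4) * (cq x s) ^ 2 - 1 / 100 := by
  obtain ⟨u, u0, hu⟩ : ∃ u, 0 ≤ u ∧ u = 1 - x := ⟨_, sub_nonneg.2 x1, rfl⟩
  obtain ⟨v, v0, hv⟩ : ∃ v, 0 ≤ v ∧ v = 1 - s := ⟨_, sub_nonneg.2 s1, rfl⟩
  have h : (0 : ℝ) ≤ (x ^ 2 * (3538512 * s ^ 3 + 2321136 * s ^ 2 * v + 900336 * s * v ^ 2 + 172112 * v ^ 3)
      + x * u * (6925824 * s ^ 3 + 4289472 * s ^ 2 * v + 1548672 * s * v ^ 2 + 293824 * v ^ 3)
      + u ^ 2 * (3405537 * s ^ 3 + 2023011 * s ^ 2 * v + 703011 * s * v ^ 2 + 139937 * v ^ 3)) * (1 / 388800) := by positivity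
  refine h.trans_eq ?_
  subst hu hv
  simp only [E0, E1, E2, psi, ct, ca, cA, cB, cR, cS, cr0, cr1, cr2, cp, cq, cN]
  ring

lemma c_n {x s : ℝ} (x0 : 0 ≤ x) (x1 : x ≤ 1) (s0 : 0 ≤ s) (s1 : s ≤ 1) :
    0 ≤ (cN x s) - 1 / 100 := by
  obtain ⟨u, u0, hu⟩ : ∃ u, 0 ≤ u ∧ u = 1 - x := ⟨_, sub_nonneg.2 x1, rfl⟩
  obtain ⟨v, v0, hv⟩ : ∃ v, 0 ≤ v ∧ v = 1 - s := ⟨_, sub_nonneg.2 s1, rfl⟩
  have h : (0 : ℝ) ≤ ((1)) * (99 / 100) := by positivity
  refine h.trans_eq ?_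
  subst hu hv
  simp only [E0, E1, E2, psi, ct, ca, cA, cB, cR, cS, cr0, cr1, cr2, cp, cq, cN]
  ring

theorem c_bound {x s : ℝ} (x0 : 0 ≤ x) (x1 : x ≤ 1) (s0 : 0 ≤ s) (s1 : s ≤ 1) {w F : ℂ⟦X⟧}
    (hw : Contr w) (hF0 : coeff 0 F = 1)
    (hF : X * d⁄dX ℂ F = (2 * C ((ca x s : ℝ) : ℂ) * KK (ca x s) w) * F)
    (ht : ct x s = ‖coeff 1 w‖ ^ 2) : ‖coeff 4 (KK (ca x s) w * F)‖ ≤ (psi (ca x s) (ct x s)) := by
  refine core4 hw hF0 hF ht ?_ ?_ ?_ ?_ (by norm_num) ?_ ?_ ?_ (c_1 x0 x1 s0 s1)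
    (c_2 x0 x1 s0 s1) (c_3 x0 x1 s0 s1) (c_4 x0 x1 s0 s1)
  · simp only [E0, E1, E2, psi, ct, ca, cA, cB, cR, cS, cr0, cr1, cr2, cp, cq, cN]; ring
  · simp only [E0, E1, E2, psi, ct, ca, cA, cB, cR, cS, cr0, cr1, cr2, cp, cq, cN]; ring
  · simp only [E0, E1, E2, psi, ct, ca, cA, cB, cR, cS, cr0, cr1, cr2, cp, cq, cN]; ring
  · simp only [E0, E1, E2, psi, ct, ca, cA, cB, cR, cS, cr0, cr1, cr2, cp, cq, cN]; ring
  · linarith [c_r x0 x1 s0 s1]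
  · exact sub_nonneg.1 (c_c x0 x1 s0 s1)
  · linarith [c_n x0 x1 s0 s1]

/-- parameter -/
noncomputable def dt (x s : ℝ) : ℝ := 3 / 4 * x

/-- parameter -/
noncomputable def da (x s : ℝ) : ℝ := 1 / 3 + 13 / 375 * s

/-- parameter -/
noncomputable def dA (x s : ℝ) : ℝ := 893 / 1500 + 14261 / 187500 * s + 39 / 200 * x

/-- parameter -/
noncomputable def dB (x s : ℝ) : ℝ := 4321 / 4500 + 48217 / 562500 * s - 39 / 200 * x

/-- parameter -/
noncomputable def dR (x s : ℝ) : ℝ := 533 / 1000 + 7657 / 125000 * s + 153 / 500 * x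

/-- parameter -/
noncomputable def dS (x s : ℝ) : ℝ := 1121 / 1000 + 18447 / 125000 * s - 429 / 4000 * x

/-- parameter -/
noncomputable def dr0 (x s : ℝ) : ℝ := 19914707 / 121500000 - 13676663 / 632812500 * s - 680962009 / 632812500000 * s ^ 2 + 166972 / 474609375 * s ^ 3 - 309491 / 2000000 * x - 5155007 / 250000000 * x * s + 16731 / 800000 * x ^ 2

/-- parameter -/
noncomputable def dr1 (x s : ℝ) : ℝ := 6365473 / 13500000 - 1366859 / 33750000 * s + 1021986433 / 210937500000 * s ^ 2 - 750031 / 3000000 * x - 13913497 / 375000000 * x * s - 4329 / 200000 * x ^ 2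

/-- parameter -/
noncomputable def dr2 (x s : ℝ) : ℝ := 401 / 3000 + 3029 / 375000 * s - 153 / 500 * x

/-- parameter -/
noncomputable def dp (x s : ℝ) : ℝ := 7 / 20 + 153 / 500 * x

/-- parameter -/
noncomputable def dq (x s : ℝ) : ℝ := 33 / 100 - 447 / 4000 * x

/-- parameter -/
noncomputable def dN (x s : ℝ) : ℝ := 1 + 207 / 800 * x - 9 / 250 * x ^ 2

lemma d_1 {x s : ℝ} (x0 : 0 ≤ x) (x1 : x ≤ 1) (s0 : 0 ≤ s) (s1 : s ≤ 1) :
    0 ≤ 2 * E0 (dA x s) (dB x s) (dS x s) (dr0 x s) (1) (dq x s) (dN x s) 1 (dt x s)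
      + E1 (dB x s) (dR x s) (dS x s) (dr1 x s) (1) (dp x s) (dq x s) (dN x s) * (dt x s) * (1 - (dt x s)) := by
  obtain ⟨u, u0, hu⟩ : ∃ u, 0 ≤ u ∧ u = 1 - x := ⟨_, sub_nonneg.2 x1, rfl⟩
  obtain ⟨v, v0, hv⟩ : ∃ v, 0 ≤ v ∧ v = 1 - s := ⟨_, sub_nonneg.2 s1, rfl⟩
  have h : (0 : ℝ) ≤ (x ^ 7 * (510714081128537307 * s ^ 3 + 5783940565689881307 * s ^ 2 * v + 9726691304480390875 * s * v ^ 2 + 4459998100335046875 * v ^ 3)
      + x ^ 6 * u * (6941402670289840254 * s ^ 3 + 45733751105857749504 * s ^ 2 * v + 68813557557482346750 * s * v ^ 2 + 30052877699322437500 * v ^ 3)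
      + x ^ 5 * u ^ 2 * (27711404492639801787 * s ^ 3 + 143580481356415753287 * s ^ 2 * v + 199524253232945654625 * s * v ^ 2 + 83716325522897703125 * v ^ 3)
      + x ^ 4 * u ^ 3 * (52041176602325267040 * s ^ 3 + 233869133499663928290 * s ^ 2 * v + 305721716174755317500 * s * v ^ 2 + 123952528078312656250 * v ^ 3)
      + x ^ 3 * u ^ 4 * (51659312419707568200 * s ^ 3 + 210854419306696843200 * s ^ 2 * v + 262405085722619118750 * s * v ^ 2 + 103238076883789843750 * v ^ 3)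
      + x ^ 2 * u ^ 5 * (26391757963438800000 * s ^ 3 + 100439183643958800000 * s ^ 2 * v + 120014938894957500000 * s * v ^ 2 + 45972856318437500000 * v ^ 3)
      + x * u ^ 6 * (5492407278528000000 * s ^ 3 + 19821730128528000000 * s ^ 2 * v + 22892685475000000000 * s * v ^ 2 + 8563362625000000000 * v ^ 3)) * (1 / 6750000000000000000) := by positivity
  refine h.trans_eq ?_
  subst hu hv
  simp only [E0, E1, E2, psi, dt, da, dA, dB, dR, dS, dr0, dr1, dr2, dp, dq, dN]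
  ring

lemma d_2 {x s : ℝ} (x0 : 0 ≤ x) (x1 : x ≤ 1) (s0 : 0 ≤ s) (s1 : s ≤ 1) :
    0 ≤ 2 * E0 (dA x s) (dB x s) (dS x s) (dr0 x s) (1) (dq x s) (dN x s) 1 (dt x s)
      - E1 (dB x s) (dR x s) (dS x s) (dr1 x s) (1) (dp x s) (dq x s) (dN x s) * (dt x s) * (1 - (dt x s)) := by
  obtain ⟨u, u0, hu⟩ : ∃ u, 0 ≤ u ∧ u = 1 - x := ⟨_, sub_nonneg.2 x1, rfl⟩
  obtain ⟨v, v0, hv⟩ : ∃ v, 0 ≤ v ∧ v = 1 - s := ⟨_, sub_nonneg.2 s1, rfl⟩
  have h : (0 : ℝ) ≤ (x ^ 7 * (509897112546230307 * s ^ 3 + 5603109620353949307 * s ^ 2 * v + 9443236105414265875 * s * v ^ 2 + 4356556878022546875 * v ^ 3)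
      + x ^ 6 * u * (6751657262446621254 * s ^ 3 + 43460571509759655504 * s ^ 2 * v + 65513656118352471750 * s * v ^ 2 + 28836410448447437500 * v ^ 3)
      + x ^ 5 * u ^ 2 * (26079962226434456787 * s ^ 3 + 132569269899529033287 * s ^ 2 * v + 184631303351733029625 * s * v ^ 2 + 78203144832366453125 * v ^ 3)
      + x ^ 4 * u ^ 3 * (46851114372029726040 * s ^ 3 + 207378105047755762290 * s ^ 2 * v + 271990682330580192500 * s * v ^ 2 + 111522460455750156250 * v ^ 3)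
      + x ^ 3 * u ^ 4 * (43677961856323180200 * s ^ 3 + 176505703029879955200 * s ^ 2 * v + 220919215069217868750 * s * v ^ 2 + 88119571943821093750 * v ^ 3)
      + x ^ 2 * u ^ 5 * (20391741314957520000 * s ^ 3 + 77374227800477520000 * s ^ 2 * v + 93386600470582500000 * s * v ^ 2 + 36409457089062500000 * v ^ 3)
      + x * u ^ 6 * (3726192790080000000 * s ^ 3 + 13533324916080000000 * s ^ 2 * v + 15895687501000000000 * s * v ^ 2 + 6088555375000000000 * v ^ 3)) * (1 / 6750000000000000000) := by positivity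
  refine h.trans_eq ?_
  subst hu hv
  simp only [E0, E1, E2, psi, dt, da, dA, dB, dR, dS, dr0, dr1, dr2, dp, dq, dN]
  ring

lemma d_3 {x s : ℝ} (x0 : 0 ≤ x) (x1 : x ≤ 1) (s0 : 0 ≤ s) (s1 : s ≤ 1) :
    0 ≤ E0 (dA x s) (dB x s) (dS x s) (dr0 x s) (1) (dq x s) (dN x s) 1 (dt x s)
      + E1 (dB x s) (dR x s) (dS x s) (dr1 x s) (1) (dp x s) (dq x s) (dN x s) * (dt x s) * (1 - (dt x s))
      + E2 (dR x s) (dr2 x s) (1) (dp x s) (dN x s) * (1 - (dt x s)) ^ 2 := by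
  obtain ⟨u, u0, hu⟩ : ∃ u, 0 ≤ u ∧ u = 1 - x := ⟨_, sub_nonneg.2 x1, rfl⟩
  obtain ⟨v, v0, hv⟩ : ∃ v, 0 ≤ v ∧ v = 1 - s := ⟨_, sub_nonneg.2 s1, rfl⟩
  have h : (0 : ℝ) ≤ (x ^ 7 * (122019232623690807 * s ^ 3 + 4816771746436847307 * s ^ 2 * v + 8917394317513453375 * s * v ^ 2 + 4229175084116296875 * v ^ 3)
      + x ^ 6 * u * (2723650387113449754 * s ^ 3 + 35324723563808796504 * s ^ 2 * v + 60268990544547284250 * s * v ^ 2 + 27699585945259937500 * v ^ 3)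
      + x ^ 5 * u ^ 2 * (11508789966893974287 * s ^ 3 + 104862367282635613287 * s ^ 2 * v + 169369339476614467125 * s * v ^ 2 + 76076911314600828125 * v ^ 3)
      + x ^ 4 * u ^ 3 * (25633646626778037540 * s ^ 3 + 176909402479673011290 * s ^ 2 * v + 268646205699217880000 * s * v ^ 2 + 117429218647218906250 * v ^ 3)
      + x ^ 3 * u ^ 4 * (34761934833567262200 * s ^ 3 + 188261835618522787200 * s ^ 2 * v + 265502625743382243750 * s * v ^ 2 + 112030823006586718750 * v ^ 3)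
      + x ^ 2 * u ^ 5 * (27325330031683440000 * s ^ 3 + 123382622232703440000 * s ^ 2 * v + 161713971998895000000 * s * v ^ 2 + 65662022901875000000 * v ^ 3)
      + x * u ^ 6 * (10887403435704000000 * s ^ 3 + 43669270027704000000 * s ^ 2 * v + 53983584217000000000 * s * v ^ 2 + 21201717625000000000 * v ^ 3)
      + u ^ 7 * (1598019387264000000 * s ^ 3 + 5994993291264000000 * s ^ 2 * v + 7145272404000000000 * s * v ^ 2 + 2748298500000000000 * v ^ 3)) * (1 / 13500000000000000000) := by positivity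
  refine h.trans_eq ?_
  subst hu hv
  simp only [E0, E1, E2, psi, dt, da, dA, dB, dR, dS, dr0, dr1, dr2, dp, dq, dN]
  ring

lemma d_4 {x s : ℝ} (x0 : 0 ≤ x) (x1 : x ≤ 1) (s0 : 0 ≤ s) (s1 : s ≤ 1) :
    0 ≤ E0 (dA x s) (dB x s) (dS x s) (dr0 x s) (1) (dq x s) (dN x s) 1 (dt x s)
      - E1 (dB x s) (dR x s) (dS x s) (dr1 x s) (1) (dp x s) (dq x s) (dN x s) * (dt x s) * (1 - (dt x s))
      + E2 (dR x s) (dr2 x s) (1) (dp x s) (dN x s) * (1 - (dt x s)) ^ 2 := by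
  obtain ⟨u, u0, hu⟩ : ∃ u, 0 ≤ u ∧ u = 1 - x := ⟨_, sub_nonneg.2 x1, rfl⟩
  obtain ⟨v, v0, hv⟩ : ∃ v, 0 ≤ v ∧ v = 1 - s := ⟨_, sub_nonneg.2 s1, rfl⟩
  have h : (0 : ℝ) ≤ (x ^ 7 * (120385295459076807 * s ^ 3 + 4455109855764983307 * s ^ 2 * v + 8350483919381203375 * s * v ^ 2 + 4022292639491296875 * v ^ 3)
      + x ^ 6 * u * (2344159571427011754 * s ^ 3 + 30778364371612608504 * s ^ 2 * v + 53669187666287534250 * s * v ^ 2 + 25266651443509937500 * v ^ 3)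
      + x ^ 5 * u ^ 2 * (8245905434483284287 * s ^ 3 + 82839944368862173287 * s ^ 2 * v + 139583439714189217125 * s * v ^ 2 + 65050549933538328125 * v ^ 3)
      + x ^ 4 * u ^ 3 * (15253522166186955540 * s ^ 3 + 123927345575856679290 * s ^ 2 * v + 201184138010867630000 * s * v ^ 2 + 92569083402093906250 * v ^ 3)
      + x ^ 3 * u ^ 4 * (18799233706798486200 * s ^ 3 + 119564403064889011200 * s ^ 2 * v + 182530884436579743750 * s * v ^ 2 + 81793813126649218750 * v ^ 3)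
      + x ^ 2 * u ^ 5 * (15325296734720880000 * s ^ 3 + 77252710545740880000 * s ^ 2 * v + 108457295150145000000 * s * v ^ 2 + 46535224443125000000 * v ^ 3)
      + x * u ^ 6 * (7354974458808000000 * s ^ 3 + 31092459602808000000 * s ^ 2 * v + 39989588269000000000 * s * v ^ 2 + 16252103125000000000 * v ^ 3)
      + u ^ 7 * (1598019387264000000 * s ^ 3 + 5994993291264000000 * s ^ 2 * v + 7145272404000000000 * s * v ^ 2 + 2748298500000000000 * v ^ 3)) * (1 / 13500000000000000000) := by positivity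
  refine h.trans_eq ?_
  subst hu hv
  simp only [E0, E1, E2, psi, dt, da, dA, dB, dR, dS, dr0, dr1, dr2, dp, dq, dN]
  ring

lemma d_c {x s : ℝ} (x0 : 0 ≤ x) (x1 : x ≤ 1) (s0 : 0 ≤ s) (s1 : s ≤ 1) :
    0 ≤ (2 * (dr2 x s) + (1) * (dp x s) ^ 2) * (2 * (dr0 x s) + (1) * (dq x s) ^ 2)
      - ((dr1 x s) - (1) * (dp x s) * (dq x s)) ^ 2 := by
  obtain ⟨u, u0, hu⟩ : ∃ u, 0 ≤ u ∧ u = 1 - x := ⟨_, sub_nonneg.2 x1, rfl⟩
  obtain ⟨v, v0, hv⟩ : ∃ v, 0 ≤ v ∧ v = 1 - s := ⟨_, sub_nonneg.2 s1, rfl⟩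
  have h : (0 : ℝ) ≤ (x ^ 4 * (350388826650458797419 * s ^ 4 + 3297569224714779238875 * s ^ 3 * v + 6747327796673997281250 * s ^ 2 * v ^ 2 + 4873749120982716796875 * s * v ^ 3 + 1071446930048095703125 * v ^ 4)
      + x ^ 3 * u * (9797527751508913332051 * s ^ 4 + 40324082711688182629125 * s ^ 3 * v + 58470268882339365328125 * s ^ 2 * v ^ 2 + 34677007328709873046875 * s * v ^ 3 + 6724674237250000000000 * v ^ 4)
      + x ^ 2 * u ^ 2 * (21876171731837231352264 * s ^ 4 + 83247357804723225969750 * s ^ 3 * v + 113325546547169717765625 * s ^ 2 * v ^ 2 + 63736325372991445312500 * s * v ^ 3 + 11769036144758056640625 * v ^ 4)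
      + x * u ^ 3 * (21613363003722481726176 * s ^ 4 + 81599414550889284679500 * s ^ 3 * v + 111777323239124576718750 * s ^ 2 * v ^ 2 + 64780255872945539062500 * s * v ^ 3 + 12980365011687988281250 * v ^ 4)
      + u ^ 4 * (10061475412524954908544 * s ^ 4 + 38887151096264462100000 * s ^ 3 * v + 55437589072307727000000 * s ^ 2 * v ^ 2 + 34355769570806250000000 * s * v ^ 3 + 7741701389913085937500 * v ^ 4)) * (1 / 177978515625000000000000) := by positivity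
  refine h.trans_eq ?_
  subst hu hv
  simp only [E0, E1, E2, psi, dt, da, dA, dB, dR, dS, dr0, dr1, dr2, dp, dq, dN]
  ring

lemma d_r {x s : ℝ} (x0 : 0 ≤ x) (x1 : x ≤ 1) (s0 : 0 ≤ s) (s1 : s ≤ 1) :
    0 ≤ 2 * (dr0 x s) + (1) * (dq x s) ^ 2 - 1 / 100 := by
  obtain ⟨u, u0, hu⟩ : ∃ u, 0 ≤ u ∧ u = 1 - x := ⟨_, sub_nonneg.2 x1, rfl⟩
  obtain ⟨v, v0, hv⟩ : ∃ v, 0 ≤ v ∧ v = 1 - s := ⟨_, sub_nonneg.2 s1, rfl⟩
  have h : (0 : ℝ) ≤ (x ^ 2 * (721105350147 * s ^ 3 + 7427823663897 * s ^ 2 * v + 12689821067625 * s * v ^ 2 + 5940357921875 * v ^ 3)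
      + x * u * (20630397758544 * s ^ 3 + 69914875100544 * s ^ 2 * v + 77933536506000 * s * v ^ 2 + 28563569500000 * v ^ 3)
      + u ^ 2 * (23208962830272 * s ^ 3 + 72386062702272 * s ^ 2 * v + 75142726704000 * s * v ^ 2 + 25922882000000 * v ^ 3)) * (1 / 60750000000000) := by positivity
  refine h.trans_eq ?_
  subst hu hv
  simp only [E0, E1, E2, psi, dt, da, dA, dB, dR, dS, dr0, dr1, dr2, dp, dq, dN]
  ring

lemma d_n {x s : ℝ} (x0 : 0 ≤ x) (x1 : x ≤ 1) (s0 : 0 ≤ s) (s1 : s ≤ 1) :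
    0 ≤ (dN x s) - 1 / 100 := by
  obtain ⟨u, u0, hu⟩ : ∃ u, 0 ≤ u ∧ u = 1 - x := ⟨_, sub_nonneg.2 x1, rfl⟩
  obtain ⟨v, v0, hv⟩ : ∃ v, 0 ≤ v ∧ v = 1 - s := ⟨_, sub_nonneg.2 s1, rfl⟩
  have h : (0 : ℝ) ≤ (x ^ 2 * (539)
      + x * u * (995)
      + u ^ 2 * (440)) * (9 / 4000) := by positivity
  refine h.trans_eq ?_
  subst hu hv
  simp only [E0, E1, E2, psi, dt, da, dA, dB, dR, dS, dr0, dr1, dr2, dp, dq, dN]
  ring

theorem d_bound {x s : ℝ} (x0 : 0 ≤ x) (x1 : x ≤ 1) (s0 : 0 ≤ s) (s1 : s ≤ 1) {w F : ℂ⟦X⟧}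
    (hw : Contr w) (hF0 : coeff 0 F = 1)
    (hF : X * d⁄dX ℂ F = (2 * C ((da x s : ℝ) : ℂ) * KK (da x s) w) * F)
    (ht : dt x s = ‖coeff 1 w‖ ^ 2) : ‖coeff 4 (KK (da x s) w * F)‖ ≤ 1 := by
  refine core4 hw hF0 hF ht ?_ ?_ ?_ ?_ (by norm_num) ?_ ?_ ?_ (d_1 x0 x1 s0 s1)
    (d_2 x0 x1 s0 s1) (d_3 x0 x1 s0 s1) (d_4 x0 x1 s0 s1)
  · simp only [E0, E1, E2, psi, dt, da, dA, dB, dR, dS, dr0, dr1, dr2, dp, dq, dN]; ring
  · simp only [E0, E1, E2, psi, dt, da, dA, dB, dR, dS, dr0, dr1, dr2, dp, dq, dN]; ring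
  · simp only [E0, E1, E2, psi, dt, da, dA, dB, dR, dS, dr0, dr1, dr2, dp, dq, dN]; ring
  · simp only [E0, E1, E2, psi, dt, da, dA, dB, dR, dS, dr0, dr1, dr2, dp, dq, dN]; ring
  · linarith [d_r x0 x1 s0 s1]
  · exact sub_nonneg.1 (d_c x0 x1 s0 s1)
  · linarith [d_n x0 x1 s0 s1]

/-- parameter -/
noncomputable def et (x s : ℝ) : ℝ := 3 / 4 * x

/-- parameter -/
noncomputable def ea (x s : ℝ) : ℝ := 46 / 125 + 79 / 125 * s

/-- parameter -/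
noncomputable def eA (x s : ℝ) : ℝ := 53057 / 62500 + 115261 / 125000 * s + 33 / 2000 * x

/-- parameter -/
noncomputable def eB (x s : ℝ) : ℝ := 162829 / 187500 + 760217 / 375000 * s - 33 / 2000 * x

/-- parameter -/
noncomputable def eR (x s : ℝ) : ℝ := 80697 / 125000 + 54589 / 62500 * s + 1017 / 4000 * x

/-- parameter -/
noncomputable def eS (x s : ℝ) : ℝ := 36017 / 31250 + 302807 / 125000 * s + 33 / 4000 * x

/-- parameter -/
noncomputable def er0 (x s : ℝ) : ℝ := 29050031 / 1953125000 + 2259891143 / 70312500000 * s + 69842775119 / 46875000000 * s ^ 2 + 37470964 / 17578125 * s ^ 3 - 52041 / 2000000 * x - 190311 / 4000000 * x * s - 1089 / 8000000 * x ^ 2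

/-- parameter -/
noncomputable def er1 (x s : ℝ) : ℝ := 8621691307 / 23437500000 - 3697552103 / 46875000000 * s + 124264731989 / 46875000000 * s ^ 2 - 29382473 / 125000000 * x - 133543733 / 500000000 * x * s - 31383 / 8000000 * x ^ 2

/-- parameter -/
noncomputable def er2 (x s : ℝ) : ℝ := 11303 / 125000 + 24411 / 62500 * s - 1017 / 4000 * x

/-- parameter -/
noncomputable def ep (x s : ℝ) : ℝ := 151 / 500 + 1413 / 4000 * x

/-- parameter -/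
noncomputable def eq (x s : ℝ) : ℝ := 439 / 1000 - 441 / 2000 * x

/-- parameter -/
noncomputable def eN (x s : ℝ) : ℝ := 1 + 1179 / 4000 * x - 1143 / 16000 * x ^ 2

lemma e_1 {x s : ℝ} (x0 : 0 ≤ x) (x1 : x ≤ 1) (s0 : 0 ≤ s) (s1 : s ≤ 1) :
    0 ≤ 2 * E0 (eA x s) (eB x s) (eS x s) (er0 x s) (1) (eq x s) (eN x s) (psi (ea x s) (7 / 8)) (et x s)
      + E1 (eB x s) (eR x s) (eS x s) (er1 x s) (1) (ep x s) (eq x s) (eN x s) * (et x s) * (1 - (et x s)) := by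
  obtain ⟨u, u0, hu⟩ : ∃ u, 0 ≤ u ∧ u = 1 - x := ⟨_, sub_nonneg.2 x1, rfl⟩
  obtain ⟨v, v0, hv⟩ : ∃ v, 0 ≤ v ∧ v = 1 - s := ⟨_, sub_nonneg.2 s1, rfl⟩
  have h : (0 : ℝ) ≤ (x ^ 7 * (1450748995637501953125 * s ^ 3 + 1519480512625010471875 * s ^ 2 * v + 701220158788433777003 * s * v ^ 2 + 22283885395421258253 * v ^ 3)
      + x ^ 6 * u * (21504317971703517187500 * s ^ 3 + 22455735937390447348000 * s ^ 2 * v + 8806817412037583658308 * s * v ^ 2 + 280127873750589497808 * v ^ 3)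
      + x ^ 5 * u ^ 2 * (95096005292013543562500 * s ^ 3 + 100616650322417843092500 * s ^ 2 * v + 37160584291981174584624 * s * v ^ 2 + 1147620356054187054624 * v ^ 3)
      + x ^ 4 * u ^ 3 * (203260698072161590500000 * s ^ 3 + 218589044507363108204000 * s ^ 2 * v + 77748462085788246838336 * s * v ^ 2 + 2217996271229545134336 * v ^ 3)
      + x ^ 3 * u ^ 4 * (241538664388026813000000 * s ^ 3 + 264224189453450938472000 * s ^ 2 * v + 91057280878513005179392 * s * v ^ 2 + 2239523638571375707392 * v ^ 3)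
      + x ^ 2 * u ^ 5 * (163911557856024000000000 * s ^ 3 + 182371009018005984000000 * s ^ 2 * v + 60902232606296482560000 * s * v ^ 2 + 1150385846163586560000 * v ^ 3)
      + x * u ^ 6 * (59639154624000000000000 * s ^ 3 + 67436299373632000000000 * s ^ 2 * v + 21751851150205952000000 * s * v ^ 2 + 239532597247488000000 * v ^ 3)
      + u ^ 7 * (9048000000000000000000 * s ^ 3 + 10380832000000000000000 * s ^ 2 * v + 3213426176000000000000 * s * v ^ 2 + 451086336000000000 * v ^ 3)) * (1 / 288000000000000000000) := by positivity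
  refine h.trans_eq ?_
  subst hu hv
  simp only [E0, E1, E2, psi, et, ea, eA, eB, eR, eS, er0, er1, er2, ep, eq, eN]
  ring

lemma e_2 {x s : ℝ} (x0 : 0 ≤ x) (x1 : x ≤ 1) (s0 : 0 ≤ s) (s1 : s ≤ 1) :
    0 ≤ 2 * E0 (eA x s) (eB x s) (eS x s) (er0 x s) (1) (eq x s) (eN x s) (psi (ea x s) (7 / 8)) (et x s)
      - E1 (eB x s) (eR x s) (eS x s) (er1 x s) (1) (ep x s) (eq x s) (eN x s) * (et x s) * (1 - (et x s)) := by
  obtain ⟨u, u0, hu⟩ : ∃ u, 0 ≤ u ∧ u = 1 - x := ⟨_, sub_nonneg.2 x1, rfl⟩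
  obtain ⟨v, v0, hv⟩ : ∃ v, 0 ≤ v ∧ v = 1 - s := ⟨_, sub_nonneg.2 s1, rfl⟩
  have h : (0 : ℝ) ≤ (x ^ 7 * (2768770016818189453125 * s ^ 3 + 2998010798684055971875 * s ^ 2 * v + 861720485158327013003 * s * v ^ 2 + 22274946886956494253 * v ^ 3)
      + x ^ 6 * u * (33191741595070579687500 * s ^ 3 + 35464812061082708848000 * s ^ 2 * v + 10093258719430520022308 * s * v ^ 2 + 244916680818326861808 * v ^ 3)
      + x ^ 5 * u ^ 2 * (133233638751396918562500 * s ^ 3 + 142661604642839951092500 * s ^ 2 * v + 40826047686674686608624 * s * v ^ 2 + 905762889708966078624 * v ^ 3)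
      + x ^ 4 * u ^ 3 * (265272023827304590500000 * s ^ 3 + 286432356527223104204000 * s ^ 2 * v + 83076668558253008086336 * s * v ^ 2 + 1714216478977310382336 * v ^ 3)
      + x ^ 3 * u ^ 4 * (295816095456276813000000 * s ^ 3 + 323305571345450362472000 * s ^ 2 * v + 95426756794474672379392 * s * v ^ 2 + 1805048730783618907392 * v ^ 3)
      + x ^ 2 * u ^ 5 * (188446954730328000000000 * s ^ 3 + 208988365588358304000000 * s ^ 2 * v + 62828124487206321408000 * s * v ^ 2 + 994318031025105408000 * v ^ 3)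
      + x * u ^ 6 * (64140215328000000000000 * s ^ 3 + 72301177589056000000000 * s ^ 2 * v + 22096951173948416000000 * s * v ^ 2 + 220815109565952000000 * v ^ 3)
      + u ^ 7 * (9048000000000000000000 * s ^ 3 + 10380832000000000000000 * s ^ 2 * v + 3213426176000000000000 * s * v ^ 2 + 451086336000000000 * v ^ 3)) * (1 / 288000000000000000000) := by positivity
  refine h.trans_eq ?_
  subst hu hv
  simp only [E0, E1, E2, psi, et, ea, eA, eB, eR, eS, er0, er1, er2, ep, eq, eN]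
  ring

lemma e_3 {x s : ℝ} (x0 : 0 ≤ x) (x1 : x ≤ 1) (s0 : 0 ≤ s) (s1 : s ≤ 1) :
    0 ≤ E0 (eA x s) (eB x s) (eS x s) (er0 x s) (1) (eq x s) (eN x s) (psi (ea x s) (7 / 8)) (et x s)
      + E1 (eB x s) (eR x s) (eS x s) (er1 x s) (1) (ep x s) (eq x s) (eN x s) * (et x s) * (1 - (et x s))
      + E2 (eR x s) (er2 x s) (1) (ep x s) (eN x s) * (1 - (et x s)) ^ 2 := by
  obtain ⟨u, u0, hu⟩ : ∃ u, 0 ≤ u ∧ u = 1 - x := ⟨_, sub_nonneg.2 x1, rfl⟩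
  obtain ⟨v, v0, hv⟩ : ∃ v, 0 ≤ v ∧ v = 1 - s := ⟨_, sub_nonneg.2 s1, rfl⟩
  have h : (0 : ℝ) ≤ (x ^ 7 * (656750995246001953125 * s ^ 3 + 521167784184018971875 * s ^ 2 * v + 480373992768082409003 * s * v ^ 2 + 5752447424561390253 * v ^ 3)
      + x ^ 6 * u * (13963784973329704687500 * s ^ 3 + 12737367959065472848000 * s ^ 2 * v + 6469377567047103726308 * s * v ^ 2 + 120523008711271565808 * v ^ 3)
      + x ^ 5 * u ^ 2 * (67801983031349231062500 * s ^ 3 + 64303811805456914092500 * s ^ 2 * v + 27610168580600767572624 * s * v ^ 2 + 616020900970396542624 * v ^ 3)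
      + x ^ 4 * u ^ 3 * (152305847750132590500000 * s ^ 3 + 148509226430068610204000 * s ^ 2 * v + 57946835807490246214336 * s * v ^ 2 + 1541337748197042510336 * v ^ 3)
      + x ^ 3 * u ^ 4 * (187535753254407813000000 * s ^ 3 + 187403531994537226472000 * s ^ 2 * v + 68176687846281851579392 * s * v ^ 2 + 2176676931634934107392 * v ^ 3)
      + x ^ 2 * u ^ 5 * (131118393969144000000000 * s ^ 3 + 134054653915933824000000 * s ^ 2 * v + 45980205796630427136000 * s * v ^ 2 + 1751550251689691136000 * v ^ 3)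
      + x * u ^ 6 * (49029319867392000000000 * s ^ 3 + 51195247816768000000000 * s ^ 2 * v + 16623218929252352000000 * s * v ^ 2 + 742117176549888000000 * v ^ 3)
      + u ^ 7 * (7635781056000000000000 * s ^ 3 + 8122512896512000000000 * s ^ 2 * v + 2494031978369024000000 * s * v ^ 2 + 127157048193024000000 * v ^ 3)) * (1 / 576000000000000000000) := by positivity
  refine h.trans_eq ?_
  subst hu hv
  simp only [E0, E1, E2, psi, et, ea, eA, eB, eR, eS, er0, er1, er2, ep, eq, eN]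
  ring

lemma e_4 {x s : ℝ} (x0 : 0 ≤ x) (x1 : x ≤ 1) (s0 : 0 ≤ s) (s1 : s ≤ 1) :
    0 ≤ E0 (eA x s) (eB x s) (eS x s) (er0 x s) (1) (eq x s) (eN x s) (psi (ea x s) (7 / 8)) (et x s)
      - E1 (eB x s) (eR x s) (eS x s) (er1 x s) (1) (ep x s) (eq x s) (eN x s) * (et x s) * (1 - (et x s))
      + E2 (eR x s) (er2 x s) (1) (ep x s) (eN x s) * (1 - (et x s)) ^ 2 := by
  obtain ⟨u, u0, hu⟩ : ∃ u, 0 ≤ u ∧ u = 1 - x := ⟨_, sub_nonneg.2 x1, rfl⟩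
  obtain ⟨v, v0, hv⟩ : ∃ v, 0 ≤ v ∧ v = 1 - s := ⟨_, sub_nonneg.2 s1, rfl⟩
  have h : (0 : ℝ) ≤ (x ^ 7 * (3292793037607376953125 * s ^ 3 + 3478228356302109971875 * s ^ 2 * v + 801374645507868881003 * s * v ^ 2 + 5734570407631862253 * v ^ 3)
      + x ^ 6 * u * (37338632220063829687500 * s ^ 3 + 38755520206449995848000 * s ^ 2 * v + 9042260181832976454308 * s * v ^ 2 + 50100622846746293808 * v ^ 3)
      + x ^ 5 * u ^ 2 * (144077249950115981062500 * s ^ 3 + 148393720446301130092500 * s ^ 2 * v + 34941095369987791620624 * s * v ^ 2 + 132305968279954590624 * v ^ 3)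
      + x ^ 4 * u ^ 3 * (276328499260418590500000 * s ^ 3 + 284195850469788602204000 * s ^ 2 * v + 68603248752419768710336 * s * v ^ 2 + 533778163692573006336 * v ^ 3)
      + x ^ 3 * u ^ 4 * (296090615390907813000000 * s ^ 3 + 305566295778536074472000 * s ^ 2 * v + 76915639678205185979392 * s * v ^ 2 + 1307727116059420507392 * v ^ 3)
      + x ^ 2 * u ^ 5 * (180189187717752000000000 * s ^ 3 + 187289367056638464000000 * s ^ 2 * v + 49831989558450104832000 * s * v ^ 2 + 1439414621412728832000 * v ^ 3)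
      + x * u ^ 6 * (58031441275392000000000 * s ^ 3 + 60925004247616000000000 * s ^ 2 * v + 17313418976737280000000 * s * v ^ 2 + 704682201186816000000 * v ^ 3)
      + u ^ 7 * (7635781056000000000000 * s ^ 3 + 8122512896512000000000 * s ^ 2 * v + 2494031978369024000000 * s * v ^ 2 + 127157048193024000000 * v ^ 3)) * (1 / 576000000000000000000) := by positivity
  refine h.trans_eq ?_
  subst hu hv
  simp only [E0, E1, E2, psi, et, ea, eA, eB, eR, eS, er0, er1, er2, ep, eq, eN]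
  ring

lemma e_c {x s : ℝ} (x0 : 0 ≤ x) (x1 : x ≤ 1) (s0 : 0 ≤ s) (s1 : s ≤ 1) :
    0 ≤ (2 * (er2 x s) + (1) * (ep x s) ^ 2) * (2 * (er0 x s) + (1) * (eq x s) ^ 2)
      - ((er1 x s) - (1) * (ep x s) * (eq x s)) ^ 2 := by
  obtain ⟨u, u0, hu⟩ : ∃ u, 0 ≤ u ∧ u = 1 - x := ⟨_, sub_nonneg.2 x1, rfl⟩
  obtain ⟨v, v0, hv⟩ : ∃ v, 0 ≤ v ∧ v = 1 - s := ⟨_, sub_nonneg.2 s1, rfl⟩
  have h : (0 : ℝ) ≤ (x ^ 4 * (80323084110870361328125 * s ^ 4 + 358250910732290380859375 * s ^ 3 * v + 18920298941239907390625 * s ^ 2 * v ^ 2 + 1129140928937257933625 * s * v ^ 3 + 165660651805373398378 * v ^ 4)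
      + x ^ 3 * u * (217026831452716064453125 * s ^ 4 + 1331222483669332537109375 * s ^ 3 * v + 100504682797115223421875 * s ^ 2 * v ^ 2 + 28354474642791104622125 * s * v ^ 3 + 2161412233044367153012 * v ^ 4)
      + x ^ 2 * u ^ 2 * (198820580731718261718750 * s ^ 4 + 1863853410671604328125000 * s ^ 3 * v + 174770225198015490843750 * s ^ 2 * v ^ 2 + 74077928684832235561500 * s * v ^ 3 + 4514485682830831068768 * v ^ 4)
      + x * u ^ 3 * (65544774027367187500000 * s ^ 4 + 1159753407480950937500000 * s ^ 3 * v + 115688157547795575750000 * s ^ 2 * v ^ 2 + 64206015977995999538000 * s * v ^ 3 + 2842460054536187084512 * v ^ 4)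
      + u ^ 4 * (3467439134312500000000 * s ^ 4 + 269029563733660250000000 * s ^ 3 * v + 22739307186562627500000 * s ^ 2 * v ^ 2 + 17511414994289095040000 * s * v ^ 3 + 363224449762220864128 * v ^ 4)) * (1 / 70312500000000000000000) := by positivity
  refine h.trans_eq ?_
  subst hu hv
  simp only [E0, E1, E2, psi, et, ea, eA, eB, eR, eS, er0, er1, er2, ep, eq, eN]
  ring

lemma e_r {x s : ℝ} (x0 : 0 ≤ x) (x1 : x ≤ 1) (s0 : 0 ≤ s) (s1 : s ≤ 1) :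
    0 ≤ 2 * (er0 x s) + (1) * (eq x s) ^ 2 - 1 / 100 := by
  obtain ⟨u, u0, hu⟩ : ∃ u, 0 ≤ u ∧ u = 1 - x := ⟨_, sub_nonneg.2 x1, rfl⟩
  obtain ⟨v, v0, hv⟩ : ∃ v, 0 ≤ v ∧ v = 1 - s := ⟨_, sub_nonneg.2 s1, rfl⟩
  have h : (0 : ℝ) ≤ (x ^ 2 * (2032769109375 * s ^ 3 + 833551536500 * s ^ 2 * v + 4121590303 * s * v ^ 2 + 4268315178 * v ^ 3)
      + x * u * (4134191203125 * s ^ 3 + 1846299541750 * s ^ 2 * v + 160677164981 * s * v ^ 2 + 50427130356 * v ^ 3)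
      + u ^ 2 * (2115019968750 * s ^ 3 + 1053541630250 * s ^ 2 * v + 197349199678 * s * v ^ 2 + 59756690178 * v ^ 3)) * (1 / 281250000000) := by positivity
  refine h.trans_eq ?_
  subst hu hv
  simp only [E0, E1, E2, psi, et, ea, eA, eB, eR, eS, er0, er1, er2, ep, eq, eN]
  ring

lemma e_n {x s : ℝ} (x0 : 0 ≤ x) (x1 : x ≤ 1) (s0 : 0 ≤ s) (s1 : s ≤ 1) :
    0 ≤ (eN x s) - 1 / 100 := by
  obtain ⟨u, u0, hu⟩ : ∃ u, 0 ≤ u ∧ u = 1 - x := ⟨_, sub_nonneg.2 x1, rfl⟩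
  obtain ⟨v, v0, hv⟩ : ∃ v, 0 ≤ v ∧ v = 1 - s := ⟨_, sub_nonneg.2 s1, rfl⟩
  have h : (0 : ℝ) ≤ (x ^ 2 * (2157)
      + x * u * (4044)
      + u ^ 2 * (1760)) * (9 / 16000) := by positivity
  refine h.trans_eq ?_
  subst hu hv
  simp only [E0, E1, E2, psi, et, ea, eA, eB, eR, eS, er0, er1, er2, ep, eq, eN]
  ring

theorem e_bound {x s : ℝ} (x0 : 0 ≤ x) (x1 : x ≤ 1) (s0 : 0 ≤ s) (s1 : s ≤ 1) {w F : ℂ⟦X⟧}
    (hw : Contr w) (hF0 : coeff 0 F = 1)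
    (hF : X * d⁄dX ℂ F = (2 * C ((ea x s : ℝ) : ℂ) * KK (ea x s) w) * F)
    (ht : et x s = ‖coeff 1 w‖ ^ 2) : ‖coeff 4 (KK (ea x s) w * F)‖ ≤ (psi (ea x s) (7 / 8)) := by
  refine core4 hw hF0 hF ht ?_ ?_ ?_ ?_ (by norm_num) ?_ ?_ ?_ (e_1 x0 x1 s0 s1)
    (e_2 x0 x1 s0 s1) (e_3 x0 x1 s0 s1) (e_4 x0 x1 s0 s1)
  · simp only [E0, E1, E2, psi, et, ea, eA, eB, eR, eS, er0, er1, er2, ep, eq, eN]; ring
  · simp only [E0, E1, E2, psi, et, ea, eA, eB, eR, eS, er0, er1, er2, ep, eq, eN]; ring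
  · simp only [E0, E1, E2, psi, et, ea, eA, eB, eR, eS, er0, er1, er2, ep, eq, eN]; ring
  · simp only [E0, E1, E2, psi, et, ea, eA, eB, eR, eS, er0, er1, er2, ep, eq, eN]; ring
  · linarith [e_r x0 x1 s0 s1]
  · exact sub_nonneg.1 (e_c x0 x1 s0 s1)
  · linarith [e_n x0 x1 s0 s1]

end Pool.Agent.P.MP_bdc337_an.SI
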