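import Mathlib

/-! A checker for nonnegativity of quadratic forms with polynomial coefficients on the square. -/

set_option autoImplicit false

namespace Pool.Agent.P.MP_bdc337_an.SI.Rf

section generic
variable {V W : Type}

/-- Horner evaluation -/
def hv (ev : V → ℝ) (x : ℝ) : List V → ℝ
  | [] => 0
  | c :: l => ev c + x * hv ev x l

/-- padded sum -/
def padd (ad : V → V → V) : List V → List V → List V
  | [], q => q
  | c :: p, [] => c :: p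
  | c :: p, d :: q => ad c d :: padd ad p q

/-- product -/
def pmul (ad mu : V → V → V) (z : V) : List V → List V → List V
  | [], _ => []
  | c :: p, q => padd ad (q.map (mu c)) (z :: pmul ad mu z p q)

variable {ev : V → ℝ} {ad mu : V → V → V} {z : V} {sm : ℤ → V → V}

lemma hv_padd (x : ℝ) (had : ∀ u v, ev (ad u v) = ev u + ev v) :
    ∀ p q, hv ev x (padd ad p q) = hv ev x p + hv ev x q
  | [], q => by simp [padd, hv]
  | c :: p, [] => by simp [padd, hv]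
  | c :: p, d :: q => by simp only [padd, hv, had, hv_padd x had p q]; ring

lemma hv_map (x k : ℝ) {ew : W → ℝ} {f : V → W} (h : ∀ v, ew (f v) = k * ev v) :
    ∀ p : List V, hv ew x (p.map f) = k * hv ev x p
  | [] => by simp [hv]
  | c :: p => by simp only [List.map, hv, h, hv_map x k h p]; ring

lemma hv_pmul (x : ℝ) (had : ∀ u v, ev (ad u v) = ev u + ev v)
    (hmu : ∀ u v, ev (mu u v) = ev u * ev v) (hz : ev z = 0) :
    ∀ p q, hv ev x (pmul ad mu z p q) = hv ev x p * hv ev x q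
  | [], q => by simp [pmul, hv]
  | c :: p, q => by
    simp only [pmul, hv, hv_padd x had, hv_map x (ev c) (hmu c), hz, hv_pmul x had hmu hz p q]
    ring

lemma hv_nonneg {x : ℝ} (hx : 0 ≤ x) (h0 : ∀ u, 0 ≤ ev u) : ∀ p, 0 ≤ hv ev x p
  | [] => le_rfl
  | c :: p => add_nonneg (h0 c) (mul_nonneg hx (hv_nonneg hx h0 p))

lemma hv_padd_le {x : ℝ} (hx : 0 ≤ x) (had : ∀ u v, ev (ad u v) ≤ ev u + ev v) :
    ∀ p q, hv ev x (padd ad p q) ≤ hv ev x p + hv ev x q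
  | [], q => by simp [padd, hv]
  | c :: p, [] => by simp [padd, hv]
  | c :: p, d :: q => by
    simp only [padd, hv]
    linarith [had c d, mul_le_mul_of_nonneg_left (hv_padd_le hx had p q) hx]

lemma hv_map_le {x : ℝ} (hx : 0 ≤ x) (k : ℝ) {f : V → V} (h : ∀ v, ev (f v) ≤ k * ev v) :
    ∀ p : List V, hv ev x (p.map f) ≤ k * hv ev x p
  | [] => by simp [hv]
  | c :: p => by
    simp only [List.map, hv]
    linarith [h c, mul_le_mul_of_nonneg_left (hv_map_le hx k h p) hx]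

lemma hv_pmul_le {x : ℝ} (hx : 0 ≤ x) (had : ∀ u v, ev (ad u v) ≤ ev u + ev v)
    (hmu : ∀ u v, ev (mu u v) ≤ ev u * ev v) (hz : ev z = 0) :
    ∀ p q, hv ev x (pmul ad mu z p q) ≤ hv ev x p * hv ev x q
  | [], q => by simp [pmul, hv]
  | c :: p, q => by
    have h1 := hv_padd_le hx had (q.map (mu c)) (z :: pmul ad mu z p q)
    have h2 := hv_map_le hx (ev c) (hmu c) q
    have h3 := mul_le_mul_of_nonneg_left (hv_pmul_le hx had hmu hz p q) hx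
    simp only [pmul, hv, hz] at h1 ⊢
    linarith

end generic

/-- linear forms -/
structure L4 (R : Type) where
  (a b c d : R)

/-- quadratic forms -/
structure M4 (R : Type) where
  (m00 m01 m02 m03 m11 m12 m13 m22 m23 m33 : R)

/-- value of a quadratic form -/
def qf {R : Type} [CommRing R] (M : M4 R) (p q r s : R) : R :=
  M.m00 * p ^ 2 + M.m01 * (p * q) + M.m02 * (p * r) + M.m03 * (p * s) + M.m11 * q ^ 2
    + M.m12 * (q * r) + M.m13 * (q * s) + M.m22 * r ^ 2 + M.m23 * (r * s) + M.m33 * s ^ 2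

/-- entrywise map -/
def M4.map {R S : Type} (f : R → S) (M : M4 R) : M4 S :=
  ⟨f M.m00, f M.m01, f M.m02, f M.m03, f M.m11, f M.m12, f M.m13, f M.m22, f M.m23, f M.m33⟩

/-- entrywise map -/
def L4.map {R S : Type} (f : R → S) (l : L4 R) : L4 S := ⟨f l.a, f l.b, f l.c, f l.d⟩

/-- sum -/
def M4.add {R : Type} [Add R] (M N : M4 R) : M4 R :=
  ⟨M.m00 + N.m00, M.m01 + N.m01, M.m02 + N.m02, M.m03 + N.m03, M.m11 + N.m11, M.m12 + N.m12,
    M.m13 + N.m13, M.m22 + N.m22, M.m23 + N.m23, M.m33 + N.m33⟩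

/-- scalar multiple -/
def M4.sm {R : Type} [Mul R] (k : R) (M : M4 R) : M4 R := M.map (k * ·)

/-- test in two variables -/
def psd2 (a b c : ℤ) : Bool :=
  if 0 < a then decide (0 ≤ 4 * a * c - b * b) else decide (a = 0) && decide (b = 0) && decide (0 ≤ c)

/-- test in three variables -/
def psd3 (a b c d e f : ℤ) : Bool :=
  if 0 < a then psd2 (4 * a * d - b * b) (4 * a * e - 2 * b * c) (4 * a * f - c * c)
  else decide (a = 0) && decide (b = 0) && decide (c = 0) && psd2 d e f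

/-- test in four variables -/
def psd4 (M : M4 ℤ) : Bool :=
  if 0 < M.m00 then psd3 (4 * M.m00 * M.m11 - M.m01 * M.m01) (4 * M.m00 * M.m12 - 2 * M.m01 * M.m02)
    (4 * M.m00 * M.m13 - 2 * M.m01 * M.m03) (4 * M.m00 * M.m22 - M.m02 * M.m02)
    (4 * M.m00 * M.m23 - 2 * M.m02 * M.m03) (4 * M.m00 * M.m33 - M.m03 * M.m03)
  else decide (M.m00 = 0) && decide (M.m01 = 0) && decide (M.m02 = 0) && decide (M.m03 = 0)
    && psd3 M.m11 M.m12 M.m13 M.m22 M.m23 M.m33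

lemma psd2_ok {a b c : ℤ} (h : psd2 a b c = true) (r s : ℝ) :
    0 ≤ a * r ^ 2 + b * (r * s) + c * s ^ 2 := by
  unfold psd2 at h
  split_ifs at h with h0
  · have a0 : (0 : ℝ) < a := by exact_mod_cast h0
    have h1 : (0 : ℝ) ≤ 4 * a * c - b * b := by exact_mod_cast of_decide_eq_true h
    refine nonneg_of_mul_nonneg_right (a := 4 * (a : ℝ)) ?_ (by positivity)
    nlinarith [mul_nonneg h1 (sq_nonneg s), sq_nonneg (2 * a * r + b * s)]
  · simp only [Bool.and_eq_true, decide_eq_true_eq] at h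
    obtain ⟨⟨rfl, rfl⟩, h⟩ := h
    have : (0 : ℝ) ≤ c := by exact_mod_cast h
    simp only [Int.cast_zero, zero_mul, zero_add]
    positivity

lemma psd3_ok {a b c d e f : ℤ} (h : psd3 a b c d e f = true) (q r s : ℝ) :
    0 ≤ a * q ^ 2 + b * (q * r) + c * (q * s) + d * r ^ 2 + e * (r * s) + f * s ^ 2 := by
  unfold psd3 at h
  split_ifs at h with h0
  · have a0 : (0 : ℝ) < a := by exact_mod_cast h0
    have h1 := psd2_ok h r s
    push_cast at h1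
    refine nonneg_of_mul_nonneg_right (a := 4 * (a : ℝ)) ?_ (by positivity)
    linarith [sq_nonneg (2 * a * q + b * r + c * s)]
  · simp only [Bool.and_eq_true, decide_eq_true_eq] at h
    obtain ⟨⟨⟨rfl, rfl⟩, rfl⟩, h⟩ := h
    simpa using psd2_ok h r s

/-- real value of an integer form -/
def e0 (p q r s : ℝ) (M : M4 ℤ) : ℝ := qf (M.map (↑)) p q r s

lemma psd4_ok {M : M4 ℤ} (h : psd4 M = true) (p q r s : ℝ) : 0 ≤ e0 p q r s M := by
  obtain ⟨a, b, c, d, e, f, g, i, j, k⟩ := M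
  unfold psd4 at h
  simp only [e0, qf, M4.map] at h ⊢
  split_ifs at h with h0
  · have a0 : (0 : ℝ) < a := by exact_mod_cast h0
    have h1 := psd3_ok h q r s
    push_cast at h1
    refine nonneg_of_mul_nonneg_right (a := 4 * (a : ℝ)) ?_ (by positivity)
    linarith [sq_nonneg (2 * a * p + b * q + c * r + d * s)]
  · simp only [Bool.and_eq_true, decide_eq_true_eq] at h
    obtain ⟨⟨⟨⟨rfl, rfl⟩, rfl⟩, rfl⟩, h⟩ := h
    simpa [add_assoc] using psd3_ok h q r s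

/-- the common denominator -/
def DD : ℤ := 708750

lemma DD_pos : (0 : ℝ) < DD := by norm_num [DD]

/-- value of an integer polynomial -/
def v2 (x y : ℝ) (p : List (List ℤ)) : ℝ := hv (hv (fun c : ℤ => (c : ℝ)) y) x p

/-- value of the majorant -/
def av (y : ℝ) (p : List (List ℤ)) : ℝ := hv (hv (fun c : ℤ => |(c : ℝ)|) y) 1 p

/-- sum -/
def a2 : List (List ℤ) → List (List ℤ) → List (List ℤ) := padd (padd (· + ·))

/-- product -/
def m2 : List (List ℤ) → List (List ℤ) → List (List ℤ) :=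
  pmul (padd (· + ·)) (pmul (· + ·) (· * ·) 0) []

lemma v2_a2 (x y : ℝ) (p q) : v2 x y (a2 p q) = v2 x y p + v2 x y q :=
  hv_padd x (hv_padd y fun u v => by push_cast; rfl) p q

lemma v2_m2 (x y : ℝ) (p q) : v2 x y (m2 p q) = v2 x y p * v2 x y q :=
  hv_pmul x (hv_padd y fun u v => by push_cast; rfl)
    (hv_pmul y (fun u v => by push_cast; rfl) (fun u v => by push_cast; rfl) (by simp)) rfl p q

lemma av_nonneg {y : ℝ} (hy : 0 ≤ y) (p) : 0 ≤ av y p :=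
  hv_nonneg zero_le_one (hv_nonneg hy fun _ => abs_nonneg _) p

lemma av_a2 {y : ℝ} (hy : 0 ≤ y) (p q) : av y (a2 p q) ≤ av y p + av y q :=
  hv_padd_le zero_le_one (hv_padd_le hy fun u v => by push_cast; exact abs_add_le _ _) p q

lemma av_m2 {y : ℝ} (hy : 0 ≤ y) (p q) : av y (m2 p q) ≤ av y p * av y q :=
  hv_pmul_le zero_le_one (hv_padd_le hy fun u v => by push_cast; exact abs_add_le _ _)
    (hv_pmul_le hy (fun u v => by push_cast; exact abs_add_le _ _)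
      (fun u v => by push_cast; exact (abs_mul _ _).le) (by simp)) rfl p q

/-- half of the inner base -/
def HS : ℕ := 2 ^ 999

/-- half of the outer base -/
def HX : ℕ := 2 ^ 13499

lemma HS_pos : 0 < HS := Nat.two_pow_pos _
lemma HX_pos : 0 < HX := Nat.two_pow_pos _

attribute [irreducible] HS HX

/-- an integer that codes a polynomial -/
def D2 (x y : ℝ) (Z : ℤ) (B A : ℕ) (r : ℝ) : Prop :=
  ∃ p, (Z : ℝ) = v2 (2 * HX) (2 * HS) p ∧ av 1 p ≤ B ∧ av (2 * HS) p ≤ A ∧ r = v2 x y p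

lemma D2.add {x y r r' : ℝ} {Z Z' : ℤ} {B A B' A' : ℕ} (h : D2 x y Z B A r)
    (h' : D2 x y Z' B' A' r') : D2 x y (Z + Z') (B + B') (A + A') (r + r') := by
  obtain ⟨p, h1, h2, h3, h4⟩ := h
  obtain ⟨q, k1, k2, k3, k4⟩ := h'
  refine ⟨a2 p q, ?_, (av_a2 zero_le_one p q).trans ?_, (av_a2 (by positivity) p q).trans ?_, ?_⟩
  · rw [v2_a2, ← h1, ← k1, Int.cast_add]
  · push_cast; linarith
  · push_cast; linarith
  · rw [v2_a2, h4, k4]

lemma D2.mul {x y r r' : ℝ} {Z Z' : ℤ} {B A B' A' : ℕ} (h : D2 x y Z B A r)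
    (h' : D2 x y Z' B' A' r') : D2 x y (Z * Z') (B * B') (A * A') (r * r') := by
  obtain ⟨p, h1, h2, h3, h4⟩ := h
  obtain ⟨q, k1, k2, k3, k4⟩ := h'
  refine ⟨m2 p q, ?_, (av_m2 zero_le_one p q).trans ?_, (av_m2 (by positivity) p q).trans ?_, ?_⟩
  · rw [v2_m2, ← h1, ← k1, Int.cast_mul]
  · push_cast
    exact mul_le_mul h2 k2 (av_nonneg zero_le_one q) (by positivity)
  · push_cast
    exact mul_le_mul h3 k3 (av_nonneg (by positivity) q) (by positivity)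
  · rw [v2_m2, h4, k4]

lemma D2.const (x y : ℝ) (n : ℤ) : D2 x y n n.natAbs n.natAbs n :=
  ⟨[[n]], by simp [v2, hv], by simp [av, hv], by simp [av, hv], by simp [v2, hv]⟩

lemma D2.X (x y : ℝ) : D2 x y (2 * HX : ℕ) 1 1 x :=
  ⟨[[], [1]], by simp [v2, hv], by simp [av, hv], by simp [av, hv], by simp [v2, hv]⟩

lemma D2.Y (x y : ℝ) : D2 x y (2 * HS : ℕ) 1 (2 * HS) y :=
  ⟨[[0, 1]], by simp [v2, hv], by simp [av, hv], by simp [av, hv], by simp [v2, hv]⟩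

lemma D2.pow {x y r : ℝ} {Z : ℤ} {B A : ℕ} (h : D2 x y Z B A r) :
    ∀ n : ℕ, D2 x y (Z ^ n) (B ^ n) (A ^ n) (r ^ n)
  | 0 => by simpa using D2.const x y 1
  | n + 1 => by simpa only [pow_succ] using (h.pow n).mul h

lemma D2.mono {x y r : ℝ} {Z : ℤ} {B A B' A' : ℕ} (h : D2 x y Z B A r) (h1 : B ≤ B')
    (h2 : A ≤ A') : D2 x y Z B' A' r := by
  obtain ⟨p, k1, k2, k3, k4⟩ := h
  exact ⟨p, k1, k2.trans (by exact_mod_cast h1), k3.trans (by exact_mod_cast h2), k4⟩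

/-- lowest digit -/
def dg (H : ℕ) (Z : ℤ) : ℤ := (Z + H) % (2 * H : ℕ) - H

/-- remaining digits -/
def qt (H : ℕ) (Z : ℤ) : ℤ := (Z + H) / (2 * H : ℕ)

lemma digit {H : ℕ} {Z c r : ℤ} (h : Z = c + 2 * H * r) (hc : |c| < H) :
    dg H Z = c ∧ qt H Z = r := by
  have h1 := abs_lt.1 hc
  have e : Z + H = (c + H) + (2 * H : ℕ) * r := by push_cast; linarith
  have l0 : 0 ≤ c + H := by linarith
  have l1 : c + H < (2 * H : ℕ) := by push_cast; linarith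
  constructor
  · rw [dg, e, Int.add_mul_emod_self_left, Int.emod_eq_of_lt l0 l1, add_sub_cancel_right]
  · rw [qt, e, Int.add_mul_ediv_left _ _ (by omega), Int.ediv_eq_zero_of_lt l0 l1, zero_add]

lemma hv_int {V : Type} {ev : V → ℝ} (h : ∀ v, ∃ n : ℤ, ev v = n) (H : ℕ) :
    ∀ l : List V, ∃ n : ℤ, hv ev (2 * H) l = n
  | [] => ⟨0, by simp [hv]⟩
  | c :: l => by
    obtain ⟨a, ha⟩ := h c
    obtain ⟨b, hb⟩ := hv_int h H l
    exact ⟨a + 2 * H * b, by rw [hv, ha, hb]; push_cast; rfl⟩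

lemma hv_abs {y : ℝ} (hy : 0 ≤ y) :
    ∀ l : List ℤ, |hv (fun c : ℤ => (c : ℝ)) y l| ≤ hv (fun c : ℤ => |(c : ℝ)|) y l
  | [] => by simp [hv]
  | c :: l => by
    refine (abs_add_le _ _).trans ?_
    rw [abs_mul, abs_of_nonneg hy, hv]
    linarith [mul_le_mul_of_nonneg_left (hv_abs hy l) hy]

/-- an integer that codes a polynomial in one variable -/
def D1 (y : ℝ) (Z : ℤ) (r : ℝ) : Prop := ∃ l : List ℤ,
  (Z : ℝ) = hv (fun c : ℤ => (c : ℝ)) (2 * HS) l ∧ hv (fun c : ℤ => |(c : ℝ)|) 1 l < HS ∧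
    r = hv (fun c : ℤ => (c : ℝ)) y l

lemma D1.cons {c : ℤ} {l : List ℤ} {Z : ℤ}
    (h1 : (Z : ℝ) = hv (fun c : ℤ => (c : ℝ)) (2 * HS) (c :: l))
    (h2 : hv (fun c : ℤ => |(c : ℝ)|) 1 (c :: l) < HS) :
    dg HS Z = c ∧ (qt HS Z : ℝ) = hv (fun c : ℤ => (c : ℝ)) (2 * HS) l ∧
      hv (fun c : ℤ => |(c : ℝ)|) 1 l < HS := by
  obtain ⟨b, hb⟩ := hv_int (ev := fun c : ℤ => (c : ℝ)) (fun v => ⟨v, rfl⟩) HS l
  have n := hv_nonneg (ev := fun c : ℤ => |(c : ℝ)|) zero_le_one (fun _ => abs_nonneg _) l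
  rw [hv, hb] at h1
  rw [hv] at h2
  have a0 := abs_nonneg (c : ℝ)
  obtain ⟨e1, e2⟩ := digit (H := HS) (Z := Z) (c := c) (r := b) (by exact_mod_cast h1)
    (by have : |(c : ℝ)| < HS := by linarith
        exact_mod_cast this)
  exact ⟨e1, by rw [e2, hb], by linarith⟩

lemma D1.step {y r : ℝ} {Z : ℤ} (h : D1 y Z r) : ∃ r', D1 y (qt HS Z) r' ∧ r = dg HS Z + y * r' := by
  obtain ⟨_ | ⟨c, l⟩, h1, h2, h3⟩ := h
  · obtain ⟨e1, e2⟩ := digit (H := HS) (Z := Z) (c := 0) (r := 0)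
      (by simpa [hv] using h1) (by simpa using HS_pos)
    exact ⟨0, ⟨[], by simp [e2, hv], h2, rfl⟩, by simp [e1, h3, hv]⟩
  · obtain ⟨e1, e2, e3⟩ := D1.cons h1 h2
    exact ⟨_, ⟨l, e2, e3, rfl⟩, by rw [e1, h3, hv]⟩

lemma D1.zero {y r : ℝ} (h : D1 y 0 r) : r = 0 := by
  obtain ⟨l, h1, h2, rfl⟩ := h
  induction l with
  | nil => rfl
  | cons c l ih =>
    obtain ⟨e1, e2, e3⟩ := D1.cons h1 h2
    obtain ⟨f1, f2⟩ := digit (H := HS) (Z := 0) (c := 0) (r := 0) (by simp) (by simpa using HS_pos)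
    rw [f2] at e2
    rw [hv, ih e2 e3, ← e1, f1]
    simp

lemma D2.cons {c : List ℤ} {p : List (List ℤ)} {Z : ℤ}
    (h1 : (Z : ℝ) = v2 (2 * HX) (2 * HS) (c :: p)) (h2 : av 1 (c :: p) ≤ (HS - 1 : ℕ))
    (h3 : av (2 * HS) (c :: p) ≤ (HX - 1 : ℕ)) (y : ℝ) :
    D1 y (dg HX Z) (hv (fun c : ℤ => (c : ℝ)) y c) ∧ (qt HX Z : ℝ) = v2 (2 * HX) (2 * HS) p ∧
      av 1 p ≤ (HS - 1 : ℕ) ∧ av (2 * HS) p ≤ (HX - 1 : ℕ) := by
  have I := hv_int (ev := fun c : ℤ => (c : ℝ)) (fun v => ⟨v, rfl⟩) HS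
  obtain ⟨a, ha⟩ := I c
  obtain ⟨b, hb⟩ := hv_int I HX p
  have s0 : (0 : ℝ) ≤ 2 * HS := by positivity
  have n1 := av_nonneg zero_le_one p
  have n2 := av_nonneg s0 p
  have n3 := hv_nonneg (ev := fun c : ℤ => |(c : ℝ)|) zero_le_one (fun _ => abs_nonneg _) c
  have n4 := hv_nonneg (ev := fun c : ℤ => |(c : ℝ)|) s0 (fun _ => abs_nonneg _) c
  have n5 := hv_abs s0 c
  rw [Nat.cast_pred HS_pos] at h2 ⊢
  rw [Nat.cast_pred HX_pos] at h3 ⊢
  unfold av at h2 h3 n1 n2 ⊢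
  unfold v2 at h1 ⊢
  rw [hv, ha, hb] at h1
  rw [hv] at h2 h3
  rw [ha] at n5
  obtain ⟨e1, e2⟩ := digit (H := HX) (Z := Z) (c := a) (r := b) (by exact_mod_cast h1)
    (by have : |(a : ℝ)| < HX := by linarith
        exact_mod_cast this)
  exact ⟨⟨c, by rw [e1, ha], by linarith, rfl⟩, by rw [e2, hb], by linarith, by linarith⟩

lemma D2.step {x y r : ℝ} {Z : ℤ} (h : D2 x y Z (HS - 1) (HX - 1) r) :
    ∃ r0 r', D1 y (dg HX Z) r0 ∧ D2 x y (qt HX Z) (HS - 1) (HX - 1) r' ∧ r = r0 + x * r' := by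
  obtain ⟨_ | ⟨c, l⟩, h1, h2, h3, h4⟩ := h
  · obtain ⟨e1, e2⟩ := digit (H := HX) (Z := Z) (c := 0) (r := 0)
      (by simpa [v2, hv] using h1) (by simpa using HX_pos)
    exact ⟨0, 0, ⟨[], by simp [e1, hv], by simpa [hv] using HS_pos, rfl⟩,
      ⟨[], by simp [e2, v2, hv], h2, h3, rfl⟩, by simp [h4, v2, hv]⟩
  · obtain ⟨e1, e2, e3, e4⟩ := D2.cons h1 h2 h3 y
    exact ⟨_, _, e1, ⟨l, e2, e3, e4, rfl⟩, h4⟩

lemma D2.zero {x y r : ℝ} (h : D2 x y 0 (HS - 1) (HX - 1) r) : r = 0 := by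
  obtain ⟨l, h1, h2, h3, rfl⟩ := h
  induction l with
  | nil => rfl
  | cons c l ih =>
    obtain ⟨e1, e2, e3, e4⟩ := D2.cons h1 h2 h3 y
    obtain ⟨f1, f2⟩ := digit (H := HX) (Z := 0) (c := 0) (r := 0) (by simp) (by simpa using HX_pos)
    rw [f2] at e2
    rw [f1] at e1
    have := ih e2 e3 e4
    unfold v2 at this ⊢
    rw [hv, this, e1.zero]
    simp

/-- entrywise relation -/
def M4.Rel {R S : Type} (p : R → S → Prop) (M : M4 R) (N : M4 S) : Prop :=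
  p M.m00 N.m00 ∧ p M.m01 N.m01 ∧ p M.m02 N.m02 ∧ p M.m03 N.m03 ∧ p M.m11 N.m11 ∧ p M.m12 N.m12 ∧
    p M.m13 N.m13 ∧ p M.m22 N.m22 ∧ p M.m23 N.m23 ∧ p M.m33 N.m33

instance {R S : Type} (p : R → S → Prop) [∀ a b, Decidable (p a b)] (M : M4 R) (N : M4 S) :
    Decidable (M4.Rel p M N) := by unfold M4.Rel; infer_instance

/-- all entries vanish -/
def isz (M : M4 ℤ) : Bool := decide (M.m00 = 0 ∧ M.m01 = 0 ∧ M.m02 = 0 ∧ M.m03 = 0 ∧ M.m11 = 0 ∧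
  M.m12 = 0 ∧ M.m13 = 0 ∧ M.m22 = 0 ∧ M.m23 = 0 ∧ M.m33 = 0)

/-- inner test -/
def ck1 : ℕ → M4 ℤ → Bool
  | 0, M => isz M
  | m + 1, M => psd4 (M.map (dg HS)) && ck1 m (M.map (qt HS))

/-- outer test -/
def ck2 (m : ℕ) : ℕ → M4 ℤ → Bool
  | 0, M => isz M
  | n + 1, M => ck1 m (M.map (dg HX)) && ck2 m n (M.map (qt HX))

lemma ck1_ok {y : ℝ} (hy : 0 ≤ y) (p q r s : ℝ) : ∀ (m : ℕ) (M : M4 ℤ) (N : M4 ℝ),
    ck1 m M = true → M4.Rel (D1 y) M N → 0 ≤ qf N p q r s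
  | 0, M, N, h, ⟨h0, h1, h2, h3, h4, h5, h6, h7, h8, h9⟩ => by
    obtain ⟨k0, k1, k2, k3, k4, k5, k6, k7, k8, k9⟩ := of_decide_eq_true h
    simp [qf, (k0 ▸ h0).zero, (k1 ▸ h1).zero, (k2 ▸ h2).zero, (k3 ▸ h3).zero, (k4 ▸ h4).zero,
      (k5 ▸ h5).zero, (k6 ▸ h6).zero, (k7 ▸ h7).zero, (k8 ▸ h8).zero, (k9 ▸ h9).zero]
  | m + 1, M, N, h, ⟨h0, h1, h2, h3, h4, h5, h6, h7, h8, h9⟩ => by
    simp only [ck1, Bool.and_eq_true] at h
    obtain ⟨r0, a0, b0⟩ := h0.step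
    obtain ⟨r1, a1, b1⟩ := h1.step
    obtain ⟨r2, a2, b2⟩ := h2.step
    obtain ⟨r3, a3, b3⟩ := h3.step
    obtain ⟨r4, a4, b4⟩ := h4.step
    obtain ⟨r5, a5, b5⟩ := h5.step
    obtain ⟨r6, a6, b6⟩ := h6.step
    obtain ⟨r7, a7, b7⟩ := h7.step
    obtain ⟨r8, a8, b8⟩ := h8.step
    obtain ⟨r9, a9, b9⟩ := h9.step
    have i1 := psd4_ok h.1 p q r s
    have i2 := ck1_ok hy p q r s m _ ⟨r0, r1, r2, r3, r4, r5, r6, r7, r8, r9⟩ h.2
      ⟨a0, a1, a2, a3, a4, a5, a6, a7, a8, a9⟩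
    refine (add_nonneg i1 (mul_nonneg hy i2)).trans_eq ?_
    simp only [e0, qf, M4.map, b0, b1, b2, b3, b4, b5, b6, b7, b8, b9]
    ring

lemma ck2_ok {x y : ℝ} (hx : 0 ≤ x) (hy : 0 ≤ y) (p q r s : ℝ) (m : ℕ) :
    ∀ (n : ℕ) (M : M4 ℤ) (N : M4 ℝ), ck2 m n M = true →
      M4.Rel (fun Z => D2 x y Z (HS - 1) (HX - 1)) M N → 0 ≤ qf N p q r s
  | 0, M, N, h, ⟨h0, h1, h2, h3, h4, h5, h6, h7, h8, h9⟩ => by
    obtain ⟨k0, k1, k2, k3, k4, k5, k6, k7, k8, k9⟩ := of_decide_eq_true h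
    simp [qf, (k0 ▸ h0).zero, (k1 ▸ h1).zero, (k2 ▸ h2).zero, (k3 ▸ h3).zero, (k4 ▸ h4).zero,
      (k5 ▸ h5).zero, (k6 ▸ h6).zero, (k7 ▸ h7).zero, (k8 ▸ h8).zero, (k9 ▸ h9).zero]
  | n + 1, M, N, h, ⟨h0, h1, h2, h3, h4, h5, h6, h7, h8, h9⟩ => by
    simp only [ck2, Bool.and_eq_true] at h
    obtain ⟨t0, r0, c0, a0, b0⟩ := h0.step
    obtain ⟨t1, r1, c1, a1, b1⟩ := h1.step
    obtain ⟨t2, r2, c2, a2, b2⟩ := h2.step
    obtain ⟨t3, r3, c3, a3, b3⟩ := h3.step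
    obtain ⟨t4, r4, c4, a4, b4⟩ := h4.step
    obtain ⟨t5, r5, c5, a5, b5⟩ := h5.step
    obtain ⟨t6, r6, c6, a6, b6⟩ := h6.step
    obtain ⟨t7, r7, c7, a7, b7⟩ := h7.step
    obtain ⟨t8, r8, c8, a8, b8⟩ := h8.step
    obtain ⟨t9, r9, c9, a9, b9⟩ := h9.step
    have i1 := ck1_ok hy p q r s m _ ⟨t0, t1, t2, t3, t4, t5, t6, t7, t8, t9⟩ h.1
      ⟨c0, c1, c2, c3, c4, c5, c6, c7, c8, c9⟩
    have i2 := ck2_ok hx hy p q r s m n _ ⟨r0, r1, r2, r3, r4, r5, r6, r7, r8, r9⟩ h.2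
      ⟨a0, a1, a2, a3, a4, a5, a6, a7, a8, a9⟩
    refine (add_nonneg i1 (mul_nonneg hx i2)).trans_eq ?_
    simp only [qf, b0, b1, b2, b3, b4, b5, b6, b7, b8, b9]
    ring

/-- coded rational functions -/
structure KQ where
  Z : ℤ
  (B A i j k : ℕ)

/-- the denominator -/
noncomputable def den (x y : ℝ) (i j k : ℕ) : ℝ := (1 + x) ^ i * (1 + y) ^ j * (DD : ℝ) ^ k

/-- what a code stands for -/
def Rep (x y : ℝ) (q : KQ) (r : ℝ) : Prop := D2 x y q.Z q.B q.A (r * den x y q.i q.j q.k)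

/-- change of denominator -/
def up (i j k : ℕ) (q : KQ) : KQ :=
  ⟨q.Z * ((1 + 2 * HX) ^ (i - q.i) * (1 + 2 * HS) ^ (j - q.j) * 708750 ^ (k - q.k) : ℕ),
    q.B * (2 ^ (i - q.i) * 2 ^ (j - q.j) * 708750 ^ (k - q.k)),
    q.A * (2 ^ (i - q.i) * (1 + 2 * HS) ^ (j - q.j) * 708750 ^ (k - q.k)), i, j, k⟩

lemma Rep.up {x y r : ℝ} {q : KQ} (h : Rep x y q r) {i j k : ℕ} (hi : q.i ≤ i) (hj : q.j ≤ j)
    (hk : q.k ≤ k) : Rep x y (up i j k q) r := by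
  have h1 := h.mul (((((D2.const x y 1).add (D2.X x y)).pow (i - q.i)).mul
    (((D2.const x y 1).add (D2.Y x y)).pow (j - q.j))).mul ((D2.const x y DD).pow (k - q.k)))
  obtain ⟨a, rfl⟩ := Nat.exists_eq_add_of_le hi
  obtain ⟨b, rfl⟩ := Nat.exists_eq_add_of_le hj
  obtain ⟨c, rfl⟩ := Nat.exists_eq_add_of_le hk
  unfold Rep Rf.up den at *
  simp only [Nat.add_sub_cancel_left] at h1 ⊢
  convert h1 using 1
  · simp [DD]
  · simp [DD]
  · simp [DD]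
  · push_cast
    ring

/-- sum with equal denominators -/
def KQ.ad (q r : KQ) : KQ := ⟨q.Z + r.Z, q.B + r.B, q.A + r.A, q.i, q.j, q.k⟩

instance : Add KQ := ⟨fun q r => (up (max q.i r.i) (max q.j r.j) (max q.k r.k) q).ad
  (up (max q.i r.i) (max q.j r.j) (max q.k r.k) r)⟩
instance : Mul KQ :=
  ⟨fun q r => ⟨q.Z * r.Z, q.B * r.B, q.A * r.A, q.i + r.i, q.j + r.j, q.k + r.k⟩⟩
instance : Neg KQ := ⟨fun q => ⟨-q.Z, q.B, q.A, q.i, q.j, q.k⟩⟩

lemma Rep.add {x y r r' : ℝ} {q q' : KQ} (h : Rep x y q r) (h' : Rep x y q' r') :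
    Rep x y (q + q') (r + r') := by
  have := D2.add (h.up (le_max_left _ q'.i) (le_max_left _ q'.j) (le_max_left _ q'.k))
    (h'.up (le_max_right q.i _) (le_max_right q.j _) (le_max_right q.k _))
  unfold Rep
  rw [add_mul]
  exact this

lemma Rep.mul {x y r r' : ℝ} {q q' : KQ} (h : Rep x y q r) (h' : Rep x y q' r') :
    Rep x y (q * q') (r * r') := by
  have := D2.mul h h'
  show D2 x y (q.Z * q'.Z) (q.B * q'.B) (q.A * q'.A)
    (r * r' * den x y (q.i + q'.i) (q.j + q'.j) (q.k + q'.k))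
  convert this using 1
  unfold den
  ring

lemma Rep.neg {x y r : ℝ} {q : KQ} (h : Rep x y q r) : Rep x y (-q) (-r) := by
  have := D2.mul (D2.const x y (-1)) h
  show D2 x y (-q.Z) q.B q.A (-r * den x y q.i q.j q.k)
  simpa using this

/-- the test for a form with coded entries -/
def chkM (i j k : ℕ) (M : M4 KQ) : Bool :=
  decide (M4.Rel (fun q q' : KQ => q.i ≤ i ∧ q.j ≤ j ∧ q.k ≤ k ∧ q'.B ≤ HS - 1 ∧ q'.A ≤ HX - 1) M
    (M.map (up i j k))) && ck2 (j + 1) (i + 1) (M.map fun q => (up i j k q).Z)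

theorem chkM_ok {i j k : ℕ} {M : M4 KQ} (h : chkM i j k M = true) {x y : ℝ} (x0 : 0 ≤ x)
    (y0 : 0 ≤ y) {N : M4 ℝ} (hN : M4.Rel (Rep x y) M N) (p q r s : ℝ) : 0 ≤ qf N p q r s := by
  simp only [chkM, Bool.and_eq_true, decide_eq_true_eq] at h
  obtain ⟨⟨k0, k1, k2, k3, k4, k5, k6, k7, k8, k9⟩, h⟩ := h
  obtain ⟨h0, h1, h2, h3, h4, h5, h6, h7, h8, h9⟩ := hN
  have A : ∀ {u : KQ} {v : ℝ}, Rep x y u v → (u.i ≤ i ∧ u.j ≤ j ∧ u.k ≤ k ∧
      (up i j k u).B ≤ HS - 1 ∧ (up i j k u).A ≤ HX - 1) →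
      D2 x y (up i j k u).Z (HS - 1) (HX - 1) (v * den x y i j k) :=
    fun a b => D2.mono (a.up b.1 b.2.1 b.2.2.1) b.2.2.2.1 b.2.2.2.2
  have := ck2_ok x0 y0 p q r s _ _ _ (N.map (· * den x y i j k)) h
    ⟨A h0 k0, A h1 k1, A h2 k2, A h3 k3, A h4 k4, A h5 k5, A h6 k6, A h7 k7, A h8 k8, A h9 k9⟩
  have d0 : 0 < den x y i j k := by
    have := DD_pos
    unfold den
    positivity
  refine nonneg_of_mul_nonneg_right (a := den x y i j k) (this.trans_eq ?_) d0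
  simp only [qf, M4.map]
  ring

end Pool.Agent.P.MP_bdc337_an.SI.Rf
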