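import Pool.Agent.P.MP_bdc337_an.SI.P5a
import Pool.Agent.P.MP_bdc337_an.SI.P5b

/-! The sixth coefficient. -/

set_option autoImplicit false

open Finset PowerSeries Metric

namespace Pool.Agent.P.MP_bdc337_an.SI

variable {a : ℝ} {w : ℂ⟦X⟧}

lemma mix_le {θ k : ℝ} (h0 : 0 ≤ θ) (h1 : θ ≤ 1) : 1 + θ * (k - 1) ≤ max 1 k := by
  have a1 := le_max_left 1 k
  have a2 := le_max_right 1 k
  nlinarith

theorem bound5 (h0 : 0 < a) (h1 : a ≤ 1) (hw : Contr w) {F : ℂ⟦X⟧} (hF0 : coeff 0 F = 1)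
    (hF : X * d⁄dX ℂ F = (2 * C (a : ℂ) * KK a w) * F) :
    ‖coeff 5 (KK a w * F)‖ ≤ max 1 (1 / 5 + 4 * a ^ 2 + 54 * a ^ 4 / 5) := by
  have x1 := w1_le hw
  have x0 := norm_nonneg (coeff 1 w)
  rcases le_total a (1 / 3) with c1 | c1
  · exact (large h0 c1 hw hF0 hF le_rfl).trans (le_max_left _ _)
  rcases le_total a (2 / 5) with c2 | c2
  · obtain ⟨s, rfl⟩ : ∃ s : ℝ, a = 1 / 3 + s / 15 := ⟨15 * a - 5, by ring⟩
    have s0 : 0 ≤ s := by linarith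
    have s1 : s ≤ 1 := by linarith
    refine (core5 hw hF0 hF rfl ?_ ?_ ?_ ?_ ?_ ?_ le_rfl ?_ ?_ ?_ ?_ (a_1 x0 x1 s0 s1)
      (a_2 x0 x1 s0 s1) (a_3 x0 x1 s0 s1) (a_4 x0 x1 s0 s1)).trans ?_
    · unfold aA aB; ring
    · unfold aP aR; ring
    · unfold aS aA aB aQ; ring
    · unfold ar2 aA aB aP aR; ring
    · unfold ar1 aA aB aP aR aQ aS; ring
    · unfold ar0 aQ aS; ring
    · linarith [a_r x0 x1 s0 s1]
    · exact sub_nonneg.1 (a_c x0 x1 s0 s1)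
    · linarith [a_n x0 x1 s0 s1]
    · linarith [a_q x0 x1 s0 s1]
    · generalize ‖coeff 1 w‖ = x at *
      have e : ak s = 1 / 5 + 4 * (1 / 3 + s / 15) ^ 2 + 54 * (1 / 3 + s / 15) ^ 4 / 5 - 1 := by
        unfold ak; ring
      have x2 : x ^ 2 ≤ 1 := pow_le_one₀ x0 x1
      have s2 : s ^ 2 ≤ 1 := pow_le_one₀ s0 s1
      have x4 : 0 ≤ x ^ 2 - x ^ 4 := by nlinarith [sq_nonneg x]
      unfold aT
      rw [e]
      exact mix_le (by positivity) (by nlinarith)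
  · obtain ⟨s, rfl⟩ : ∃ s : ℝ, a = 2 / 5 + 3 * s / 5 := ⟨(5 * a - 2) / 3, by ring⟩
    have s0 : 0 ≤ s := by linarith
    have s1 : s ≤ 1 := by linarith
    refine (core5 hw hF0 hF rfl ?_ ?_ ?_ ?_ ?_ ?_ ?_ ?_ ?_ ?_ ?_ (b_1 x0 x1 s0 s1)
      (b_2 x0 x1 s0 s1) (b_3 x0 x1 s0 s1) (b_4 x0 x1 s0 s1)).trans ?_
    · unfold bA bB; ring
    · unfold bP bR; ring
    · unfold bS bA bB bQ; ring
    · unfold br2 bA bB bP bR; ring
    · unfold br1 bA bB bP bR bQ bS; ring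
    · unfold br0 bQ bS; ring
    · unfold bh; positivity
    · linarith [b_r x0 x1 s0 s1]
    · exact sub_nonneg.1 (b_c x0 x1 s0 s1)
    · linarith [b_n x0 x1 s0 s1]
    · linarith [b_q x0 x1 s0 s1]
    · refine le_trans (le_of_eq ?_) (le_max_right _ _)
      unfold bT bk; ring

theorem upper6 (h0 : 0 < a) (h1 : a ≤ 1) {f : ℂ → ℂ} (hf : Star a f) :
    ‖coeff 6 (tay f)‖ ≤ max (2 * a / 5) (2 * a * (1 + 20 * a ^ 2 + 54 * a ^ 4) / 25) := by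
  obtain ⟨W, F, hW, hR⟩ := rep_up h0 h1 hf
  have b := bound5 h0 h1 hW hR.1 hR.2.1
  have e := hR.coeff (N := 5) (by norm_num)
  rw [show (5 : ℕ) + 1 = 6 from rfl] at e
  rw [e, norm_real_mul (by positivity)]
  refine (mul_le_mul_of_nonneg_left b (by positivity)).trans_eq ?_
  rw [mul_max_of_nonneg _ _ (by positivity)]
  push_cast
  congr 1 <;> ring

theorem koebe6 (h0 : 0 < a) (h1 : a ≤ 1) : ∃ f, Star a f ∧
    ‖coeff 6 (tay f)‖ = 2 * a * (1 + 20 * a ^ 2 + 54 * a ^ 4) / 25 := by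
  obtain ⟨f, F, hf, hR⟩ := rep_low h0 h1 (w := fun z => z) differentiableOn_id rfl
    (fun z hz => mem_ball_zero_iff.1 hz)
  refine ⟨f, hf, ?_⟩
  rw [tay_id] at hR
  have e := hR.coeff (N := 5) (by norm_num)
  rw [show (5 : ℕ) + 1 = 6 from rfl, V5 a (by simp) hR.1 hR.2.1] at e
  have e2 : coeff 6 (tay f) = ((2 * a * (1 + 20 * a ^ 2 + 54 * a ^ 4) / 25 : ℝ) : ℂ) := by
    rw [e]
    simp only [coeff_X]
    push_cast
    ring
  rw [e2, Complex.norm_real, Real.norm_of_nonneg (by positivity)]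

theorem six (h0 : 0 < a) (h1 : a ≤ 1) :
    IsGreatest {x : ℝ | ∃ f : ℂ → ℂ, Star a f ∧ x = ‖coeff 6 (tay f)‖}
      (max (2 * a / 5) (2 * a * (1 + 20 * a ^ 2 + 54 * a ^ 4) / 25)) := by
  constructor
  · rcases le_total (2 * a / 5) (2 * a * (1 + 20 * a ^ 2 + 54 * a ^ 4) / 25) with h | h
    · obtain ⟨f, hf, e⟩ := koebe6 h0 h1
      exact ⟨f, hf, by rw [max_eq_right h, e]⟩
    · obtain ⟨f, a1, a2, a3, a4, a5, a6⟩ := extremal h0 h1 (N := 5) (by norm_num)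
      refine ⟨f, ⟨a1, a2, a3, a4, a5⟩, ?_⟩
      rw [max_eq_left h, a6, Complex.norm_real, Real.norm_of_nonneg (by positivity)]
      norm_num
  · rintro x ⟨f, hf, rfl⟩
    exact upper6 h0 h1 hf

end Pool.Agent.P.MP_bdc337_an.SI
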