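import Pool.Agent.P.MP_bdc337_an.SI.Cert9a
import Pool.Agent.P.MP_bdc337_an.SI.Cert9b
import Pool.Agent.P.MP_bdc337_an.SI.Cert9c
import Pool.Agent.P.MP_bdc337_an.SI.Cert9d
import Pool.Agent.P.MP_bdc337_an.SI.Seven

/-! The tenth coefficient. -/

set_option autoImplicit false

open Finset PowerSeries Metric

namespace Pool.Agent.P.MP_bdc337_an.SI

open Rf

variable {a : ℝ} {w : ℂ⟦X⟧}

theorem good9 (h0 : 1 / 3 ≤ a) (h1 : a < 1) {x : ℝ} (x0 : 0 ≤ x) (x1 : x ≤ 1) : Good9 a x := by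
  have a0 : 236250 ≤ 708750 * a := by linarith
  have a1 : 708750 * a < 708750 := by linarith
  have d : 708750 * x ≤ 708750 := by linarith
  have d0 : 0 ≤ 708750 * x := by linarith
  rcases le_or_gt 425250 (708750 * a) with e0 | e0
  · rcases lt_or_ge (708750 * x) 425250 with c | c
    · exact b9E_ok d0 c e0 a1
    · exact b9J_ok (by linarith) d e0 a1
  rcases lt_or_ge (708750 * x) 425250 with c | c
  · rcases lt_or_ge (708750 * a) 297675 with e1 | e1 <;>
      rcases lt_or_ge (708750 * x) 212625 with c1 | c1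
    · exact b9A_ok d0 c1 a0 e1
    · exact b9A2_ok c1 c a0 e1
    · exact b9D_ok d0 c1 e1 e0
    · exact b9D2_ok c1 c e1 e0
  rcases le_or_gt 318937 (708750 * a) with e1 | e1
  · rcases lt_or_ge (708750 * x) 616612 with c1 | c1
    · exact b9F2_ok c c1 e1 e0
    · exact b9F_ok (by linarith) d e1 e0
  rcases lt_or_ge (708750 * x) 616612 with c1 | c1
  · rcases lt_or_ge (708750 * a) 295364 with e2 | e2 <;>
      rcases lt_or_ge (708750 * x) 531562 with c2 | c2
    · exact b9I0_ok c c2 a0 e2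
    · exact b9I2_ok c2 c1 a0 e2
    · exact b9I1_ok c c2 e2 e1
    · exact b9I3_ok c2 c1 e2 e1
  rcases lt_or_ge (708750 * a) 287043 with e2 | e2
  · exact b9C_ok (by linarith) d a0 e2
  rcases lt_or_ge (708750 * x) 666225 with c2 | c2
  · rcases lt_or_ge (708750 * a) 295364 with e3 | e3
    · exact b9H0_ok c1 c2 e2 e3
    rcases lt_or_ge (708750 * a) 304762 with e4 | e4
    · exact b9H1_ok c1 c2 e3 e4
    · exact b9H2_ok c1 c2 e4 e1
  rcases lt_or_ge (708750 * a) 293422 with e3 | e3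
  · exact b9C2_ok (by linarith) d e2 e3
  · exact b9G_ok (by linarith) d e3 e1

theorem bound9 (h0 : 0 < a) (h1 : a < 1) (hw : Contr w) {F : ℂ⟦X⟧} (hF0 : coeff 0 F = 1)
    (hF : X * d⁄dX ℂ F = (2 * C (a : ℂ) * KK a w) * F) :
    ‖coeff 9 (KK a w * F)‖ ≤ max 1 (r9 a) := by
  rcases le_total a (1 / 3) with c1 | c1
  · exact (large h0 c1 hw hF0 hF (by norm_num)).trans (le_max_left _ _)
  obtain ⟨μ, v, hμ, hv, e, e1⟩ := rotate hw
  have := good9 c1 h1 (norm_nonneg _) (w1_le hw) v hv e1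
  simp only [e] at this
  rwa [Phi9_rot, norm_mul, norm_pow, hμ, one_pow, one_mul, ← V9 a hw.1 hF0 hF] at this

/-- the tenth coefficient for one atom -/
noncomputable def E10 (a : ℝ) : ℝ :=
  2 * a * (33075 + 752984 * a ^ 2 + 3333666 * a ^ 4 + 5737956 * a ^ 6 + 3537694 * a ^ 8) / 2679075

lemma E10_eq (a : ℝ) : 2 * a / 9 * r9 a = E10 a := by
  simp only [E10, r9, qR]
  push_cast
  ring

theorem upper10 (h0 : 0 < a) (h1 : a < 1) {f : ℂ → ℂ} (hf : Star a f) :
    ‖coeff 10 (tay f)‖ ≤ max (2 * a / 9) (E10 a) := by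
  obtain ⟨W, F, hW, hR⟩ := rep_up h0 h1.le hf
  have b := bound9 h0 h1 hW hR.1 hR.2.1
  have e := hR.coeff (N := 9) (by norm_num)
  rw [show (9 : ℕ) + 1 = 10 from rfl] at e
  rw [e, norm_real_mul (by positivity)]
  refine (mul_le_mul_of_nonneg_left b (by positivity)).trans_eq ?_
  rw [mul_max_of_nonneg _ _ (by positivity), ← E10_eq]
  generalize r9 a = k
  push_cast
  congr 1 <;> ring

theorem koebe10 (h0 : 0 < a) (h1 : a ≤ 1) : ∃ f, Star a f ∧ ‖coeff 10 (tay f)‖ = E10 a := by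
  obtain ⟨f, F, hf, hR⟩ := rep_low h0 h1 (w := fun z => z) differentiableOn_id rfl
    (fun z hz => mem_ball_zero_iff.1 hz)
  refine ⟨f, hf, ?_⟩
  rw [tay_id] at hR
  have e := hR.coeff (N := 9) (by norm_num)
  rw [show (9 : ℕ) + 1 = 10 from rfl, V9 a (by simp) hR.1 hR.2.1] at e
  have e2 : coeff 10 (tay f) = ((E10 a : ℝ) : ℂ) := by
    rw [e]
    simp only [coeff_X, Phi9, E10]
    push_cast
    ring
  rw [e2, Complex.norm_real, Real.norm_of_nonneg (by unfold E10; positivity)]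

theorem ten (h0 : 0 < a) (h1 : a < 1) :
    IsGreatest {x : ℝ | ∃ f : ℂ → ℂ, Star a f ∧ x = ‖coeff 10 (tay f)‖}
      (max (2 * a / 9) (E10 a)) := by
  constructor
  · rcases le_total (2 * a / 9) (E10 a) with h | h
    · obtain ⟨f, hf, e⟩ := koebe10 h0 h1.le
      exact ⟨f, hf, by rw [max_eq_right h, e]⟩
    · obtain ⟨f, hf, e⟩ := rot_mem h0 h1.le (N := 9) (by norm_num)
      exact ⟨f, hf, by rw [max_eq_left h, ← e]; push_cast; ring⟩
  · rintro x ⟨f, hf, rfl⟩
    exact upper10 h0 h1 hf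

end Pool.Agent.P.MP_bdc337_an.SI
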